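import Pool.Agent.Saddle.P2

/-!
# Kernel checks for the main inequality, cells 48 to 95, positive side
-/

set_option autoImplicit false
set_option linter.all false
set_option maxRecDepth 100000

namespace Pool.Agent.Saddle

namespace PM

theorem kp48 : Eng.listOK2 808 9 45 0 (prog (.p 13) (.m 1) (.p 1) (.m 1) (.m 6) 11 10 6) 6 true Eng.T48
    9 0 [21] = true := by decide +kernel

theorem kp49 : Eng.listOK2 808 9 45 0 (prog (.p 27) (.m 1) (.p 1) (.m 1) (.m 6) 12 10 6) 6 true Eng.T49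
    9 0 [21] = true := by decide +kernel

theorem kp50 : Eng.listOK2 808 9 45 0 (prog (.p 27) (.m 1) (.p 1) (.m 1) (.m 6) 12 10 6) 6 true Eng.T50
    7 0 [5] = true := by decide +kernel

theorem kp51 : Eng.listOK2 744 9 39 0 (prog (.p 7) (.m 1) (.p 1) (.m 1) (.m 6) 10 10 6) 6 true Eng.T51
    7 0 [5] = true := by decide +kernel

theorem kp52 : Eng.listOK2 744 9 39 0 (prog (.p 7) (.m 1) (.p 1) (.m 1) (.m 6) 10 10 6) 6 true Eng.T52
    7 0 [5] = true := by decide +kernel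

theorem kp53 : Eng.listOK2 744 9 39 0 (prog (.p 29) (.m 1) (.p 1) (.m 1) (.m 6) 12 10 6) 6 true Eng.T53
    9 0 [19] = true := by decide +kernel

theorem kp54 : Eng.listOK2 744 9 39 0 (prog (.p 29) (.m 1) (.p 1) (.m 1) (.m 6) 12 10 6) 6 true Eng.T54
    9 0 [19] = true := by decide +kernel

theorem kp55 : Eng.listOK2 744 9 39 0 (prog (.p 15) (.m 1) (.p 1) (.m 1) (.m 6) 11 10 6) 6 true Eng.T55
    9 0 [19] = true := by decide +kernel

theorem kp56 : Eng.listOK2 744 9 39 0 (prog (.p 15) (.m 1) (.p 1) (.m 1) (.m 6) 11 10 6) 6 true Eng.T56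
    8 0 [9] = true := by decide +kernel

theorem kp57 : Eng.listOK2 744 9 39 0 (prog (.p 31) (.m 1) (.p 1) (.m 1) (.m 6) 12 10 6) 6 true Eng.T57
    8 0 [9] = true := by decide +kernel

theorem kp58 : Eng.listOK2 744 9 39 0 (prog (.p 31) (.m 1) (.p 1) (.m 1) (.m 6) 12 10 6) 6 true Eng.T58
    8 0 [9] = true := by decide +kernel

theorem kp59 : Eng.listOK2 744 9 39 0 (prog (.p 1) (.m 1) (.p 1) (.m 1) (.m 6) 7 10 6) 6 true Eng.T59
    9 0 [17] = true := by decide +kernel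

theorem kp60 : Eng.listOK2 744 9 39 0 (prog (.p 1) (.m 1) (.p 1) (.m 1) (.m 6) 7 10 6) 6 true Eng.T60
    9 0 [17] = true := by decide +kernel

theorem kp61 : Eng.listOK2 744 9 39 0 (prog (.p 33) (.m 1) (.p 1) (.m 1) (.m 6) 12 10 6) 6 true Eng.T61
    9 0 [17] = true := by decide +kernel

theorem kp62 : Eng.listOK2 744 9 39 0 (prog (.p 33) (.m 1) (.p 1) (.m 1) (.m 6) 12 10 6) 6 true Eng.T62
    9 0 [17] = true := by decide +kernel

theorem kp63 : Eng.listOK2 744 9 39 0 (prog (.p 17) (.m 1) (.p 1) (.m 1) (.m 6) 11 10 6) 6 true Eng.T63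
    5 0 [1] = true := by decide +kernel

theorem kp64 : Eng.listOK2 744 9 43 0 (prog (.p 35) (.m 1) (.p 1) (.m 1) (.m 6) 12 10 6) 6 true Eng.T64
    5 0 [1] = true := by decide +kernel

theorem kp65 : Eng.listOK2 744 9 43 0 (prog (.p 9) (.m 1) (.p 1) (.m 1) (.m 6) 10 10 6) 6 true Eng.T65
    5 0 [1] = true := by decide +kernel

theorem kp66 : Eng.listOK2 744 9 43 0 (prog (.p 37) (.m 1) (.p 1) (.m 1) (.m 6) 12 10 6) 6 true Eng.T66
    9 0 [15] = true := by decide +kernel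

theorem kp67 : Eng.listOK2 744 9 43 0 (prog (.p 19) (.m 1) (.p 1) (.m 1) (.m 6) 11 10 6) 6 true Eng.T67
    9 0 [15] = true := by decide +kernel

theorem kp68 : Eng.listOK2 744 9 39 0 (prog (.p 39) (.m 1) (.p 1) (.m 1) (.m 6) 12 10 6) 6 true Eng.T68
    8 0 [7] = true := by decide +kernel

theorem kp69 : Eng.listOK2 840 9 35 16 (prog (.p 5) (.m 1) (.p 1) (.m 1) (.m 6) 9 10 6) 6 true Eng.T69
    8 0 [7] = true := by decide +kernel

theorem kp70 : Eng.listOK2 840 9 35 16 (prog (.p 41) (.m 1) (.p 1) (.m 1) (.m 6) 12 10 6) 6 true Eng.T70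
    8 0 [7] = true := by decide +kernel

theorem kp71 : Eng.listOK2 840 9 35 16 (prog (.p 21) (.m 1) (.p 1) (.m 1) (.m 6) 11 10 6) 6 true Eng.T71
    9 0 [13] = true := by decide +kernel

theorem kp72 : Eng.listOK2 840 9 35 16 (prog (.p 43) (.m 1) (.p 1) (.m 1) (.m 6) 12 10 6) 6 true Eng.T72
    9 0 [13] = true := by decide +kernel

theorem kp73 : Eng.listOK2 840 9 35 16 (prog (.p 11) (.m 1) (.p 1) (.m 1) (.m 6) 10 10 6) 6 true Eng.T73
    9 0 [13] = true := by decide +kernel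

theorem kp74 : Eng.listOK2 840 9 35 16 (prog (.p 45) (.m 1) (.p 1) (.m 1) (.m 6) 12 10 6) 6 true Eng.T74
    10 0 [25] = true := by decide +kernel

theorem kp75 : Eng.listOK2 776 9 31 16 (prog (.p 23) (.m 1) (.p 1) (.m 1) (.m 6) 11 10 6) 6 true Eng.T75
    7 0 [3] = true := by decide +kernel

theorem kp76 : Eng.listOK2 776 9 31 16 (prog (.p 47) (.m 1) (.p 1) (.m 1) (.m 6) 12 10 6) 6 true Eng.T76
    7 0 [3] = true := by decide +kernel

theorem kp77 : Eng.listOK2 776 9 31 16 (prog (.p 3) (.m 1) (.p 1) (.m 1) (.m 6) 8 10 6) 6 true Eng.T77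
    10 0 [23] = true := by decide +kernel

theorem kp78 : Eng.listOK2 776 9 31 16 (prog (.p 49) (.m 1) (.p 1) (.m 1) (.m 6) 12 10 6) 6 true Eng.T78
    10 0 [23] = true := by decide +kernel

theorem kp79 : Eng.listOK2 776 9 31 16 (prog (.p 25) (.m 1) (.p 1) (.m 1) (.m 6) 11 10 6) 6 true Eng.T79
    9 0 [11] = true := by decide +kernel

theorem kp80 : Eng.listOK2 776 9 31 16 (prog (.p 51) (.m 1) (.p 1) (.m 1) (.m 6) 12 10 6) 6 true Eng.T80
    9 0 [11] = true := by decide +kernel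

theorem kp81 : Eng.listOK2 776 9 31 16 (prog (.p 13) (.m 1) (.p 1) (.m 1) (.m 6) 10 10 6) 6 true Eng.T81
    10 0 [21] = true := by decide +kernel

theorem kp82 : Eng.listOK2 776 9 31 16 (prog (.p 53) (.m 1) (.p 1) (.m 1) (.m 6) 12 10 6) 6 true Eng.T82
    10 0 [21] = true := by decide +kernel

theorem kp83 : Eng.listOK2 776 9 31 16 (prog (.p 27) (.m 1) (.p 1) (.m 1) (.m 6) 11 10 6) 6 true Eng.T83
    8 0 [5] = true := by decide +kernel

theorem kp84 : Eng.listOK2 776 9 31 16 (prog (.p 55) (.m 1) (.p 1) (.m 1) (.m 6) 12 10 6) 6 true Eng.T84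
    8 0 [5] = true := by decide +kernel

theorem kp85 : Eng.listOK2 776 9 27 16 (prog (.p 7) (.m 1) (.p 1) (.m 1) (.m 6) 9 10 6) 6 true Eng.T85
    8 0 [5] = true := by decide +kernel

theorem kp86 : Eng.listOK2 776 9 27 16 (prog (.p 57) (.m 1) (.p 1) (.m 1) (.m 6) 12 10 6) 6 true Eng.T86
    10 0 [19] = true := by decide +kernel

theorem kp87 : Eng.listOK2 776 9 27 16 (prog (.p 29) (.m 1) (.p 1) (.m 1) (.m 6) 11 10 6) 6 true Eng.T87
    10 0 [19] = true := by decide +kernel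

theorem kp88 : Eng.listOK2 776 9 27 16 (prog (.p 59) (.m 1) (.p 1) (.m 1) (.m 6) 12 10 6) 6 true Eng.T88
    10 0 [19] = true := by decide +kernel

theorem kp89 : Eng.listOK2 776 9 27 16 (prog (.p 15) (.m 1) (.p 1) (.m 1) (.m 6) 10 10 6) 6 true Eng.T89
    9 0 [9] = true := by decide +kernel

theorem kp90 : Eng.listOK2 776 9 27 16 (prog (.p 61) (.m 1) (.p 1) (.m 1) (.m 6) 12 10 6) 6 true Eng.T90
    9 0 [9] = true := by decide +kernel

theorem kp91 : Eng.listOK2 776 9 27 16 (prog (.p 31) (.m 1) (.p 1) (.m 1) (.m 6) 11 10 6) 6 true Eng.T91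
    9 0 [9] = true := by decide +kernel

theorem kp92 : Eng.listOK2 776 9 27 16 (prog (.p 63) (.m 1) (.p 1) (.m 1) (.m 6) 12 10 6) 6 true Eng.T92
    10 0 [17] = true := by decide +kernel

theorem kp93 : Eng.listOK2 776 9 27 16 (prog (.p 1) (.m 1) (.p 1) (.m 1) (.m 6) 6 10 6) 6 true Eng.T93
    10 0 [17] = true := by decide +kernel

theorem kp94 : Eng.listOK2 776 9 27 16 (prog (.p 65) (.m 1) (.p 1) (.m 1) (.m 6) 12 10 6) 6 true Eng.T94
    10 0 [17] = true := by decide +kernel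

theorem kp95 : Eng.listOK2 776 9 27 16 (prog (.p 33) (.m 1) (.p 1) (.m 1) (.m 6) 11 10 6) 6 true Eng.T95
    10 0 [17] = true := by decide +kernel

end PM

end Pool.Agent.Saddle
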