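import Pool.Agent.Saddle.P2

/-!
# Kernel checks for the main inequality, cells 0 to 47, negative side
-/

set_option autoImplicit false
set_option linter.all false
set_option maxRecDepth 100000

namespace Pool.Agent.Saddle

namespace PM

theorem kn0 : Eng.listOK2 936 9 65 0 (prog (.p 4099) (.m 509) (.p 7) (.p 1) (.p 6) 12 9 3) 6 false Eng.T0
    7 0 [27] = true := by decide +kernel

theorem kn1 : Eng.listOK2 936 9 65 0 (prog (.p 4117) (.m 987) (.p 105) (.p 1) (.p 6) 12 10 6) 6 false Eng.T1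
    6 0 [13] = true := by decide +kernel

theorem kn2 : Eng.listOK2 936 9 65 0 (prog (.p 261) (.m 929) (.p 143) (.p 1) (.p 6) 8 10 6) 6 false Eng.T2
    5 0 [6] = true := by decide +kernel

theorem kn3 : Eng.listOK2 936 9 65 0 (prog (.p 2149) (.m 849) (.p 87) (.p 1) (.p 6) 11 10 5) 6 false Eng.T3
    7 0 [23] = true := by decide +kernel

theorem kn4 : Eng.listOK2 936 9 65 0 (prog (.p 4483) (.m 757) (.p 195) (.p 1) (.p 6) 12 10 6) 6 false Eng.T4
    6 0 [11] = true := by decide +kernel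

theorem kn5 : Eng.listOK2 936 9 65 0 (prog (.p 591) (.m 659) (.p 207) (.p 1) (.p 6) 9 10 6) 6 false Eng.T5
    7 0 [21] = true := by decide +kernel

theorem kn6 : Eng.listOK2 936 9 65 0 (prog (.p 627) (.m 563) (.p 105) (.p 1) (.p 6) 9 10 5) 6 false Eng.T6
    5 0 [5] = true := by decide +kernel

theorem kn7 : Eng.listOK2 936 9 65 0 (prog (.p 2667) (.m 59) (.p 13) (.p 1) (.p 6) 11 7 2) 6 false Eng.T7
    7 0 [19] = true := by decide +kernel

theorem kn8 : Eng.listOK2 936 9 65 0 (prog (.p 2831) (.m 195) (.p 51) (.p 1) (.p 6) 11 9 4) 6 false Eng.T8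
    6 0 [9] = true := by decide +kernel

theorem kn9 : Eng.listOK2 936 9 65 0 (prog (.p 5981) (.m 319) (.p 99) (.p 1) (.p 6) 12 10 5) 6 false Eng.T9
    7 0 [17] = true := by decide +kernel

theorem kn10 : Eng.listOK2 936 9 65 0 (prog (.p 3143) (.m 129) (.p 95) (.p 1) (.p 6) 11 9 5) 6 false Eng.T10
    8 0 [33] = true := by decide +kernel

theorem kn11 : Eng.listOK2 936 9 65 0 (prog (.p 3283) (.m 207) (.p 45) (.p 1) (.p 6) 11 10 4) 6 false Eng.T11
    5 0 [1, 4] = true := by decide +kernel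

theorem kn12 : Eng.listOK2 936 9 65 0 (prog (.p 3409) (.m 165) (.p 83) (.p 1) (.p 6) 11 10 5) 6 false Eng.T12
    7 0 [5, 15] = true := by decide +kernel

theorem kn13 : Eng.listOK2 936 9 65 0 (prog (.p 3519) (.m 131) (.p 77) (.p 1) (.p 6) 11 10 5) 6 false Eng.T13
    8 0 [9, 29] = true := by decide +kernel

theorem kn14 : Eng.listOK2 872 9 55 0 (prog (.p 3617) (.m 103) (.p 141) (.p 1) (.p 6) 11 10 6) 6 false Eng.T14
    6 0 [2, 7] = true := by decide +kernel

theorem kn15 : Eng.listOK2 872 9 55 0 (prog (.p 7399) (.m 81) (.p 127) (.p 1) (.p 6) 12 10 6) 6 false Eng.T15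
    7 0 [4, 13] = true := by decide +kernel

theorem kn16 : Eng.listOK2 872 9 55 0 (prog (.p 7535) (.m 1) (.p 29) (.p 1) (.p 6) 12 4 4) 6 false Eng.T16
    7 0 [4, 13] = true := by decide +kernel

theorem kn17 : Eng.listOK2 872 9 55 0 (prog (.p 3827) (.m 25) (.p 51) (.p 1) (.p 6) 11 9 5) 6 false Eng.T17
    5 0 [1, 3] = true := by decide +kernel

theorem kn18 : Eng.listOK2 872 9 55 0 (prog (.p 7753) (.m 39) (.p 23) (.p 1) (.p 6) 12 10 4) 6 false Eng.T18
    5 0 [1, 3] = true := by decide +kernel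

theorem kn19 : Eng.listOK2 872 9 55 0 (prog (.p 7839) (.m 15) (.p 81) (.p 1) (.p 6) 12 9 6) 6 false Eng.T19
    8 0 [7, 23] = true := by decide +kernel

theorem kn20 : Eng.listOK2 872 9 55 0 (prog (.p 7899) (.m 3) (.p 71) (.p 1) (.p 6) 12 7 6) 6 false Eng.T20
    7 0 [3, 11] = true := by decide +kernel

theorem kn21 : Eng.listOK2 872 9 55 0 (prog (.p 7963) (.m 9) (.p 31) (.p 1) (.p 6) 12 9 5) 6 false Eng.T21
    8 0 [7, 21] = true := by decide +kernel

theorem kn22 : Eng.listOK2 872 9 55 0 (prog (.p 8007) (.m 7) (.p 53) (.p 1) (.p 6) 12 9 6) 6 false Eng.T22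
    6 0 [1, 5] = true := by decide +kernel

theorem kn23 : Eng.listOK2 872 9 55 0 (prog (.p 4021) (.m 11) (.p 47) (.p 1) (.p 6) 11 10 6) 6 false Eng.T23
    6 0 [1, 5] = true := by decide +kernel

theorem kn24 : Eng.listOK2 872 9 55 0 (prog (.p 4039) (.m 1) (.p 5) (.p 1) (.p 6) 11 7 3) 6 false Eng.T24
    8 0 [19] = true := by decide +kernel

theorem kn25 : Eng.listOK2 872 9 55 0 (prog (.p 8103) (.m 3) (.p 35) (.p 1) (.p 6) 12 9 6) 6 false Eng.T25
    8 0 [19] = true := by decide +kernel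

theorem kn26 : Eng.listOK2 872 9 55 0 (prog (.p 8117) (.m 5) (.p 15) (.p 1) (.p 6) 12 10 5) 6 false Eng.T26
    7 0 [9] = true := by decide +kernel

theorem kn27 : Eng.listOK2 872 9 55 0 (prog (.p 4065) (.m 1) (.p 25) (.p 1) (.p 6) 11 8 6) 6 false Eng.T27
    8 0 [17] = true := by decide +kernel

theorem kn28 : Eng.listOK2 872 9 55 0 (prog (.p 509) (.m 3) (.p 11) (.p 1) (.p 6) 8 10 5) 6 false Eng.T28
    8 0 [17] = true := by decide +kernel

theorem kn29 : Eng.listOK2 872 9 55 0 (prog (.p 8159) (.m 1) (.p 9) (.p 1) (.p 6) 12 9 5) 6 false Eng.T29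
    9 0 [33] = true := by decide +kernel

theorem kn30 : Eng.listOK2 872 9 55 0 (prog (.p 8159) (.m 1) (.p 1) (.p 1) (.p 6) 12 9 2) 6 false Eng.T30
    5 0 [2] = true := by decide +kernel

theorem kn31 : Eng.listOK2 872 9 55 0 (prog (.p 8175) (.m 1) (.p 13) (.p 1) (.p 6) 12 10 6) 6 false Eng.T31
    5 0 [2] = true := by decide +kernel

theorem kn32 : Eng.listOK2 872 9 55 0 (prog (.p 8175) (.m 1) (.p 11) (.p 1) (.p 6) 12 10 6) 6 false Eng.T32
    8 0 [15] = true := by decide +kernel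

theorem kn33 : Eng.listOK2 872 9 55 0 (prog (.p 2) (.p 0) (.p 5) (.p 1) (.p 6) 0 0 5) 6 false Eng.T33
    8 0 [15] = true := by decide +kernel

theorem kn34 : Eng.listOK2 872 9 55 0 (prog (.p 2) (.p 0) (.p 9) (.p 1) (.p 6) 0 0 6) 6 false Eng.T34
    7 0 [7] = true := by decide +kernel

theorem kn35 : Eng.listOK2 808 9 47 0 (prog (.p 8193) (.p 0) (.p 7) (.p 1) (.p 6) 12 0 6) 6 false Eng.T35
    7 0 [7] = true := by decide +kernel

theorem kn36 : Eng.listOK2 808 9 47 0 (prog (.p 8193) (.p 0) (.p 3) (.p 1) (.p 6) 12 0 5) 6 false Eng.T36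
    7 0 [7] = true := by decide +kernel

theorem kn37 : Eng.listOK2 808 9 47 0 (prog (.p 8193) (.p 0) (.p 3) (.p 1) (.p 6) 12 0 5) 6 false Eng.T37
    8 0 [13] = true := by decide +kernel

theorem kn38 : Eng.listOK2 808 9 47 0 (prog (.p 8193) (.p 0) (.p 5) (.p 1) (.p 6) 12 0 6) 6 false Eng.T38
    8 0 [13] = true := by decide +kernel

theorem kn39 : Eng.listOK2 808 9 47 0 (prog (.p 8193) (.p 0) (.p 1) (.p 1) (.p 6) 12 0 4) 6 false Eng.T39
    8 0 [13] = true := by decide +kernel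

theorem kn40 : Eng.listOK2 808 9 47 0 (prog (.p 8193) (.p 0) (.p 1) (.p 1) (.p 6) 12 0 4) 6 false Eng.T40
    9 0 [25] = true := by decide +kernel

theorem kn41 : Eng.listOK2 808 9 47 0 (prog (.p 4097) (.p 0) (.p 3) (.p 1) (.p 6) 11 0 6) 6 false Eng.T41
    6 0 [3] = true := by decide +kernel

theorem kn42 : Eng.listOK2 808 9 47 0 (prog (.p 4097) (.p 0) (.p 3) (.p 1) (.p 6) 11 0 6) 6 false Eng.T42
    6 0 [3] = true := by decide +kernel

theorem kn43 : Eng.listOK2 808 9 45 0 (prog (.p 4097) (.p 0) (.p 3) (.p 1) (.p 6) 11 0 6) 6 false Eng.T43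
    6 0 [3] = true := by decide +kernel

theorem kn44 : Eng.listOK2 808 9 45 0 (prog (.p 4097) (.p 0) (.p 1) (.p 1) (.p 6) 11 0 5) 6 false Eng.T44
    9 0 [23] = true := by decide +kernel

theorem kn45 : Eng.listOK2 808 9 45 0 (prog (.p 4097) (.p 0) (.p 1) (.p 1) (.p 6) 11 0 5) 6 false Eng.T45
    8 0 [11] = true := by decide +kernel

theorem kn46 : Eng.listOK2 808 9 45 0 (prog (.p 4097) (.p 0) (.p 1) (.p 1) (.p 6) 11 0 5) 6 false Eng.T46
    8 0 [11] = true := by decide +kernel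

theorem kn47 : Eng.listOK2 808 9 45 0 (prog (.p 4097) (.p 0) (.p 1) (.p 1) (.p 6) 11 0 5) 6 false Eng.T47
    8 0 [11] = true := by decide +kernel

end PM

end Pool.Agent.Saddle
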