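import Pool.Agent.Saddle.P2

/-!
# Kernel checks for the main inequality, cells 48 to 95, negative side
-/

set_option autoImplicit false
set_option linter.all false
set_option maxRecDepth 100000

namespace Pool.Agent.Saddle

namespace PM

theorem kn48 : Eng.listOK2 808 9 45 0 (prog (.p 4097) (.p 0) (.p 1) (.p 1) (.p 6) 11 0 5) 6 false Eng.T48
    9 0 [21] = true := by decide +kernel

theorem kn49 : Eng.listOK2 808 9 45 0 (prog (.p 4097) (.p 0) (.p 1) (.p 1) (.p 6) 11 0 5) 6 false Eng.T49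
    9 0 [21] = true := by decide +kernel

theorem kn50 : Eng.listOK2 808 9 45 0 (prog (.p 4097) (.p 0) (.p 1) (.p 1) (.p 6) 11 0 5) 6 false Eng.T50
    7 0 [5] = true := by decide +kernel

theorem kn51 : Eng.listOK2 744 9 39 0 (prog (.p 4097) (.p 0) (.p 1) (.p 1) (.p 6) 11 0 6) 6 false Eng.T51
    7 0 [1, 5] = true := by decide +kernel

theorem kn52 : Eng.listOK2 744 9 39 0 (prog (.p 4097) (.p 0) (.p 1) (.p 1) (.p 6) 11 0 6) 6 false Eng.T52
    7 0 [1, 5] = true := by decide +kernel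

theorem kn53 : Eng.listOK2 744 9 39 0 (prog (.p 4097) (.p 0) (.p 1) (.p 1) (.p 6) 11 0 6) 6 false Eng.T53
    9 0 [6, 19] = true := by decide +kernel

theorem kn54 : Eng.listOK2 744 9 39 0 (prog (.p 4097) (.p 0) (.p 1) (.p 1) (.p 6) 11 0 6) 6 false Eng.T54
    9 0 [6, 19] = true := by decide +kernel

theorem kn55 : Eng.listOK2 744 9 39 0 (prog (.p 4097) (.p 0) (.p 1) (.p 1) (.p 6) 11 0 6) 6 false Eng.T55
    9 0 [6, 19] = true := by decide +kernel

theorem kn56 : Eng.listOK2 744 9 39 0 (prog (.p 4097) (.p 0) (.p 1) (.p 1) (.p 6) 11 0 6) 6 false Eng.T56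
    8 0 [3, 9] = true := by decide +kernel

theorem kn57 : Eng.listOK2 744 9 39 0 (prog (.p 4097) (.p 0) (.p 1) (.p 1) (.p 6) 11 0 6) 6 false Eng.T57
    8 0 [3, 9] = true := by decide +kernel

theorem kn58 : Eng.listOK2 744 9 39 0 (prog (.p 4097) (.p 0) (.p 1) (.p 1) (.p 6) 11 0 6) 6 false Eng.T58
    8 0 [3, 9] = true := by decide +kernel

theorem kn59 : Eng.listOK2 744 9 39 0 (prog (.p 4097) (.p 0) (.p 1) (.p 1) (.p 6) 11 0 6) 6 false Eng.T59
    9 0 [5, 17] = true := by decide +kernel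

theorem kn60 : Eng.listOK2 744 9 39 0 (prog (.p 4097) (.p 0) (.p 1) (.p 1) (.p 6) 11 0 6) 6 false Eng.T60
    9 0 [5, 17] = true := by decide +kernel

theorem kn61 : Eng.listOK2 744 9 39 0 (prog (.p 4097) (.p 0) (.p 1) (.p 1) (.p 6) 11 0 6) 6 false Eng.T61
    9 0 [5, 17] = true := by decide +kernel

theorem kn62 : Eng.listOK2 744 9 39 0 (prog (.p 4097) (.p 0) (.p 1) (.p 1) (.p 6) 11 0 6) 6 false Eng.T62
    9 0 [5, 17] = true := by decide +kernel

theorem kn63 : Eng.listOK2 744 9 39 0 (prog (.p 4097) (.p 0) (.p 1) (.p 1) (.p 6) 11 0 6) 6 false Eng.T63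
    6 0 [1, 2] = true := by decide +kernel

theorem kn64 : Eng.listOK2 744 9 43 0 (prog (.p 4097) (.p 0) (.p 1) (.p 1) (.p 6) 11 0 6) 6 false Eng.T64
    6 0 [1, 2] = true := by decide +kernel

theorem kn65 : Eng.listOK2 744 9 43 0 (prog (.p 4097) (.p 0) (.p 1) (.p 1) (.p 6) 11 0 6) 6 false Eng.T65
    6 0 [1, 2] = true := by decide +kernel

theorem kn66 : Eng.listOK2 744 9 43 0 (prog (.p 4097) (.p 0) (.p 1) (.p 1) (.p 6) 11 0 6) 6 false Eng.T66
    9 0 [5, 15] = true := by decide +kernel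

theorem kn67 : Eng.listOK2 744 9 43 0 (prog (.p 4097) (.p 0) (.p 1) (.p 1) (.p 6) 11 0 6) 6 false Eng.T67
    9 0 [5, 15] = true := by decide +kernel

theorem kn68 : Eng.listOK2 744 9 39 0 (prog (.p 4097) (.p 0) (.p 1) (.p 1) (.p 6) 11 0 6) 6 false Eng.T68
    8 0 [2, 7] = true := by decide +kernel

theorem kn69 : Eng.listOK2 840 9 35 16 (prog (.p 4097) (.p 0) (.p 1) (.p 1) (.p 6) 11 0 6) 6 false Eng.T69
    8 0 [2, 7] = true := by decide +kernel

theorem kn70 : Eng.listOK2 840 9 35 16 (prog (.p 4097) (.p 0) (.p 1) (.p 1) (.p 6) 11 0 6) 6 false Eng.T70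
    8 0 [2, 7] = true := by decide +kernel

theorem kn71 : Eng.listOK2 840 9 35 16 (prog (.p 4097) (.p 0) (.p 1) (.p 1) (.p 6) 11 0 6) 6 false Eng.T71
    9 0 [4, 13] = true := by decide +kernel

theorem kn72 : Eng.listOK2 840 9 35 16 (prog (.p 4097) (.p 0) (.p 1) (.p 1) (.p 6) 11 0 6) 6 false Eng.T72
    9 0 [4, 13] = true := by decide +kernel

theorem kn73 : Eng.listOK2 840 9 35 16 (prog (.p 4097) (.p 0) (.p 1) (.p 1) (.p 6) 11 0 6) 6 false Eng.T73
    9 0 [4, 13] = true := by decide +kernel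

theorem kn74 : Eng.listOK2 840 9 35 16 (prog (.p 4097) (.p 0) (.p 1) (.p 1) (.p 6) 11 0 6) 6 false Eng.T74
    10 0 [8, 25] = true := by decide +kernel

theorem kn75 : Eng.listOK2 776 9 31 16 (prog (.p 4097) (.p 0) (.p 1) (.p 1) (.p 6) 11 0 6) 6 false Eng.T75
    7 0 [1, 3] = true := by decide +kernel

theorem kn76 : Eng.listOK2 776 9 31 16 (prog (.p 4097) (.p 0) (.p 1) (.p 1) (.p 6) 11 0 6) 6 false Eng.T76
    7 0 [1, 3] = true := by decide +kernel

theorem kn77 : Eng.listOK2 776 9 31 16 (prog (.p 4097) (.p 0) (.p 1) (.p 1) (.p 6) 11 0 6) 6 false Eng.T77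
    10 0 [7, 23] = true := by decide +kernel

theorem kn78 : Eng.listOK2 776 9 31 16 (prog (.p 4097) (.p 0) (.p 1) (.p 1) (.p 6) 11 0 6) 6 false Eng.T78
    10 0 [7, 23] = true := by decide +kernel

theorem kn79 : Eng.listOK2 776 9 31 16 (prog (.p 4097) (.p 0) (.p 1) (.p 1) (.p 6) 11 0 6) 6 false Eng.T79
    9 0 [3, 11] = true := by decide +kernel

theorem kn80 : Eng.listOK2 776 9 31 16 (prog (.p 4097) (.p 0) (.p 1) (.p 1) (.p 6) 11 0 6) 6 false Eng.T80
    9 0 [3, 11] = true := by decide +kernel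

theorem kn81 : Eng.listOK2 776 9 31 16 (prog (.p 4097) (.p 0) (.p 1) (.p 1) (.p 6) 11 0 6) 6 false Eng.T81
    10 0 [7, 21] = true := by decide +kernel

theorem kn82 : Eng.listOK2 776 9 31 16 (prog (.p 4097) (.p 0) (.p 1) (.p 1) (.p 6) 11 0 6) 6 false Eng.T82
    10 0 [7, 21] = true := by decide +kernel

theorem kn83 : Eng.listOK2 776 9 31 16 (prog (.p 4097) (.p 0) (.p 1) (.p 1) (.p 6) 11 0 6) 6 false Eng.T83
    8 0 [1, 5] = true := by decide +kernel

theorem kn84 : Eng.listOK2 776 9 31 16 (prog (.p 4097) (.p 0) (.p 1) (.p 1) (.p 6) 11 0 6) 6 false Eng.T84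
    8 0 [1, 5] = true := by decide +kernel

theorem kn85 : Eng.listOK2 776 9 27 16 (prog (.p 4097) (.p 0) (.p 1) (.p 1) (.p 6) 11 0 6) 6 false Eng.T85
    8 0 [1, 5] = true := by decide +kernel

theorem kn86 : Eng.listOK2 776 9 27 16 (prog (.p 4097) (.p 0) (.p 1) (.p 1) (.p 6) 11 0 6) 6 false Eng.T86
    10 0 [6, 19] = true := by decide +kernel

theorem kn87 : Eng.listOK2 776 9 27 16 (prog (.p 4097) (.p 0) (.p 1) (.p 1) (.p 6) 11 0 6) 6 false Eng.T87
    10 0 [6, 19] = true := by decide +kernel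

theorem kn88 : Eng.listOK2 776 9 27 16 (prog (.p 4097) (.p 0) (.p 1) (.p 1) (.p 6) 11 0 6) 6 false Eng.T88
    10 0 [6, 19] = true := by decide +kernel

theorem kn89 : Eng.listOK2 776 9 27 16 (prog (.p 4097) (.p 0) (.p 1) (.p 1) (.p 6) 11 0 6) 6 false Eng.T89
    9 0 [3, 9] = true := by decide +kernel

theorem kn90 : Eng.listOK2 776 9 27 16 (prog (.p 4097) (.p 0) (.p 1) (.p 1) (.p 6) 11 0 6) 6 false Eng.T90
    9 0 [3, 9] = true := by decide +kernel

theorem kn91 : Eng.listOK2 776 9 27 16 (prog (.p 4097) (.p 0) (.p 1) (.p 1) (.p 6) 11 0 6) 6 false Eng.T91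
    9 0 [3, 9] = true := by decide +kernel

theorem kn92 : Eng.listOK2 776 9 27 16 (prog (.p 4097) (.p 0) (.p 1) (.p 1) (.p 6) 11 0 6) 6 false Eng.T92
    10 0 [5, 17] = true := by decide +kernel

theorem kn93 : Eng.listOK2 776 9 27 16 (prog (.p 4097) (.p 0) (.p 1) (.p 1) (.p 6) 11 0 6) 6 false Eng.T93
    10 0 [5, 17] = true := by decide +kernel

theorem kn94 : Eng.listOK2 776 9 27 16 (prog (.p 4097) (.p 0) (.p 1) (.p 1) (.p 6) 11 0 6) 6 false Eng.T94
    10 0 [5, 17] = true := by decide +kernel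

theorem kn95 : Eng.listOK2 776 9 27 16 (prog (.p 4097) (.p 0) (.p 1) (.p 1) (.p 6) 11 0 6) 6 false Eng.T95
    10 0 [5, 17] = true := by decide +kernel

end PM

end Pool.Agent.Saddle
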