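import Pool.Agent.Saddle.P3a
import Pool.Agent.Saddle.P3b
import Pool.Agent.Saddle.P3c
import Pool.Agent.Saddle.P3d

/-!
# The main inequality for `|s| < 16`
-/

set_option autoImplicit false
set_option linter.all false
set_option maxRecDepth 100000

noncomputable section

namespace Pool.Agent.Saddle

namespace PM

theorem pos_all : ∀ C ∈ Eng.cells, PosC C := by
  intro C hC
  simp only [Eng.cells, List.mem_cons, List.not_mem_nil, or_false] at hC
  rcases hC with rfl | rfl | rfl | rfl | rfl | rfl | rfl | rfl | rfl | rfl | rfl | rfl | rfl |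
      rfl | rfl | rfl | rfl | rfl | rfl | rfl | rfl | rfl | rfl | rfl | rfl | rfl | rfl | rfl |
      rfl | rfl | rfl | rfl | rfl | rfl | rfl | rfl | rfl | rfl | rfl | rfl | rfl | rfl | rfl |
      rfl | rfl | rfl | rfl | rfl | rfl | rfl | rfl | rfl | rfl | rfl | rfl | rfl | rfl | rfl |
      rfl | rfl | rfl | rfl | rfl | rfl | rfl | rfl | rfl | rfl | rfl | rfl | rfl | rfl | rfl |
      rfl | rfl | rfl | rfl | rfl | rfl | rfl | rfl | rfl | rfl | rfl | rfl | rfl | rfl | rfl |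
      rfl | rfl | rfl | rfl | rfl | rfl | rfl | rfl
  · exact posC Eng.gd0 kp0
  · exact posC Eng.gd1 kp1
  · exact posC Eng.gd2 kp2
  · exact posC Eng.gd3 kp3
  · exact posC Eng.gd4 kp4
  · exact posC Eng.gd5 kp5
  · exact posC Eng.gd6 kp6
  · exact posC Eng.gd7 kp7
  · exact posC Eng.gd8 kp8
  · exact posC Eng.gd9 kp9
  · exact posC Eng.gd10 kp10
  · exact posC Eng.gd11 kp11
  · exact posC Eng.gd12 kp12
  · exact posC Eng.gd13 kp13
  · exact posC Eng.gd14 kp14
  · exact posC Eng.gd15 kp15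
  · exact posC Eng.gd16 kp16
  · exact posC Eng.gd17 kp17
  · exact posC Eng.gd18 kp18
  · exact posC Eng.gd19 kp19
  · exact posC Eng.gd20 kp20
  · exact posC Eng.gd21 kp21
  · exact posC Eng.gd22 kp22
  · exact posC Eng.gd23 kp23
  · exact posC Eng.gd24 kp24
  · exact posC Eng.gd25 kp25
  · exact posC Eng.gd26 kp26
  · exact posC Eng.gd27 kp27
  · exact posC Eng.gd28 kp28
  · exact posC Eng.gd29 kp29
  · exact posC Eng.gd30 kp30
  · exact posC Eng.gd31 kp31
  · exact posC Eng.gd32 kp32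
  · exact posC Eng.gd33 kp33
  · exact posC Eng.gd34 kp34
  · exact posC Eng.gd35 kp35
  · exact posC Eng.gd36 kp36
  · exact posC Eng.gd37 kp37
  · exact posC Eng.gd38 kp38
  · exact posC Eng.gd39 kp39
  · exact posC Eng.gd40 kp40
  · exact posC Eng.gd41 kp41
  · exact posC Eng.gd42 kp42
  · exact posC Eng.gd43 kp43
  · exact posC Eng.gd44 kp44
  · exact posC Eng.gd45 kp45
  · exact posC Eng.gd46 kp46
  · exact posC Eng.gd47 kp47
  · exact posC Eng.gd48 kp48
  · exact posC Eng.gd49 kp49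
  · exact posC Eng.gd50 kp50
  · exact posC Eng.gd51 kp51
  · exact posC Eng.gd52 kp52
  · exact posC Eng.gd53 kp53
  · exact posC Eng.gd54 kp54
  · exact posC Eng.gd55 kp55
  · exact posC Eng.gd56 kp56
  · exact posC Eng.gd57 kp57
  · exact posC Eng.gd58 kp58
  · exact posC Eng.gd59 kp59
  · exact posC Eng.gd60 kp60
  · exact posC Eng.gd61 kp61
  · exact posC Eng.gd62 kp62
  · exact posC Eng.gd63 kp63
  · exact posC Eng.gd64 kp64
  · exact posC Eng.gd65 kp65
  · exact posC Eng.gd66 kp66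
  · exact posC Eng.gd67 kp67
  · exact posC Eng.gd68 kp68
  · exact posC Eng.gd69 kp69
  · exact posC Eng.gd70 kp70
  · exact posC Eng.gd71 kp71
  · exact posC Eng.gd72 kp72
  · exact posC Eng.gd73 kp73
  · exact posC Eng.gd74 kp74
  · exact posC Eng.gd75 kp75
  · exact posC Eng.gd76 kp76
  · exact posC Eng.gd77 kp77
  · exact posC Eng.gd78 kp78
  · exact posC Eng.gd79 kp79
  · exact posC Eng.gd80 kp80
  · exact posC Eng.gd81 kp81
  · exact posC Eng.gd82 kp82
  · exact posC Eng.gd83 kp83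
  · exact posC Eng.gd84 kp84
  · exact posC Eng.gd85 kp85
  · exact posC Eng.gd86 kp86
  · exact posC Eng.gd87 kp87
  · exact posC Eng.gd88 kp88
  · exact posC Eng.gd89 kp89
  · exact posC Eng.gd90 kp90
  · exact posC Eng.gd91 kp91
  · exact posC Eng.gd92 kp92
  · exact posC Eng.gd93 kp93
  · exact posC Eng.gd94 kp94
  · exact posC Eng.gd95 kp95

theorem neg_all : ∀ C ∈ Eng.cells, NegC C := by
  intro C hC
  simp only [Eng.cells, List.mem_cons, List.not_mem_nil, or_false] at hC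
  rcases hC with rfl | rfl | rfl | rfl | rfl | rfl | rfl | rfl | rfl | rfl | rfl | rfl | rfl |
      rfl | rfl | rfl | rfl | rfl | rfl | rfl | rfl | rfl | rfl | rfl | rfl | rfl | rfl | rfl |
      rfl | rfl | rfl | rfl | rfl | rfl | rfl | rfl | rfl | rfl | rfl | rfl | rfl | rfl | rfl |
      rfl | rfl | rfl | rfl | rfl | rfl | rfl | rfl | rfl | rfl | rfl | rfl | rfl | rfl | rfl |
      rfl | rfl | rfl | rfl | rfl | rfl | rfl | rfl | rfl | rfl | rfl | rfl | rfl | rfl | rfl |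
      rfl | rfl | rfl | rfl | rfl | rfl | rfl | rfl | rfl | rfl | rfl | rfl | rfl | rfl | rfl |
      rfl | rfl | rfl | rfl | rfl | rfl | rfl | rfl
  · exact negC Eng.gd0 kn0
  · exact negC Eng.gd1 kn1
  · exact negC Eng.gd2 kn2
  · exact negC Eng.gd3 kn3
  · exact negC Eng.gd4 kn4
  · exact negC Eng.gd5 kn5
  · exact negC Eng.gd6 kn6
  · exact negC Eng.gd7 kn7
  · exact negC Eng.gd8 kn8
  · exact negC Eng.gd9 kn9
  · exact negC Eng.gd10 kn10
  · exact negC Eng.gd11 kn11
  · exact negC Eng.gd12 kn12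
  · exact negC Eng.gd13 kn13
  · exact negC Eng.gd14 kn14
  · exact negC Eng.gd15 kn15
  · exact negC Eng.gd16 kn16
  · exact negC Eng.gd17 kn17
  · exact negC Eng.gd18 kn18
  · exact negC Eng.gd19 kn19
  · exact negC Eng.gd20 kn20
  · exact negC Eng.gd21 kn21
  · exact negC Eng.gd22 kn22
  · exact negC Eng.gd23 kn23
  · exact negC Eng.gd24 kn24
  · exact negC Eng.gd25 kn25
  · exact negC Eng.gd26 kn26
  · exact negC Eng.gd27 kn27
  · exact negC Eng.gd28 kn28
  · exact negC Eng.gd29 kn29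
  · exact negC Eng.gd30 kn30
  · exact negC Eng.gd31 kn31
  · exact negC Eng.gd32 kn32
  · exact negC Eng.gd33 kn33
  · exact negC Eng.gd34 kn34
  · exact negC Eng.gd35 kn35
  · exact negC Eng.gd36 kn36
  · exact negC Eng.gd37 kn37
  · exact negC Eng.gd38 kn38
  · exact negC Eng.gd39 kn39
  · exact negC Eng.gd40 kn40
  · exact negC Eng.gd41 kn41
  · exact negC Eng.gd42 kn42
  · exact negC Eng.gd43 kn43
  · exact negC Eng.gd44 kn44
  · exact negC Eng.gd45 kn45
  · exact negC Eng.gd46 kn46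
  · exact negC Eng.gd47 kn47
  · exact negC Eng.gd48 kn48
  · exact negC Eng.gd49 kn49
  · exact negC Eng.gd50 kn50
  · exact negC Eng.gd51 kn51
  · exact negC Eng.gd52 kn52
  · exact negC Eng.gd53 kn53
  · exact negC Eng.gd54 kn54
  · exact negC Eng.gd55 kn55
  · exact negC Eng.gd56 kn56
  · exact negC Eng.gd57 kn57
  · exact negC Eng.gd58 kn58
  · exact negC Eng.gd59 kn59
  · exact negC Eng.gd60 kn60
  · exact negC Eng.gd61 kn61
  · exact negC Eng.gd62 kn62
  · exact negC Eng.gd63 kn63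
  · exact negC Eng.gd64 kn64
  · exact negC Eng.gd65 kn65
  · exact negC Eng.gd66 kn66
  · exact negC Eng.gd67 kn67
  · exact negC Eng.gd68 kn68
  · exact negC Eng.gd69 kn69
  · exact negC Eng.gd70 kn70
  · exact negC Eng.gd71 kn71
  · exact negC Eng.gd72 kn72
  · exact negC Eng.gd73 kn73
  · exact negC Eng.gd74 kn74
  · exact negC Eng.gd75 kn75
  · exact negC Eng.gd76 kn76
  · exact negC Eng.gd77 kn77
  · exact negC Eng.gd78 kn78
  · exact negC Eng.gd79 kn79
  · exact negC Eng.gd80 kn80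
  · exact negC Eng.gd81 kn81
  · exact negC Eng.gd82 kn82
  · exact negC Eng.gd83 kn83
  · exact negC Eng.gd84 kn84
  · exact negC Eng.gd85 kn85
  · exact negC Eng.gd86 kn86
  · exact negC Eng.gd87 kn87
  · exact negC Eng.gd88 kn88
  · exact negC Eng.gd89 kn89
  · exact negC Eng.gd90 kn90
  · exact negC Eng.gd91 kn91
  · exact negC Eng.gd92 kn92
  · exact negC Eng.gd93 kn93
  · exact negC Eng.gd94 kn94
  · exact negC Eng.gd95 kn95

end PM

namespace Ex

/-- The main inequality for `0 ≤ s < 16`. -/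
theorem pos_in (s e y : ℝ) (hr : Reg 24 s e) (hs : 0 ≤ s) (hs1 : s < 16) (h0 : 0 ≤ y)
    (_ : y ≤ 1) (h1 : y ≤ 1 - (up (ga da)).f s e + e ^ 2 * dD.f s e) :
    dD.f s e * (6 * (up (ga da)).f s e + 2 * y) ≤ QX 24 da dP dQ dp dq s e y := by
  obtain ⟨C, hC, h2, h3⟩ := Eng.cells_cover hs hs1
  refine PM.pos_all C hC s e y h2 h3 hr.1.le ?_ h0 h1
  have h := hr.2.2
  rw [abs_of_nonneg hs] at h
  linarith

/-- The main inequality for `-16 < s < 0`. -/
theorem neg_in (s e y : ℝ) (hr : Reg 24 s e) (hs : 0 < s) (hs1 : s < 16) (h0 : 0 ≤ y)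
    (_ : y ≤ 2) (h1 : y ≤ 1 + (up (ga da)).f s e + e ^ 2 * dD.f s e) :
    dD.f s e * (6 * (up (ga da)).f s e + 2 * y) ≤ QX 24 da dP dQ dp dq (-s) e y := by
  obtain ⟨C, hC, h2, h3⟩ := Eng.cells_cover hs.le hs1
  refine PM.neg_all C hC s e y h2 h3 hr.1.le ?_ h0 h1
  have h := hr.2.2
  rw [abs_of_pos hs] at h
  linarith

end Ex

end Pool.Agent.Saddle
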