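import Pool.Agent.Saddle.R1

/-!
# Kernel checks for the residual
-/

namespace Pool.Agent.Saddle.Eng

set_option maxRecDepth 100000

theorem rr1 : listOK 1106 11 82 prR 2 true T1 8 0 [50] = true := by decide +kernel
theorem rr2 : listOK 1107 11 82 prR 2 true T2 8 0 [48] = true := by decide +kernel
theorem rr3 : listOK 1107 11 82 prR 2 true T3 8 0 [45] = true := by decide +kernel
theorem rr4 : listOK 1108 11 82 prR 2 true T4 8 0 [43] = true := by decide +kernel
theorem rr5 : listOK 1108 11 82 prR 2 true T5 8 0 [41] = true := by decide +kernel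
theorem rr6 : listOK 1109 11 82 prR 2 true T6 8 0 [39] = true := by decide +kernel
theorem rr7 : listOK 1109 11 82 prR 2 true T7 8 0 [37] = true := by decide +kernel
theorem rr8 : listOK 1110 11 82 prR 2 true T8 8 0 [36] = true := by decide +kernel
theorem rr9 : listOK 1110 11 82 prR 2 true T9 8 0 [34] = true := by decide +kernel
theorem rr10 : listOK 1110 11 82 prR 2 true T10 8 0 [33] = true := by decide +kernel
theorem rr11 : listOK 1110 11 82 prR 2 true T11 8 0 [31] = true := by decide +kernel
theorem rr12 : listOK 1111 11 82 prR 2 true T12 8 0 [30] = true := by decide +kernel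
theorem rr13 : listOK 1111 11 82 prR 2 true T13 8 0 [29] = true := by decide +kernel
theorem rr14 : listOK 1069 11 76 prR 2 true T14 8 0 [27] = true := by decide +kernel
theorem rr15 : listOK 1069 11 76 prR 2 true T15 8 0 [26] = true := by decide +kernel
theorem rr16 : listOK 1069 11 76 prR 2 true T16 8 0 [25] = true := by decide +kernel
theorem rr17 : listOK 1034 11 71 prR 2 true T17 8 0 [24] = true := by decide +kernel
theorem rr18 : listOK 1034 11 71 prR 2 true T18 8 0 [23] = true := by decide +kernel
theorem rr19 : listOK 1034 11 71 prR 2 true T19 8 0 [23] = true := by decide +kernel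
theorem rr20 : listOK 1034 11 71 prR 2 true T20 8 0 [22] = true := by decide +kernel
theorem rr21 : listOK 1034 11 71 prR 2 true T21 8 0 [21] = true := by decide +kernel
theorem rr22 : listOK 1034 11 71 prR 2 true T22 8 0 [20] = true := by decide +kernel
theorem rr23 : listOK 1034 11 71 prR 2 true T23 8 0 [20] = true := by decide +kernel
theorem rr24 : listOK 1034 11 71 prR 2 true T24 8 0 [19] = true := by decide +kernel
theorem rr25 : listOK 1034 11 71 prR 2 true T25 8 0 [19] = true := by decide +kernel
theorem rr26 : listOK 1034 11 71 prR 2 true T26 8 0 [18] = true := by decide +kernel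
theorem rr27 : listOK 1034 11 71 prR 2 true T27 8 0 [17] = true := by decide +kernel
theorem rr28 : listOK 1034 11 71 prR 2 true T28 8 0 [17] = true := by decide +kernel
theorem rr29 : listOK 1034 11 71 prR 2 true T29 8 0 [17] = true := by decide +kernel
theorem rr30 : listOK 1034 11 71 prR 2 true T30 8 0 [16] = true := by decide +kernel
theorem rr31 : listOK 1034 11 71 prR 2 true T31 8 0 [16] = true := by decide +kernel
theorem rr32 : listOK 1034 11 71 prR 2 true T32 8 0 [15] = true := by decide +kernel
theorem rr33 : listOK 1034 11 71 prR 2 true T33 8 0 [15] = true := by decide +kernel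
theorem rr34 : listOK 1033 11 71 prR 2 true T34 8 0 [14] = true := by decide +kernel
theorem rr35 : listOK 991 11 65 prR 2 true T35 8 0 [14] = true := by decide +kernel
theorem rr36 : listOK 991 11 65 prR 2 true T36 8 0 [14] = true := by decide +kernel
theorem rr37 : listOK 991 11 65 prR 2 true T37 8 0 [13] = true := by decide +kernel
theorem rr38 : listOK 991 11 65 prR 2 true T38 8 0 [13] = true := by decide +kernel
theorem rr39 : listOK 991 11 65 prR 2 true T39 8 0 [13] = true := by decide +kernel
theorem rr40 : listOK 991 11 65 prR 2 true T40 8 0 [13] = true := by decide +kernel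
theorem rr41 : listOK 991 11 65 prR 2 true T41 8 0 [12] = true := by decide +kernel
theorem rr42 : listOK 991 11 65 prR 2 true T42 8 0 [12] = true := by decide +kernel
theorem rr43 : listOK 956 11 60 prR 2 true T43 8 0 [12] = true := by decide +kernel
theorem rr44 : listOK 956 11 60 prR 2 true T44 8 0 [12] = true := by decide +kernel
theorem rr45 : listOK 955 11 60 prR 2 true T45 8 0 [11] = true := by decide +kernel
theorem rr46 : listOK 955 11 60 prR 2 true T46 8 0 [11] = true := by decide +kernel
theorem rr47 : listOK 955 11 60 prR 2 true T47 8 0 [11] = true := by decide +kernel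
theorem rr48 : listOK 955 11 60 prR 2 true T48 8 0 [11] = true := by decide +kernel
theorem rr49 : listOK 955 11 60 prR 2 true T49 8 0 [11] = true := by decide +kernel
theorem rr50 : listOK 955 11 60 prR 2 true T50 8 0 [10] = true := by decide +kernel
theorem rr51 : listOK 913 11 54 prR 2 true T51 8 0 [10] = true := by decide +kernel
theorem rr52 : listOK 913 11 54 prR 2 true T52 8 0 [10] = true := by decide +kernel
theorem rr53 : listOK 913 11 54 prR 2 true T53 8 0 [10] = true := by decide +kernel
theorem rr54 : listOK 913 11 54 prR 2 true T54 8 0 [10] = true := by decide +kernel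
theorem rr55 : listOK 913 11 54 prR 2 true T55 8 0 [10] = true := by decide +kernel
theorem rr56 : listOK 912 11 54 prR 2 true T56 8 0 [9] = true := by decide +kernel
theorem rr57 : listOK 912 11 54 prR 2 true T57 8 0 [9] = true := by decide +kernel
theorem rr58 : listOK 912 11 54 prR 2 true T58 8 0 [9] = true := by decide +kernel
theorem rr59 : listOK 912 11 54 prR 2 true T59 8 0 [9] = true := by decide +kernel
theorem rr60 : listOK 912 11 54 prR 2 true T60 8 0 [9] = true := by decide +kernel
theorem rr61 : listOK 912 11 54 prR 2 true T61 8 0 [9] = true := by decide +kernel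
theorem rr62 : listOK 912 11 54 prR 2 true T62 8 0 [9] = true := by decide +kernel
theorem rr63 : listOK 911 11 54 prR 2 true T63 8 0 [8] = true := by decide +kernel
theorem rr64 : listOK 946 11 59 prR 2 true T64 8 0 [8] = true := by decide +kernel
theorem rr65 : listOK 946 11 59 prR 2 true T65 8 0 [8] = true := by decide +kernel
theorem rr66 : listOK 946 11 59 prR 2 true T66 8 0 [8] = true := by decide +kernel
theorem rr67 : listOK 946 11 59 prR 2 true T67 8 0 [8] = true := by decide +kernel
theorem rr68 : listOK 910 11 54 prR 2 true T68 8 0 [7] = true := by decide +kernel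
theorem rr69 : listOK 868 11 48 prR 2 true T69 8 0 [7] = true := by decide +kernel
theorem rr70 : listOK 868 11 48 prR 2 true T70 8 0 [7] = true := by decide +kernel
theorem rr71 : listOK 868 11 48 prR 2 true T71 8 0 [7] = true := by decide +kernel
theorem rr72 : listOK 868 11 48 prR 2 true T72 8 0 [7] = true := by decide +kernel
theorem rr73 : listOK 868 11 48 prR 2 true T73 8 0 [7] = true := by decide +kernel
theorem rr74 : listOK 867 11 48 prR 2 true T74 8 0 [7] = true := by decide +kernel
theorem rr75 : listOK 825 11 42 prR 2 true T75 8 0 [6] = true := by decide +kernel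
theorem rr76 : listOK 824 11 42 prR 2 true T76 8 0 [6] = true := by decide +kernel
theorem rr77 : listOK 824 11 42 prR 2 true T77 8 0 [6] = true := by decide +kernel
theorem rr78 : listOK 824 11 42 prR 2 true T78 8 0 [6] = true := by decide +kernel
theorem rr79 : listOK 824 11 42 prR 2 true T79 8 0 [6] = true := by decide +kernel
theorem rr80 : listOK 824 11 42 prR 2 true T80 8 0 [6] = true := by decide +kernel
theorem rr81 : listOK 824 11 42 prR 2 true T81 8 0 [6] = true := by decide +kernel
theorem rr82 : listOK 823 11 42 prR 2 true T82 8 0 [6] = true := by decide +kernel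
theorem rr83 : listOK 823 11 42 prR 2 true T83 8 0 [5] = true := by decide +kernel
theorem rr84 : listOK 822 11 42 prR 2 true T84 8 0 [5] = true := by decide +kernel
theorem rr85 : listOK 787 11 37 prR 2 true T85 8 0 [5] = true := by decide +kernel
theorem rr86 : listOK 787 11 37 prR 2 true T86 8 0 [5] = true := by decide +kernel
theorem rr87 : listOK 787 11 37 prR 2 true T87 8 0 [5] = true := by decide +kernel
theorem rr88 : listOK 787 11 37 prR 2 true T88 8 0 [5] = true := by decide +kernel
theorem rr89 : listOK 786 11 37 prR 2 true T89 8 0 [5] = true := by decide +kernel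
theorem rr90 : listOK 786 11 37 prR 2 true T90 8 0 [5] = true := by decide +kernel
theorem rr91 : listOK 786 11 37 prR 2 true T91 8 0 [5] = true := by decide +kernel
theorem rr92 : listOK 786 11 37 prR 2 true T92 8 0 [5] = true := by decide +kernel
theorem rr93 : listOK 786 11 37 prR 2 true T93 8 0 [5] = true := by decide +kernel
theorem rr94 : listOK 786 11 37 prR 2 true T94 8 0 [5] = true := by decide +kernel
theorem rr95 : listOK 786 11 37 prR 2 true T95 8 0 [5] = true := by decide +kernel
theorem rr0 : posn 1150 11 90 2 (runw 1150 11 prR0 (omEnv 1150 11 0 53 8)) = true := by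
  decide +kernel

theorem rr_all {x y : ℝ} (hx0 : 1 / 8 ≤ x) (hx1 : x < 16) (hy : 0 ≤ y)
    (h24 : 24 * y ^ 2 + 4 * x * y ≤ 1) :
    ∀ i < 2, 0 ≤ (runR prR [Real.tanh x, 1 / Real.cosh x, x, y]).getD i 0 := by
  obtain ⟨C, hC, h1, h2⟩ := cells_cover (by linarith : 0 ≤ x) hx1
  have key : ∀ {C : Cell} {w dd K ke : ℕ} {es : List ℕ}, Good C →
      listOK w dd K prR 2 true C ke 0 es = true → C.l ≤ x → x < C.r →
      ∀ i < 2, 0 ≤ (runR prR [Real.tanh x, 1 / Real.cosh x, x, y]).getD i 0 := by
    intro C w dd K ke es hg hl h1 h2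
    have h3 := list_sound hg es 0 hl h1 h2 (by simpa using hy) h24
    simpa using h3
  simp only [cells, List.mem_cons, List.not_mem_nil, or_false] at hC
  rcases hC with rfl | rfl | rfl | rfl | rfl | rfl | rfl | rfl | rfl | rfl | rfl | rfl | rfl |
      rfl | rfl | rfl | rfl | rfl | rfl | rfl | rfl | rfl | rfl | rfl | rfl | rfl | rfl | rfl |
      rfl | rfl | rfl | rfl | rfl | rfl | rfl | rfl | rfl | rfl | rfl | rfl | rfl | rfl | rfl |
      rfl | rfl | rfl | rfl | rfl | rfl | rfl | rfl | rfl | rfl | rfl | rfl | rfl | rfl | rfl |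
      rfl | rfl | rfl | rfl | rfl | rfl | rfl | rfl | rfl | rfl | rfl | rfl | rfl | rfl | rfl |
      rfl | rfl | rfl | rfl | rfl | rfl | rfl | rfl | rfl | rfl | rfl | rfl | rfl | rfl | rfl |
      rfl | rfl | rfl | rfl | rfl | rfl | rfl | rfl
  · exfalso
    rw [T0_r] at h2
    linarith
  · exact key gd1 rr1 h1 h2
  · exact key gd2 rr2 h1 h2
  · exact key gd3 rr3 h1 h2
  · exact key gd4 rr4 h1 h2
  · exact key gd5 rr5 h1 h2
  · exact key gd6 rr6 h1 h2
  · exact key gd7 rr7 h1 h2
  · exact key gd8 rr8 h1 h2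
  · exact key gd9 rr9 h1 h2
  · exact key gd10 rr10 h1 h2
  · exact key gd11 rr11 h1 h2
  · exact key gd12 rr12 h1 h2
  · exact key gd13 rr13 h1 h2
  · exact key gd14 rr14 h1 h2
  · exact key gd15 rr15 h1 h2
  · exact key gd16 rr16 h1 h2
  · exact key gd17 rr17 h1 h2
  · exact key gd18 rr18 h1 h2
  · exact key gd19 rr19 h1 h2
  · exact key gd20 rr20 h1 h2
  · exact key gd21 rr21 h1 h2
  · exact key gd22 rr22 h1 h2
  · exact key gd23 rr23 h1 h2
  · exact key gd24 rr24 h1 h2
  · exact key gd25 rr25 h1 h2
  · exact key gd26 rr26 h1 h2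
  · exact key gd27 rr27 h1 h2
  · exact key gd28 rr28 h1 h2
  · exact key gd29 rr29 h1 h2
  · exact key gd30 rr30 h1 h2
  · exact key gd31 rr31 h1 h2
  · exact key gd32 rr32 h1 h2
  · exact key gd33 rr33 h1 h2
  · exact key gd34 rr34 h1 h2
  · exact key gd35 rr35 h1 h2
  · exact key gd36 rr36 h1 h2
  · exact key gd37 rr37 h1 h2
  · exact key gd38 rr38 h1 h2
  · exact key gd39 rr39 h1 h2
  · exact key gd40 rr40 h1 h2
  · exact key gd41 rr41 h1 h2
  · exact key gd42 rr42 h1 h2
  · exact key gd43 rr43 h1 h2
  · exact key gd44 rr44 h1 h2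
  · exact key gd45 rr45 h1 h2
  · exact key gd46 rr46 h1 h2
  · exact key gd47 rr47 h1 h2
  · exact key gd48 rr48 h1 h2
  · exact key gd49 rr49 h1 h2
  · exact key gd50 rr50 h1 h2
  · exact key gd51 rr51 h1 h2
  · exact key gd52 rr52 h1 h2
  · exact key gd53 rr53 h1 h2
  · exact key gd54 rr54 h1 h2
  · exact key gd55 rr55 h1 h2
  · exact key gd56 rr56 h1 h2
  · exact key gd57 rr57 h1 h2
  · exact key gd58 rr58 h1 h2
  · exact key gd59 rr59 h1 h2
  · exact key gd60 rr60 h1 h2
  · exact key gd61 rr61 h1 h2
  · exact key gd62 rr62 h1 h2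
  · exact key gd63 rr63 h1 h2
  · exact key gd64 rr64 h1 h2
  · exact key gd65 rr65 h1 h2
  · exact key gd66 rr66 h1 h2
  · exact key gd67 rr67 h1 h2
  · exact key gd68 rr68 h1 h2
  · exact key gd69 rr69 h1 h2
  · exact key gd70 rr70 h1 h2
  · exact key gd71 rr71 h1 h2
  · exact key gd72 rr72 h1 h2
  · exact key gd73 rr73 h1 h2
  · exact key gd74 rr74 h1 h2
  · exact key gd75 rr75 h1 h2
  · exact key gd76 rr76 h1 h2
  · exact key gd77 rr77 h1 h2
  · exact key gd78 rr78 h1 h2
  · exact key gd79 rr79 h1 h2
  · exact key gd80 rr80 h1 h2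
  · exact key gd81 rr81 h1 h2
  · exact key gd82 rr82 h1 h2
  · exact key gd83 rr83 h1 h2
  · exact key gd84 rr84 h1 h2
  · exact key gd85 rr85 h1 h2
  · exact key gd86 rr86 h1 h2
  · exact key gd87 rr87 h1 h2
  · exact key gd88 rr88 h1 h2
  · exact key gd89 rr89 h1 h2
  · exact key gd90 rr90 h1 h2
  · exact key gd91 rr91 h1 h2
  · exact key gd92 rr92 h1 h2
  · exact key gd93 rr93 h1 h2
  · exact key gd94 rr94 h1 h2
  · exact key gd95 rr95 h1 h2

end Pool.Agent.Saddle.Eng

namespace Pool.Agent.Saddle.Ex

theorem reg24 {s e : ℝ} (hr : Reg 24 s e) (hs : 0 ≤ s) : 24 * e ^ 2 + 4 * s * e ≤ 1 := by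
  have h := hr.2.2
  rw [abs_of_nonneg hs] at h
  linarith

theorem sech_eq (x : ℝ) : 1 / Real.cosh x = sech x := one_div _

theorem Rr_signs {s e : ℝ} (hr : Reg 24 s e) (hs : 0 < s) (hs1 : s < 16) :
    Eng.Rr 1 s e (Real.tanh s) (sech s) ≤ 0 ∧ 0 ≤ Eng.Rr (-1) s e (Real.tanh s) (sech s) := by
  have h24 := reg24 hr hs.le
  by_cases h8 : s < 1 / 8
  · have hy2 : e < ((53 : ℕ) : ℝ) / 2 ^ 8 := by
      by_contra hcon
      rw [not_lt] at hcon
      have h1 : (53 : ℝ) / 256 ≤ e := by
        refine le_trans (le_of_eq ?_) hcon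
        norm_num
      have h2 : 0 ≤ s * e := mul_nonneg hs.le hr.1.le
      nlinarith
    have h := Eng.om_sound Eng.rr0 hs h8 (by simpa using hr.1.le) hy2
    have e1 : Real.tanh s = s * (Real.tanh s / s) := by field_simp
    have h0 := h 0 (by norm_num)
    have h1 := h 1 (by norm_num)
    rw [Eng.prR0_0, sech_eq] at h0
    rw [Eng.prR0_1, sech_eq] at h1
    rw [e1, Eng.Rr_o, Eng.Rr_o]
    constructor
    · have := mul_nonneg hs.le h0
      linarith
    · exact mul_nonneg hs.le h1
  · have h := Eng.rr_all (not_lt.1 h8) hs1 hr.1.le h24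
    have h0 := h 0 (by norm_num)
    have h1 := h 1 (by norm_num)
    rw [Eng.prR_0, sech_eq] at h0
    rw [Eng.prR_1, sech_eq] at h1
    exact ⟨by linarith, h1⟩

theorem rx_eq_plus (s e : ℝ) : RX 24 (add (ga da) dD) s e =
    sech s * Eng.Rr 1 s e (Real.tanh s) (sech s) := by
  rw [rx_plus]
  have h1 : (rt 24 da).f s e = _ := rt_r s e (Real.tanh s) (sech s)
  have h2 : (ln 24 dD).f s e = _ := ln_v s e (Real.tanh s) (sech s)
  have h3 : dD.f s e = _ := dD_v s e (Real.tanh s) (sech s)
  have h4 : da.f s e = _ := da_r s e (Real.tanh s) (sech s)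
  rw [h1, h2, h3, ga_f, h4, ld_r, ← sech_sq]
  unfold Eng.Rr
  ring

theorem rx_eq_minus (s e : ℝ) : RX 24 (sub (ga da) dD) s e =
    sech s * Eng.Rr (-1) s e (Real.tanh s) (sech s) := by
  rw [rx_minus]
  have h1 : (rt 24 da).f s e = _ := rt_r s e (Real.tanh s) (sech s)
  have h2 : (ln 24 dD).f s e = _ := ln_v s e (Real.tanh s) (sech s)
  have h3 : dD.f s e = _ := dD_v s e (Real.tanh s) (sech s)
  have h4 : da.f s e = _ := da_r s e (Real.tanh s) (sech s)
  rw [h1, h2, h3, ga_f, h4, ld_r, ← sech_sq]
  unfold Eng.Rr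
  ring

/-- The supersolution inequality for `0 < s < 16`. -/
theorem su_in (s e : ℝ) (hr : Reg 24 s e) (hs : 0 < s) (hs1 : s < 16) :
    RX 24 (add (ga da) dD) s e ≤ 0 := by
  rw [rx_eq_plus]
  exact mul_nonpos_of_nonneg_of_nonpos (sech_pos s).le (Rr_signs hr hs hs1).1

/-- The subsolution inequality for `0 < s < 16`. -/
theorem sl_in (s e : ℝ) (hr : Reg 24 s e) (hs : 0 < s) (hs1 : s < 16) :
    0 ≤ RX 24 (sub (ga da) dD) s e := by
  rw [rx_eq_minus]
  exact mul_nonneg (sech_pos s).le (Rr_signs hr hs hs1).2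

end Pool.Agent.Saddle.Ex
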