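import Pool.Agent.Saddle.A4

/-!
# The saddle solution is the unique minimizer for its boundary values

The strict form of the reduction in `A2` and `A3`: the energy difference of a nonzero perturbation
is positive.
-/

set_option autoImplicit false

noncomputable section

open MeasureTheory Set Filter Metric
open scoped Topology

namespace Pool.Agent.Saddle

/-- The pointwise inequality with the square term kept. -/
theorem point_sq {u ψ : E8 → ℝ} {B C : E8 → E8} (hu : ContDiff ℝ 2 u) (hac : AC u)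
    (hB : ContDiff ℝ 1 B) (hC : ContDiff ℝ 1 C) (hs : Star u B C) {x : E8}
    (hψ : DifferentiableAt ℝ ψ x) (h0 : 0 ≤ ψ x) (h1 : ψ x ≤ 1 - u x) :
    1 / 2 * ∑ i, (fderiv ℝ ψ x (ev i) + ψ x * B x i + ψ x ^ 2 * C x i) ^ 2 ≤
      (en (fun y => u y + ψ y) x - en u x) - ∑ i, fderiv ℝ (Fld u ψ B C i) x (ev i) := by
  have hud : DifferentiableAt ℝ u x := hu.differentiable two_ne_zero x
  have e1 : fderiv ℝ (fun y => u y + ψ y) x = fderiv ℝ u x + fderiv ℝ ψ x :=
    fderiv_add hud hψ
  have h2 := hs x (ψ x) h0 h1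
  have h3 := hac x
  unfold en
  rw [e1, normsq, normsq, Finset.sum_congr rfl fun i _ => Fld_fderiv hu hB hC i hψ]
  rw [EuclideanSpace.norm_sq_eq, EuclideanSpace.norm_sq_eq] at h2
  have h4 : inner ℝ (B x) (C x) = ∑ i, B x i * C x i := by
    rw [PiLp.inner_apply]
    refine Finset.sum_congr rfl fun i _ => ?_
    simp [mul_comm]
  rw [h4] at h2
  unfold dv at h2
  simp only [add_apply]
  generalize u x = U at *
  generalize ψ x = y at *
  generalize fderiv ℝ u x = a at *
  generalize fderiv ℝ ψ x = p at *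
  generalize B x = b at *
  generalize C x = c at *
  generalize fderiv ℝ B x = β at *
  generalize fderiv ℝ C x = γ at *
  have h5 : (∑ i, fderiv ℝ (fun y => fderiv ℝ u y (ev i)) x (ev i)) = U ^ 3 - U := by linarith
  have key : ((∑ i, (a (ev i) + p (ev i)) ^ 2) / 2 + (1 - (U + y) ^ 2) ^ 2 / 4 -
      ((∑ i, a (ev i) ^ 2) / 2 + (1 - U ^ 2) ^ 2 / 4)) -
      (∑ i, ((fderiv ℝ (fun y => fderiv ℝ u y (ev i)) x (ev i) * y + a (ev i) * p (ev i)) -
        1 / 2 * (β (ev i) i * y ^ 2 + 2 * b i * y * p (ev i)) -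
        1 / 3 * (γ (ev i) i * y ^ 3 + 3 * c i * y ^ 2 * p (ev i)))) =
      1 / 2 * ∑ i, (p (ev i) + y * b i + y ^ 2 * c i) ^ 2 +
      y ^ 2 / 2 * ((3 * U ^ 2 - 1 - ∑ i, ‖b i‖ ^ 2 + ∑ i, β (ev i) i) +
        y * (2 * U - 2 * (∑ i, b i * c i) + 2 / 3 * ∑ i, γ (ev i) i) +
        y ^ 2 * (1 / 2 - ∑ i, ‖c i‖ ^ 2)) := by
    have e2 : (∑ i, ((fderiv ℝ (fun y => fderiv ℝ u y (ev i)) x (ev i) * y +
        a (ev i) * p (ev i)) -
        1 / 2 * (β (ev i) i * y ^ 2 + 2 * b i * y * p (ev i)) -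
        1 / 3 * (γ (ev i) i * y ^ 3 + 3 * c i * y ^ 2 * p (ev i)))) =
        (U ^ 3 - U) * y + ∑ i, a (ev i) * p (ev i) - 1 / 2 * y ^ 2 * ∑ i, β (ev i) i -
        y * ∑ i, b i * p (ev i) - 1 / 3 * y ^ 3 * ∑ i, γ (ev i) i -
        y ^ 2 * ∑ i, c i * p (ev i) := by
      rw [← h5, Finset.sum_mul, Finset.mul_sum, Finset.mul_sum, Finset.mul_sum, Finset.mul_sum,
        ← Finset.sum_add_distrib, ← Finset.sum_sub_distrib, ← Finset.sum_sub_distrib,
        ← Finset.sum_sub_distrib, ← Finset.sum_sub_distrib]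
      refine Finset.sum_congr rfl fun i _ => ?_
      ring
    have e3 : ∑ i, (a (ev i) + p (ev i)) ^ 2 = ∑ i, a (ev i) ^ 2 + 2 * ∑ i, a (ev i) * p (ev i) +
        ∑ i, p (ev i) ^ 2 := by
      rw [Finset.mul_sum, ← Finset.sum_add_distrib, ← Finset.sum_add_distrib]
      refine Finset.sum_congr rfl fun i _ => ?_
      ring
    have e4 : ∑ i, (p (ev i) + y * b i + y ^ 2 * c i) ^ 2 = ∑ i, p (ev i) ^ 2 +
        y ^ 2 * ∑ i, ‖b i‖ ^ 2 + y ^ 4 * ∑ i, ‖c i‖ ^ 2 + 2 * y * ∑ i, b i * p (ev i) +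
        2 * y ^ 2 * ∑ i, c i * p (ev i) + 2 * y ^ 3 * ∑ i, b i * c i := by
      rw [Finset.mul_sum, Finset.mul_sum, Finset.mul_sum, Finset.mul_sum, Finset.mul_sum,
        ← Finset.sum_add_distrib, ← Finset.sum_add_distrib, ← Finset.sum_add_distrib,
        ← Finset.sum_add_distrib, ← Finset.sum_add_distrib]
      refine Finset.sum_congr rfl fun i _ => ?_
      rw [Real.norm_eq_abs, Real.norm_eq_abs, sq_abs, sq_abs]
      ring
    rw [e2, e3, e4]
    ring
  have h7 := mul_nonneg (by positivity : 0 ≤ y ^ 2 / 2) h2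
  linarith

/-- A Lipschitz function with compact support which is nonnegative and satisfies a linear
differential inequality in one direction vanishes. -/
theorem no_ode {ψ : E8 → ℝ} (hψ : LC ψ) (h0 : ∀ x, 0 ≤ ψ x) (hne : ψ ≠ 0) {b : E8 → ℝ} {K₀ : ℝ}
    (hb : ∀ x ∈ tsupport ψ, b x ≤ K₀)
    (hd : ∀ᵐ x : E8, fderiv ℝ ψ x (ev 0) = -(ψ x * b x)) : False := by
  set K := K₀ + 1 with hK
  set E : E8 → ℝ := fun x => Real.exp (K * x 0) with hE
  have hEc : ContDiff ℝ 1 E := by
    have h1 : ContDiff ℝ 1 fun x : E8 => x 0 :=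
      (EuclideanSpace.proj (0 : Fin 8) : E8 →L[ℝ] ℝ).contDiff
    exact (contDiff_const.mul h1).exp
  have hEd : ∀ x, fderiv ℝ E x (ev 0) = E x * K := by
    intro x
    have h1 : HasFDerivAt (fun x : E8 => x 0) (EuclideanSpace.proj (0 : Fin 8) : E8 →L[ℝ] ℝ) x :=
      (EuclideanSpace.proj (0 : Fin 8) : E8 →L[ℝ] ℝ).hasFDerivAt
    have h2 := (h1.const_mul K).exp
    have h3 : HasFDerivAt E _ x := h2
    rw [h3.fderiv]
    simp [ev, hE]
  have hF : LC fun x => ψ x * E x := by
    have h1 := hψ.mul_contDiff hEc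
    have e : (fun x => E x * ψ x) = fun x => ψ x * E x := by
      funext x
      ring
    rwa [e] at h1
  have hint := hF.integral_fderiv (ev 0)
  have hint2 := hF.integrable_fderiv (ev 0)
  have hcont : Continuous fun x => ψ x * E x := hF.cont
  have hpos : 0 < ∫ x, ψ x * E x := by
    obtain ⟨x, hx⟩ : ∃ x, ψ x ≠ 0 := by
      by_contra h
      push Not at h
      exact hne (funext h)
    exact hcont.integral_pos_of_hasCompactSupport_nonneg_nonzero hF.2
      (fun x => mul_nonneg (h0 x) (Real.exp_pos _).le)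
      (x := x) (mul_ne_zero hx (Real.exp_pos _).ne')
  have hle : ∫ x, ψ x * E x ≤ ∫ x, fderiv ℝ (fun x => ψ x * E x) x (ev 0) := by
    refine integral_mono_ae (hcont.integrable_of_hasCompactSupport hF.2) hint2 ?_
    filter_upwards [hd, hψ.ae_diff] with x hx hdx
    have h1 : fderiv ℝ (fun x => ψ x * E x) x (ev 0) =
        ψ x * (E x * K) + E x * -(ψ x * b x) := by
      have h2 : fderiv ℝ (fun x => ψ x * E x) x =
          ψ x • fderiv ℝ E x + E x • fderiv ℝ ψ x :=
        fderiv_fun_mul hdx (hEc.differentiable one_ne_zero x)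
      rw [h2]
      simp only [add_apply, smul_apply, smul_eq_mul]
      rw [hEd, hx]
    rw [h1]
    by_cases hxs : x ∈ tsupport ψ
    · have h2 := hb x hxs
      have h3 : 0 ≤ ψ x * E x := mul_nonneg (h0 x) (Real.exp_pos _).le
      have h4 : 0 ≤ ψ x * E x * (K₀ - b x) := mul_nonneg h3 (by linarith)
      have h5 : ψ x * (E x * K) + E x * -(ψ x * b x) = ψ x * E x + ψ x * E x * (K₀ - b x) := by
        rw [hK]
        ring
      linarith
    · rw [image_eq_zero_of_notMem_tsupport hxs]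
      simp
  rw [hint] at hle
  linarith

/-- The strict form of the main lemma. -/
theorem main_strict {u ψ : E8 → ℝ} {B C : E8 → E8} (hu : ContDiff ℝ 2 u) (hac : AC u)
    (hB : ContDiff ℝ 1 B) (hC : ContDiff ℝ 1 C) (hs : Star u B C) (hψ : LC ψ)
    (h0 : ∀ x, 0 ≤ ψ x) (h1 : ∀ x, ψ x ≤ 1 - u x) (hne : ψ ≠ 0) :
    0 < ∫ x, (en (fun y => u y + ψ y) x - en u x) := by
  by_contra hcon
  push Not at hcon
  set G : E8 → ℝ := fun x => (en (fun y => u y + ψ y) x - en u x) -
    ∑ i, fderiv ℝ (Fld u ψ B C i) x (ev i) with hG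
  have i1 := en_integrable hu hψ
  have i2 : Integrable fun x => ∑ i, fderiv ℝ (Fld u ψ B C i) x (ev i) :=
    integrable_finsetSum _ fun i _ => (Fld_LC hu hB hC hψ i).integrable_fderiv _
  have h2 : ∫ x, ∑ i, fderiv ℝ (Fld u ψ B C i) x (ev i) = 0 := by
    rw [integral_finsetSum _ fun i _ => (Fld_LC hu hB hC hψ i).integrable_fderiv _]
    exact Finset.sum_eq_zero fun i _ => (Fld_LC hu hB hC hψ i).integral_fderiv _
  have hGi : Integrable G := i1.sub i2
  have hGint : ∫ x, G x ≤ 0 := by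
    rw [hG, integral_sub i1 i2, h2, sub_zero]
    exact hcon
  have hGlow : ∀ᵐ x : E8, 1 / 2 *
      ∑ i, (fderiv ℝ ψ x (ev i) + ψ x * B x i + ψ x ^ 2 * C x i) ^ 2 ≤ G x := by
    filter_upwards [hψ.ae_diff] with x hx
    exact point_sq hu hac hB hC hs hx (h0 x) (h1 x)
  have hGnn : 0 ≤ᵐ[volume] G := by
    filter_upwards [hGlow] with x hx
    refine le_trans ?_ hx
    exact mul_nonneg (by norm_num) (Finset.sum_nonneg fun i _ => sq_nonneg _)
  have hG0 : G =ᵐ[volume] 0 := by
    rw [← integral_eq_zero_iff_of_nonneg_ae hGnn hGi]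
    exact le_antisymm hGint (integral_nonneg_of_ae hGnn)
  have hder : ∀ᵐ x : E8, fderiv ℝ ψ x (ev 0) = -(ψ x * (B x 0 + ψ x * C x 0)) := by
    filter_upwards [hGlow, hG0] with x hx1 hx2
    rw [hx2] at hx1
    have h3 : ∑ i, (fderiv ℝ ψ x (ev i) + ψ x * B x i + ψ x ^ 2 * C x i) ^ 2 ≤ 0 := by
      have : (0 : E8 → ℝ) x = 0 := rfl
      rw [this] at hx1
      linarith
    have h4 : (fderiv ℝ ψ x (ev 0) + ψ x * B x 0 + ψ x ^ 2 * C x 0) ^ 2 ≤ 0 :=
      (Finset.single_le_sum (f := fun i =>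
        (fderiv ℝ ψ x (ev i) + ψ x * B x i + ψ x ^ 2 * C x i) ^ 2)
        (fun i _ => sq_nonneg _) (Finset.mem_univ 0)).trans h3
    have h5 : fderiv ℝ ψ x (ev 0) + ψ x * B x 0 + ψ x ^ 2 * C x 0 = 0 := by
      have := le_antisymm h4 (sq_nonneg _)
      exact pow_eq_zero_iff two_ne_zero |>.1 this
    linear_combination h5
  have hbc : Continuous fun x : E8 => B x 0 + ψ x * C x 0 :=
    (coord_contDiff hB 0).continuous.add (hψ.cont.mul (coord_contDiff hC 0).continuous)
  obtain ⟨K₀, hK₀⟩ := hψ.2.isCompact.exists_bound_of_continuousOn hbc.continuousOn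
  exact no_ode hψ h0 hne (b := fun x => B x 0 + ψ x * C x 0) (K₀ := K₀)
    (fun x hx => (le_abs_self _).trans (hK₀ x hx)) hder

/-- The strict form of the main lemma for negative perturbations. -/
theorem main_neg_strict {u ψ : E8 → ℝ} {B C : E8 → E8} (hu : ContDiff ℝ 2 u) (hac : AC u)
    (hodd : ∀ x, u (swp x) = -u x)
    (hB : ContDiff ℝ 1 B) (hC : ContDiff ℝ 1 C) (hs : Star u B C) (hψ : LC ψ)
    (h0 : ∀ x, 0 ≤ ψ x) (h1 : ∀ x, ψ x ≤ 1 + u x) (hne : ψ ≠ 0) :
    0 < ∫ x, (en (fun y => u y + -ψ y) x - en u x) := by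
  have h2 := main_strict hu hac hB hC hs hψ.comp_swp (fun x => h0 (swp x)) (fun x => by
    have := h1 (swp x)
    rw [hodd] at this
    linarith) (fun h => hne (by
    funext x
    have := congrFun h (swp.symm x)
    simpa using this))
  have e : (fun x => en (fun y => u y + ψ (swp y)) x - en u x) =
      fun x => (fun x => en (fun y => u y + -ψ y) x - en u x) (swp x) := by
    funext x
    beta_reduce
    rw [← en_swp (fun y => u y + -ψ y), ← en_swp u]
    have e1 : (fun x => -(u (swp x) + -ψ (swp x))) = fun y => u y + ψ (swp y) := by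
      funext y
      rw [hodd]
      ring
    have e2 : (fun x => -u (swp x)) = u := by
      funext y
      rw [hodd]
      ring
    rw [e1, e2]
  rw [e] at h2
  have h3 := (swp.measurePreserving).integral_comp' (f := swp.toHomeomorph.toMeasurableEquiv)
    (fun x => en (fun y => u y + -ψ y) x - en u x)
  rw [← h3]
  exact h2

/-- The reduction, on the whole space, strict form. -/
theorem red_whole_strict {u φ : E8 → ℝ} {B C : E8 → E8} (hu : ContDiff ℝ 2 u) (hac : AC u)
    (h1 : ∀ x, |u x| < 1) (hodd : ∀ x, u (swp x) = -u x)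
    (hB : ContDiff ℝ 1 B) (hC : ContDiff ℝ 1 C) (hs : Star u B C)
    (hφ : ContDiff ℝ 1 φ) (hφc : HasCompactSupport φ) (hne : φ ≠ 0) :
    0 < ∫ x, (en (fun y => u y + φ y) x - en u x) := by
  obtain ⟨χ, hχ0, hχc, hχφ, hχ⟩ := cutoff (tsupport φ) hφc
  have h1' : ∀ x, |(-u x)| < 1 := fun x => by
    rw [abs_neg]
    exact h1 x
  have hφc' : HasCompactSupport fun y => -φ y := by
    refine HasCompactSupport.intro hφc fun x hx => ?_
    rw [image_eq_zero_of_notMem_tsupport hx, neg_zero]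
  have hχφ' : ∀ x ∈ tsupport (fun y => -φ y), χ x = 1 := by
    intro y hy
    apply hχφ
    have : tsupport (fun y => -φ y) = tsupport φ := by
      unfold tsupport
      congr 1
      ext z
      simp
    rwa [this] at hy
  have L1 : LC (tr u φ χ) := tr_LC hu h1 hφ hφc hχ0 hχc hχ
  have L2 : LC (tr (fun y => -u y) (fun y => -φ y) χ) :=
    tr_LC (u := fun y => -u y) (φ := fun y => -φ y) hu.neg h1' hφ.neg hφc' hχ0 hχc hχ
  have m1 := main hu hac hB hC hs L1 (tr_nonneg h1 hχ) (tr_le h1 hχ hχφ)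
  have t2 : ∀ x, tr (fun y => -u y) (fun y => -φ y) χ x ≤ 1 + u x := fun x => by
    have := tr_le (u := fun y => -u y) (φ := fun y => -φ y) h1' hχ hχφ' x
    linarith
  have t0 : ∀ x, 0 ≤ tr (fun y => -u y) (fun y => -φ y) χ x :=
    tr_nonneg (u := fun y => -u y) (φ := fun y => -φ y) h1' hχ
  have m2 := main_neg hu hac hodd hB hC hs L2 t0 t2
  have i1 := en_integrable hu L1
  have i2 := en_integrable hu L2.neg
  have i3 := en_integrable hu (LC.of_contDiff hφ hφc)
  have hpos : 0 < (∫ x, (en (fun y => u y + tr u φ χ y) x - en u x)) +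
      ∫ x, (en (fun y => u y + -tr (fun y => -u y) (fun y => -φ y) χ y) x - en u x) := by
    obtain ⟨x, hx⟩ : ∃ x, φ x ≠ 0 := by
      by_contra h
      push Not at h
      exact hne (funext h)
    have hxu := abs_lt.1 (h1 x)
    have hxχ := hχ x
    rcases lt_or_gt_of_ne hx with hx | hx
    · have hne2 : tr (fun y => -u y) (fun y => -φ y) χ ≠ 0 := by
        intro h
        have h2 : tr (fun y => -u y) (fun y => -φ y) χ x = 0 := congrFun h x
        have h3 : 0 < tr (fun y => -u y) (fun y => -φ y) χ x := by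
          unfold tr
          refine lt_min (lt_max_of_lt_left (by linarith)) ?_
          nlinarith
        linarith
      have m3 := main_neg_strict hu hac hodd hB hC hs L2 t0 t2 hne2
      linarith
    · have hne1 : tr u φ χ ≠ 0 := by
        intro h
        have h2 : tr u φ χ x = 0 := congrFun h x
        have h3 : 0 < tr u φ χ x := by
          unfold tr
          refine lt_min (lt_max_of_lt_left hx) ?_
          nlinarith
        linarith
      have m3 := main_strict hu hac hB hC hs L1 (tr_nonneg h1 hχ) (tr_le h1 hχ hχφ) hne1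
      linarith
  refine hpos.trans_le ?_
  rw [← integral_add i1 i2]
  refine integral_mono_ae (i1.add i2) i3 ?_
  filter_upwards [L1.ae_diff, L2.ae_diff] with x hx1 hx2
  exact tr_point hu h1 hφ hχ0 hχ hχφ hx1 hx2

/-- The reduction, on bounded sets, strict form. -/
theorem red_set_strict {u φ : E8 → ℝ} {B C : E8 → E8} (hu : ContDiff ℝ 2 u) (hac : AC u)
    (h1 : ∀ x, |u x| < 1) (hodd : ∀ x, u (swp x) = -u x)
    (hB : ContDiff ℝ 1 B) (hC : ContDiff ℝ 1 C) (hs : Star u B C)
    (hφ : ContDiff ℝ 1 φ) (hne : φ ≠ 0) {Ω : Set E8} (hb : Bornology.IsBounded Ω)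
    (hR : tsupport φ ⊆ Ω) :
    ∫ x in Ω, en u x < ∫ x in Ω, en (fun y => u y + φ y) x := by
  obtain ⟨R, hΩR⟩ := hb.subset_closedBall (0 : E8)
  have hφc : HasCompactSupport φ :=
    (isCompact_closedBall (0 : E8) R).of_isClosed_subset (isClosed_tsupport φ)
      (hR.trans hΩR)
  have h2 := red_whole_strict hu hac h1 hodd hB hC hs hφ hφc hne
  have hc : ∀ v : E8 → ℝ, ContDiff ℝ 1 v → IntegrableOn (en v) Ω := fun v hv =>
    ((en_continuous hv).continuousOn.integrableOn_compact (isCompact_closedBall _ _)).mono_set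
      hΩR
  have hu1 : ContDiff ℝ 1 u := hu.of_le one_le_two
  have h3 : ∫ x in Ω, (en (fun y => u y + φ y) x - en u x) =
      ∫ x, (en (fun y => u y + φ y) x - en u x) := by
    refine setIntegral_eq_integral_of_forall_compl_eq_zero fun x hx => ?_
    have hx' : x ∉ tsupport φ := fun h => hx (hR h)
    have h4 : (fun y => u y + φ y) =ᶠ[𝓝 x] u := by
      filter_upwards [(isClosed_tsupport φ).isOpen_compl.mem_nhds hx'] with y hy
      rw [image_eq_zero_of_notMem_tsupport hy, add_zero]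
    have h5 : u x + φ x = u x := h4.eq_of_nhds
    unfold en
    rw [h4.fderiv_eq]
    beta_reduce
    rw [h5, sub_self]
  rw [← h3, integral_sub (hc _ (hu1.add hφ)) (hc _ hu1)] at h2
  linarith

end Pool.Agent.Saddle
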