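import Pool.Agent.Saddle.T5

/-!
# MP_d5c502_an, tails, part 6: the main inequality for `|s| >= 16`
-/

set_option autoImplicit false

noncomputable section

namespace Pool.Agent.Saddle

namespace Ex

theorem AL_nonneg {x y : ℝ} (hx : 16 ≤ x) (hy : 0 < y) (hxy : 4 * x * y ≤ 1) : 0 ≤ AL x y := by
  obtain ⟨z, rfl⟩ : ∃ z, x = 16 + z := ⟨x - 16, by ring⟩
  have hz : 0 ≤ z := by linarith
  have h1 : 0 ≤ 1 - 4 * (16 + z) * y := by linarith
  have h2 : AL (16 + z) y = (188717/32768) * (16 + z) ^ 4 * y ^ 2 * (1 - 4 * (16 + z) * y) + ((2106247 / 1048576) + (5372917095 / 524288) * y ^ 1 + (1875349511279 / 524288) * y ^ 2 + (421156897315 / 65536) * y ^ 3 + (10605063478263 / 65536) * y ^ 4 + (8171 / 16384) * z ^ 1 + (1125395459 / 524288) * z ^ 1 * y ^ 1 + (118609707959 / 131072) * z ^ 1 * y ^ 2 + (212066869945 / 131072) * z ^ 1 * y ^ 3 + (166578169155 / 4096) * z ^ 1 * y ^ 4 + (31 / 1024) * z ^ 2 + (77907061 /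 524288) * z ^ 2 * y ^ 1 + (11207016787 / 131072) * z ^ 2 * y ^ 2 + (10011125061 / 65536) * z ^ 2 * y ^ 3 + (31353856029 / 8192) * z ^ 2 * y ^ 4 + (55777 / 16384) * z ^ 3 * y ^ 1 + (1874846489 / 524288) * z ^ 3 * y ^ 2 + (420098587 / 65536) * z ^ 3 * y ^ 3 + (10476733173 / 65536) * z ^ 3 * y ^ 4 + (58571551 / 1048576) * z ^ 4 * y ^ 2 + (13221859 / 131072) * z ^ 4 * y ^ 3 + (327732675 / 131072) * z ^ 4 * y ^ 4) := by
    unfold AL
    ring
  rw [h2]
  positivity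

theorem DE_ge {x y : ℝ} (hx : 16 ≤ x) (hy : 0 < y) (hxy : 4 * x * y ≤ 1) : 1 / 2 ≤ DE x y := by
  obtain ⟨z, rfl⟩ : ∃ z, x = 16 + z := ⟨x - 16, by ring⟩
  have hz : 0 ≤ z := by linarith
  have h1 : 0 ≤ 1 - 4 * (16 + z) * y := by linarith
  have h2 : DE (16 + z) y = 1 / 2 + (400 * (16 + z) * ((16 + z) * y - 1 / 200) ^ 2 + (4335/256) * (16 + z) * y ^ 2 * (1 - 4 * (16 + z) * y) + ((279 / 25600) + (124537 / 512) * y ^ 1 + (4965691 / 128) * y ^ 2 + (236781 / 64) * y ^ 3 + (17 / 800) * z ^ 1 + (4171 / 256) * z ^ 1 * y ^ 1 + (1646507 / 256) * z ^ 1 * y ^ 2 + (3771 / 16) * z ^ 1 * y ^ 3 + (25 / 512) * z ^ 2 * y ^ 1 + (12173 / 32) * z ^ 2 * y ^ 2 + (65 / 8) * z ^ 3 * y ^ 2)) := by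
    unfold DE
    ring
  rw [h2]
  have h3 : 0 ≤ 400 * (16 + z) * ((16 + z) * y - 1 / 200) ^ 2 + (4335/256) * (16 + z) * y ^ 2 * (1 - 4 * (16 + z) * y) + ((279 / 25600) + (124537 / 512) * y ^ 1 + (4965691 / 128) * y ^ 2 + (236781 / 64) * y ^ 3 + (17 / 800) * z ^ 1 + (4171 / 256) * z ^ 1 * y ^ 1 + (1646507 / 256) * z ^ 1 * y ^ 2 + (3771 / 16) * z ^ 1 * y ^ 3 + (25 / 512) * z ^ 2 * y ^ 1 + (12173 / 32) * z ^ 2 * y ^ 2 + (65 / 8) * z ^ 3 * y ^ 2) := by
    positivity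
  linarith

theorem R0_ge {x y : ℝ} (hx : 16 ≤ x) (hy : 0 < y) (hxy : 4 * x * y ≤ 1) : 10 ≤ R0 x y := by
  obtain ⟨z, rfl⟩ : ∃ z, x = 16 + z := ⟨x - 16, by ring⟩
  have hz : 0 ≤ z := by linarith
  have h1 : 0 ≤ 1 - 4 * ((16 + z) * y) := by linarith
  have h2 : (R0 (16 + z) y - 10) * (16 + z) ^ 6 = (252510961152 + 133264482112 * z ^ 1 + 30739333730 * z ^ 2 + (8095392795 / 2) * z ^ 3 + (42597897265 / 128) * z ^ 4 + (17914786813 / 1024) * z ^ 5 + (18817669311 / 32768) * z ^ 6 + (44079925 / 4096) * z ^ 7 + (180535 / 2048) * z ^ 8) * (1 - 4 * ((16 + z) * y)) ^ 6 +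
    (1550875373740 + (3269962703223 / 4) * z ^ 1 + (6027284835943 / 32) * z ^ 2 + (12685228147191 / 512) * z ^ 3 + (33342111965975 / 16384) * z ^ 4 + (28018838977355 / 262144) * z ^ 5 + (459467254789 / 131072) * z ^ 6 + (4301741819 / 65536) * z ^ 7 + (8802627 / 16384) * z ^ 8) * (4 * ((16 + z) * y)) ^ 1 * (1 - 4 * ((16 + z) * y)) ^ 5 +
    ((245801659457567 / 64) + (516810701332167 / 256) * z ^ 1 + (3799777710184349 / 8192) * z ^ 2 + (3987453412809743 / 65536) * z ^ 3 + (20903099158553247 / 4194304) * z ^ 4 + (547398852259925 / 2097152) * z ^ 5 + (8951320819905 / 1048576) * z ^ 6 + (41784511731 / 262144) * z ^ 7 + (2728277067 / 2097152) * z ^ 8) * (4 * ((16 + z) * y)) ^ 2 * (1 - 4 * ((16 + z) * y)) ^ 4 +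
    ((19948464986292471 / 4096) + (166986541476770229 / 65536) * z ^ 1 + (610946301355976789 / 1048576) * z ^ 2 + (1275994137877473383 / 16777216) * z ^ 3 + (103994218101084829 / 16777216) * z ^ 4 + (5418748811074569 / 16777216) * z ^ 5 + (176284511482469 / 16777216) * z ^ 6 + (1636830428543 / 8388608) * z ^ 7 + (13284396137 / 8388608) * z ^ 8) * (4 * ((16 + z) * y)) ^ 3 * (1 - 4 * ((16 + z) * y)) ^ 3 +
    ((1725627634520587943 / 524288) + (7167700913005154295 / 4194304) * z ^ 1 + (52033812985131952359 / 134217728) * z ^ 2 + (3368099228092611429 / 67108864) * z ^ 3 + (544269093086299173 / 134217728) * z ^ 4 + (3512944129142627 / 16777216) * z ^ 5 + (905602358969745 / 134217728) * z ^ 6 + (8324820401231 / 67108864) * z ^ 7 + (133708682991 / 134217728) * z ^ 8) * (4 * ((16 + z) * y)) ^ 4 * (1 - 4 * ((16 + z) * y)) ^ 2 +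
    ((2297669417825021107 / 2097152) + (18830665978622652219 / 33554432) * z ^ 1 + (8421085456505152593 / 67108864) * z ^ 2 + (67088346651236735 / 4194304) * z ^ 3 + (85297221361771643 / 67108864) * z ^ 4 + (540754081668551 / 8388608) * z ^ 5 + (136723308609641 / 67108864) * z ^ 6 + (1230682681947 / 33554432) * z ^ 7 + (19319464599 / 67108864) * z ^ 8) * (4 * ((16 + z) * y)) ^ 5 * (1 - 4 * ((16 + z) * y)) ^ 1 +
    ((35495757805710840603 / 268435456) + (8824643628153151813 / 134217728) * z ^ 1 + (3817573844681651815 / 268435456) * z ^ 2 + (117195207414514553 / 67108864) * z ^ 3 + (35705453109322767 / 268435456) * z ^ 4 + (862528182856387 / 134217728) * z ^ 5 + (51537843987765 / 268435456) * z ^ 6 + (217131519327 / 67108864) * z ^ 7 + (3150430735 / 134217728) * z ^ 8) * (4 * ((16 + z) * y)) ^ 6 := by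
    unfold R0
    ring
  have h3 : 0 ≤ (R0 (16 + z) y - 10) * (16 + z) ^ 6 := by
    rw [h2]
    positivity
  have h4 := nonneg_of_mul_nonneg_left h3 (by positivity)
  linarith

theorem g0 : (q0 24 da dP dQ).pol = true ∧ (q0 24 da dP dQ).lp.1 ≤ 1000 ∧
    (q0 24 da dP dQ).lp.2 ≤ (4 : ℕ) := by
  decide +kernel

theorem g1 : (q1 24 da dP dQ dp dq).pol = true ∧ (q1 24 da dP dQ dp dq).lp.1 ≤ 14000 ∧
    (q1 24 da dP dQ dp dq).lp.2 ≤ (3 : ℕ) ∧ (q1 24 da dP dQ dp dq).bd.1 ≤ 4000 ∧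
    (q1 24 da dP dQ dp dq).bd.2 ≤ (3 : ℕ) := by
  decide +kernel

theorem g2 : (q2 24 dp dq).pol = true ∧ (q2 24 dp dq).lp.1 ≤ 43000 ∧
    (q2 24 dp dq).lp.2 ≤ (2 : ℕ) ∧ (q2 24 dp dq).bd.1 ≤ 22000 ∧
    (q2 24 dp dq).bd.2 ≤ (2 : ℕ) := by
  decide +kernel

theorem sech_ge {x : ℝ} (hx : 0 ≤ x) : Real.exp (-x) ≤ sech x := by
  unfold sech
  rw [Real.exp_neg]
  refine inv_anti₀ (Real.cosh_pos x) ?_
  rw [Real.cosh_eq]
  have : Real.exp (-x) ≤ Real.exp x := Real.exp_le_exp.2 (by linarith)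
  linarith

/-- The band term. -/
theorem band_tail {x y r : ℝ} (hr : Reg 24 x y) (hx : 16 ≤ x) (h0 : 0 ≤ r) (h2 : r ≤ 2) :
    dD.f x y * (6 * (up (ga da)).f x y + 2 * r) ≤ 2 * sech x := by
  have T := tail_of hr hx
  obtain ⟨-, hD, -⟩ := Tail_GD T
  have h3 := soft_Bd hr (by linarith)
  have h4 := soft_T hr (by linarith)
  have h5 := T.t0
  have h6 : dD.f x y ≤ sech x / 32 := (le_abs_self _).trans hD
  have h7 := T.h0
  have h8 : dD.f x y * (6 * (up (ga da)).f x y + 2 * r) ≤ sech x / 32 * 40 :=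
    mul_le_mul h6 (by linarith) (by linarith) (by linarith)
  linarith

/-- The main inequality for `s <= -16`. -/
theorem tail_neg {x y r : ℝ} (hr : Reg 24 x y) (hx : 16 ≤ x) (h0 : 0 ≤ r) (h2 : r ≤ 2) :
    dD.f x y * (6 * (up (ga da)).f x y + 2 * r) ≤ QX 24 da dP dQ dp dq (-x) y r := by
  have T := tail_of hr hx
  refine (band_tail hr hx h0 h2).trans ?_
  have hx0 : (0 : ℝ) ≤ x := by linarith
  have hE := T.hE
  have hE2 : 0 ≤ 2 * Real.exp (-x) ^ 2 := by positivity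
  have key : ∀ a : Ex, a.pol = true → ∀ K : ℚ, ∀ m : ℕ, a.lp.1 ≤ K → a.lp.2 ≤ m →
      |a.f (-x) y - a.v (-x) y (-1) (sech x)| ≤ K * x ^ m * (2 * Real.exp (-x) ^ 2) := by
    intro a hp K m h3 h4
    have h5 : a.f (-x) y = a.v (-x) y (-Real.tanh x) (sech x) := by
      unfold f
      rw [Real.tanh_neg, sech_neg]
    rw [h5]
    have h6 := a.lp_le hp (x := -x) (y := y) (z := -Real.tanh x) (z' := -1) (w := sech x)
      (by rw [abs_neg, T.abs_x]; exact hx)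
      (by rw [abs_neg, T.abs_x, T.abs_y]; exact T.hxy)
      (by rw [abs_neg]; exact hz' hx0) (by norm_num) T.hw
    rw [abs_neg, T.abs_x] at h6
    refine h6.trans ?_
    have h7 : |-Real.tanh x - -1| ≤ 2 * Real.exp (-x) ^ 2 := by
      have e1 : -Real.tanh x - -1 = 1 - Real.tanh x := by ring
      rw [e1, abs_of_nonneg (by linarith [T.t1])]
      exact T.ht
    have h8 := bv_le' (lp_nonneg a) h3 h4 hx
    exact mul_le_mul h8 h7 (abs_nonneg _) (le_trans (bv_nonneg (lp_nonneg a) hx) h8)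
  have k0 := (abs_le.1 (key _ g0.1 _ _ g0.2.1 g0.2.2)).1
  have k1 := (abs_le.1 (key _ g1.1 _ _ g1.2.1 g1.2.2.1)).1
  have k2 := (abs_le.1 (key _ g2.1 _ _ g2.2.1 g2.2.2.1)).1
  rw [q0_left] at k0
  rw [q1_left] at k1
  rw [q2_left] at k2
  push_cast at k0 k1 k2
  rw [qx_eq]
  have hA := AL_nonneg hx hr.1 T.hxy
  have hD := DE_ge hx hr.1 T.hxy
  set E := Real.exp (-x) with hEd
  have hr2 : r ^ 2 ≤ 4 := by nlinarith
  have m1 := mul_le_mul_of_nonneg_left k1 h0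
  have m2 := mul_le_mul_of_nonneg_left k2 (sq_nonneg r)
  have b5 : x ^ 5 * E * E ≤ 1 / 8 * (1 / 8800000) :=
    mul_le_mul (by linarith [T.h5]) T.hE1 hE.le (by norm_num)
  have p2 : x ^ 2 ≤ x ^ 5 := pow_le_pow_right₀ (by linarith) (by norm_num)
  have p3 : x ^ 3 ≤ x ^ 5 := pow_le_pow_right₀ (by linarith) (by norm_num)
  have p4 : x ^ 4 ≤ x ^ 5 := pow_le_pow_right₀ (by linarith) (by norm_num)
  have hEE : 0 ≤ E * E := mul_self_nonneg E
  have c2 : x ^ 2 * (E * E) ≤ x ^ 5 * (E * E) := mul_le_mul_of_nonneg_right p2 hEE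
  have c3 : x ^ 3 * (E * E) ≤ x ^ 5 * (E * E) := mul_le_mul_of_nonneg_right p3 hEE
  have c4 : x ^ 4 * (E * E) ≤ x ^ 5 * (E * E) := mul_le_mul_of_nonneg_right p4 hEE
  have d3 : 0 ≤ x ^ 3 * (E * E) := by positivity
  have d2 : 0 ≤ x ^ 2 * (E * E) := by positivity
  have f1 : r * (x ^ 3 * (E * E)) ≤ 2 * (x ^ 3 * (E * E)) := mul_le_mul_of_nonneg_right h2 d3
  have f2 : r ^ 2 * (x ^ 2 * (E * E)) ≤ 4 * (x ^ 2 * (E * E)) :=
    mul_le_mul_of_nonneg_right hr2 d2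
  have main : 1 / 6 ≤ (2 * AL x y + DE x y) + r * (-2 * AL x y - DE x y / 3) +
      r ^ 2 * (AL x y / 2) := by
    have e1 : (2 * AL x y + DE x y) + r * (-2 * AL x y - DE x y / 3) + r ^ 2 * (AL x y / 2) =
        AL x y / 2 * (2 - r) ^ 2 + DE x y * (1 - r / 3) := by ring
    rw [e1]
    have h3 : 0 ≤ AL x y / 2 * (2 - r) ^ 2 := by positivity
    have h4 : 1 / 2 * (1 / 3) ≤ DE x y * (1 - r / 3) :=
      mul_le_mul hD (by linarith) (by norm_num) (by linarith)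
    linarith
  have hh := T.h1
  nlinarith

/-- The main inequality for `s >= 16`. -/
theorem tail_pos {x y r : ℝ} (hr : Reg 24 x y) (hx : 16 ≤ x) (h0 : 0 ≤ r)
    (h1 : r ≤ 1 - (up (ga da)).f x y + y ^ 2 * dD.f x y) :
    dD.f x y * (6 * (up (ga da)).f x y + 2 * r) ≤ QX 24 da dP dQ dp dq x y r := by
  have T := tail_of hr hx
  have hx0 : (0 : ℝ) ≤ x := by linarith
  have hE := T.hE
  have hh := T.h1
  have hh0 := T.h0
  have hge := sech_ge hx0
  have hrs : r ≤ sech x := by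
    obtain ⟨hG, hD, -⟩ := Tail_GD T
    have h3 : (up (ga da)).f x y = Real.tanh x +
        y ^ 2 * (sech x ^ 2 * da.v x y (Real.tanh x) (sech x)) := by
      rw [up_f, ga_fv]
    rw [h3] at h1
    have h4 := neg_le_of_abs_le hG
    have h5 : dD.f x y ≤ sech x / 32 := (le_abs_self _).trans hD
    have h6 := T.ysq
    have h7 := T.ht
    have h8 := mul_le_mul_of_nonneg_left h4 (sq_nonneg y)
    have h9 := mul_le_mul_of_nonneg_left h5 (sq_nonneg y)
    have h10 : Real.exp (-x) ^ 2 ≤ sech x * (1 / 8800000) := by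
      rw [sq]
      exact mul_le_mul hge T.hE1 hE.le hh0.le
    have h11 : y ^ 2 * (sech x / 200) ≤ 1 / 4096 * (sech x / 200) :=
      mul_le_mul_of_nonneg_right h6 (by positivity)
    have h12 : y ^ 2 * (sech x / 32) ≤ 1 / 4096 * (sech x / 32) :=
      mul_le_mul_of_nonneg_right h6 (by positivity)
    linarith
  refine (band_tail hr hx h0 (by linarith)).trans ?_
  have k0 := T.lp (q0 24 da dP dQ) g0.1 T.hw
  have k0' := bv_le' (lp_nonneg (q0 24 da dP dQ)) g0.2.1 g0.2.2 hx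
  rw [q0_right] at k0
  have hE2 : 0 ≤ 2 * Real.exp (-x) ^ 2 := by positivity
  have k0'' := mul_le_mul_of_nonneg_right k0' hE2
  have k1 := (T.bd (q1 24 da dP dQ dp dq) g1.1 (hz' hx0) T.hw).trans
    (bv_le' (bd_nonneg _) g1.2.2.2.1 g1.2.2.2.2 hx)
  have k2 := (T.bd (q2 24 dp dq) g2.1 (hz' hx0) T.hw).trans
    (bv_le' (bd_nonneg _) g2.2.2.2.1 g2.2.2.2.2 hx)
  push_cast at k0'' k1 k2
  have hR := R0_ge hx hr.1 T.hxy
  rw [qx_eq]
  change _ ≤ (q0 24 da dP dQ).v x y (Real.tanh x) (sech x) +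
    r * (q1 24 da dP dQ dp dq).v x y (Real.tanh x) (sech x) +
    r ^ 2 * (q2 24 dp dq).v x y (Real.tanh x) (sech x)
  set A0 := (q0 24 da dP dQ).v x y (Real.tanh x) (sech x)
  set A1 := (q1 24 da dP dQ dp dq).v x y (Real.tanh x) (sech x)
  set A2 := (q2 24 dp dq).v x y (Real.tanh x) (sech x)
  set E := Real.exp (-x) with hEd
  have n0 := (abs_le.1 k0).1
  have n1 := (abs_le.1 k1).1
  have n2 := (abs_le.1 k2).1
  have x2 : 0 ≤ x ^ 2 := by positivity
  have x3 : 0 ≤ x ^ 3 := by positivity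
  have m1 : -(sech x * (4000 * x ^ 3)) ≤ r * A1 := by
    have h3 := mul_le_mul_of_nonneg_left n1 h0
    have h4 : r * (4000 * x ^ 3) ≤ sech x * (4000 * x ^ 3) :=
      mul_le_mul_of_nonneg_right hrs (by positivity)
    linarith
  have m2 : -(sech x ^ 2 * (22000 * x ^ 2)) ≤ r ^ 2 * A2 := by
    have h3 := mul_le_mul_of_nonneg_left n2 (sq_nonneg r)
    have h5 : r ^ 2 ≤ sech x ^ 2 := pow_le_pow_left₀ h0 hrs 2
    have h4 : r ^ 2 * (22000 * x ^ 2) ≤ sech x ^ 2 * (22000 * x ^ 2) :=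
      mul_le_mul_of_nonneg_right h5 (by positivity)
    linarith
  have m3 : sech x * (4000 * x ^ 3) ≤ 4 := by
    have h3 := mul_le_mul_of_nonneg_right T.hh (show 0 ≤ 4000 * x ^ 3 by positivity)
    have h4 := T.h3
    linarith
  have m4 : sech x ^ 2 * (22000 * x ^ 2) ≤ 1 := by
    have h3 := sech_x hx0
    have h5 : sech x ^ 2 * (22000 * x ^ 2) ≤ 22000 * (sech x * (sech x * x ^ 3)) := by
      have h9 : x ^ 2 ≤ x ^ 3 := pow_le_pow_right₀ (by linarith) (by norm_num)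
      have := mul_le_mul_of_nonneg_left h9 (sq_nonneg (sech x))
      linarith
    have h6 : sech x * x ^ 3 ≤ 1 / 1000 := by linarith
    have h7 : sech x * (sech x * x ^ 3) ≤ 1 / 4400000 * (1 / 1000) :=
      mul_le_mul hh h6 (by positivity) (by norm_num)
    linarith
  have b5 : x ^ 5 * E * E ≤ 1 / 8 * (1 / 8800000) :=
    mul_le_mul (by linarith [T.h5]) T.hE1 hE.le (by norm_num)
  have p4 : x ^ 4 ≤ x ^ 5 := pow_le_pow_right₀ (by linarith) (by norm_num)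
  have c4 : x ^ 4 * (E * E) ≤ x ^ 5 * (E * E) :=
    mul_le_mul_of_nonneg_right p4 (mul_self_nonneg E)
  linarith

/-- The final theorem after the soft conditions and all the tails. -/
theorem final3 {u : E8 → ℝ} (hu : Sol u)
    (hsu : ∀ s e, Reg 24 s e → 0 < s → s < 16 → RX 24 (add (ga da) dD) s e ≤ 0)
    (hsl : ∀ s e, Reg 24 s e → 0 < s → s < 16 → 0 ≤ RX 24 (sub (ga da) dD) s e)
    (hpos : ∀ s e y, Reg 24 s e → 0 ≤ s → s < 16 → 0 ≤ y → y ≤ 1 →
      y ≤ 1 - (up (ga da)).f s e + e ^ 2 * dD.f s e →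
      dD.f s e * (6 * (up (ga da)).f s e + 2 * y) ≤ QX 24 da dP dQ dp dq s e y)
    (hneg : ∀ s e y, Reg 24 s e → 0 < s → s < 16 → 0 ≤ y → y ≤ 2 →
      y ≤ 1 + (up (ga da)).f s e + e ^ 2 * dD.f s e →
      dD.f s e * (6 * (up (ga da)).f s e + 2 * y) ≤ QX 24 da dP dQ dp dq (-s) e y) :
    ∃ B C : E8 → E8, ContDiff ℝ 1 B ∧ ContDiff ℝ 1 C ∧ Star u B C := by
  refine final2 hu (P := dP) (Q := dQ) (p := dp) (q := dq)
    (pol_ok _ (by decide +kernel)) (pol_ok _ (by decide +kernel))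
    (pol_ok _ (by decide +kernel)) (pol_ok _ (by decide +kernel)) hsu hsl ?_ ?_
  · intro s e y hr hs h0 h1 h2
    rcases lt_or_ge s 16 with h | h
    · exact hpos s e y hr hs h h0 h1 h2
    · exact tail_pos hr h h0 h2
  · intro s e y hr hs h0 h1 h2
    rcases lt_or_ge s 16 with h | h
    · exact hneg s e y hr hs h h0 h1 h2
    · exact tail_neg hr h h0 h1

end Ex

end Pool.Agent.Saddle
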