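import Pool.Agent.Saddle.Phi

set_option autoImplicit false

/-!
# Comparison theorem for the saddle solution

`upper`, `lower`: the saddle solution lies between explicit super- and subsolutions.
-/

open Filter Topology

noncomputable section

namespace Pool.Agent.Saddle

/-- the saddle-shaped solution -/
structure Sol (u : E8 → ℝ) : Prop where
  smooth : ContDiff ℝ 2 u
  eqn : ∀ x, lap u x + u x - u x ^ 3 = 0
  bdd : ∀ x, |u x| < 1
  odd : ∀ x y, SS x = TT y → TT x = SS y → u y = - u x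
  pos : ∀ x, TT x < SS x → 0 < u x

/-- the hypotheses of the frozen statement `S06299` give `Sol u` -/
theorem Sol.of_frozen (S T : E8 → ℝ)
    (hS : ∀ x, S x = ∑ i ∈ Finset.univ.filter (fun i : Fin 8 => (i : ℕ) < 4), x i ^ 2)
    (hT : ∀ x, T x = ∑ i ∈ Finset.univ.filter (fun i : Fin 8 => 4 ≤ (i : ℕ)), x i ^ 2)
    (u : E8 → ℝ) (h1 : ContDiff ℝ 2 u)
    (h2 : ∀ x, (∑ i : Fin 8, fderiv ℝ (fun y => fderiv ℝ u y (EuclideanSpace.single i (1 : ℝ))) x
      (EuclideanSpace.single i (1 : ℝ))) + u x - u x ^ 3 = 0)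
    (h3 : ∀ x, |u x| < 1) (h4 : ∀ x y, S x = T y → T x = S y → u y = - u x)
    (h5 : ∀ x, T x < S x → 0 < u x) : Sol u := by
  have hS' : S = SS := funext hS
  have hT' : T = TT := funext hT
  subst hS' hT'
  exact ⟨h1, h2, h3, h4, h5⟩

theorem SS_cont : Continuous SS := by unfold SS; fun_prop

theorem TT_cont : Continuous TT := by unfold TT; fun_prop

theorem Rf_eq (x : E8) : Rf x = ‖x‖ ^ 2 := by rw [norm_sq_eq, Rf, Qc_one]

theorem Rf_cont : Continuous Rf := (Qc_contDiff (n := 2) _).continuous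

theorem Sol.zero {u : E8 → ℝ} (hu : Sol u) {x : E8} (hx : SS x = TT x) : u x = 0 := by
  have := hu.odd x x hx hx.symm
  linarith

theorem Sol.lt_one {u : E8 → ℝ} (hu : Sol u) (x : E8) : u x < 1 := (abs_lt.1 (hu.bdd x)).2

theorem isCompact_region {f : E8 → Prop} (hf : IsClosed {x | f x}) (ρ : ℝ)
    (h : ∀ x, f x → Rf x ≤ ρ) : IsCompact {x | f x} := by
  apply Metric.isCompact_of_isClosed_isBounded hf
  rw [isBounded_iff_forall_norm_le]
  refine ⟨Real.sqrt ρ, fun x hx => ?_⟩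
  have := h x hx
  rw [Rf_eq] at this
  exact Real.le_sqrt_of_sq_le this

theorem pick {P : ℝ → Prop} (hP : ∀ᶠ t in 𝓝 (0 : ℝ), P t) {d : ℝ} (hd : 0 < d) :
    ∃ t, 0 < t ∧ t < d ∧ P t := by
  have h1 : ∀ᶠ t in 𝓝[>] (0 : ℝ), P t := hP.filter_mono nhdsWithin_le_nhds
  have h2 : ∀ᶠ t in 𝓝[>] (0 : ℝ), t ∈ Set.Ioo (0 : ℝ) d := Ioo_mem_nhdsGT hd
  obtain ⟨t, ht⟩ := (h1.and h2).exists
  exact ⟨t, ht.2.1, ht.2.2, ht.1⟩

/-- comparison with a positive supersolution which is larger than `1` far away -/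
theorem up_basic {u V : E8 → ℝ} (hu : Sol u) (hV : ContDiff ℝ 2 V)
    (hpos : ∀ x, TT x ≤ SS x → 0 < V x) (ρ : ℝ)
    (hfar : ∀ x, TT x ≤ SS x → ρ < Rf x → 1 < V x)
    (hsup : ∀ x, TT x < SS x → V x < 1 → lap V x + V x - V x ^ 3 ≤ 0) :
    ∀ x, TT x ≤ SS x → u x ≤ V x := by
  intro x₀ hx₀
  by_contra hcon
  push Not at hcon
  set ρ' := max ρ (Rf x₀) with hρ'
  set K : Set E8 := {x | TT x ≤ SS x ∧ Rf x ≤ ρ'} with hK
  have hKc : IsCompact K := by
    apply isCompact_region _ ρ' (fun x hx => hx.2)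
    exact (isClosed_le TT_cont SS_cont).inter (isClosed_le Rf_cont continuous_const)
  have hx₀K : x₀ ∈ K := ⟨hx₀, le_max_right _ _⟩
  have hgc : ContinuousOn (fun x => u x / V x) K := by
    apply ContinuousOn.div hu.smooth.continuous.continuousOn hV.continuous.continuousOn
    intro x hx
    exact (hpos x hx.1).ne'
  obtain ⟨p, hpK, hpmax⟩ := hKc.exists_isMaxOn ⟨x₀, hx₀K⟩ hgc
  have hVp := hpos p hpK.1
  set m := u p / V p with hm
  have hm1 : 1 < m := by
    have h1 : u x₀ / V x₀ ≤ m := hpmax hx₀K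
    have h2 : 1 < u x₀ / V x₀ := by
      rw [lt_div_iff₀ (hpos x₀ hx₀)]
      linarith
    linarith
  have hup : u p = m * V p := by
    rw [hm]
    field_simp
  have hpO : TT p < SS p := by
    rcases hpK.1.lt_or_eq with h | h
    · exact h
    · exfalso
      have h1 := hu.zero h.symm
      rw [hup] at h1
      have : 0 < m * V p := by positivity
      linarith
  have hVp1 : V p < 1 := by
    have h1 := hu.lt_one p
    rw [hup] at h1
    nlinarith
  have hloc : IsLocalMax (fun x => u x - m * V x) p := by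
    have h1 : ∀ᶠ x in 𝓝 p, TT x < SS x :=
      (isOpen_lt TT_cont SS_cont).mem_nhds hpO
    filter_upwards [h1] with x hx
    have h2 : u p - m * V p = 0 := by rw [hup]; ring
    rw [h2]
    have hVx := hpos x hx.le
    by_cases hxρ : Rf x ≤ ρ'
    · have h3 : u x / V x ≤ m := hpmax ⟨hx.le, hxρ⟩
      rw [div_le_iff₀ hVx] at h3
      linarith
    · push Not at hxρ
      have h3 := hfar x hx.le ((le_max_left _ _).trans_lt hxρ)
      have h4 := hu.lt_one x
      nlinarith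
  have hmV : ContDiff ℝ 2 (fun x => m * V x) := contDiff_const.mul hV
  have h1 := lap_nonpos_of_max (hu.smooth.sub hmV) hloc
  have h2 : lap (fun x => u x - m * V x) p = lap u p - m * lap V p := by
    rw [lap_sub hu.smooth hmV, lap_const_mul hV]
  have h1' : lap (fun x => u x - m * V x) p ≤ 0 := h1
  rw [h2] at h1'
  have h3 := hu.eqn p
  have h4 := hsup p hpO hVp1
  have h5 : lap u p = -(m * V p) + (m * V p) ^ 3 := by
    rw [hup] at h3
    linarith
  rw [h5] at h1'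
  have h6 : m * lap V p ≤ m * (V p ^ 3 - V p) := by
    apply mul_le_mul_of_nonneg_left _ (by linarith)
    linarith
  have h7 : 0 < m * V p ^ 3 * (m ^ 2 - 1) := by
    have : 0 < m ^ 2 - 1 := by nlinarith
    positivity
  nlinarith

/-- comparison with a subsolution `A * B` on the region where `A` and `B` are positive -/
theorem low_basic {u A B : E8 → ℝ} (hu : Sol u) (hA : ContDiff ℝ 2 A) (hB : ContDiff ℝ 2 B)
    (ρ : ℝ) (hρ : ∀ x, TT x ≤ SS x → 0 ≤ A x → 0 ≤ B x → Rf x ≤ ρ)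
    (hcone : ∀ x, TT x = SS x → B x < 0)
    (hsub : ∀ x, TT x < SS x → 0 < A x → 0 < B x →
      0 ≤ lap (fun y => A y * B y) x + A x * B x - (A x * B x) ^ 3) :
    ∀ x, TT x ≤ SS x → 0 ≤ A x → 0 ≤ B x → A x * B x ≤ u x := by
  intro x₀ hx₀ hA₀ hB₀
  by_contra hcon
  push Not at hcon
  set K : Set E8 := {x | TT x ≤ SS x ∧ 0 ≤ A x ∧ 0 ≤ B x} with hK
  have hKc : IsCompact K := by
    apply isCompact_region _ ρ (fun x hx => hρ x hx.1 hx.2.1 hx.2.2)
    exact (isClosed_le TT_cont SS_cont).inter ((isClosed_le continuous_const hA.continuous).inter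
      (isClosed_le continuous_const hB.continuous))
  have hKO : ∀ x ∈ K, TT x < SS x := by
    intro x hx
    rcases hx.1.lt_or_eq with h | h
    · exact h
    · exfalso
      have := hcone x h
      linarith [hx.2.2]
  have hx₀K : x₀ ∈ K := ⟨hx₀, hA₀, hB₀⟩
  have hW : ContDiff ℝ 2 (fun x => A x * B x) := hA.mul hB
  have hgc : ContinuousOn (fun x => A x * B x / u x) K := by
    apply ContinuousOn.div hW.continuous.continuousOn hu.smooth.continuous.continuousOn
    intro x hx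
    exact (hu.pos x (hKO x hx)).ne'
  obtain ⟨p, hpK, hpmax⟩ := hKc.exists_isMaxOn ⟨x₀, hx₀K⟩ hgc
  have hpO := hKO p hpK
  have hup0 := hu.pos p hpO
  set m := A p * B p / u p with hm
  have hm1 : 1 < m := by
    have h1 : A x₀ * B x₀ / u x₀ ≤ m := hpmax hx₀K
    have h2 : 1 < A x₀ * B x₀ / u x₀ := by
      rw [lt_div_iff₀ (hu.pos x₀ (hKO x₀ hx₀K))]
      linarith
    linarith
  have hWp : A p * B p = m * u p := by
    rw [hm]
    field_simp
  have hWp0 : 0 < A p * B p := by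
    rw [hWp]
    positivity
  have hAp : 0 < A p := by
    rcases hpK.2.1.lt_or_eq with h | h
    · exact h
    · rw [← h, zero_mul] at hWp0
      exact absurd hWp0 (lt_irrefl _)
  have hBp : 0 < B p := by
    rcases hpK.2.2.lt_or_eq with h | h
    · exact h
    · rw [← h, mul_zero] at hWp0
      exact absurd hWp0 (lt_irrefl _)
  have hloc : IsLocalMax (fun x => A x * B x - m * u x) p := by
    have h1 : ∀ᶠ x in 𝓝 p, TT x < SS x := (isOpen_lt TT_cont SS_cont).mem_nhds hpO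
    have h2 : ∀ᶠ x in 𝓝 p, 0 < A x := (isOpen_lt continuous_const hA.continuous).mem_nhds hAp
    have h3 : ∀ᶠ x in 𝓝 p, 0 < B x := (isOpen_lt continuous_const hB.continuous).mem_nhds hBp
    filter_upwards [h1, h2, h3] with x hx1 hx2 hx3
    have h4 : A p * B p - m * u p = 0 := by rw [hWp]; ring
    rw [h4]
    have h5 : A x * B x / u x ≤ m := hpmax ⟨hx1.le, hx2.le, hx3.le⟩
    rw [div_le_iff₀ (hu.pos x hx1)] at h5
    linarith
  have hmu : ContDiff ℝ 2 (fun x => m * u x) := contDiff_const.mul hu.smooth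
  have h1 : lap (fun x => A x * B x - m * u x) p ≤ 0 := lap_nonpos_of_max (hW.sub hmu) hloc
  have h2 : lap (fun x => A x * B x - m * u x) p = lap (fun x => A x * B x) p - m * lap u p := by
    rw [lap_sub hW hmu, lap_const_mul hu.smooth]
  rw [h2] at h1
  have h3 := hu.eqn p
  have h4 := hsub p hpO hAp hBp
  rw [hWp] at h4
  have h5 : m * lap u p = m * (u p ^ 3 - u p) := by
    congr 1
    linarith
  rw [h5] at h1
  have h7 : 0 < m * u p ^ 3 * (m ^ 2 - 1) := by
    have : 0 < m ^ 2 - 1 := by nlinarith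
    positivity
  nlinarith

theorem far_iff {x : E8} : ¬ 20 * Xf x ^ 2 ≤ qf x ↔ SS x + TT x + 1 < 20 * (SS x - TT x) ^ 2 := by
  have h1 : Xf x = SS x - TT x := Qc_sgn x
  have h2 : qf x = 1 + (SS x + TT x) := by unfold qf; rw [Rf, Qc_one]
  rw [h1, h2]
  constructor
  · intro h; linarith
  · intro h; linarith

theorem up_strict {η κ U P lU lP : ℝ} (hη : 0 < η) (hκ : 0 < κ) (hU : 0 ≤ U) (hP : 0 < P)
    (hs : lU + U - U ^ 3 ≤ 0) :
    ((1 + η) * lU + κ * lP) + ((1 + η) * U + κ * P) - ((1 + η) * U + κ * P) ^ 3 ≤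
      -(2 * η * U ^ 3) + κ * (lP + P) := by
  have h1 : ((1 + η) * U) ^ 3 ≤ ((1 + η) * U + κ * P) ^ 3 := by
    apply pow_le_pow_left₀ (by positivity)
    nlinarith [mul_pos hκ hP]
  have h2 : (1 + η) * lU ≤ (1 + η) * (U ^ 3 - U) :=
    mul_le_mul_of_nonneg_left (by linarith) (by linarith)
  have h3 : 0 ≤ U ^ 3 := by positivity
  have h6 : 2 * η * U ^ 3 ≤ ((1 + η) ^ 3 - (1 + η)) * U ^ 3 := by
    apply mul_le_mul_of_nonneg_right _ h3
    nlinarith [pow_pos hη 2, pow_pos hη 3]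
  have h7 : ((1 + η) * U) ^ 3 = (1 + η) ^ 3 * U ^ 3 := by ring
  rw [h7] at h1
  linarith

theorem up_strict2 {η κ c₂ U s : ℝ} (hη : 0 < η) (hκ : 0 < κ) (hc₂ : 0 < c₂)
    (hκ1 : κ < 2 * η * c₂ ^ 3 / 61) (h5 : c₂ ≤ U) (h6 : s ≤ 60) :
    -(2 * η * U ^ 3) + κ * s ≤ -κ := by
  have h7 : c₂ ^ 3 ≤ U ^ 3 := pow_le_pow_left₀ hc₂.le h5 3
  have h8 : 61 * κ < 2 * η * c₂ ^ 3 := by
    rw [lt_div_iff₀ (by norm_num)] at hκ1
    linarith
  have h9 : 2 * η * c₂ ^ 3 ≤ 2 * η * U ^ 3 := mul_le_mul_of_nonneg_left h7 (by linarith)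
  have h10 : κ * s ≤ κ * 60 := mul_le_mul_of_nonneg_left h6 hκ.le
  linarith

theorem up_alg {E δ R L C₁ κ V l r : ℝ} (hE1 : 1 ≤ E) (hδ0 : 0 < δ) (hR0 : 0 ≤ R)
    (hδR : δ * R ≤ L) (hV0 : 0 < V) (hV1 : V < 1) (hr : r ≤ C₁)
    (hl : l + V - V ^ 3 ≤ -κ) (h6 : δ * (4 * C₁ + 4 * L + 16) < κ) :
    E * (l + 4 * δ * r + (4 * δ ^ 2 * R + 16 * δ) * V) + E * V - (E * V) ^ 3 ≤ 0 := by
  have h3 : E * V ^ 3 ≤ (E * V) ^ 3 := by
    have h4 : E ≤ E ^ 3 := by nlinarith [mul_nonneg (sub_nonneg.2 hE1) (sub_nonneg.2 hE1)]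
    have h5 : 0 ≤ V ^ 3 := by positivity
    calc E * V ^ 3 ≤ E ^ 3 * V ^ 3 := mul_le_mul_of_nonneg_right h4 h5
      _ = (E * V) ^ 3 := by ring
  have h4 : (4 * δ ^ 2 * R + 16 * δ) * V ≤ (4 * L + 16) * δ := by
    have h5 : 4 * δ ^ 2 * R + 16 * δ ≤ (4 * L + 16) * δ := by nlinarith
    have h6 : 0 ≤ 4 * δ ^ 2 * R + 16 * δ := by positivity
    nlinarith
  have h5 : 4 * δ * r ≤ 4 * δ * C₁ := mul_le_mul_of_nonneg_left hr (by positivity)
  have h7 : l + 4 * δ * r + (4 * δ ^ 2 * R + 16 * δ) * V + V - V ^ 3 ≤ 0 := by nlinarith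
  have h8 : E * (l + 4 * δ * r + (4 * δ ^ 2 * R + 16 * δ) * V + V - V ^ 3) ≤ 0 :=
    mul_nonpos_of_nonneg_of_nonpos (by linarith) h7
  nlinarith

/-- UPPER BOUND: comparison with an explicit supersolution. -/
theorem upper {u U : E8 → ℝ} (hu : Sol u) (hU : ContDiff ℝ 2 U) (C₁ c₂ : ℝ) (hC₁ : 0 ≤ C₁)
    (hc₂ : 0 < c₂) (h0 : ∀ x, TT x ≤ SS x → 0 ≤ U x)
    (hlow : ∀ x, TT x < SS x → SS x + TT x + 1 < 20 * (SS x - TT x) ^ 2 → c₂ ≤ U x)
    (hrad : ∀ x, TT x < SS x → U x < 1 → fderiv ℝ U x x ≤ C₁ * U x)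
    (hsup : ∀ x, TT x < SS x → U x < 1 → lap U x + U x - U x ^ 3 ≤ 0) :
    ∀ x, TT x < SS x → u x ≤ U x := by
  intro x₀ hx₀
  by_contra hcon
  push Not at hcon
  -- choice of the parameters
  obtain ⟨η, hη0, -, hη⟩ : ∃ η, 0 < η ∧ η < 1 ∧ (1 + η) * U x₀ < u x₀ := by
    apply pick _ one_pos
    have hF : ContinuousAt (fun t : ℝ => (1 + t) * U x₀) 0 := by fun_prop
    apply hF.eventually_lt continuousAt_const
    simpa using hcon
  obtain ⟨κ, hκ0, hκ1, hκ⟩ : ∃ κ, 0 < κ ∧ κ < 2 * η * c₂ ^ 3 / 61 ∧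
      (1 + η) * U x₀ + κ * Phi x₀ < u x₀ := by
    apply pick _ (by positivity)
    have hF : ContinuousAt (fun t : ℝ => (1 + η) * U x₀ + t * Phi x₀) 0 := by fun_prop
    apply hF.eventually_lt continuousAt_const
    simpa using hη
  set v₀ := min (κ / 2) c₂ with hv₀
  have hv₀0 : 0 < v₀ := lt_min (by linarith) hc₂
  set L := |Real.log (1 / v₀)| with hL
  have hL0 : 0 ≤ L := abs_nonneg _
  obtain ⟨δ, hδ0, hδ1, hδ⟩ : ∃ δ, 0 < δ ∧ δ < κ / (4 * C₁ + 4 * L + 16) ∧
      Real.exp (δ * Rf x₀) * ((1 + η) * U x₀ + κ * Phi x₀) < u x₀ := by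
    apply pick _ (by positivity)
    have hF : ContinuousAt (fun t : ℝ => Real.exp (t * Rf x₀) *
        ((1 + η) * U x₀ + κ * Phi x₀)) 0 := by fun_prop
    apply hF.eventually_lt continuousAt_const
    simpa using hκ
  set V₀ : E8 → ℝ := fun x => (1 + η) * U x + κ * Phi x with hV₀
  have hU1 : ContDiff ℝ 2 (fun x => (1 + η) * U x) := contDiff_const.mul hU
  have hP1 : ContDiff ℝ 2 (fun x => κ * Phi x) := contDiff_const.mul Phi_contDiff
  have hV₀c : ContDiff ℝ 2 V₀ := hU1.add hP1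
  have hV₀low : ∀ x, TT x ≤ SS x → v₀ ≤ V₀ x := by
    intro x hx
    have hUx := h0 x hx
    have hPx := Phi_pos x
    by_cases hnear : 20 * Xf x ^ 2 ≤ qf x
    · have h1 := Phi_ge x hnear
      have h2 : v₀ ≤ κ / 2 := min_le_left _ _
      simp only [hV₀]
      nlinarith [mul_nonneg hη0.le hUx]
    · have h1 := far_iff.1 hnear
      have h2 : TT x < SS x := by
        rcases hx.lt_or_eq with h | h
        · exact h
        · exfalso
          rw [h] at h1
          have := SS_nonneg x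
          nlinarith
      have h3 := hlow x h2 h1
      have h4 : v₀ ≤ c₂ := min_le_right _ _
      simp only [hV₀]
      nlinarith [mul_nonneg hη0.le hUx, mul_pos hκ0 hPx]
  have hexp : ContDiff ℝ 2 (fun x : E8 => Real.exp (δ * Rf x)) :=
    (contDiff_const.mul (Qc_contDiff _)).exp
  have hVc : ContDiff ℝ 2 (fun x => Real.exp (δ * Rf x) * V₀ x) := hexp.mul hV₀c
  have key := up_basic hu hVc (fun x hx => mul_pos (Real.exp_pos _)
    (hv₀0.trans_le (hV₀low x hx))) (L / δ) ?_ ?_ x₀ hx₀.le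
  · linarith
  · intro x hx hR
    rw [div_lt_iff₀ hδ0] at hR
    have h1 := hV₀low x hx
    have h2 : 1 / v₀ < Real.exp (δ * Rf x) := by
      rw [← Real.log_lt_iff_lt_exp (by positivity)]
      calc Real.log (1 / v₀) ≤ L := le_abs_self _
        _ < δ * Rf x := by linarith
    rw [div_lt_iff₀ hv₀0] at h2
    calc 1 < Real.exp (δ * Rf x) * v₀ := h2
      _ ≤ Real.exp (δ * Rf x) * V₀ x := by
        apply mul_le_mul_of_nonneg_left h1 (Real.exp_pos _).le
  · intro x hx hV1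
    have hR0 := Rf_nonneg x
    have hE1 : 1 ≤ Real.exp (δ * Rf x) := Real.one_le_exp (by positivity)
    have hVl := hV₀low x hx.le
    have hV₀0 : 0 < V₀ x := hv₀0.trans_le hVl
    have hV₀1 : V₀ x < 1 := by nlinarith
    have hUx := h0 x hx.le
    have hPx := Phi_pos x
    have hV₀e : V₀ x = (1 + η) * U x + κ * Phi x := rfl
    have hU1x : U x < 1 := by
      nlinarith [mul_nonneg hη0.le hUx, mul_pos hκ0 hPx]
    have hδR : δ * Rf x ≤ L := by
      have h1 : Real.exp (δ * Rf x) < 1 / v₀ := by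
        rw [lt_div_iff₀ hv₀0]
        calc Real.exp (δ * Rf x) * v₀ ≤ Real.exp (δ * Rf x) * V₀ x :=
              mul_le_mul_of_nonneg_left hVl (Real.exp_pos _).le
          _ < 1 := hV1
      have h2 : δ * Rf x < Real.log (1 / v₀) := (Real.lt_log_iff_exp_lt (by positivity)).2 h1
      exact h2.le.trans (le_abs_self _)
    -- the differential inequality for V₀
    have hlV₀ : lap V₀ x = (1 + η) * lap U x + κ * lap Phi x := by
      have : lap V₀ x = lap (fun y => (1 + η) * U y + κ * Phi y) x := rfl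
      rw [this, lap_add hU1 hP1, lap_const_mul hU, lap_const_mul Phi_contDiff]
    have hrV₀ : rad V₀ x = (1 + η) * rad U x + κ * rad Phi x := by
      have : rad V₀ x = rad (fun y => (1 + η) * U y + κ * Phi y) x := rfl
      rw [this, rad_add (diff_of hU1 x) (diff_of hP1 x), rad_const_mul _ (diff_of hU x),
        rad_const_mul _ (diff_of Phi_contDiff x)]
    have hs := hsup x hx hU1x
    have hr : rad U x ≤ C₁ * U x := hrad x hx hU1x
    have hrP := rad_Phi_nonpos x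
    have hrle : rad V₀ x ≤ C₁ := by
      rw [hrV₀]
      have h1 : (1 + η) * rad U x ≤ (1 + η) * (C₁ * U x) :=
        mul_le_mul_of_nonneg_left hr (by linarith)
      have h2 : κ * rad Phi x ≤ 0 := mul_nonpos_of_nonneg_of_nonpos hκ0.le hrP
      have h3 : C₁ * V₀ x ≤ C₁ * 1 := mul_le_mul_of_nonneg_left hV₀1.le hC₁
      rw [hV₀e] at h3
      have h4 : 0 ≤ C₁ * (κ * Phi x) := mul_nonneg hC₁ (mul_pos hκ0 hPx).le
      linarith
    have hlle : lap V₀ x + V₀ x - V₀ x ^ 3 ≤ -κ := by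
      have h4 := up_strict (lP := lap Phi x) hη0 hκ0 hUx hPx hs
      rw [← hlV₀, ← hV₀e] at h4
      refine h4.trans ?_
      by_cases hnear : 20 * Xf x ^ 2 ≤ qf x
      · have h5 := Phi_near x hnear
        have h6 : 0 ≤ 2 * η * U x ^ 3 := by positivity
        nlinarith
      · exact up_strict2 hη0 hκ0 hc₂ hκ1 (hlow x hx (far_iff.1 hnear)) (Phi_far x)
    have hlap := lap_exp_mul hV₀c δ x
    change lap (fun y => Real.exp (δ * Rf y) * V₀ y) x = _ at hlap
    change lap (fun y => Real.exp (δ * Rf y) * V₀ y) x + Real.exp (δ * Rf x) * V₀ x -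
      (Real.exp (δ * Rf x) * V₀ x) ^ 3 ≤ 0
    rw [hlap]
    change Real.exp (δ * Rf x) * (lap V₀ x + 4 * δ * rad V₀ x +
      (4 * δ ^ 2 * Rf x + 16 * δ) * V₀ x) + Real.exp (δ * Rf x) * V₀ x -
      (Real.exp (δ * Rf x) * V₀ x) ^ 3 ≤ 0
    have h6 : δ * (4 * C₁ + 4 * L + 16) < κ := by
      rwa [lt_div_iff₀ (by positivity)] at hδ1
    exact up_alg hE1 hδ0 hR0 hδR hV₀0 hV₀1 hrle hlle h6

theorem low_strict {η κ E δ L C₂ U P lU lP rP R B : ℝ} (hη : 0 < η) (hη1 : η < 1) (hκ : 0 < κ)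
    (hE1 : 1 ≤ E) (hδ : 0 < δ) (hR : 0 ≤ R) (hδR : δ * R ≤ L) (hP : 0 < P) (hP2 : P ≤ 2)
    (hrP : rP ≤ 0) (hU : 0 < U) (hs : 0 ≤ lU + U - U ^ 3) (hB : B = (1 - η) * U - κ * E * P)
    (hB0 : 0 < B) (hδL : δ * (8 * L + 32) ≤ 1 / 2) (hEκ : 61 * κ * E + κ / 2 ≤ C₂)
    (hcase : lP + P ≤ -1 ∨ (lP + P ≤ 60 ∧ C₂ ≤ (1 - η) * (1 - (1 - η) ^ 2) * U ^ 3)) :
    κ / 2 ≤ ((1 - η) * lU - κ * (E * (lP + 4 * δ * rP + (4 * δ ^ 2 * R + 16 * δ) * P))) + B -
      B ^ 3 := by
  have h1 : B ^ 3 ≤ ((1 - η) * U) ^ 3 := by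
    apply pow_le_pow_left₀ hB0.le
    rw [hB]
    have : 0 < κ * E * P := by positivity
    linarith
  have h2 : (1 - η) * (U ^ 3 - U) ≤ (1 - η) * lU :=
    mul_le_mul_of_nonneg_left (by linarith) (by linarith)
  have h3 : 0 ≤ U ^ 3 := by positivity
  have h7 : ((1 - η) * U) ^ 3 = (1 - η) ^ 3 * U ^ 3 := by ring
  rw [h7] at h1
  have h4 : (4 * δ ^ 2 * R + 16 * δ) * P ≤ 1 / 2 := by
    have h5 : 4 * δ ^ 2 * R + 16 * δ ≤ δ * (4 * L + 16) := by nlinarith
    have h6 : 0 ≤ 4 * δ ^ 2 * R + 16 * δ := by positivity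
    nlinarith
  have h5 : 4 * δ * rP ≤ 0 := mul_nonpos_of_nonneg_of_nonpos (by positivity) hrP
  have h6 : κ * (E * (lP + 4 * δ * rP + (4 * δ ^ 2 * R + 16 * δ) * P)) + κ * E * P ≤
      κ * E * (lP + P + 1 / 2) := by
    have h8 : κ * E * (4 * δ * rP + (4 * δ ^ 2 * R + 16 * δ) * P) ≤ κ * E * (1 / 2) :=
      mul_le_mul_of_nonneg_left (by linarith) (by positivity)
    linarith
  have h9 : (1 - η) * (1 - (1 - η) ^ 2) * U ^ 3 - κ * E * (lP + P + 1 / 2) ≤
      ((1 - η) * lU - κ * (E * (lP + 4 * δ * rP + (4 * δ ^ 2 * R + 16 * δ) * P))) + B -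
      B ^ 3 := by
    have h10 : B = (1 - η) * U - κ * E * P := hB
    linarith
  refine le_trans ?_ h9
  have hκE : κ ≤ κ * E := by nlinarith
  rcases hcase with h | ⟨h, h'⟩
  · have h11 : 0 ≤ (1 - η) * (1 - (1 - η) ^ 2) * U ^ 3 := by
      have : 0 ≤ 1 - (1 - η) ^ 2 := by nlinarith
      have : 0 ≤ 1 - η := by linarith
      positivity
    have h12 : κ * E * (lP + P + 1 / 2) ≤ κ * E * (-1 / 2) :=
      mul_le_mul_of_nonneg_left (by linarith) (by positivity)
    linarith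
  · have h12 : κ * E * (lP + P + 1 / 2) ≤ κ * E * 61 :=
      mul_le_mul_of_nonneg_left (by linarith) (by positivity)
    linarith

theorem low_alg {δ R C₁ κ ζU Ψ B rB lB A Ei M Bd : ℝ} (hδ : 0 < δ) (hR : 0 ≤ R)
    (hC₁ : 0 ≤ C₁) (hκ : 0 < κ) (hΨ : 0 ≤ Ψ) (hBe : B = ζU - Ψ) (hB0 : 0 < B)
    (hrB : rB ≤ C₁ * ζU - Ψ * (2 * (δ * R) - 4)) (hlB : κ / 2 ≤ lB + B - B ^ 3)
    (hA0 : 0 < A) (hA1 : A ≤ 1) (hEi0 : 0 < Ei) (hEi1 : Ei ≤ 1) (hM : M = 4 + C₁)
    (hAM : δ * R < M → Real.exp (-M) / 2 ≤ A) (hζ : ζU ≤ Bd)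
    (hδ2 : δ * ((16 + 4 * C₁) * Bd) ≤ κ * Real.exp (-M) / 4) :
    0 ≤ (A * lB + Ei * (δ * (-(4 * rB) + (4 * (δ * R) - 16) * B))) + A * B - (A * B) ^ 3 := by
  have h1 : (A * B) ^ 3 ≤ A * B ^ 3 := by
    have h2 : A ^ 3 ≤ A := by nlinarith [mul_pos hA0 hA0]
    have h3 : 0 ≤ B ^ 3 := by positivity
    calc (A * B) ^ 3 = A ^ 3 * B ^ 3 := by ring
      _ ≤ A * B ^ 3 := mul_le_mul_of_nonneg_right h2 h3
  have h4 : A * (κ / 2) ≤ A * (lB + B - B ^ 3) := mul_le_mul_of_nonneg_left hlB hA0.le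
  have h5 : (4 * (δ * R) - 16 - 4 * C₁) * B + 4 * Ψ * (2 * (δ * R) - 4 - C₁) ≤
      -(4 * rB) + (4 * (δ * R) - 16) * B := by
    have h6 : ζU = B + Ψ := by linarith
    rw [h6] at hrB
    nlinarith
  suffices h : 0 ≤ A * (κ / 2) + Ei * (δ * (-(4 * rB) + (4 * (δ * R) - 16) * B)) by
    linarith
  by_cases hc : δ * R < M
  · have h6 : -((16 + 4 * C₁) * Bd) ≤ -(4 * rB) + (4 * (δ * R) - 16) * B := by
      refine le_trans ?_ h5
      have h7 : ζU = B + Ψ := by linarith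
      have h8 : 0 ≤ δ * R := by positivity
      have h9 : (16 + 4 * C₁) * (B + Ψ) ≤ (16 + 4 * C₁) * Bd := by
        apply mul_le_mul_of_nonneg_left _ (by positivity)
        linarith
      nlinarith [mul_nonneg h8 hB0.le, mul_nonneg h8 hΨ]
    have h7 : 0 ≤ (16 + 4 * C₁) * Bd := by
      have : 0 ≤ Bd := by linarith
      positivity
    have h8 : -(δ * ((16 + 4 * C₁) * Bd)) ≤
        Ei * (δ * (-(4 * rB) + (4 * (δ * R) - 16) * B)) := by
      have h9 : δ * -((16 + 4 * C₁) * Bd) ≤ δ * (-(4 * rB) + (4 * (δ * R) - 16) * B) :=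
        mul_le_mul_of_nonneg_left h6 hδ.le
      have h10 : Ei * (δ * -((16 + 4 * C₁) * Bd)) ≤
          Ei * (δ * (-(4 * rB) + (4 * (δ * R) - 16) * B)) :=
        mul_le_mul_of_nonneg_left h9 hEi0.le
      have h11 : Ei * (δ * ((16 + 4 * C₁) * Bd)) ≤ 1 * (δ * ((16 + 4 * C₁) * Bd)) :=
        mul_le_mul_of_nonneg_right hEi1 (by positivity)
      linarith
    have h9 := hAM hc
    have h10 : Real.exp (-M) / 2 * (κ / 2) ≤ A * (κ / 2) :=
      mul_le_mul_of_nonneg_right h9 (by positivity)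
    linarith
  · push Not at hc
    have h6 : 0 ≤ -(4 * rB) + (4 * (δ * R) - 16) * B := by
      refine le_trans ?_ h5
      have h7 : 0 ≤ 4 * (δ * R) - 16 - 4 * C₁ := by linarith
      have h8 : 0 ≤ 2 * (δ * R) - 4 - C₁ := by linarith
      positivity
    positivity

/-- LOWER BOUND: comparison with an explicit subsolution. -/
theorem lower {u U : E8 → ℝ} (hu : Sol u) (hU : ContDiff ℝ 2 U) (Bd C₁ c₂ : ℝ) (hC₁ : 0 ≤ C₁)
    (hc₂ : 0 < c₂) (h0 : ∀ x, SS x = TT x → U x ≤ 0)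
    (hBd : ∀ x, TT x < SS x → U x ≤ Bd)
    (hlow : ∀ x, TT x < SS x → SS x + TT x + 1 < 20 * (SS x - TT x) ^ 2 → c₂ ≤ U x)
    (hrad : ∀ x, TT x < SS x → 0 < U x → fderiv ℝ U x x ≤ C₁ * U x)
    (hsub : ∀ x, TT x < SS x → 0 < U x → 0 ≤ lap U x + U x - U x ^ 3) :
    ∀ x, TT x < SS x → U x ≤ u x := by
  intro x₀ hx₀
  by_contra hcon
  push Not at hcon
  have hu0 := hu.pos x₀ hx₀
  set M := 4 + C₁ with hM
  -- choice of the parameters
  obtain ⟨η, hη0, hη1, hη⟩ : ∃ η, 0 < η ∧ η < 1 ∧ u x₀ < (1 - η) * U x₀ := by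
    apply pick _ one_pos
    have hF : ContinuousAt (fun t : ℝ => (1 - t) * U x₀) 0 := by fun_prop
    apply continuousAt_const.eventually_lt hF
    simpa using hcon
  obtain ⟨θ, hθ0, hθ1, hθ⟩ : ∃ θ, 0 < θ ∧ θ < Real.exp (-M) / 2 ∧
      u x₀ < (1 - θ) * ((1 - η) * U x₀) := by
    apply pick _ (by positivity)
    have hF : ContinuousAt (fun t : ℝ => (1 - t) * ((1 - η) * U x₀)) 0 := by fun_prop
    apply continuousAt_const.eventually_lt hF
    simpa using hη
  have hM0 : 0 < M := by linarith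
  have hexpM : Real.exp (-M) < 1 := by
    rw [Real.exp_lt_one_iff]
    linarith
  have hθ2 : θ < 1 := by linarith
  set C₂ := (1 - η) * (1 - (1 - η) ^ 2) * c₂ ^ 3 with hC₂
  have hC₂0 : 0 < C₂ := by
    have : 0 < 1 - η := by linarith
    have : 0 < 1 - (1 - η) ^ 2 := by nlinarith
    positivity
  obtain ⟨κ, hκ0, hκ1, hκ⟩ : ∃ κ, 0 < κ ∧ κ < C₂ / (61 / θ + 1 / 2) ∧
      u x₀ < (1 - θ) * ((1 - η) * U x₀ - κ * Phi x₀) := by
    apply pick _ (by positivity)
    have hF : ContinuousAt (fun t : ℝ => (1 - θ) * ((1 - η) * U x₀ - t * Phi x₀)) 0 := by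
      fun_prop
    apply continuousAt_const.eventually_lt hF
    simpa using hθ
  set L := |Real.log (1 / θ)| with hL
  have hL0 : 0 ≤ L := abs_nonneg _
  have hBd0 : 0 < Bd := by
    have := hBd x₀ hx₀
    linarith
  obtain ⟨δ, hδ0, hδ1, hδ2, hδ3⟩ : ∃ δ, 0 < δ ∧
      δ < min (1 / 2 / (8 * L + 32)) (κ * Real.exp (-M) / 4 / ((16 + 4 * C₁) * Bd)) ∧
      0 < Real.exp (-(δ * Rf x₀)) - θ ∧
      u x₀ < (Real.exp (-(δ * Rf x₀)) - θ) *
        ((1 - η) * U x₀ - κ * (Real.exp (δ * Rf x₀) * Phi x₀)) := by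
    apply pick _ (lt_min (by positivity) (by positivity))
    apply Filter.Eventually.and
    · have hF : ContinuousAt (fun t : ℝ => Real.exp (-(t * Rf x₀)) - θ) 0 := by fun_prop
      apply continuousAt_const.eventually_lt hF
      simp
      linarith
    · have hF : ContinuousAt (fun t : ℝ => (Real.exp (-(t * Rf x₀)) - θ) *
        ((1 - η) * U x₀ - κ * (Real.exp (t * Rf x₀) * Phi x₀))) 0 := by fun_prop
      apply continuousAt_const.eventually_lt hF
      simpa using hκ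
  have hδ4 : δ * (8 * L + 32) ≤ 1 / 2 := by
    have h1 : δ < 1 / 2 / (8 * L + 32) := hδ1.trans_le (min_le_left _ _)
    rw [lt_div_iff₀ (by positivity)] at h1
    exact h1.le
  have hδ5 : δ * ((16 + 4 * C₁) * Bd) ≤ κ * Real.exp (-M) / 4 := by
    have h1 : δ < κ * Real.exp (-M) / 4 / ((16 + 4 * C₁) * Bd) := hδ1.trans_le (min_le_right _ _)
    rw [lt_div_iff₀ (by positivity)] at h1
    exact h1.le
  set A : E8 → ℝ := fun x => Real.exp (-δ * Rf x) - θ with hA
  set B : E8 → ℝ := fun x => (1 - η) * U x - κ * (Real.exp (δ * Rf x) * Phi x) with hB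
  have hRc : ContDiff ℝ 2 Rf := Qc_contDiff _
  have hE1 : ContDiff ℝ 2 (fun x : E8 => Real.exp (-δ * Rf x)) := (contDiff_const.mul hRc).exp
  have hE2 : ContDiff ℝ 2 (fun x : E8 => Real.exp (δ * Rf x)) := (contDiff_const.mul hRc).exp
  have hEP : ContDiff ℝ 2 (fun x : E8 => Real.exp (δ * Rf x) * Phi x) := hE2.mul Phi_contDiff
  have hκEP : ContDiff ℝ 2 (fun x : E8 => κ * (Real.exp (δ * Rf x) * Phi x)) :=
    contDiff_const.mul hEP
  have hηU : ContDiff ℝ 2 (fun x : E8 => (1 - η) * U x) := contDiff_const.mul hU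
  have hAc : ContDiff ℝ 2 A := hE1.sub contDiff_const
  have hBc : ContDiff ℝ 2 B := hηU.sub hκEP
  have hABx₀ : u x₀ < A x₀ * B x₀ := by
    simp only [hA, hB]
    have : -δ * Rf x₀ = -(δ * Rf x₀) := by ring
    rw [this]
    exact hδ3
  have hAx₀ : 0 < A x₀ := by
    simp only [hA]
    have : -δ * Rf x₀ = -(δ * Rf x₀) := by ring
    rw [this]
    exact hδ2
  have hBx₀ : 0 < B x₀ := by
    by_contra hneg
    push Not at hneg
    have := mul_nonpos_of_nonneg_of_nonpos hAx₀.le hneg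
    linarith
  -- the exponential is bounded where `A` is nonnegative
  have hEb : ∀ x, 0 ≤ A x → Real.exp (δ * Rf x) ≤ 1 / θ := by
    intro x hx
    have h1 : θ ≤ Real.exp (-δ * Rf x) := by
      have : 0 ≤ Real.exp (-δ * Rf x) - θ := hx
      linarith
    have h2 : Real.exp (δ * Rf x) = (Real.exp (-δ * Rf x))⁻¹ := by
      rw [← Real.exp_neg]
      congr 1
      ring
    rw [h2, one_div]
    exact inv_anti₀ hθ0 h1
  have hRb : ∀ x, 0 ≤ A x → δ * Rf x ≤ L := by
    intro x hx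
    have h1 := hEb x hx
    have h2 : δ * Rf x ≤ Real.log (1 / θ) :=
      (Real.le_log_iff_exp_le (by positivity)).2 h1
    exact h2.trans (le_abs_self _)
  have key := low_basic hu hAc hBc (L / δ) ?_ ?_ ?_ x₀ hx₀.le hAx₀.le hBx₀.le
  · linarith
  · intro x _ hx _
    rw [le_div_iff₀ hδ0]
    have := hRb x hx
    linarith
  · intro x hx
    have h1 := h0 x hx.symm
    have h2 : 0 < κ * (Real.exp (δ * Rf x) * Phi x) := by
      have := Phi_pos x
      have := Real.exp_pos (δ * Rf x)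
      positivity
    have h3 : (1 - η) * U x ≤ 0 := mul_nonpos_of_nonneg_of_nonpos (by linarith) h1
    simp only [hB]
    linarith
  · intro x hx hAx hBx
    have hR0 := Rf_nonneg x
    have hPx := Phi_pos x
    have hE1' : 1 ≤ Real.exp (δ * Rf x) := Real.one_le_exp (by positivity)
    have hEb' := hEb x hAx.le
    have hRb' := hRb x hAx.le
    have hBe : B x = (1 - η) * U x - κ * (Real.exp (δ * Rf x) * Phi x) := rfl
    have hUx : 0 < U x := by
      have h1 : 0 < κ * (Real.exp (δ * Rf x) * Phi x) := by positivity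
      have h2 : 0 < (1 - η) * U x := by linarith
      exact (pos_iff_pos_of_mul_pos h2).1 (by linarith)
    -- Laplacians
    have hlB : lap B x = (1 - η) * lap U x - κ * (Real.exp (δ * Rf x) * (lap Phi x +
        4 * δ * rad Phi x + (4 * δ ^ 2 * Rf x + 16 * δ) * Phi x)) := by
      have h1 : lap B x = lap (fun y => (1 - η) * U y - κ * (Real.exp (δ * Rf y) * Phi y)) x := rfl
      have h2 := lap_exp_mul Phi_contDiff δ x
      rw [h1, lap_sub hηU hκEP, lap_const_mul hU, lap_const_mul hEP]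
      change _ - κ * lap (fun y => Real.exp (δ * Qc (fun _ => 1) y) * Phi y) x = _
      rw [h2]
    have hrB : rad B x = (1 - η) * rad U x - κ * (Real.exp (δ * Rf x) * (rad Phi x +
        2 * δ * Rf x * Phi x)) := by
      have h1 : rad B x = rad (fun y => (1 - η) * U y - κ * (Real.exp (δ * Rf y) * Phi y)) x := rfl
      have hδR : DifferentiableAt ℝ (fun y : E8 => δ * Rf y) x :=
        (diff_of hRc x).const_mul δ
      rw [h1, rad_sub (diff_of hηU x) (diff_of hκEP x), rad_const_mul _ (diff_of hU x),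
        rad_const_mul _ (diff_of hEP x), rad_mul (diff_of hE2 x) (diff_of Phi_contDiff x),
        rad_exp hδR, rad_const_mul _ (diff_of hRc x), rad_Qc]
      ring
    have hlAB : lap (fun y => A y * B y) x = A x * lap B x + Real.exp (-δ * Rf x) *
        (δ * (-(4 * rad B x) + (4 * (δ * Rf x) - 16) * B x)) := by
      have h1 : (fun y => A y * B y) =
          fun y => (fun z => Real.exp (-δ * Rf z) * B z) y - (fun z => θ * B z) y := by
        funext y
        simp only [hA]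
        ring
      have h2 := lap_exp_mul hBc (-δ) x
      rw [h1, lap_sub (f := fun z => Real.exp (-δ * Rf z) * B z) (g := fun z => θ * B z)
        (hE1.mul hBc) (contDiff_const.mul hBc), lap_const_mul hBc]
      change lap (fun y => Real.exp (-δ * Qc (fun _ => 1) y) * B y) x - _ = _
      rw [h2]
      have h3 : A x = Real.exp (-δ * Rf x) - θ := rfl
      rw [h3]
      ring
    have hEi : Real.exp (-δ * Rf x) ≤ 1 := by
      rw [Real.exp_le_one_iff]
      nlinarith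
    have hrP := rad_Phi_nonpos x
    have hrP' := rad_Phi_ge x
    have hr : rad U x ≤ C₁ * U x := hrad x hx hUx
    have hstr : κ / 2 ≤ lap B x + B x - B x ^ 3 := by
      rw [hlB]
      apply low_strict (L := L) (C₂ := C₂) (P := Phi x) hη0 hη1 hκ0 hE1' hδ0 hR0 hRb' hPx
        (Phi_le x) hrP hUx (hsub x hx hUx) (by rw [hBe]; ring) hBx hδ4
      · have h1 : κ * (61 / θ + 1 / 2) < C₂ := by
          rwa [lt_div_iff₀ (by positivity)] at hκ1
        have h2 : 61 * κ * Real.exp (δ * Rf x) ≤ 61 * κ * (1 / θ) :=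
          mul_le_mul_of_nonneg_left hEb' (by positivity)
        have h3 : κ * (61 / θ + 1 / 2) = 61 * κ * (1 / θ) + κ / 2 := by ring
        linarith
      · by_cases hnear : 20 * Xf x ^ 2 ≤ qf x
        · left
          exact Phi_near x hnear
        · right
          refine ⟨Phi_far x, ?_⟩
          have h5 := hlow x hx (far_iff.1 hnear)
          have h7 : c₂ ^ 3 ≤ U x ^ 3 := pow_le_pow_left₀ hc₂.le h5 3
          apply mul_le_mul_of_nonneg_left h7
          have : 0 ≤ 1 - η := by linarith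
          have : 0 ≤ 1 - (1 - η) ^ 2 := by nlinarith
          positivity
    rw [hlAB]
    apply low_alg (ζU := (1 - η) * U x) (Ψ := κ * (Real.exp (δ * Rf x) * Phi x)) (M := M)
      (Bd := Bd) hδ0 hR0 hC₁ hκ0 (by positivity) hBe hBx _ hstr hAx _ (Real.exp_pos _) hEi hM _ _
      hδ5
    · rw [hrB]
      have h1 : (1 - η) * rad U x ≤ (1 - η) * (C₁ * U x) :=
        mul_le_mul_of_nonneg_left hr (by linarith)
      have h2 : κ * (Real.exp (δ * Rf x) * (-(4 * Phi x))) ≤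
          κ * (Real.exp (δ * Rf x) * rad Phi x) := by
        apply mul_le_mul_of_nonneg_left _ hκ0.le
        exact mul_le_mul_of_nonneg_left hrP' (Real.exp_pos _).le
      nlinarith
    · have : A x = Real.exp (-δ * Rf x) - θ := rfl
      linarith
    · intro hRM
      have h1 : Real.exp (-M) ≤ Real.exp (-δ * Rf x) := by
        apply Real.exp_le_exp.2
        linarith
      have : A x = Real.exp (-δ * Rf x) - θ := rfl
      linarith
    · have h1 := hBd x hx
      nlinarith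

end Pool.Agent.Saddle
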