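import Pool.Agent.Saddle.A3
import Pool.Agent.Saddle.C

/-!
# MP_d5c502_an, reduction, part 4: the frozen statement from the fields

`frozen_of_fields` : the conclusion of the frozen statement `S06299`, in its exact form, from the
existence for every `u` satisfying `Sol u` of two fields of class `C ^ 1` with the pointwise
inequality `Star`.
-/

set_option autoImplicit false

noncomputable section

open MeasureTheory Set Filter Metric
open scoped Topology

namespace Pool.Agent.Saddle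

theorem SS_swp (x : E8) : SS (swp x) = TT x := by
  unfold SS TT
  rw [Finset.sum_filter, Finset.sum_filter, Fin.sum_univ_eight, Fin.sum_univ_eight]
  have h0 : swp x 0 = x 4 := rfl
  have h1 : swp x 1 = x 5 := rfl
  have h2 : swp x 2 = x 6 := rfl
  have h3 : swp x 3 = x 7 := rfl
  simp [h0, h1, h2, h3]

theorem TT_swp (x : E8) : TT (swp x) = SS x := by
  unfold SS TT
  rw [Finset.sum_filter, Finset.sum_filter, Fin.sum_univ_eight, Fin.sum_univ_eight]
  have h4 : swp x 4 = x 0 := rfl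
  have h5 : swp x 5 = x 1 := rfl
  have h6 : swp x 6 = x 2 := rfl
  have h7 : swp x 7 = x 3 := rfl
  simp [h4, h5, h6, h7]

theorem Sol.swp_odd {u : E8 → ℝ} (hu : Sol u) (x : E8) : u (swp x) = -u x :=
  hu.odd x (swp x) (TT_swp x).symm (SS_swp x).symm

/-- The conclusion of the frozen statement for one `u`. -/
theorem Sol.minimizes {u : E8 → ℝ} (hu : Sol u) {B C : E8 → E8} (hB : ContDiff ℝ 1 B)
    (hC : ContDiff ℝ 1 C) (hs : Star u B C) (φ : E8 → ℝ) (R : ℝ) (hφ : ContDiff ℝ 1 φ)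
    (hR : tsupport φ ⊆ ball (0 : E8) R) :
    (∫ x in ball (0 : E8) R, (‖fderiv ℝ u x‖ ^ 2 / 2 + (1 - u x ^ 2) ^ 2 / 4)) ≤
      ∫ x in ball (0 : E8) R,
        (‖fderiv ℝ (fun y => u y + φ y) x‖ ^ 2 / 2 + (1 - (u x + φ x) ^ 2) ^ 2 / 4) :=
  red_ball hu.smooth hu.eqn hu.bdd hu.swp_odd hB hC hs hφ R hR

/-- The frozen statement `S06299` from the existence of the fields. -/
theorem frozen_of_fields
    (H : ∀ u : E8 → ℝ, Sol u → ∃ B C : E8 → E8, ContDiff ℝ 1 B ∧ ContDiff ℝ 1 C ∧ Star u B C) :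
    ∀ (S T : EuclideanSpace ℝ (Fin 8) → ℝ),
      (∀ x, S x = ∑ i ∈ Finset.univ.filter (fun i : Fin 8 => (i : ℕ) < 4), x i ^ 2) →
      (∀ x, T x = ∑ i ∈ Finset.univ.filter (fun i : Fin 8 => 4 ≤ (i : ℕ)), x i ^ 2) →
      ∀ u : EuclideanSpace ℝ (Fin 8) → ℝ,
        ContDiff ℝ 2 u →
        (∀ x, (∑ i : Fin 8, fderiv ℝ (fun y => fderiv ℝ u y (EuclideanSpace.single i (1 : ℝ))) x
                (EuclideanSpace.single i (1 : ℝ))) + u x - u x ^ 3 = 0) →
        (∀ x, |u x| < 1) →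
        (∀ x y, S x = S y → T x = T y → u x = u y) →
        (∀ x y, S x = T y → T x = S y → u y = - u x) →
        (∀ x, T x < S x → 0 < u x) →
        ∀ (φ : EuclideanSpace ℝ (Fin 8) → ℝ) (R : ℝ),
          ContDiff ℝ 1 φ →
          tsupport φ ⊆ Metric.ball (0 : EuclideanSpace ℝ (Fin 8)) R →
          (∫ x in Metric.ball (0 : EuclideanSpace ℝ (Fin 8)) R,
              (‖fderiv ℝ u x‖ ^ 2 / 2 + (1 - u x ^ 2) ^ 2 / 4)) ≤
          ∫ x in Metric.ball (0 : EuclideanSpace ℝ (Fin 8)) R,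
              (‖fderiv ℝ (fun y => u y + φ y) x‖ ^ 2 / 2 + (1 - (u x + φ x) ^ 2) ^ 2 / 4) := by
  intro S T hS hT u h1 h2 h3 _ h4 h5 φ R hφ hR
  have hu := Sol.of_frozen S T hS hT u h1 h2 h3 h4 h5
  obtain ⟨B, C, hB, hC, hs⟩ := H u hu
  exact hu.minimizes hB hC hs φ R hφ hR

end Pool.Agent.Saddle
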