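import Pool.Agent.Saddle.Calc

/-!
# MP_d5c502_an, reduction, part 1: Lipschitz functions with compact support

Products of Lipschitz functions with compact support, products with `C ^ 1` functions, and the
vanishing of the integral of a derivative.
-/

set_option autoImplicit false

noncomputable section

open MeasureTheory Set Filter Metric
open scoped Topology

namespace Pool.Agent.Saddle

/-- The standard basis vectors. -/
abbrev ev (i : Fin 8) : E8 := EuclideanSpace.single i (1 : ℝ)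

/-- Lipschitz with compact support. -/
def LC (f : E8 → ℝ) : Prop := (∃ K, LipschitzWith K f) ∧ HasCompactSupport f

theorem LC.cont {f : E8 → ℝ} (hf : LC f) : Continuous f := by
  obtain ⟨⟨K, hK⟩, -⟩ := hf
  exact hK.continuous

theorem LC.bdd {f : E8 → ℝ} (hf : LC f) : ∃ M : ℝ, 0 ≤ M ∧ ∀ x, |f x| ≤ M := by
  obtain ⟨M, hM⟩ := hf.2.exists_bound_of_continuous hf.cont
  exact ⟨M, (norm_nonneg _).trans (hM 0), hM⟩

theorem LC.of_contDiff {f : E8 → ℝ} (hf : ContDiff ℝ 1 f) (h : HasCompactSupport f) : LC f :=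
  ⟨ContDiff.lipschitzWith_of_hasCompactSupport (𝕂 := ℝ) h hf one_ne_zero, h⟩

theorem LC.mul {f g : E8 → ℝ} (hf : LC f) (hg : LC g) : LC fun x => f x * g x := by
  obtain ⟨M, hM0, hM⟩ := hf.bdd
  obtain ⟨N, hN0, hN⟩ := hg.bdd
  obtain ⟨⟨K, hK⟩, hfs⟩ := hf
  obtain ⟨⟨L, hL⟩, hgs⟩ := hg
  refine ⟨⟨⟨M * L + N * K, by positivity⟩, ?_⟩, hfs.mul_right⟩
  refine LipschitzWith.of_dist_le_mul fun x y => ?_
  have h1 := hK.dist_le_mul x y
  have h2 := hL.dist_le_mul x y
  rw [Real.dist_eq] at h1 h2 ⊢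
  have e : f x * g x - f y * g y = f x * (g x - g y) + g y * (f x - f y) := by ring
  rw [e]
  refine (abs_add_le _ _).trans ?_
  rw [abs_mul, abs_mul]
  have h3 : |f x| * |g x - g y| ≤ M * (L * dist x y) :=
    mul_le_mul (hM x) h2 (abs_nonneg _) hM0
  have h4 : |g y| * |f x - f y| ≤ N * (K * dist x y) :=
    mul_le_mul (hN y) h1 (abs_nonneg _) hN0
  change _ ≤ (M * L + N * K) * dist x y
  linarith

theorem LC.add {f g : E8 → ℝ} (hf : LC f) (hg : LC g) : LC fun x => f x + g x := by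
  obtain ⟨⟨K, hK⟩, hfs⟩ := hf
  obtain ⟨⟨L, hL⟩, hgs⟩ := hg
  exact ⟨⟨K + L, hK.add hL⟩, hfs.add hgs⟩

/-- A smooth cutoff. -/
theorem cutoff (s : Set E8) (hs : IsCompact s) : ∃ χ : E8 → ℝ, ContDiff ℝ 1 χ ∧
    HasCompactSupport χ ∧ (∀ x ∈ s, χ x = 1) ∧ ∀ x, 0 ≤ χ x ∧ χ x ≤ 1 := by
  obtain ⟨R, hR⟩ := hs.isBounded.subset_closedBall 0
  let b : ContDiffBump (0 : E8) := ⟨max R 1, max R 1 + 1, by positivity, by linarith⟩
  refine ⟨b, b.contDiff, b.hasCompactSupport, fun x hx => ?_, fun x => ⟨b.nonneg, b.le_one⟩⟩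
  exact b.one_of_mem_closedBall (closedBall_subset_closedBall (le_max_left _ _) (hR hx))

theorem LC.mul_contDiff {f : E8 → ℝ} (hf : LC f) {g : E8 → ℝ} (hg : ContDiff ℝ 1 g) :
    LC fun x => g x * f x := by
  obtain ⟨χ, h1, h2, h3, -⟩ := cutoff (tsupport f) hf.2
  have h4 : LC fun x => χ x * g x := LC.of_contDiff (h1.mul hg) h2.mul_right
  have h5 := h4.mul hf
  have e : (fun x => g x * f x) = fun x => χ x * g x * f x := by
    funext x
    by_cases hx : x ∈ tsupport f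
    · rw [h3 x hx, one_mul]
    · rw [image_eq_zero_of_notMem_tsupport hx, mul_zero, mul_zero]
  rw [e]
  exact h5

theorem LC.const_mul {f : E8 → ℝ} (hf : LC f) (c : ℝ) : LC fun x => c * f x :=
  hf.mul_contDiff contDiff_const

/-- The integral of a derivative vanishes. -/
theorem LC.integral_fderiv {f : E8 → ℝ} (hf : LC f) (v : E8) : ∫ x, fderiv ℝ f x v = 0 := by
  obtain ⟨⟨K, hK⟩, hs⟩ := hf
  have h1 : LipschitzWith 0 fun _ : E8 => (1 : ℝ) := LipschitzWith.const 1
  have h2 := h1.integral_lineDeriv_mul_eq (μ := volume) hK hs (-v)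
  rw [neg_neg] at h2
  have h3 : ∀ x : E8, lineDeriv ℝ (fun _ : E8 => (1 : ℝ)) x (-v) = 0 := fun x => by
    simp [lineDeriv]
  simp only [h3, zero_mul, integral_zero, mul_one] at h2
  rw [h2]
  refine integral_congr_ae ?_
  filter_upwards [hK.ae_differentiableAt] with x hx
  rw [hx.lineDeriv_eq_fderiv]

theorem LC.ae_diff {f : E8 → ℝ} (hf : LC f) : ∀ᵐ x : E8, DifferentiableAt ℝ f x := by
  obtain ⟨⟨K, hK⟩, -⟩ := hf
  exact hK.ae_differentiableAt

theorem LC.fderiv_bdd {f : E8 → ℝ} (hf : LC f) : ∃ M : ℝ, 0 ≤ M ∧ ∀ x, ‖fderiv ℝ f x‖ ≤ M := by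
  obtain ⟨⟨K, hK⟩, -⟩ := hf
  exact ⟨K, K.2, fun x => norm_fderiv_le_of_lipschitz ℝ hK⟩

/-- Integrability of a measurable bounded function vanishing outside a compact set. -/
theorem integrable_of_bdd {f : E8 → ℝ} (hf : Measurable f) {s : Set E8} (hs : IsCompact s)
    (h0 : ∀ x ∉ s, f x = 0) {M : ℝ} (hM : ∀ x ∈ s, |f x| ≤ M) : Integrable f := by
  rw [← integrableOn_iff_integrable_of_support_subset (s := s)]
  · refine Measure.integrableOn_of_bounded (M := M) hs.measure_lt_top.ne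
      hf.aestronglyMeasurable ?_
    filter_upwards [ae_restrict_mem hs.measurableSet] with x hx
    exact hM x hx
  · intro x hx
    by_contra h
    exact hx (h0 x h)

theorem LC.integrable_fderiv {f : E8 → ℝ} (hf : LC f) (v : E8) :
    Integrable fun x => fderiv ℝ f x v := by
  obtain ⟨M, hM0, hM⟩ := hf.fderiv_bdd
  refine integrable_of_bdd (M := M * ‖v‖) (measurable_fderiv_apply_const ℝ f v) hf.2 ?_ ?_
  · intro x hx
    have h1 : f =ᶠ[𝓝 x] fun _ => 0 := by
      filter_upwards [(isClosed_tsupport f).isOpen_compl.mem_nhds hx] with y hy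
      exact image_eq_zero_of_notMem_tsupport hy
    rw [h1.fderiv_eq]
    simp
  · intro x _
    exact (ContinuousLinearMap.le_opNorm _ _).trans
      (mul_le_mul_of_nonneg_right (hM x) (norm_nonneg _))

/-- The norm of a functional on `ℝ ^ 8`. -/
theorem normsq (L : E8 →L[ℝ] ℝ) : ‖L‖ ^ 2 = ∑ i, (L (ev i)) ^ 2 := by
  set w : E8 := (InnerProductSpace.toDual ℝ E8).symm L with hw
  have h1 : ‖w‖ = ‖L‖ := LinearIsometryEquiv.norm_map _ _
  have h2 : ∀ v : E8, L v = inner ℝ w v := fun v => by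
    rw [hw, InnerProductSpace.toDual_symm_apply]
  rw [← h1, EuclideanSpace.norm_sq_eq]
  refine Finset.sum_congr rfl fun i _ => ?_
  rw [h2, EuclideanSpace.inner_single_right]
  simp

end Pool.Agent.Saddle
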