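import Pool.Agent.Saddle.A1

/-!
# MP_d5c502_an, reduction, part 2: the calibration argument for `0 ≤ ψ ≤ 1 - u`
-/

set_option autoImplicit false

noncomputable section

open MeasureTheory Set Filter Metric
open scoped Topology

namespace Pool.Agent.Saddle

/-- The energy density. -/
def en (v : E8 → ℝ) (x : E8) : ℝ := ‖fderiv ℝ v x‖ ^ 2 / 2 + (1 - v x ^ 2) ^ 2 / 4

/-- The divergence. -/
def dv (B : E8 → E8) (x : E8) : ℝ := ∑ i, (fderiv ℝ B x (ev i)) i

/-- The Allen-Cahn equation, in the form of the frozen statement. -/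
def AC (u : E8 → ℝ) : Prop :=
  ∀ x, (∑ i : Fin 8, fderiv ℝ (fun y => fderiv ℝ u y (ev i)) x (ev i)) + u x - u x ^ 3 = 0

/-- The pointwise inequality for the fields `B`, `C`. -/
def Star (u : E8 → ℝ) (B C : E8 → E8) : Prop :=
  ∀ x : E8, ∀ y : ℝ, 0 ≤ y → y ≤ 1 - u x →
    0 ≤ (3 * u x ^ 2 - 1 - ‖B x‖ ^ 2 + dv B x) +
      y * (2 * u x - 2 * inner ℝ (B x) (C x) + 2 / 3 * dv C x) + y ^ 2 * (1 / 2 - ‖C x‖ ^ 2)

theorem coord_contDiff {B : E8 → E8} (hB : ContDiff ℝ 1 B) (i : Fin 8) :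
    ContDiff ℝ 1 fun x => B x i :=
  (EuclideanSpace.proj i : E8 →L[ℝ] ℝ).contDiff.comp hB

theorem coord_fderiv {B : E8 → E8} (hB : ContDiff ℝ 1 B) (i : Fin 8) (x v : E8) :
    fderiv ℝ (fun x => B x i) x v = fderiv ℝ B x v i := by
  have h1 : HasFDerivAt B (fderiv ℝ B x) x :=
    (hB.differentiable one_ne_zero x).hasFDerivAt
  have h2 := (EuclideanSpace.proj i : E8 →L[ℝ] ℝ).hasFDerivAt.comp x h1
  have h3 : HasFDerivAt (fun x => B x i)
      ((EuclideanSpace.proj i : E8 →L[ℝ] ℝ).comp (fderiv ℝ B x)) x := h2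
  rw [h3.fderiv]
  rfl

theorem du_contDiff {u : E8 → ℝ} (hu : ContDiff ℝ 2 u) (v : E8) :
    ContDiff ℝ 1 fun y => fderiv ℝ u y v :=
  (hu.fderiv_right (m := 1) (by norm_num)).clm_apply contDiff_const

/-- The field whose divergence is subtracted. -/
def Fld (u ψ : E8 → ℝ) (B C : E8 → E8) (i : Fin 8) (x : E8) : ℝ :=
  fderiv ℝ u x (ev i) * ψ x + (-(1 / 2) * B x i) * (ψ x * ψ x) +
    (-(1 / 3) * C x i) * (ψ x * ψ x * ψ x)

theorem Fld_LC {u ψ : E8 → ℝ} {B C : E8 → E8} (hu : ContDiff ℝ 2 u) (hB : ContDiff ℝ 1 B)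
    (hC : ContDiff ℝ 1 C) (hψ : LC ψ) (i : Fin 8) : LC (Fld u ψ B C i) := by
  refine ((hψ.mul_contDiff (du_contDiff hu (ev i))).add
    ((hψ.mul hψ).mul_contDiff (contDiff_const.mul (coord_contDiff hB i)))).add
    (((hψ.mul hψ).mul hψ).mul_contDiff (contDiff_const.mul (coord_contDiff hC i)))

theorem Fld_fderiv {u ψ : E8 → ℝ} {B C : E8 → E8} (hu : ContDiff ℝ 2 u) (hB : ContDiff ℝ 1 B)
    (hC : ContDiff ℝ 1 C) (i : Fin 8) {x : E8} (hψ : DifferentiableAt ℝ ψ x) :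
    fderiv ℝ (Fld u ψ B C i) x (ev i) =
      (fderiv ℝ (fun y => fderiv ℝ u y (ev i)) x (ev i) * ψ x +
        fderiv ℝ u x (ev i) * fderiv ℝ ψ x (ev i)) -
      1 / 2 * (fderiv ℝ B x (ev i) i * ψ x ^ 2 + 2 * B x i * ψ x * fderiv ℝ ψ x (ev i)) -
      1 / 3 * (fderiv ℝ C x (ev i) i * ψ x ^ 3 + 3 * C x i * ψ x ^ 2 * fderiv ℝ ψ x (ev i)) := by
  have h1 := ((du_contDiff hu (ev i)).differentiable one_ne_zero x).hasFDerivAt
  have h2 := ((coord_contDiff hB i).differentiable one_ne_zero x).hasFDerivAt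
  have h3 := ((coord_contDiff hC i).differentiable one_ne_zero x).hasFDerivAt
  have h4 := hψ.hasFDerivAt
  have h5 := ((h1.mul h4).add ((h2.const_mul (-(1 / 2))).mul (h4.mul h4))).add
    ((h3.const_mul (-(1 / 3))).mul ((h4.mul h4).mul h4))
  have h6 : HasFDerivAt (Fld u ψ B C i) _ x := h5
  rw [h6.fderiv, ← coord_fderiv hB, ← coord_fderiv hC]
  simp only [add_apply, smul_apply, Pi.mul_apply, smul_eq_mul]
  ring

/-- The pointwise inequality. -/
theorem point {u ψ : E8 → ℝ} {B C : E8 → E8} (hu : ContDiff ℝ 2 u) (hac : AC u)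
    (hB : ContDiff ℝ 1 B) (hC : ContDiff ℝ 1 C) (hs : Star u B C) {x : E8}
    (hψ : DifferentiableAt ℝ ψ x) (h0 : 0 ≤ ψ x) (h1 : ψ x ≤ 1 - u x) :
    ∑ i, fderiv ℝ (Fld u ψ B C i) x (ev i) ≤ en (fun y => u y + ψ y) x - en u x := by
  have hud : DifferentiableAt ℝ u x := hu.differentiable two_ne_zero x
  have e1 : fderiv ℝ (fun y => u y + ψ y) x = fderiv ℝ u x + fderiv ℝ ψ x :=
    fderiv_add hud hψ
  have h2 := hs x (ψ x) h0 h1
  have h3 := hac x
  unfold en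
  rw [e1, normsq, normsq, Finset.sum_congr rfl fun i _ => Fld_fderiv hu hB hC i hψ]
  rw [EuclideanSpace.norm_sq_eq, EuclideanSpace.norm_sq_eq] at h2
  have h4 : inner ℝ (B x) (C x) = ∑ i, B x i * C x i := by
    rw [PiLp.inner_apply]
    refine Finset.sum_congr rfl fun i _ => ?_
    simp [mul_comm]
  rw [h4] at h2
  unfold dv at h2
  simp only [add_apply]
  generalize u x = U at *
  generalize ψ x = y at *
  generalize fderiv ℝ u x = a at *
  generalize fderiv ℝ ψ x = p at *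
  generalize B x = b at *
  generalize C x = c at *
  generalize fderiv ℝ B x = β at *
  generalize fderiv ℝ C x = γ at *
  have h5 : (∑ i, fderiv ℝ (fun y => fderiv ℝ u y (ev i)) x (ev i)) = U ^ 3 - U := by linarith
  have key : ((∑ i, (a (ev i) + p (ev i)) ^ 2) / 2 + (1 - (U + y) ^ 2) ^ 2 / 4 -
      ((∑ i, a (ev i) ^ 2) / 2 + (1 - U ^ 2) ^ 2 / 4)) -
      (∑ i, ((fderiv ℝ (fun y => fderiv ℝ u y (ev i)) x (ev i) * y + a (ev i) * p (ev i)) -
        1 / 2 * (β (ev i) i * y ^ 2 + 2 * b i * y * p (ev i)) -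
        1 / 3 * (γ (ev i) i * y ^ 3 + 3 * c i * y ^ 2 * p (ev i)))) =
      1 / 2 * ∑ i, (p (ev i) + y * b i + y ^ 2 * c i) ^ 2 +
      y ^ 2 / 2 * ((3 * U ^ 2 - 1 - ∑ i, ‖b i‖ ^ 2 + ∑ i, β (ev i) i) +
        y * (2 * U - 2 * (∑ i, b i * c i) + 2 / 3 * ∑ i, γ (ev i) i) +
        y ^ 2 * (1 / 2 - ∑ i, ‖c i‖ ^ 2)) := by
    have e2 : (∑ i, ((fderiv ℝ (fun y => fderiv ℝ u y (ev i)) x (ev i) * y +
        a (ev i) * p (ev i)) -
        1 / 2 * (β (ev i) i * y ^ 2 + 2 * b i * y * p (ev i)) -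
        1 / 3 * (γ (ev i) i * y ^ 3 + 3 * c i * y ^ 2 * p (ev i)))) =
        (U ^ 3 - U) * y + ∑ i, a (ev i) * p (ev i) - 1 / 2 * y ^ 2 * ∑ i, β (ev i) i -
        y * ∑ i, b i * p (ev i) - 1 / 3 * y ^ 3 * ∑ i, γ (ev i) i -
        y ^ 2 * ∑ i, c i * p (ev i) := by
      rw [← h5, Finset.sum_mul, Finset.mul_sum, Finset.mul_sum, Finset.mul_sum, Finset.mul_sum,
        ← Finset.sum_add_distrib, ← Finset.sum_sub_distrib, ← Finset.sum_sub_distrib,
        ← Finset.sum_sub_distrib, ← Finset.sum_sub_distrib]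
      refine Finset.sum_congr rfl fun i _ => ?_
      ring
    have e3 : ∑ i, (a (ev i) + p (ev i)) ^ 2 = ∑ i, a (ev i) ^ 2 + 2 * ∑ i, a (ev i) * p (ev i) +
        ∑ i, p (ev i) ^ 2 := by
      rw [Finset.mul_sum, ← Finset.sum_add_distrib, ← Finset.sum_add_distrib]
      refine Finset.sum_congr rfl fun i _ => ?_
      ring
    have e4 : ∑ i, (p (ev i) + y * b i + y ^ 2 * c i) ^ 2 = ∑ i, p (ev i) ^ 2 +
        y ^ 2 * ∑ i, ‖b i‖ ^ 2 + y ^ 4 * ∑ i, ‖c i‖ ^ 2 + 2 * y * ∑ i, b i * p (ev i) +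
        2 * y ^ 2 * ∑ i, c i * p (ev i) + 2 * y ^ 3 * ∑ i, b i * c i := by
      rw [Finset.mul_sum, Finset.mul_sum, Finset.mul_sum, Finset.mul_sum, Finset.mul_sum,
        ← Finset.sum_add_distrib, ← Finset.sum_add_distrib, ← Finset.sum_add_distrib,
        ← Finset.sum_add_distrib, ← Finset.sum_add_distrib]
      refine Finset.sum_congr rfl fun i _ => ?_
      rw [Real.norm_eq_abs, Real.norm_eq_abs, sq_abs, sq_abs]
      ring
    rw [e2, e3, e4]
    ring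
  have h6 : 0 ≤ ∑ i, (p (ev i) + y * b i + y ^ 2 * c i) ^ 2 :=
    Finset.sum_nonneg fun i _ => sq_nonneg _
  have h7 := mul_nonneg (by positivity : 0 ≤ y ^ 2 / 2) h2
  linarith

/-- The difference of the energies is integrable. -/
theorem en_integrable {u ψ : E8 → ℝ} (hu : ContDiff ℝ 2 u) (hψ : LC ψ) :
    Integrable fun x => en (fun y => u y + ψ y) x - en u x := by
  obtain ⟨M, hM0, hM⟩ := hψ.bdd
  obtain ⟨N, hN0, hN⟩ := hψ.fderiv_bdd
  have hK : IsCompact (tsupport ψ) := hψ.2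
  obtain ⟨P, hP⟩ := hK.exists_bound_of_continuousOn (f := u) hu.continuous.continuousOn
  obtain ⟨Q, hQ⟩ := hK.exists_bound_of_continuousOn (f := fderiv ℝ u)
    (hu.continuous_fderiv two_ne_zero).continuousOn
  have hmeas : Measurable fun x => en (fun y => u y + ψ y) x - en u x := by
    have h1 := measurable_fderiv ℝ (fun y => u y + ψ y)
    have h2 := measurable_fderiv ℝ u
    have h3 : Measurable u := hu.continuous.measurable
    have h4 : Measurable ψ := hψ.cont.measurable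
    unfold en
    exact (((h1.norm.pow_const 2).div_const 2).add
      (((measurable_const.sub ((h3.add h4).pow_const 2)).pow_const 2).div_const 4)).sub
      (((h2.norm.pow_const 2).div_const 2).add
      (((measurable_const.sub (h3.pow_const 2)).pow_const 2).div_const 4))
  have hzero : ∀ x ∉ tsupport ψ, en (fun y => u y + ψ y) x - en u x = 0 := by
    intro x hx
    have h1 : (fun y => u y + ψ y) =ᶠ[𝓝 x] u := by
      filter_upwards [(isClosed_tsupport ψ).isOpen_compl.mem_nhds hx] with y hy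
      rw [image_eq_zero_of_notMem_tsupport hy, add_zero]
    have h2 : u x + ψ x = u x := h1.eq_of_nhds
    unfold en
    rw [h1.fderiv_eq]
    beta_reduce
    rw [h2, sub_self]
  refine integrable_of_bdd (M := (Q + N) ^ 2 / 2 + (1 + (P + M) ^ 2) ^ 2 / 4 +
    (Q ^ 2 / 2 + (1 + P ^ 2) ^ 2 / 4)) hmeas hK hzero ?_
  intro x hx
  have h1 : ‖fderiv ℝ (fun y => u y + ψ y) x‖ ≤ Q + N := by
    by_cases hd : DifferentiableAt ℝ ψ x
    · have e1 : fderiv ℝ (fun y => u y + ψ y) x = fderiv ℝ u x + fderiv ℝ ψ x :=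
        fderiv_add (hu.differentiable two_ne_zero x) hd
      rw [e1]
      exact (norm_add_le _ _).trans (add_le_add (hQ x hx) (hN x))
    · have e1 : ¬ DifferentiableAt ℝ (fun y => u y + ψ y) x := by
        intro h
        apply hd
        have := h.sub (hu.differentiable two_ne_zero x)
        refine this.congr_of_eventuallyEq (Eventually.of_forall fun y => ?_)
        simp
      rw [fderiv_zero_of_not_differentiableAt e1, norm_zero]
      exact add_nonneg ((norm_nonneg _).trans (hQ x hx)) hN0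
  have h2 := hQ x hx
  have h3 := hP x hx
  rw [Real.norm_eq_abs] at h3
  have h4 : |u x + ψ x| ≤ P + M := (abs_add_le _ _).trans (add_le_add h3 (hM x))
  have hP0 : 0 ≤ P := (abs_nonneg _).trans h3
  have hQ0 : 0 ≤ Q := (norm_nonneg _).trans h2
  have key : ∀ (v g a b : ℝ), |v| ≤ a → 0 ≤ g → g ≤ b → 0 ≤ g ^ 2 / 2 + (1 - v ^ 2) ^ 2 / 4 ∧
      g ^ 2 / 2 + (1 - v ^ 2) ^ 2 / 4 ≤ b ^ 2 / 2 + (1 + a ^ 2) ^ 2 / 4 := by
    intro v g a b hv hg hb
    have ha : 0 ≤ a := (abs_nonneg _).trans hv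
    have h5 : v ^ 2 ≤ a ^ 2 := sq_le_sq.2 (by rwa [abs_of_nonneg ha])
    have h6 : g ^ 2 ≤ b ^ 2 := pow_le_pow_left₀ hg hb 2
    refine ⟨by positivity, ?_⟩
    have h7 : (1 - v ^ 2) ^ 2 ≤ (1 + a ^ 2) ^ 2 := by
      apply sq_le_sq'
      · nlinarith [sq_nonneg v, sq_nonneg a]
      · nlinarith [sq_nonneg v, sq_nonneg a]
    linarith
  have k1 := key _ _ _ _ h4 (norm_nonneg _) h1
  have k2 := key _ _ _ _ h3 (norm_nonneg _) h2
  unfold en
  rw [abs_le]
  constructor <;> linarith [k1.1, k1.2, k2.1, k2.2]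

/-- The main lemma. -/
theorem main {u ψ : E8 → ℝ} {B C : E8 → E8} (hu : ContDiff ℝ 2 u) (hac : AC u)
    (hB : ContDiff ℝ 1 B) (hC : ContDiff ℝ 1 C) (hs : Star u B C) (hψ : LC ψ)
    (h0 : ∀ x, 0 ≤ ψ x) (h1 : ∀ x, ψ x ≤ 1 - u x) :
    0 ≤ ∫ x, (en (fun y => u y + ψ y) x - en u x) := by
  have h2 : ∫ x, ∑ i, fderiv ℝ (Fld u ψ B C i) x (ev i) = 0 := by
    rw [integral_finsetSum _ fun i _ => (Fld_LC hu hB hC hψ i).integrable_fderiv _]
    exact Finset.sum_eq_zero fun i _ => (Fld_LC hu hB hC hψ i).integral_fderiv _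
  rw [← h2]
  refine integral_mono_ae (integrable_finsetSum _ fun i _ =>
    (Fld_LC hu hB hC hψ i).integrable_fderiv _) (en_integrable hu hψ) ?_
  filter_upwards [hψ.ae_diff] with x hx
  exact point hu hac hB hC hs hx (h0 x) (h1 x)

end Pool.Agent.Saddle
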