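import Pool.Agent.Saddle.A2

/-!
# MP_d5c502_an, reduction, part 3: general perturbations

Truncation and the swap of the two factors reduce the minimality to the pointwise inequality
`Star`.
-/

set_option autoImplicit false

noncomputable section

open MeasureTheory Set Filter Metric
open scoped Topology

namespace Pool.Agent.Saddle

/-- The swap of the two factors of `ℝ ^ 4 × ℝ ^ 4`. -/
def swp : E8 ≃ₗᵢ[ℝ] E8 := LinearIsometryEquiv.piLpCongrLeft 2 ℝ ℝ (Equiv.addRight (4 : Fin 8))

theorem en_swp (v : E8 → ℝ) (x : E8) : en (fun x => -v (swp x)) x = en v (swp x) := by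
  have h1 : fderiv ℝ (fun x => -v (swp x)) x =
      -((fderiv ℝ v (swp x)).comp (swp.toContinuousLinearEquiv : E8 →L[ℝ] E8)) := by
    have h2 : fderiv ℝ (fun x => -v (swp x)) x = -fderiv ℝ (v ∘ swp) x := fderiv_fun_neg
    have h3 := swp.toContinuousLinearEquiv.comp_right_fderiv (f := v) (x := x)
    rw [h2]
    exact congrArg Neg.neg h3
  unfold en
  rw [h1, norm_neg]
  have h4 : ‖(fderiv ℝ v (swp x)).comp (swp.toContinuousLinearEquiv : E8 →L[ℝ] E8)‖ =
      ‖fderiv ℝ v (swp x)‖ :=
    ContinuousLinearMap.opNorm_comp_linearIsometryEquiv _ _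
  rw [h4]
  simp

theorem en_neg (v : E8 → ℝ) (x : E8) : en (fun x => -v x) x = en v x := by
  have h2 : fderiv ℝ (fun x => -v x) x = -fderiv ℝ v x := fderiv_fun_neg
  unfold en
  rw [h2, norm_neg]
  simp

theorem LC.neg {f : E8 → ℝ} (hf : LC f) : LC fun x => -f x := by
  have := hf.const_mul (-1)
  simpa using this

theorem LC.comp_swp {f : E8 → ℝ} (hf : LC f) : LC fun x => f (swp x) := by
  obtain ⟨⟨K, hK⟩, hs⟩ := hf
  refine ⟨⟨K, ?_⟩, ?_⟩
  · refine LipschitzWith.of_dist_le_mul fun x y => ?_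
    have := hK.dist_le_mul (swp x) (swp y)
    rwa [swp.isometry.dist_eq] at this
  · exact hs.comp_homeomorph swp.toHomeomorph

/-- The main lemma for negative perturbations. -/
theorem main_neg {u ψ : E8 → ℝ} {B C : E8 → E8} (hu : ContDiff ℝ 2 u) (hac : AC u)
    (hodd : ∀ x, u (swp x) = -u x)
    (hB : ContDiff ℝ 1 B) (hC : ContDiff ℝ 1 C) (hs : Star u B C) (hψ : LC ψ)
    (h0 : ∀ x, 0 ≤ ψ x) (h1 : ∀ x, ψ x ≤ 1 + u x) :
    0 ≤ ∫ x, (en (fun y => u y + -ψ y) x - en u x) := by
  have h2 := main hu hac hB hC hs hψ.comp_swp (fun x => h0 (swp x)) (fun x => by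
    have := h1 (swp x)
    rw [hodd] at this
    linarith)
  have e : (fun x => en (fun y => u y + ψ (swp y)) x - en u x) =
      fun x => (fun x => en (fun y => u y + -ψ y) x - en u x) (swp x) := by
    funext x
    beta_reduce
    rw [← en_swp (fun y => u y + -ψ y), ← en_swp u]
    have e1 : (fun x => -(u (swp x) + -ψ (swp x))) = fun y => u y + ψ (swp y) := by
      funext y
      rw [hodd]
      ring
    have e2 : (fun x => -u (swp x)) = u := by
      funext y
      rw [hodd]
      ring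
    rw [e1, e2]
  rw [e] at h2
  have h3 := (swp.measurePreserving).integral_comp' (f := swp.toHomeomorph.toMeasurableEquiv)
    (fun x => en (fun y => u y + -ψ y) x - en u x)
  rw [← h3]
  exact h2

/-- The truncated positive part. -/
def tr (u φ χ : E8 → ℝ) (x : E8) : ℝ := min (max (φ x) 0) (1 - χ x * u x)

section

variable {u φ χ : E8 → ℝ}

theorem tr_nonneg (h1 : ∀ x, |u x| < 1) (hχ : ∀ x, 0 ≤ χ x ∧ χ x ≤ 1) (x : E8) :
    0 ≤ tr u φ χ x := by
  refine le_min (le_max_right _ _) ?_
  have h2 := abs_lt.1 (h1 x)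
  have h3 := hχ x
  nlinarith

theorem tr_zero (h1 : ∀ x, |u x| < 1) (hχ : ∀ x, 0 ≤ χ x ∧ χ x ≤ 1) {x : E8} (hx : φ x ≤ 0) :
    tr u φ χ x = 0 := by
  unfold tr
  rw [max_eq_right hx, min_eq_left]
  have h2 := abs_lt.1 (h1 x)
  have h3 := hχ x
  nlinarith

theorem tr_le (h1 : ∀ x, |u x| < 1) (hχ : ∀ x, 0 ≤ χ x ∧ χ x ≤ 1)
    (hφ : ∀ x ∈ tsupport φ, χ x = 1) (x : E8) : tr u φ χ x ≤ 1 - u x := by
  by_cases hx : x ∈ tsupport φ
  · refine (min_le_right _ _).trans ?_
    rw [hφ x hx, one_mul]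
  · rw [tr_zero h1 hχ (image_eq_zero_of_notMem_tsupport hx).le]
    have h2 := abs_lt.1 (h1 x)
    linarith

theorem tr_LC (hu : ContDiff ℝ 2 u) (h1 : ∀ x, |u x| < 1) (hφ : ContDiff ℝ 1 φ)
    (hφc : HasCompactSupport φ) (hχ0 : ContDiff ℝ 1 χ) (hχc : HasCompactSupport χ)
    (hχ : ∀ x, 0 ≤ χ x ∧ χ x ≤ 1) : LC (tr u φ χ) := by
  obtain ⟨⟨K, hK⟩, -⟩ := LC.of_contDiff hφ hφc
  obtain ⟨⟨L, hL⟩, -⟩ := LC.of_contDiff (hχ0.mul (hu.of_le one_le_two)) hχc.mul_right
  refine ⟨⟨_, (hK.max_const 0).min ((LipschitzWith.const (1 : ℝ)).sub hL)⟩, ?_⟩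
  refine HasCompactSupport.intro hφc fun x hx => ?_
  exact tr_zero h1 hχ (image_eq_zero_of_notMem_tsupport hx).le

/-- The case `φ x > 0`. -/
theorem tr_pos (hu : ContDiff ℝ 2 u) (h1 : ∀ x, |u x| < 1) (hφ : ContDiff ℝ 1 φ)
    (hχ0 : ContDiff ℝ 1 χ)
    (hχ : ∀ x, 0 ≤ χ x ∧ χ x ≤ 1) (hχφ : ∀ x ∈ tsupport φ, χ x = 1) {x : E8} (hx : 0 < φ x) :
    en (fun y => u y + tr u φ χ y) x ≤ en (fun y => u y + φ y) x ∧
      en (fun y => u y + -tr (fun y => -u y) (fun y => -φ y) χ y) x = en u x := by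
  have hpos : ∀ᶠ y in 𝓝 x, 0 < φ y := hφ.continuous.continuousAt.eventually (lt_mem_nhds hx)
  have h1' : ∀ x, |(-u x)| < 1 := fun x => by
    rw [abs_neg]
    exact h1 x
  constructor
  · rcases lt_or_ge (φ x) (1 - u x) with h | h
    · have hxs : χ x = 1 := hχφ x (subset_tsupport _ hx.ne')
      have h' : φ x < 1 - χ x * u x := by
        rw [hxs, one_mul]
        exact h
      have h2 : ∀ᶠ y in 𝓝 x, φ y < 1 - χ y * u y :=
        (hφ.continuous.continuousAt).eventually_lt
          ((continuous_const.sub (hχ0.continuous.mul hu.continuous)).continuousAt) h'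
      have h3 : (fun y => u y + tr u φ χ y) =ᶠ[𝓝 x] fun y => u y + φ y := by
        filter_upwards [hpos, h2] with y hy1 hy2
        unfold tr
        rw [max_eq_left hy1.le, min_eq_left hy2.le]
      have h4 : u x + tr u φ χ x = u x + φ x := h3.eq_of_nhds
      unfold en
      rw [h3.fderiv_eq]
      beta_reduce
      rw [h4]
    · have hxs : χ x = 1 := hχφ x (subset_tsupport _ hx.ne')
      have h2 : u x + tr u φ χ x = 1 := by
        unfold tr
        rw [max_eq_left hx.le, hxs, one_mul, min_eq_right h]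
        ring
      have h3 : IsLocalMax (fun y => u y + tr u φ χ y) x := by
        refine Eventually.of_forall fun y => ?_
        beta_reduce
        rw [h2]
        have := tr_le h1 hχ hχφ y
        linarith
      have h4 : en (fun y => u y + tr u φ χ y) x = 0 := by
        unfold en
        rw [h3.fderiv_eq_zero]
        beta_reduce
        rw [h2]
        norm_num
      rw [h4]
      unfold en
      positivity
  · have h3 : (fun y => u y + -tr (fun y => -u y) (fun y => -φ y) χ y) =ᶠ[𝓝 x] u := by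
      filter_upwards [hpos] with y hy
      rw [tr_zero (u := fun y => -u y) (φ := fun y => -φ y) h1' hχ (by linarith)]
      ring
    have h4 : u x + -tr (fun y => -u y) (fun y => -φ y) χ x = u x := h3.eq_of_nhds
    unfold en
    rw [h3.fderiv_eq]
    beta_reduce
    rw [h4]

/-- The pointwise comparison. -/
theorem tr_point (hu : ContDiff ℝ 2 u) (h1 : ∀ x, |u x| < 1) (hφ : ContDiff ℝ 1 φ)
    (hχ0 : ContDiff ℝ 1 χ)
    (hχ : ∀ x, 0 ≤ χ x ∧ χ x ≤ 1) (hχφ : ∀ x ∈ tsupport φ, χ x = 1) {x : E8}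
    (hd1 : DifferentiableAt ℝ (tr u φ χ) x)
    (hd2 : DifferentiableAt ℝ (tr (fun y => -u y) (fun y => -φ y) χ) x) :
    (en (fun y => u y + tr u φ χ y) x - en u x) +
      (en (fun y => u y + -tr (fun y => -u y) (fun y => -φ y) χ y) x - en u x) ≤
      en (fun y => u y + φ y) x - en u x := by
  have h1' : ∀ x, |(-u x)| < 1 := fun x => by
    rw [abs_neg]
    exact h1 x
  have hχφ' : ∀ x ∈ tsupport (fun y => -φ y), χ x = 1 := by
    intro y hy
    apply hχφ
    have : tsupport (fun y => -φ y) = tsupport φ := by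
      unfold tsupport
      congr 1
      ext z
      simp
    rwa [this] at hy
  rcases lt_trichotomy (φ x) 0 with hx | hx | hx
  · have hx' : 0 < -φ x := by linarith
    obtain ⟨h2, h3⟩ := tr_pos (u := fun y => -u y) (φ := fun y => -φ y) hu.neg h1' hφ.neg hχ0
      hχ hχφ' hx'
    have e1 : en (fun y => -u y + tr (fun y => -u y) (fun y => -φ y) χ y) x =
        en (fun y => u y + -tr (fun y => -u y) (fun y => -φ y) χ y) x := by
      rw [← en_neg]
      congr 1
      funext y
      ring
    have e2 : en (fun y => -u y + -φ y) x = en (fun y => u y + φ y) x := by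
      rw [← en_neg]
      congr 1
      funext y
      ring
    have e3 : en (fun y => -u y + -tr (fun y => - -u y) (fun y => - -φ y) χ y) x =
        en (fun y => u y + tr u φ χ y) x := by
      rw [← en_neg]
      congr 1
      funext y
      have : tr (fun y => - -u y) (fun y => - -φ y) χ y = tr u φ χ y := by
        simp [tr]
      rw [this]
      ring
    rw [e1, e2] at h2
    rw [e3, en_neg] at h3
    rw [h3]
    linarith
  · -- the zero set
    have hz1 : tr u φ χ x = 0 := tr_zero h1 hχ hx.le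
    have hz2 : tr (fun y => -u y) (fun y => -φ y) χ x = 0 :=
      tr_zero (u := fun y => -u y) (φ := fun y => -φ y) h1' hχ (by rw [hx]; simp)
    have f1 : fderiv ℝ (tr u φ χ) x = 0 := by
      refine IsLocalMin.fderiv_eq_zero (Eventually.of_forall fun y => ?_)
      rw [hz1]
      exact tr_nonneg h1 hχ y
    have f2 : fderiv ℝ (tr (fun y => -u y) (fun y => -φ y) χ) x = 0 := by
      refine IsLocalMin.fderiv_eq_zero (Eventually.of_forall fun y => ?_)
      rw [hz2]
      exact tr_nonneg (u := fun y => -u y) (φ := fun y => -φ y) h1' hχ y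
    have hux := abs_lt.1 (h1 x)
    have hχx := hχ x
    have l1 : φ x < 1 - χ x * u x := by
      rw [hx]
      nlinarith
    have l2 : -φ x < 1 - χ x * -u x := by
      rw [hx]
      nlinarith
    have h2 : ∀ᶠ y in 𝓝 x, φ y < 1 - χ y * u y :=
      (hφ.continuous.continuousAt).eventually_lt
        ((continuous_const.sub (hχ0.continuous.mul hu.continuous)).continuousAt) l1
    have h3 : ∀ᶠ y in 𝓝 x, -φ y < 1 - χ y * -u y :=
      (hφ.continuous.neg.continuousAt).eventually_lt
        ((continuous_const.sub (hχ0.continuous.mul hu.continuous.neg)).continuousAt) l2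
    have h4 : φ =ᶠ[𝓝 x] fun y => tr u φ χ y - tr (fun y => -u y) (fun y => -φ y) χ y := by
      filter_upwards [h2, h3] with y hy1 hy2
      have a1 := abs_lt.1 (h1 y)
      have a2 := hχ y
      unfold tr
      rcases le_total 0 (φ y) with h | h
      · rw [max_eq_left h, max_eq_right (by linarith : -φ y ≤ 0), min_eq_left hy1.le,
          min_eq_left (by nlinarith)]
        ring
      · rw [max_eq_right h, max_eq_left (by linarith : 0 ≤ -φ y), min_eq_left hy2.le,
          min_eq_left (by nlinarith)]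
        ring
    have f3 : fderiv ℝ φ x = 0 := by
      rw [h4.fderiv_eq, fderiv_fun_sub hd1 hd2, f1, f2, sub_zero]
    have hud : DifferentiableAt ℝ u x := hu.differentiable two_ne_zero x
    have g1 : fderiv ℝ (fun y => u y + tr u φ χ y) x = fderiv ℝ u x := by
      rw [fderiv_fun_add hud hd1, f1, add_zero]
    have g2 : fderiv ℝ (fun y => u y + -tr (fun y => -u y) (fun y => -φ y) χ y) x =
        fderiv ℝ u x := by
      rw [fderiv_fun_add hud hd2.fun_neg, fderiv_fun_neg, f2, neg_zero, add_zero]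
    have g3 : fderiv ℝ (fun y => u y + φ y) x = fderiv ℝ u x := by
      rw [fderiv_fun_add hud (hφ.differentiable one_ne_zero x), f3, add_zero]
    unfold en
    rw [g1, g2, g3]
    beta_reduce
    rw [hz1, hz2, hx]
    simp
  · obtain ⟨h2, h3⟩ := tr_pos hu h1 hφ hχ0 hχ hχφ hx
    rw [h3]
    linarith

end

/-- The reduction, on the whole space. -/
theorem red_whole {u φ : E8 → ℝ} {B C : E8 → E8} (hu : ContDiff ℝ 2 u) (hac : AC u)
    (h1 : ∀ x, |u x| < 1) (hodd : ∀ x, u (swp x) = -u x)
    (hB : ContDiff ℝ 1 B) (hC : ContDiff ℝ 1 C) (hs : Star u B C)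
    (hφ : ContDiff ℝ 1 φ) (hφc : HasCompactSupport φ) :
    0 ≤ ∫ x, (en (fun y => u y + φ y) x - en u x) := by
  obtain ⟨χ, hχ0, hχc, hχφ, hχ⟩ := cutoff (tsupport φ) hφc
  have h1' : ∀ x, |(-u x)| < 1 := fun x => by
    rw [abs_neg]
    exact h1 x
  have hφc' : HasCompactSupport fun y => -φ y := by
    refine HasCompactSupport.intro hφc fun x hx => ?_
    rw [image_eq_zero_of_notMem_tsupport hx, neg_zero]
  have hχφ' : ∀ x ∈ tsupport (fun y => -φ y), χ x = 1 := by
    intro y hy
    apply hχφ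
    have : tsupport (fun y => -φ y) = tsupport φ := by
      unfold tsupport
      congr 1
      ext z
      simp
    rwa [this] at hy
  have L1 : LC (tr u φ χ) := tr_LC hu h1 hφ hφc hχ0 hχc hχ
  have L2 : LC (tr (fun y => -u y) (fun y => -φ y) χ) :=
    tr_LC (u := fun y => -u y) (φ := fun y => -φ y) hu.neg h1' hφ.neg hφc' hχ0 hχc hχ
  have m1 := main hu hac hB hC hs L1 (tr_nonneg h1 hχ) (tr_le h1 hχ hχφ)
  have m2 := main_neg hu hac hodd hB hC hs L2
    (tr_nonneg (u := fun y => -u y) (φ := fun y => -φ y) h1' hχ) (fun x => by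
      have := tr_le (u := fun y => -u y) (φ := fun y => -φ y) h1' hχ hχφ' x
      linarith)
  have i1 := en_integrable hu L1
  have i2 := en_integrable hu L2.neg
  have i3 := en_integrable hu (LC.of_contDiff hφ hφc)
  refine (add_nonneg m1 m2).trans ?_
  rw [← integral_add i1 i2]
  refine integral_mono_ae (i1.add i2) i3 ?_
  filter_upwards [L1.ae_diff, L2.ae_diff] with x hx1 hx2
  exact tr_point hu h1 hφ hχ0 hχ hχφ hx1 hx2

theorem en_continuous {v : E8 → ℝ} (hv : ContDiff ℝ 1 v) : Continuous (en v) := by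
  unfold en
  have h1 := hv.continuous_fderiv one_ne_zero
  have h2 := hv.continuous
  fun_prop

/-- The reduction, on balls. -/
theorem red_ball {u φ : E8 → ℝ} {B C : E8 → E8} (hu : ContDiff ℝ 2 u) (hac : AC u)
    (h1 : ∀ x, |u x| < 1) (hodd : ∀ x, u (swp x) = -u x)
    (hB : ContDiff ℝ 1 B) (hC : ContDiff ℝ 1 C) (hs : Star u B C)
    (hφ : ContDiff ℝ 1 φ) (R : ℝ) (hR : tsupport φ ⊆ ball (0 : E8) R) :
    ∫ x in ball (0 : E8) R, en u x ≤ ∫ x in ball (0 : E8) R, en (fun y => u y + φ y) x := by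
  have hφc : HasCompactSupport φ :=
    (isCompact_closedBall (0 : E8) R).of_isClosed_subset (isClosed_tsupport φ)
      (hR.trans ball_subset_closedBall)
  have h2 := red_whole hu hac h1 hodd hB hC hs hφ hφc
  have hc : ∀ v : E8 → ℝ, ContDiff ℝ 1 v → IntegrableOn (en v) (ball (0 : E8) R) := fun v hv =>
    ((en_continuous hv).continuousOn.integrableOn_compact (isCompact_closedBall _ _)).mono_set
      ball_subset_closedBall
  have hu1 : ContDiff ℝ 1 u := hu.of_le one_le_two
  have h3 : ∫ x in ball (0 : E8) R, (en (fun y => u y + φ y) x - en u x) =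
      ∫ x, (en (fun y => u y + φ y) x - en u x) := by
    refine setIntegral_eq_integral_of_forall_compl_eq_zero fun x hx => ?_
    have hx' : x ∉ tsupport φ := fun h => hx (hR h)
    have h4 : (fun y => u y + φ y) =ᶠ[𝓝 x] u := by
      filter_upwards [(isClosed_tsupport φ).isOpen_compl.mem_nhds hx'] with y hy
      rw [image_eq_zero_of_notMem_tsupport hy, add_zero]
    have h5 : u x + φ x = u x := h4.eq_of_nhds
    unfold en
    rw [h4.fderiv_eq]
    beta_reduce
    rw [h5, sub_self]
  rw [← h3, integral_sub (hc _ (hu1.add hφ)) (hc _ hu1)] at h2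
  linarith

end Pool.Agent.Saddle
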