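import Pool.Agent.Saddle.A4

/-!
# MP_d5c502_an, calculus in the variables `sigma`, `eps`

`Xh = (S - T) / 2`, `Rh = (S + T) / 2`, `eps = (4 Rh + c) ^ (-1/2)`, `sigma = Xh eps`. For a
function `g` of `(sigma, eps)` : gradient, divergence of the fields
`eps (P grad Xh + Q grad Rh)`, Laplacian.
-/

set_option autoImplicit false

noncomputable section

open Set Filter Metric
open scoped Topology

namespace Pool.Agent.Saddle

/-- `(S - T) / 2` -/
def Xh (x : E8) : ℝ := (SS x - TT x) / 2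

/-- `(S + T) / 2` -/
def Rh (x : E8) : ℝ := (SS x + TT x) / 2

theorem Xh_eq : Xh = fun x => 1 / 2 * Qc sgn x := by
  funext x
  rw [Qc_sgn, Xh]
  ring

theorem Rh_eq : Rh = fun x => 1 / 2 * Qc (fun _ => 1) x := by
  funext x
  rw [Qc_one, Rh]
  ring

theorem Xh_contDiff {n : WithTop ℕ∞} : ContDiff ℝ n Xh := by
  rw [Xh_eq]
  exact contDiff_const.mul (Qc_contDiff _)

theorem Rh_contDiff {n : WithTop ℕ∞} : ContDiff ℝ n Rh := by
  rw [Rh_eq]
  exact contDiff_const.mul (Qc_contDiff _)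

theorem Rh_nonneg (x : E8) : 0 ≤ Rh x := by
  unfold Rh
  linarith [SS_nonneg x, TT_nonneg x]

theorem abs_Xh_le (x : E8) : |Xh x| ≤ Rh x := by
  unfold Xh Rh
  rw [abs_le]
  constructor <;> linarith [SS_nonneg x, TT_nonneg x]

theorem pd_Xh (i : Fin 8) (x : E8) : pd i Xh x = sgn i * x i := by
  rw [Xh_eq, pd_const_mul i _ (diff_of (Qc_contDiff _) x), pd_Qc]
  ring

theorem pd_Rh (i : Fin 8) (x : E8) : pd i Rh x = x i := by
  rw [Rh_eq, pd_const_mul i _ (diff_of (Qc_contDiff _) x), pd_Qc]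
  ring

theorem sum_xx (x : E8) : ∑ i, x i * x i = 2 * Rh x := by
  have h : Rh x = 1 / 2 * Qc (fun _ => 1) x := congrFun Rh_eq x
  rw [h, Qc]
  simp only [one_mul]
  rw [← mul_assoc, mul_one_div_cancel two_ne_zero, one_mul]
  exact Finset.sum_congr rfl fun i _ => (sq (x i)).symm

theorem sum_sxx (x : E8) : ∑ i, sgn i * x i * x i = 2 * Xh x := by
  have h : Xh x = 1 / 2 * Qc sgn x := congrFun Xh_eq x
  rw [h, Qc, ← mul_assoc, mul_one_div_cancel two_ne_zero, one_mul]
  refine Finset.sum_congr rfl fun i _ => ?_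
  ring

theorem sum_sxsx (x : E8) : ∑ i, sgn i * x i * (sgn i * x i) = 2 * Rh x := by
  rw [← sum_xx]
  refine Finset.sum_congr rfl fun i _ => ?_
  have := sgn_sq i
  linear_combination (x i * x i) * this

/-- `eps` -/
def ep (c : ℝ) (x : E8) : ℝ := (Real.sqrt (4 * Rh x + c))⁻¹

/-- `sigma` -/
def sg (c : ℝ) (x : E8) : ℝ := Xh x * ep c x

section

variable {c : ℝ}

theorem rad_pos (hc : 0 < c) (x : E8) : 0 < 4 * Rh x + c := by
  linarith [Rh_nonneg x]

theorem ep_pos (hc : 0 < c) (x : E8) : 0 < ep c x :=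
  inv_pos.2 (Real.sqrt_pos.2 (rad_pos hc x))

theorem ep_sq (hc : 0 < c) (x : E8) : ep c x ^ 2 * (4 * Rh x + c) = 1 := by
  have h := rad_pos hc x
  unfold ep
  rw [inv_pow, Real.sq_sqrt h.le]
  exact inv_mul_cancel₀ h.ne'

theorem ep_Rh (hc : 0 < c) (x : E8) : ep c x ^ 2 * (4 * Rh x) = 1 - c * ep c x ^ 2 := by
  have := ep_sq hc x
  linarith

theorem ep_contDiff (hc : 0 < c) {n : WithTop ℕ∞} : ContDiff ℝ n (ep c) := by
  unfold ep
  refine ContDiff.inv (ContDiff.sqrt ((contDiff_const.mul Rh_contDiff).add contDiff_const)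
    fun x => (rad_pos hc x).ne') fun x => (Real.sqrt_pos.2 (rad_pos hc x)).ne'

theorem sg_contDiff (hc : 0 < c) {n : WithTop ℕ∞} : ContDiff ℝ n (sg c) :=
  Xh_contDiff.mul (ep_contDiff hc)

theorem diffAt {f : E8 → ℝ} (hf : ContDiff ℝ 1 f) (x : E8) : DifferentiableAt ℝ f x :=
  hf.differentiable one_ne_zero x

theorem pd_ep (hc : 0 < c) (i : Fin 8) (x : E8) : pd i (ep c) x = -2 * ep c x ^ 3 * x i := by
  have hd : DifferentiableAt ℝ (ep c) x := diffAt (ep_contDiff hc) x
  have h1 : pd i (fun y => ep c y * ep c y * (4 * Rh y + c)) x = 0 := by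
    have e : (fun y => ep c y * ep c y * (4 * Rh y + c)) = fun _ => (1 : ℝ) := by
      funext y
      rw [← sq]
      exact ep_sq hc y
    rw [e, pd_const]
  have hR : DifferentiableAt ℝ Rh x := diffAt Rh_contDiff x
  have hR4 : DifferentiableAt ℝ (fun y => 4 * Rh y) x := hR.const_mul 4
  have h2 : pd i (fun y => 4 * Rh y + c) x = 4 * x i := by
    rw [pd_add i hR4 (differentiableAt_const c), pd_const, pd_const_mul i _ hR, pd_Rh]
    ring
  have h3 := pd_mul i (f := fun y => ep c y * ep c y) (g := fun y => 4 * Rh y + c) (hd.mul hd)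
    (hR4.add (differentiableAt_const c))
  rw [h1, h2, pd_mul i hd hd] at h3
  have h4 := ep_sq hc x
  have h5 := ep_pos hc x
  have h6 : ep c x * pd i (ep c) x * (4 * Rh x + c) = -2 * ep c x ^ 2 * x i := by linarith
  have h7 := rad_pos hc x
  have h8 : ep c x * (4 * Rh x + c) * (pd i (ep c) x - -2 * ep c x ^ 3 * x i) = 0 := by
    linear_combination h6 + 2 * ep c x ^ 2 * x i * h4
  rcases mul_eq_zero.1 h8 with h9 | h9
  · have : 0 < ep c x * (4 * Rh x + c) := mul_pos h5 h7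
    linarith
  · linarith

theorem pd_sg (hc : 0 < c) (i : Fin 8) (x : E8) :
    pd i (sg c) x = ep c x * (sgn i * x i) - 2 * ep c x ^ 2 * sg c x * x i := by
  have h1 : pd i (sg c) x = Xh x * pd i (ep c) x + ep c x * pd i Xh x :=
    pd_mul i (diffAt Xh_contDiff x) (diffAt (ep_contDiff hc) x)
  rw [h1, pd_ep hc, pd_Xh]
  unfold sg
  ring

/-- The range of `(sigma, eps)`. -/
theorem range (hc : 0 < c) (x : E8) :
    0 < ep c x ∧ c * ep c x ^ 2 ≤ 1 ∧ 4 * |sg c x| * ep c x ≤ 1 - c * ep c x ^ 2 := by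
  have h1 := ep_pos hc x
  have h2 := ep_Rh hc x
  have h3 := Rh_nonneg x
  have h4 := abs_Xh_le x
  refine ⟨h1, ?_, ?_⟩
  · nlinarith [mul_nonneg (sq_nonneg (ep c x)) h3]
  · rw [← h2, sg, abs_mul, abs_of_pos h1]
    have := mul_le_mul_of_nonneg_left h4 (sq_nonneg (ep c x))
    linarith

theorem sg_eps (x : E8) : sg c x = Xh x * ep c x := rfl

end

/-! ### functions of `(sigma, eps)` -/

/-- `gs`, `ge` are the partial derivatives of `g`, which is of class `C ^ 1`. -/
structure Dif (g gs ge : ℝ → ℝ → ℝ) : Prop where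
  c1 : ContDiff ℝ 1 (fun p : ℝ × ℝ => g p.1 p.2)
  ds : ∀ s e, HasDerivAt (fun t => g t e) (gs s e) s
  de : ∀ s e, HasDerivAt (fun t => g s t) (ge s e) e

/-- The function on `ℝ ^ 8` given by a function of `(sigma, eps)`. -/
def lift (c : ℝ) (g : ℝ → ℝ → ℝ) (x : E8) : ℝ := g (sg c x) (ep c x)

/-- The Euler operator, given the partial derivatives. -/
def eul (gs ge : ℝ → ℝ → ℝ) (s e : ℝ) : ℝ := s * gs s e + e * ge s e

section

variable {c : ℝ}

theorem lift_contDiff (hc : 0 < c) {n : WithTop ℕ∞} {g : ℝ → ℝ → ℝ}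
    (hg : ContDiff ℝ n (fun p : ℝ × ℝ => g p.1 p.2)) : ContDiff ℝ n (lift c g) :=
  hg.comp ((sg_contDiff hc).prodMk (ep_contDiff hc))

theorem Dif.lin {g gs ge : ℝ → ℝ → ℝ} (hg : Dif g gs ge) (s e a b : ℝ) :
    fderiv ℝ (fun p : ℝ × ℝ => g p.1 p.2) (s, e) (a, b) = a * gs s e + b * ge s e := by
  have h := (hg.c1.differentiable one_ne_zero (s, e)).hasFDerivAt
  have h1 : HasDerivAt (fun t => g t e)
      (fderiv ℝ (fun p : ℝ × ℝ => g p.1 p.2) (s, e) (1, 0)) s := by
    have hl : HasDerivAt (fun t : ℝ => (t, e)) ((1 : ℝ), (0 : ℝ)) s :=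
      (hasDerivAt_id s).prodMk (hasDerivAt_const s e)
    exact HasFDerivAt.comp_hasDerivAt (f := fun t : ℝ => (t, e)) s h hl
  have h2 : HasDerivAt (fun t => g s t)
      (fderiv ℝ (fun p : ℝ × ℝ => g p.1 p.2) (s, e) (0, 1)) e := by
    have hl : HasDerivAt (fun t : ℝ => (s, t)) ((0 : ℝ), (1 : ℝ)) e :=
      (hasDerivAt_const e s).prodMk (hasDerivAt_id e)
    exact HasFDerivAt.comp_hasDerivAt (f := fun t : ℝ => (s, t)) e h hl
  rw [← h1.unique (hg.ds s e), ← h2.unique (hg.de s e)]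
  have h3 : ((a, b) : ℝ × ℝ) = a • ((1 : ℝ), (0 : ℝ)) + b • ((0 : ℝ), (1 : ℝ)) := by
    simp
  rw [h3, map_add, map_smul, map_smul, smul_eq_mul, smul_eq_mul]

theorem pd_lift (hc : 0 < c) {g gs ge : ℝ → ℝ → ℝ} (hg : Dif g gs ge) (i : Fin 8) (x : E8) :
    pd i (lift c g) x = lift c gs x * pd i (sg c) x + lift c ge x * pd i (ep c) x := by
  have h1 := (diffAt (sg_contDiff hc) x).hasFDerivAt
  have h2 := (diffAt (ep_contDiff hc) x).hasFDerivAt
  have h3 := (hg.c1.differentiable one_ne_zero (sg c x, ep c x)).hasFDerivAt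
  have h4 : HasFDerivAt (lift c g) _ x :=
    HasFDerivAt.comp (f := fun x => (sg c x, ep c x)) x h3 (h1.prodMk h2)
  unfold pd
  rw [h4.fderiv]
  change fderiv ℝ (fun p : ℝ × ℝ => g p.1 p.2) (sg c x, ep c x)
    (fderiv ℝ (sg c) x (ei i), fderiv ℝ (ep c) x (ei i)) = _
  rw [hg.lin]
  unfold lift
  ring

/-- The gradient. -/
theorem pd_lift' (hc : 0 < c) {g gs ge : ℝ → ℝ → ℝ} (hg : Dif g gs ge) (i : Fin 8) (x : E8) :
    pd i (lift c g) x = ep c x * lift c gs x * (sgn i * x i) -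
      2 * ep c x ^ 2 * lift c (eul gs ge) x * x i := by
  rw [pd_lift hc hg, pd_sg hc, pd_ep hc]
  unfold lift eul
  ring

/-! ### the fields -/

/-- `grad Xh` -/
def gX (x : E8) : E8 := WithLp.toLp 2 fun i => sgn i * x i

/-- The field `eps (P grad Xh + Q grad Rh)`. -/
def fld (c : ℝ) (P Q : ℝ → ℝ → ℝ) (x : E8) : E8 :=
  WithLp.toLp 2 fun i => ep c x * (lift c P x * (sgn i * x i) + lift c Q x * x i)

theorem fld_apply (P Q : ℝ → ℝ → ℝ) (x : E8) (i : Fin 8) :
    fld c P Q x i = ep c x * (lift c P x * (sgn i * x i) + lift c Q x * x i) := rfl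

theorem fld_coord_contDiff (hc : 0 < c) {n : WithTop ℕ∞} {P Q : ℝ → ℝ → ℝ}
    (hP : ContDiff ℝ n (fun p : ℝ × ℝ => P p.1 p.2))
    (hQ : ContDiff ℝ n (fun p : ℝ × ℝ => Q p.1 p.2)) (i : Fin 8) :
    ContDiff ℝ n fun x => ep c x * (lift c P x * (sgn i * x i) + lift c Q x * x i) := by
  have h1 : ContDiff ℝ n fun x : E8 => x i := by fun_prop
  exact (ep_contDiff hc).mul (((lift_contDiff hc hP).mul (contDiff_const.mul h1)).add
    ((lift_contDiff hc hQ).mul h1))

theorem fld_contDiff (hc : 0 < c) {n : WithTop ℕ∞} {P Q : ℝ → ℝ → ℝ}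
    (hP : ContDiff ℝ n (fun p : ℝ × ℝ => P p.1 p.2))
    (hQ : ContDiff ℝ n (fun p : ℝ × ℝ => Q p.1 p.2)) : ContDiff ℝ n (fld c P Q) := by
  rw [contDiff_euclidean]
  exact fld_coord_contDiff hc hP hQ

/-- The inner product of two fields. -/
theorem fld_inner (hc : 0 < c) (P Q p q : ℝ → ℝ → ℝ) (x : E8) :
    2 * inner ℝ (fld c P Q x) (fld c p q x) =
      (1 - c * ep c x ^ 2) * (lift c P x * lift c p x + lift c Q x * lift c q x) +
        4 * sg c x * ep c x * (lift c P x * lift c q x + lift c Q x * lift c p x) := by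
  have h1 := ep_Rh hc x
  have h2 := sum_xx x
  have h3 := sum_sxx x
  have h4 := sum_sxsx x
  have h5 : inner ℝ (fld c P Q x) (fld c p q x) =
      ep c x ^ 2 * (lift c P x * lift c p x * ∑ i, sgn i * x i * (sgn i * x i) +
        (lift c P x * lift c q x + lift c Q x * lift c p x) * ∑ i, sgn i * x i * x i +
        lift c Q x * lift c q x * ∑ i, x i * x i) := by
    rw [PiLp.inner_apply, Finset.mul_sum, Finset.mul_sum, Finset.mul_sum,
      ← Finset.sum_add_distrib, ← Finset.sum_add_distrib, Finset.mul_sum]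
    refine Finset.sum_congr rfl fun i _ => ?_
    rw [fld_apply, fld_apply]
    simp only [RCLike.inner_apply, conj_trivial]
    ring
  rw [h5, h2, h3, h4, sg_eps]
  linear_combination (lift c P x * lift c p x + lift c Q x * lift c q x) * h1

theorem fld_norm (hc : 0 < c) (P Q : ℝ → ℝ → ℝ) (x : E8) :
    2 * ‖fld c P Q x‖ ^ 2 =
      (1 - c * ep c x ^ 2) * (lift c P x ^ 2 + lift c Q x ^ 2) +
        8 * sg c x * ep c x * (lift c P x * lift c Q x) := by
  rw [← real_inner_self_eq_norm_sq, fld_inner hc]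
  ring

/-- The divergence of a field. -/
theorem fld_dv (hc : 0 < c) {P Ps Pe Q Qs Qe : ℝ → ℝ → ℝ} (hP : Dif P Ps Pe)
    (hQ : Dif Q Qs Qe) (x : E8) :
    2 * dv (fld c P Q) x = (1 - c * ep c x ^ 2) * lift c Ps x -
      8 * sg c x * ep c x ^ 2 * (lift c P x + lift c (eul Ps Pe) x) +
      4 * sg c x * ep c x * lift c Qs x -
      2 * ep c x * (1 - c * ep c x ^ 2) * (lift c Q x + lift c (eul Qs Qe) x) +
      16 * ep c x * lift c Q x := by
  have hPd := diffAt (lift_contDiff hc hP.c1) x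
  have hQd := diffAt (lift_contDiff hc hQ.c1) x
  have hed : DifferentiableAt ℝ (ep c) x := diffAt (ep_contDiff hc) x
  have h1 : ∀ i, fderiv ℝ (fld c P Q) x (ev i) i =
      pd i (fun x => ep c x * (lift c P x * (sgn i * x i) + lift c Q x * x i)) x := fun i =>
    (coord_fderiv (fld_contDiff hc hP.c1 hQ.c1) i x (ev i)).symm
  have hx : ∀ i, DifferentiableAt ℝ (fun x : E8 => x i) x := fun i => by fun_prop
  have hpx : ∀ i, pd i (fun x : E8 => x i) x = 1 := fun i => by
    rw [pd_coord]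
    simp
  have h2 : ∀ i, pd i (fun x => ep c x * (lift c P x * (sgn i * x i) + lift c Q x * x i)) x =
      ep c x * (lift c P x * sgn i + sgn i * x i * pd i (lift c P) x + (lift c Q x +
        x i * pd i (lift c Q) x)) +
      (lift c P x * (sgn i * x i) + lift c Q x * x i) * pd i (ep c) x := by
    intro i
    rw [pd_mul i (f := ep c) (g := fun x => lift c P x * (sgn i * x i) + lift c Q x * x i) hed
      ((hPd.mul ((hx i).const_mul _)).add (hQd.mul (hx i))),
      pd_add i (f := fun x => lift c P x * (sgn i * x i)) (g := fun x => lift c Q x * x i)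
      (hPd.mul ((hx i).const_mul _)) (hQd.mul (hx i)),
      pd_mul i (f := lift c P) (g := fun x => sgn i * x i) hPd ((hx i).const_mul _),
      pd_mul i (f := lift c Q) (g := fun x => x i) hQd (hx i),
      pd_const_mul i (f := fun x => x i) _ (hx i), hpx]
    ring
  have h3 : dv (fld c P Q) x = ep c x * (lift c P x * ∑ i, sgn i) + 8 * (ep c x * lift c Q x) +
      ep c x ^ 2 * lift c Ps x * ∑ i, sgn i * x i * (sgn i * x i) -
      2 * ep c x ^ 3 * (lift c (eul Ps Pe) x + lift c P x) * ∑ i, sgn i * x i * x i +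
      ep c x ^ 2 * lift c Qs x * ∑ i, sgn i * x i * x i -
      2 * ep c x ^ 3 * (lift c (eul Qs Qe) x + lift c Q x) * ∑ i, x i * x i := by
    unfold dv
    have h8 : 8 * (ep c x * lift c Q x) = ∑ _i : Fin 8, ep c x * lift c Q x := by
      simp
    rw [h8]
    simp only [Finset.mul_sum]
    rw [← Finset.sum_add_distrib, ← Finset.sum_add_distrib, ← Finset.sum_sub_distrib,
      ← Finset.sum_add_distrib, ← Finset.sum_sub_distrib]
    refine Finset.sum_congr rfl fun i _ => ?_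
    rw [h1, h2, pd_lift' hc hP, pd_lift' hc hQ, pd_ep hc]
    ring
  have h4 := ep_Rh hc x
  rw [h3, sum_sgn, sum_sxsx, sum_sxx, sum_xx, sg_eps]
  linear_combination (lift c Ps x - 2 * ep c x * (lift c (eul Qs Qe) x + lift c Q x)) * h4

/-- The Laplacian. -/
theorem lap_lift (hc : 0 < c) {g gs ge gss gse Es Ee : ℝ → ℝ → ℝ} (hg : Dif g gs ge)
    (hgs : Dif gs gss gse) (hE : Dif (eul gs ge) Es Ee) (x : E8) :
    2 * lap (lift c g) x = (1 - c * ep c x ^ 2) * lift c gss x -
      8 * sg c x * ep c x ^ 2 * (lift c gs x + lift c (eul gss gse) x) -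
      8 * sg c x * ep c x ^ 2 * lift c Es x +
      4 * ep c x ^ 2 * (1 - c * ep c x ^ 2) * (2 * lift c (eul gs ge) x + lift c (eul Es Ee) x) -
      32 * ep c x ^ 2 * lift c (eul gs ge) x := by
  have hQ : Dif (fun s e => -2 * (e * eul gs ge s e)) (fun s e => -2 * (e * Es s e))
      (fun s e => -2 * (eul gs ge s e + e * Ee s e)) := by
    refine ⟨?_, fun s e => ?_, fun s e => ?_⟩
    · exact contDiff_const.mul (contDiff_snd.mul hE.c1)
    · exact ((hE.ds s e).const_mul e).const_mul (-2)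
    · have h1 := (((hasDerivAt_id e).mul (hE.de s e)).const_mul (-2))
      have h2 : HasDerivAt (fun t => -2 * (t * eul gs ge s t))
        (-2 * (1 * eul gs ge s e + e * Ee s e)) e := h1
      rwa [one_mul] at h2
  have h1 : ∀ i, pd i (lift c g) =
      fun x => fld c gs (fun s e => -2 * (e * eul gs ge s e)) x i := by
    intro i
    funext y
    rw [pd_lift' hc hg, fld_apply]
    unfold lift
    ring
  have h2 : lap (lift c g) x = dv (fld c gs (fun s e => -2 * (e * eul gs ge s e))) x := by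
    rw [lap_eq]
    unfold dv
    refine Finset.sum_congr rfl fun i _ => ?_
    rw [h1]
    exact coord_fderiv (fld_contDiff hc hgs.c1 hQ.c1) i x (ev i)
  rw [h2, fld_dv hc hgs hQ]
  unfold lift eul
  ring

end

end Pool.Agent.Saddle
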