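import Pool.Agent.Saddle.B1

/-!
# MP_d5c502_an, the pointwise inequality in the variables `sigma`, `eps`

`star_of_dif` : the pointwise inequality `Star` for the fields `eps (P grad Xh + Q grad Rh)`,
`eps (p grad Xh + q grad Rh)` from an inequality in `(sigma, eps, y, u)`.
`upper_of_dif`, `lower_of_dif` : the comparison theorem for functions of `(sigma, eps)`.
-/

set_option autoImplicit false

noncomputable section

open Set Filter Metric
open scoped Topology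

namespace Pool.Agent.Saddle

/-- Twice the inner product of two fields. -/
def Inn (c : ℝ) (P Q p q : ℝ → ℝ → ℝ) (s e : ℝ) : ℝ :=
  (1 - c * e ^ 2) * (P s e * p s e + Q s e * q s e) +
    4 * s * e * (P s e * q s e + Q s e * p s e)

/-- Twice the divergence of a field. -/
def Dvg (c : ℝ) (P Ps Pe Q Qs Qe : ℝ → ℝ → ℝ) (s e : ℝ) : ℝ :=
  (1 - c * e ^ 2) * Ps s e - 8 * s * e ^ 2 * (P s e + (s * Ps s e + e * Pe s e)) +
    4 * s * e * Qs s e - 2 * e * (1 - c * e ^ 2) * (Q s e + (s * Qs s e + e * Qe s e)) +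
    16 * e * Q s e

/-- The region of the variables. -/
def Reg (c s e : ℝ) : Prop := 0 < e ∧ c * e ^ 2 ≤ 1 ∧ 4 * |s| * e ≤ 1 - c * e ^ 2

theorem reg_of (c : ℝ) (hc : 0 < c) (x : E8) : Reg c (sg c x) (ep c x) := range hc x

/-- The pointwise inequality from an inequality in `(sigma, eps, y, u)`. -/
theorem star_of_dif {u : E8 → ℝ} {c : ℝ} (hc : 0 < c)
    {P Ps Pe Q Qs Qe p ps pe q qs qe : ℝ → ℝ → ℝ} (hP : Dif P Ps Pe) (hQ : Dif Q Qs Qe)
    (hp : Dif p ps pe) (hq : Dif q qs qe) (Band : ℝ → ℝ → ℝ → Prop)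
    (hband : ∀ x, Band (sg c x) (ep c x) (u x))
    (H : ∀ s e w y, Reg c s e → Band s e w → 0 ≤ y → y ≤ 1 - w →
      0 ≤ (3 * w ^ 2 - 1 - 1 / 2 * Inn c P Q P Q s e + 1 / 2 * Dvg c P Ps Pe Q Qs Qe s e) +
        y * (2 * w - Inn c P Q p q s e + 1 / 3 * Dvg c p ps pe q qs qe s e) +
        y ^ 2 * (1 / 2 - 1 / 2 * Inn c p q p q s e)) :
    Star u (fld c P Q) (fld c p q) := by
  intro x y h0 h1
  have h2 := H (sg c x) (ep c x) (u x) y (reg_of c hc x) (hband x) h0 h1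
  have h3 : 2 * ‖fld c P Q x‖ ^ 2 = Inn c P Q P Q (sg c x) (ep c x) := by
    rw [← real_inner_self_eq_norm_sq]
    exact fld_inner hc P Q P Q x
  have h4 : 2 * ‖fld c p q x‖ ^ 2 = Inn c p q p q (sg c x) (ep c x) := by
    rw [← real_inner_self_eq_norm_sq]
    exact fld_inner hc p q p q x
  have h5 : 2 * inner ℝ (fld c P Q x) (fld c p q x) = Inn c P Q p q (sg c x) (ep c x) :=
    fld_inner hc P Q p q x
  have h6 : 2 * dv (fld c P Q) x = Dvg c P Ps Pe Q Qs Qe (sg c x) (ep c x) := fld_dv hc hP hQ x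
  have h7 : 2 * dv (fld c p q) x = Dvg c p ps pe q qs qe (sg c x) (ep c x) := fld_dv hc hp hq x
  rw [← h3, ← h4, ← h5, ← h6, ← h7] at h2
  linarith

/-- The frozen statement from an inequality in `(sigma, eps, y, u)` and a band for `u`. -/
theorem fields_of_dif {u : E8 → ℝ} {c : ℝ} (hc : 0 < c)
    {P Ps Pe Q Qs Qe p ps pe q qs qe : ℝ → ℝ → ℝ} (hP : Dif P Ps Pe) (hQ : Dif Q Qs Qe)
    (hp : Dif p ps pe) (hq : Dif q qs qe) (Band : ℝ → ℝ → ℝ → Prop)
    (hband : ∀ x, Band (sg c x) (ep c x) (u x))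
    (H : ∀ s e w y, Reg c s e → Band s e w → 0 ≤ y → y ≤ 1 - w →
      0 ≤ (3 * w ^ 2 - 1 - 1 / 2 * Inn c P Q P Q s e + 1 / 2 * Dvg c P Ps Pe Q Qs Qe s e) +
        y * (2 * w - Inn c P Q p q s e + 1 / 3 * Dvg c p ps pe q qs qe s e) +
        y ^ 2 * (1 / 2 - 1 / 2 * Inn c p q p q s e)) :
    ∃ B C : E8 → E8, ContDiff ℝ 1 B ∧ ContDiff ℝ 1 C ∧ Star u B C :=
  ⟨fld c P Q, fld c p q, fld_contDiff hc hP.c1 hQ.c1, fld_contDiff hc hp.c1 hq.c1,
    star_of_dif hc hP hQ hp hq Band hband H⟩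

/-! ### comparison functions -/

/-- Twice the Laplacian of a function of `(sigma, eps)`. -/
def Lpl (c : ℝ) (gs ge gss gse Es Ee : ℝ → ℝ → ℝ) (s e : ℝ) : ℝ :=
  (1 - c * e ^ 2) * gss s e -
    8 * s * e ^ 2 * (gs s e + (s * gss s e + e * gse s e)) -
    8 * s * e ^ 2 * Es s e +
    4 * e ^ 2 * (1 - c * e ^ 2) * (2 * (s * gs s e + e * ge s e) + (s * Es s e + e * Ee s e)) -
    32 * e ^ 2 * (s * gs s e + e * ge s e)

/-- The radial derivative of a function of `(sigma, eps)`. -/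
def Rdl (c : ℝ) (gs ge : ℝ → ℝ → ℝ) (s e : ℝ) : ℝ :=
  2 * s * gs s e - (1 - c * e ^ 2) * (s * gs s e + e * ge s e)

section

variable {c : ℝ}

theorem sg_pos_iff (hc : 0 < c) (x : E8) : 0 < sg c x ↔ TT x < SS x := by
  have h := ep_pos hc x
  unfold sg Xh
  constructor
  · intro h1
    have := (mul_pos_iff_of_pos_right h).1 h1
    linarith
  · intro h1
    exact mul_pos (by linarith) h

theorem sg_nonneg_iff (hc : 0 < c) (x : E8) : 0 ≤ sg c x ↔ TT x ≤ SS x := by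
  have h := ep_pos hc x
  unfold sg Xh
  constructor
  · intro h1
    have := nonneg_of_mul_nonneg_left h1 h
    linarith
  · intro h1
    exact mul_nonneg (by linarith) h.le

theorem sg_zero_iff (hc : 0 < c) (x : E8) : sg c x = 0 ↔ SS x = TT x := by
  have h := ep_pos hc x
  unfold sg Xh
  constructor
  · intro h1
    rcases mul_eq_zero.1 h1 with h2 | h2
    · linarith
    · linarith
  · intro h1
    rw [h1]
    ring

theorem far_lift (hc : 0 < c) (x : E8) (h : SS x + TT x + 1 < 20 * (SS x - TT x) ^ 2) :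
    1 - c * ep c x ^ 2 + 2 * ep c x ^ 2 < 160 * sg c x ^ 2 := by
  have h1 := ep_Rh hc x
  have h2 := ep_pos hc x
  have h3 : 2 * Rh x + 1 < 80 * Xh x ^ 2 := by
    unfold Rh Xh
    linarith
  have h4 := mul_lt_mul_of_pos_left h3 (pow_pos h2 2)
  rw [← h1]
  unfold sg
  rw [mul_pow]
  linarith

theorem rad_lift (hc : 0 < c) {g gs ge : ℝ → ℝ → ℝ} (hg : Dif g gs ge) (x : E8) :
    fderiv ℝ (lift c g) x x = Rdl c gs ge (sg c x) (ep c x) := by
  have h1 : fderiv ℝ (lift c g) x x = rad (lift c g) x := rfl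
  have h2 : rad (lift c g) x = ep c x * lift c gs x * ∑ i, sgn i * x i * x i -
      2 * ep c x ^ 2 * lift c (eul gs ge) x * ∑ i, x i * x i := by
    rw [rad_eq, Finset.mul_sum, Finset.mul_sum, ← Finset.sum_sub_distrib]
    refine Finset.sum_congr rfl fun i _ => ?_
    rw [pd_lift' hc hg]
    ring
  have h3 := ep_Rh hc x
  rw [h1, h2, sum_sxx, sum_xx]
  unfold Rdl
  rw [sg_eps]
  unfold lift eul
  rw [sg_eps]
  linear_combination (-(Xh x * ep c x * gs (Xh x * ep c x) (ep c x) +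
    ep c x * ge (Xh x * ep c x) (ep c x))) * h3

/-- The comparison theorem from above, for functions of `(sigma, eps)`. -/
theorem upper_of_dif {u : E8 → ℝ} (hu : Sol u) (hc : 0 < c)
    {g gs ge gss gse Es Ee : ℝ → ℝ → ℝ} (hg2 : ContDiff ℝ 2 (fun p : ℝ × ℝ => g p.1 p.2))
    (hg : Dif g gs ge) (hgs : Dif gs gss gse) (hE : Dif (eul gs ge) Es Ee)
    (C₁ c₂ : ℝ) (hC₁ : 0 ≤ C₁) (hc₂ : 0 < c₂)
    (h0 : ∀ s e, Reg c s e → 0 ≤ s → 0 ≤ g s e)
    (h1 : ∀ s e, Reg c s e → 0 < s → 1 - c * e ^ 2 + 2 * e ^ 2 < 160 * s ^ 2 → c₂ ≤ g s e)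
    (h2 : ∀ s e, Reg c s e → 0 < s → g s e < 1 → Rdl c gs ge s e ≤ C₁ * g s e)
    (h3 : ∀ s e, Reg c s e → 0 < s → g s e < 1 →
      Lpl c gs ge gss gse Es Ee s e + 2 * g s e - 2 * g s e ^ 3 ≤ 0) :
    ∀ x, 0 < sg c x → u x ≤ g (sg c x) (ep c x) := by
  intro x hx
  refine upper (U := lift c g) hu (lift_contDiff hc hg2) C₁ c₂ hC₁ hc₂ ?_ ?_ ?_ ?_ x
    ((sg_pos_iff hc x).1 hx)
  · intro x hx
    exact h0 _ _ (reg_of c hc x) ((sg_nonneg_iff hc x).2 hx)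
  · intro x hx hf
    exact h1 _ _ (reg_of c hc x) ((sg_pos_iff hc x).2 hx) (far_lift hc x hf)
  · intro x hx hU
    rw [rad_lift hc hg]
    exact h2 _ _ (reg_of c hc x) ((sg_pos_iff hc x).2 hx) hU
  · intro x hx hU
    have h4 := h3 _ _ (reg_of c hc x) ((sg_pos_iff hc x).2 hx) hU
    have h5 : 2 * lap (lift c g) x = Lpl c gs ge gss gse Es Ee (sg c x) (ep c x) :=
      lap_lift hc hg hgs hE x
    rw [← h5] at h4
    have h6 : lift c g x = g (sg c x) (ep c x) := rfl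
    rw [h6]
    linarith

/-- The comparison theorem from below, for functions of `(sigma, eps)`. -/
theorem lower_of_dif {u : E8 → ℝ} (hu : Sol u) (hc : 0 < c)
    {g gs ge gss gse Es Ee : ℝ → ℝ → ℝ} (hg2 : ContDiff ℝ 2 (fun p : ℝ × ℝ => g p.1 p.2))
    (hg : Dif g gs ge) (hgs : Dif gs gss gse) (hE : Dif (eul gs ge) Es Ee)
    (Bd C₁ c₂ : ℝ) (hC₁ : 0 ≤ C₁) (hc₂ : 0 < c₂)
    (h0 : ∀ e, Reg c 0 e → g 0 e ≤ 0)
    (hB : ∀ s e, Reg c s e → 0 < s → g s e ≤ Bd)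
    (h1 : ∀ s e, Reg c s e → 0 < s → 1 - c * e ^ 2 + 2 * e ^ 2 < 160 * s ^ 2 → c₂ ≤ g s e)
    (h2 : ∀ s e, Reg c s e → 0 < s → 0 < g s e → Rdl c gs ge s e ≤ C₁ * g s e)
    (h3 : ∀ s e, Reg c s e → 0 < s → 0 < g s e →
      0 ≤ Lpl c gs ge gss gse Es Ee s e + 2 * g s e - 2 * g s e ^ 3) :
    ∀ x, 0 < sg c x → g (sg c x) (ep c x) ≤ u x := by
  intro x hx
  refine lower (U := lift c g) hu (lift_contDiff hc hg2) Bd C₁ c₂ hC₁ hc₂ ?_ ?_ ?_ ?_ ?_ x
    ((sg_pos_iff hc x).1 hx)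
  · intro x hx
    have hs := (sg_zero_iff hc x).2 hx
    have hr := reg_of c hc x
    have := h0 (ep c x) (by rwa [hs] at hr)
    unfold lift
    rwa [hs]
  · intro x hx
    exact hB _ _ (reg_of c hc x) ((sg_pos_iff hc x).2 hx)
  · intro x hx hf
    exact h1 _ _ (reg_of c hc x) ((sg_pos_iff hc x).2 hx) (far_lift hc x hf)
  · intro x hx hU
    rw [rad_lift hc hg]
    exact h2 _ _ (reg_of c hc x) ((sg_pos_iff hc x).2 hx) hU
  · intro x hx hU
    have h4 := h3 _ _ (reg_of c hc x) ((sg_pos_iff hc x).2 hx) hU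
    have h5 : 2 * lap (lift c g) x = Lpl c gs ge gss gse Es Ee (sg c x) (ep c x) :=
      lap_lift hc hg hgs hE x
    rw [← h5] at h4
    have h6 : lift c g x = g (sg c x) (ep c x) := rfl
    rw [h6]
    linarith

/-- A band for `sigma > 0` gives one everywhere. -/
theorem Sol.band {u : E8 → ℝ} (hu : Sol u) (hc : 0 < c) (L U : ℝ → ℝ → ℝ)
    (h : ∀ x, 0 < sg c x → L (sg c x) (ep c x) ≤ u x ∧ u x ≤ U (sg c x) (ep c x)) (x : E8) :
    (0 < sg c x ∧ L (sg c x) (ep c x) ≤ u x ∧ u x ≤ U (sg c x) (ep c x) ∧ 0 < u x ∧ u x < 1) ∨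
      (sg c x = 0 ∧ u x = 0) ∨
      (sg c x < 0 ∧ L (-sg c x) (ep c x) ≤ -u x ∧ -u x ≤ U (-sg c x) (ep c x) ∧
        0 < -u x ∧ -u x < 1) := by
  rcases lt_trichotomy 0 (sg c x) with h1 | h1 | h1
  · left
    obtain ⟨h2, h3⟩ := h x h1
    exact ⟨h1, h2, h3, hu.pos x ((sg_pos_iff hc x).1 h1), hu.lt_one x⟩
  · right; left
    exact ⟨h1.symm, hu.zero ((sg_zero_iff hc x).1 h1.symm)⟩
  · right; right
    have hS : Rh (swp x) = Rh x := by
      unfold Rh
      rw [SS_swp, TT_swp]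
      ring
    have hX : Xh (swp x) = -Xh x := by
      unfold Xh
      rw [SS_swp, TT_swp]
      ring
    have he : ep c (swp x) = ep c x := by
      unfold ep
      rw [hS]
    have hs : sg c (swp x) = -sg c x := by
      unfold sg
      rw [he, hX]
      ring
    have h2 : 0 < sg c (swp x) := by
      rw [hs]
      linarith
    obtain ⟨h3, h4⟩ := h (swp x) h2
    have h5 := hu.pos (swp x) ((sg_pos_iff hc _).1 h2)
    have h6 := hu.lt_one (swp x)
    rw [hu.swp_odd, hs, he] at *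
    exact ⟨h1, h3, h4, h5, h6⟩

end

end Pool.Agent.Saddle
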