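import Pool.Agent.Saddle.B2

/-!
# MP_d5c502_an, expressions in `sigma`, `eps`, `tau = tanh sigma`

`Ex` : expressions with rational coefficients, formal derivatives, and the forms of
`fields_of_dif`, `upper_of_dif`, `lower_of_dif` for expressions.
-/

set_option autoImplicit false

noncomputable section

open Set Filter Metric
open scoped Topology

namespace Pool.Agent.Saddle

theorem tanh_contDiff {n : WithTop ℕ∞} : ContDiff ℝ n Real.tanh := by
  have h : Real.tanh = fun x => Real.sinh x / Real.cosh x := by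
    funext x
    exact Real.tanh_eq_sinh_div_cosh x
  rw [h]
  exact Real.contDiff_sinh.div Real.contDiff_cosh fun x => (Real.cosh_pos x).ne'

theorem tanh_hasDerivAt (x : ℝ) : HasDerivAt Real.tanh (1 - Real.tanh x ^ 2) x := by
  have h : Real.tanh = fun x => Real.sinh x / Real.cosh x := by
    funext x
    exact Real.tanh_eq_sinh_div_cosh x
  have h1 := (Real.hasDerivAt_sinh x).div (Real.hasDerivAt_cosh x) (Real.cosh_pos x).ne'
  rw [h]
  refine h1.congr_deriv ?_
  have := (Real.cosh_pos x).ne'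
  field_simp

/-- `1 / cosh` -/
def sech (x : ℝ) : ℝ := (Real.cosh x)⁻¹

theorem sech_pos (x : ℝ) : 0 < sech x := inv_pos.2 (Real.cosh_pos x)

theorem sech_sq (x : ℝ) : sech x ^ 2 = 1 - Real.tanh x ^ 2 := by
  unfold sech
  rw [Real.tanh_eq_sinh_div_cosh]
  have h1 := (Real.cosh_pos x).ne'
  have h2 := Real.cosh_sq x
  field_simp
  linarith

theorem sech_neg (x : ℝ) : sech (-x) = sech x := by
  unfold sech
  rw [Real.cosh_neg]

theorem sech_contDiff {n : WithTop ℕ∞} : ContDiff ℝ n sech :=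
  Real.contDiff_cosh.inv fun x => (Real.cosh_pos x).ne'

theorem sech_hasDerivAt (x : ℝ) : HasDerivAt sech (-(Real.tanh x * sech x)) x := by
  have h1 := (Real.hasDerivAt_cosh x).inv (Real.cosh_pos x).ne'
  refine h1.congr_deriv ?_
  unfold sech
  rw [Real.tanh_eq_sinh_div_cosh]
  have := (Real.cosh_pos x).ne'
  field_simp

/-- Expressions in `s`, `e`, `t = tanh s`, `h = sech s`. -/
inductive Ex
  | c (q : ℚ)
  | s
  | e
  | t
  | h
  | add (a b : Ex)
  | mul (a b : Ex)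
  | inv (a : Ex)

namespace Ex

/-- The value. -/
def v : Ex → ℝ → ℝ → ℝ → ℝ → ℝ
  | c q, _, _, _, _ => q
  | s, x, _, _, _ => x
  | e, _, y, _, _ => y
  | t, _, _, z, _ => z
  | h, _, _, _, w => w
  | add a b, x, y, z, w => a.v x y z w + b.v x y z w
  | mul a b, x, y, z, w => a.v x y z w * b.v x y z w
  | inv a, x, y, z, w => (a.v x y z w)⁻¹

/-- The function of `(s, e)`. -/
def f (a : Ex) (x y : ℝ) : ℝ := a.v x y (Real.tanh x) (sech x)

/-- All the inverses are inverses of functions without zeros. -/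
def Ok : Ex → Prop
  | c _ => True
  | s => True
  | e => True
  | t => True
  | h => True
  | add a b => a.Ok ∧ b.Ok
  | mul a b => a.Ok ∧ b.Ok
  | inv a => a.Ok ∧ ∀ x y, a.f x y ≠ 0

/-- The derivative in `s`. -/
def ds : Ex → Ex
  | c _ => c 0
  | s => c 1
  | e => c 0
  | t => add (c 1) (mul (c (-1)) (mul t t))
  | h => mul (c (-1)) (mul t h)
  | add a b => add a.ds b.ds
  | mul a b => add (mul a.ds b) (mul a b.ds)
  | inv a => mul (c (-1)) (mul a.ds (mul (inv a) (inv a)))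

/-- The derivative in `e`. -/
def de : Ex → Ex
  | c _ => c 0
  | s => c 0
  | e => c 1
  | t => c 0
  | h => c 0
  | add a b => add a.de b.de
  | mul a b => add (mul a.de b) (mul a b.de)
  | inv a => mul (c (-1)) (mul a.de (mul (inv a) (inv a)))

/-- The Euler operator. -/
def eu (a : Ex) : Ex := add (mul s a.ds) (mul e a.de)

theorem f_contDiff {n : WithTop ℕ∞} (a : Ex) (ok : a.Ok) :
    ContDiff ℝ n (fun p : ℝ × ℝ => a.f p.1 p.2) := by
  induction a with
  | c q => exact contDiff_const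
  | s => exact contDiff_fst
  | e => exact contDiff_snd
  | t => exact tanh_contDiff.comp contDiff_fst
  | h => exact sech_contDiff.comp contDiff_fst
  | add a b ha hb => exact (ha ok.1).add (hb ok.2)
  | mul a b ha hb => exact (ha ok.1).mul (hb ok.2)
  | inv a ha => exact (ha ok.1).inv fun p => ok.2 p.1 p.2

theorem ds_ok (a : Ex) (ok : a.Ok) : a.ds.Ok := by
  induction a with
  | c q => trivial
  | s => trivial
  | e => trivial
  | t => exact ⟨trivial, trivial, trivial, trivial⟩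
  | h => exact ⟨trivial, trivial, trivial⟩
  | add a b ha hb => exact ⟨ha ok.1, hb ok.2⟩
  | mul a b ha hb => exact ⟨⟨ha ok.1, ok.2⟩, ok.1, hb ok.2⟩
  | inv a ha => exact ⟨trivial, ha ok.1, ok, ok⟩

theorem de_ok (a : Ex) (ok : a.Ok) : a.de.Ok := by
  induction a with
  | c q => trivial
  | s => trivial
  | e => trivial
  | t => trivial
  | h => trivial
  | add a b ha hb => exact ⟨ha ok.1, hb ok.2⟩
  | mul a b ha hb => exact ⟨⟨ha ok.1, ok.2⟩, ok.1, hb ok.2⟩
  | inv a ha => exact ⟨trivial, ha ok.1, ok, ok⟩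

theorem eu_ok (a : Ex) (ok : a.Ok) : a.eu.Ok := ⟨⟨trivial, a.ds_ok ok⟩, trivial, a.de_ok ok⟩

theorem hasDerivAt_s (a : Ex) (ok : a.Ok) (x y : ℝ) :
    HasDerivAt (fun r => a.f r y) (a.ds.f x y) x := by
  induction a with
  | c q =>
    have h1 : (c q).ds.f x y = 0 := by simp [f, v, ds]
    rw [h1]
    exact hasDerivAt_const x _
  | s =>
    have h1 : s.ds.f x y = 1 := by simp [f, v, ds]
    rw [h1]
    exact hasDerivAt_id x
  | e =>
    have h1 : e.ds.f x y = 0 := by simp [f, v, ds]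
    rw [h1]
    exact hasDerivAt_const x _
  | t =>
    have h1 : t.ds.f x y = 1 - Real.tanh x ^ 2 := by
      simp [f, v, ds]
      ring
    rw [h1]
    exact tanh_hasDerivAt x
  | h =>
    have h1 : h.ds.f x y = -(Real.tanh x * sech x) := by
      simp [f, v, ds]
    rw [h1]
    exact sech_hasDerivAt x
  | add a b ha hb => exact (ha ok.1).add (hb ok.2)
  | mul a b ha hb => exact (ha ok.1).mul (hb ok.2)
  | inv a ha =>
    have h1 := (ha ok.1).inv (ok.2 x y)
    refine h1.congr_deriv ?_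
    have := ok.2 x y
    simp only [f, v, ds, Rat.cast_neg, Rat.cast_one] at this ⊢
    field_simp

theorem hasDerivAt_e (a : Ex) (ok : a.Ok) (x y : ℝ) :
    HasDerivAt (fun r => a.f x r) (a.de.f x y) y := by
  induction a with
  | c q =>
    have h1 : (c q).de.f x y = 0 := by simp [f, v, de]
    rw [h1]
    exact hasDerivAt_const y _
  | s =>
    have h1 : s.de.f x y = 0 := by simp [f, v, de]
    rw [h1]
    exact hasDerivAt_const y _
  | e =>
    have h1 : e.de.f x y = 1 := by simp [f, v, de]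
    rw [h1]
    exact hasDerivAt_id y
  | t =>
    have h1 : t.de.f x y = 0 := by simp [f, v, de]
    rw [h1]
    exact hasDerivAt_const y _
  | h =>
    have h1 : h.de.f x y = 0 := by simp [f, v, de]
    rw [h1]
    exact hasDerivAt_const y _
  | add a b ha hb => exact (ha ok.1).add (hb ok.2)
  | mul a b ha hb => exact (ha ok.1).mul (hb ok.2)
  | inv a ha =>
    have h1 := (ha ok.1).inv (ok.2 x y)
    refine h1.congr_deriv ?_
    have := ok.2 x y
    simp only [f, v, de, Rat.cast_neg, Rat.cast_one] at this ⊢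
    field_simp

theorem dif (a : Ex) (ok : a.Ok) : Dif a.f a.ds.f a.de.f :=
  ⟨a.f_contDiff ok, a.hasDerivAt_s ok, a.hasDerivAt_e ok⟩

theorem eu_f (a : Ex) : a.eu.f = eul a.ds.f a.de.f := rfl

/-- Difference. -/
def sub (a b : Ex) : Ex := add a (mul (c (-1)) b)

/-- Powers. -/
def pw (a : Ex) : ℕ → Ex
  | 0 => c 1
  | 1 => a
  | n + 1 => mul (pw a n) a

/-- `1 - k e ^ 2` -/
def ke (k : ℚ) : Ex := add (c 1) (mul (c (-k)) (mul e e))

theorem sub_v (a b : Ex) (x y z w : ℝ) : (sub a b).v x y z w = a.v x y z w - b.v x y z w := by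
  simp only [sub, v, Rat.cast_neg, Rat.cast_one]
  ring

theorem ke_v (k : ℚ) (x y z w : ℝ) : (ke k).v x y z w = 1 - k * y ^ 2 := by
  simp only [ke, v, Rat.cast_neg, Rat.cast_one]
  ring

theorem pw_v (a : Ex) (n : ℕ) (x y z w : ℝ) : (pw a n).v x y z w = a.v x y z w ^ n := by
  induction n with
  | zero => simp [pw, v]
  | succ n ih =>
    cases n with
    | zero => simp [pw]
    | succ n =>
      rw [pw, v, ih]
      · ring
      · simp

/-- Twice the inner product of the fields. -/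
def inn (k : ℚ) (P Q p q : Ex) : Ex :=
  add (mul (ke k) (add (mul P p) (mul Q q)))
    (mul (mul (c 4) (mul s e)) (add (mul P q) (mul Q p)))

/-- Twice the divergence of a field. -/
def dvg (k : ℚ) (P Q : Ex) : Ex :=
  add (add (add (mul (ke k) P.ds) (mul (mul (c (-8)) (mul s (mul e e))) (add P P.eu)))
    (add (mul (mul (c 4) (mul s e)) Q.ds) (mul (mul (c (-2)) (mul e (ke k))) (add Q Q.eu))))
    (mul (mul (c 16) e) Q)

theorem inn_f (k : ℚ) (P Q p q : Ex) (x y : ℝ) :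
    (inn k P Q p q).f x y = Inn k P.f Q.f p.f q.f x y := by
  unfold f inn Inn
  simp only [v, ke_v]
  push_cast
  ring

theorem dvg_f (k : ℚ) (P Q : Ex) (x y : ℝ) :
    (dvg k P Q).f x y = Dvg k P.f P.ds.f P.de.f Q.f Q.ds.f Q.de.f x y := by
  unfold f dvg Dvg eu
  simp only [v, ke_v]
  push_cast
  ring

/-- The constant coefficient, without `3 u ^ 2 - 1`. -/
def a0 (k : ℚ) (P Q : Ex) : Ex :=
  add (mul (c (-1 / 2)) (inn k P Q P Q)) (mul (c (1 / 2)) (dvg k P Q))

/-- The coefficient of `y`, without `2 u`. -/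
def a1 (k : ℚ) (P Q p q : Ex) : Ex :=
  add (mul (c (-1)) (inn k P Q p q)) (mul (c (1 / 3)) (dvg k p q))

/-- The coefficient of `y ^ 2`, without `1 / 2`. -/
def a2 (k : ℚ) (p q : Ex) : Ex := mul (c (-1 / 2)) (inn k p q p q)

/-- The fields given by expressions. -/
theorem fields_of_ex {u : E8 → ℝ} {k : ℚ} (hk : 0 < k) {P Q p q : Ex} (hP : P.Ok)
    (hQ : Q.Ok) (hp : p.Ok) (hq : q.Ok) (Band : ℝ → ℝ → ℝ → Prop)
    (hband : ∀ x, Band (sg k x) (ep k x) (u x))
    (H : ∀ s e w y, Reg k s e → Band s e w → 0 ≤ y → y ≤ 1 - w →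
      0 ≤ (3 * w ^ 2 - 1 + (a0 k P Q).f s e) + y * (2 * w + (a1 k P Q p q).f s e) +
        y ^ 2 * (1 / 2 + (a2 k p q).f s e)) :
    ∃ B C : E8 → E8, ContDiff ℝ 1 B ∧ ContDiff ℝ 1 C ∧ Star u B C := by
  have hk' : (0 : ℝ) < k := by exact_mod_cast hk
  refine fields_of_dif hk' (P.dif hP) (Q.dif hQ) (p.dif hp) (q.dif hq) Band hband ?_
  intro s e w y h1 h2 h3 h4
  have h5 := H s e w y h1 h2 h3 h4
  have e0 : (a0 k P Q).f s e = -1 / 2 * (inn k P Q P Q).f s e + 1 / 2 * (dvg k P Q).f s e := by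
    simp only [a0, f, v]
    push_cast
    ring
  have e1 : (a1 k P Q p q).f s e = -(inn k P Q p q).f s e + 1 / 3 * (dvg k p q).f s e := by
    simp only [a1, f, v]
    push_cast
    ring
  have e2 : (a2 k p q).f s e = -1 / 2 * (inn k p q p q).f s e := by
    simp only [a2, f, v]
    push_cast
    ring
  rw [e0, e1, e2, inn_f, inn_f, inn_f, dvg_f, dvg_f] at h5
  linarith

/-- Twice the Laplacian. -/
def lpl (k : ℚ) (g : Ex) : Ex := dvg k g.ds (mul (c (-2)) (mul e g.eu))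

/-- The radial derivative. -/
def rdl (k : ℚ) (g : Ex) : Ex := add (mul (c 2) (mul s g.ds)) (mul (c (-1)) (mul (ke k) g.eu))

theorem lpl_f (k : ℚ) (g : Ex) (x y : ℝ) : (lpl k g).f x y =
    Lpl k g.ds.f g.de.f g.ds.ds.f g.ds.de.f g.eu.ds.f g.eu.de.f x y := by
  unfold lpl
  rw [dvg_f]
  unfold Dvg Lpl
  simp only [eu, f, v, ds, de]
  push_cast
  ring

theorem rdl_f (k : ℚ) (g : Ex) (x y : ℝ) : (rdl k g).f x y = Rdl k g.ds.f g.de.f x y := by
  unfold rdl Rdl
  simp only [eu, f, v, ke_v]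
  push_cast
  ring

/-- The comparison theorem from above for expressions. -/
theorem upper_of_ex {u : E8 → ℝ} (hu : Sol u) {k : ℚ} (hk : 0 < k) {g : Ex} (hg : g.Ok)
    (C₁ c₂ : ℝ) (hC₁ : 0 ≤ C₁) (hc₂ : 0 < c₂)
    (h0 : ∀ s e, Reg k s e → 0 ≤ s → 0 ≤ g.f s e)
    (h1 : ∀ s e, Reg k s e → 0 < s → 1 - k * e ^ 2 + 2 * e ^ 2 < 160 * s ^ 2 → c₂ ≤ g.f s e)
    (h2 : ∀ s e, Reg k s e → 0 < s → g.f s e < 1 → (rdl k g).f s e ≤ C₁ * g.f s e)
    (h3 : ∀ s e, Reg k s e → 0 < s → g.f s e < 1 →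
      (lpl k g).f s e + 2 * g.f s e - 2 * g.f s e ^ 3 ≤ 0) :
    ∀ x, 0 < sg k x → u x ≤ g.f (sg k x) (ep k x) := by
  have hk' : (0 : ℝ) < k := by exact_mod_cast hk
  refine upper_of_dif hu hk' (g.f_contDiff hg) (g.dif hg) (g.ds.dif (g.ds_ok hg))
    (g.eu.dif (g.eu_ok hg)) C₁ c₂ hC₁ hc₂ h0 h1 ?_ ?_
  · intro s e a b d
    rw [← rdl_f]
    exact h2 s e a b d
  · intro s e a b d
    rw [← lpl_f]
    exact h3 s e a b d

/-- The comparison theorem from below for expressions. -/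
theorem lower_of_ex {u : E8 → ℝ} (hu : Sol u) {k : ℚ} (hk : 0 < k) {g : Ex} (hg : g.Ok)
    (Bd C₁ c₂ : ℝ) (hC₁ : 0 ≤ C₁) (hc₂ : 0 < c₂)
    (h0 : ∀ e, Reg k 0 e → g.f 0 e ≤ 0)
    (hB : ∀ s e, Reg k s e → 0 < s → g.f s e ≤ Bd)
    (h1 : ∀ s e, Reg k s e → 0 < s → 1 - k * e ^ 2 + 2 * e ^ 2 < 160 * s ^ 2 → c₂ ≤ g.f s e)
    (h2 : ∀ s e, Reg k s e → 0 < s → 0 < g.f s e → (rdl k g).f s e ≤ C₁ * g.f s e)
    (h3 : ∀ s e, Reg k s e → 0 < s → 0 < g.f s e →
      0 ≤ (lpl k g).f s e + 2 * g.f s e - 2 * g.f s e ^ 3) :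
    ∀ x, 0 < sg k x → g.f (sg k x) (ep k x) ≤ u x := by
  have hk' : (0 : ℝ) < k := by exact_mod_cast hk
  refine lower_of_dif hu hk' (g.f_contDiff hg) (g.dif hg) (g.ds.dif (g.ds_ok hg))
    (g.eu.dif (g.eu_ok hg)) Bd C₁ c₂ hC₁ hc₂ h0 hB h1 ?_ ?_
  · intro s e a b d
    rw [← rdl_f]
    exact h2 s e a b d
  · intro s e a b d
    rw [← lpl_f]
    exact h3 s e a b d

end Ex

end Pool.Agent.Saddle
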