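import Pool.Agent.Saddle.B3

/-!
# MP_d5c502_an, the frozen statement from polynomial inequalities

The ansatz `T = tau + eps ^ 2 (1 - tau ^ 2) a`, `|u - T| <= eps ^ 2 D`,
`P = 2 tau + eps ^ 2 P2`, `Q = eps Q1`, `p = 1 + eps ^ 2 p2`, `q = eps q1`.
-/

set_option autoImplicit false

noncomputable section

open Set Filter Metric
open scoped Topology

namespace Pool.Agent.Saddle

/-- The divergence, reduced. -/
def CO (c s e P Ps PE Q Qs QE : ℝ) : ℝ :=
  (1 - c * e ^ 2) * Ps / 2 - 4 * s * e ^ 2 * (3 * P + PE) + 2 * s * Qs -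
    (1 - c * e ^ 2) * (2 * Q + QE) + 8 * Q

/-- The main expression, without the two divergences `X = CO (P2, Q1)`, `Y = CO (p2, q1)`. -/
def QH (c s e t a P Q p q X Y y : ℝ) : ℝ :=
  6 * t * (1 - t ^ 2) * a + 3 * e ^ 2 * (1 - t ^ 2) ^ 2 * a ^ 2 + 2 * y * (1 - t ^ 2) * a +
    c / 2 * (2 * t + y) ^ 2 - c * (1 - t ^ 2) - 4 * s * (2 * t + 2 * s * (1 - t ^ 2)) -
    8 / 3 * s * y + X + 2 * y / 3 * Y -
    (1 - c * e ^ 2) * (2 * t + y) * (P + y * p) - 4 * s * (2 * t + y) * (Q + y * q) -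
    (1 - c * e ^ 2) * (e ^ 2 * (P + y * p) ^ 2 / 2 + (Q + y * q) ^ 2 / 2) -
    4 * s * e ^ 2 * (P + y * p) * (Q + y * q)

/-- Twice the residual of `tau + eps ^ 2 G` in the Allen-Cahn equation, divided by `eps ^ 2`. -/
def RES (c s e t G Gs GE Gss GsE GEE : ℝ) : ℝ :=
  2 * c * t * (1 - t ^ 2) +
    (1 - c * e ^ 2) * (12 * s * (1 - t ^ 2) - 8 * s ^ 2 * t * (1 - t ^ 2)) -
    48 * s * (1 - t ^ 2) + 32 * s ^ 2 * t * (1 - t ^ 2) + (1 - c * e ^ 2) * Gss +
    e ^ 2 * ((1 - c * e ^ 2) * (32 * G + 24 * GE + 4 * GEE) - 16 * s * (3 * Gs + GsE) -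
      64 * G - 32 * GE) +
    2 * G - 6 * t ^ 2 * G - 6 * t * e ^ 2 * G ^ 2 - 2 * e ^ 4 * G ^ 3

/-- The radial derivative of `tau + eps ^ 2 G`. -/
def RAD (c s e t G Gs GE : ℝ) : ℝ :=
  2 * s * (1 - t ^ 2 + e ^ 2 * Gs) -
    (1 - c * e ^ 2) * (s * (1 - t ^ 2) + e ^ 2 * (2 * G + GE))

namespace Ex

/-- The partial derivatives commute. -/
theorem comm (a : Ex) (x y z w : ℝ) : a.de.ds.v x y z w = a.ds.de.v x y z w := by
  induction a with
  | c q => rfl
  | s => rfl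
  | e => rfl
  | t => simp [v, ds, de]
  | h => simp [v, ds, de]
  | add a b ha hb =>
    simp only [v, ds, de]
    rw [ha, hb]
  | mul a b ha hb =>
    simp only [v, ds, de]
    rw [ha, hb]
    ring
  | inv a ha =>
    simp only [v, ds, de]
    rw [ha]
    push_cast
    ring

/-- `tau + eps ^ 2 G` -/
def up (G : Ex) : Ex := add t (mul (mul e e) G)

/-- `(1 - tau ^ 2) a` -/
def ga (a : Ex) : Ex := mul (sub (c 1) (mul t t)) a

theorem up_ok {G : Ex} (hG : G.Ok) : (up G).Ok := ⟨trivial, ⟨trivial, trivial⟩, hG⟩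

theorem up_f (G : Ex) (x y : ℝ) : (up G).f x y = Real.tanh x + y ^ 2 * G.f x y := by
  simp only [up, f, v]
  ring

theorem ga_f (a : Ex) (x y : ℝ) : (ga a).f x y = (1 - Real.tanh x ^ 2) * a.f x y := by
  simp only [ga, f, v, sub_v, Rat.cast_one]
  ring

theorem up_res (k : ℚ) (G : Ex) (x y : ℝ) :
    (lpl k (up G)).f x y + 2 * (up G).f x y - 2 * (up G).f x y ^ 3 =
      y ^ 2 * RES k x y (Real.tanh x) (G.f x y) (G.ds.f x y) (G.eu.f x y) (G.ds.ds.f x y)
        (G.ds.eu.f x y) (G.eu.eu.f x y) := by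
  rw [lpl_f]
  unfold Lpl RES
  simp only [up, eu, f, v, ds, de, comm]
  push_cast
  ring

theorem up_rad (k : ℚ) (G : Ex) (x y : ℝ) : (rdl k (up G)).f x y =
    RAD k x y (Real.tanh x) (G.f x y) (G.ds.f x y) (G.eu.f x y) := by
  rw [rdl_f]
  unfold Rdl RAD
  simp only [up, eu, f, v, ds, de]
  push_cast
  ring

/-- The fields. -/
def fP (P : Ex) : Ex := add (mul (c 2) t) (mul (mul e e) P)

/-- The fields. -/
def fQ (Q : Ex) : Ex := mul e Q

/-- The fields. -/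
def fp (p : Ex) : Ex := add (c 1) (mul (mul e e) p)

/-- The reduced divergence for expressions. -/
def CX (k : ℚ) (P Q : Ex) (x y : ℝ) : ℝ :=
  CO k x y (P.f x y) (P.ds.f x y) (P.eu.f x y) (Q.f x y) (Q.ds.f x y) (Q.eu.f x y)

/-- The main expression for expressions. -/
def QX (k : ℚ) (a P Q p q : Ex) (x y r : ℝ) : ℝ :=
  QH k x y (Real.tanh x) (a.f x y) (P.f x y) (Q.f x y) (p.f x y) (q.f x y) (CX k P Q x y)
    (CX k p q x y) r

theorem dvg_P (k : ℚ) (P Q : Ex) (x y : ℝ) : (dvg k (fP P) (fQ Q)).f x y =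
    2 * (1 - k * y ^ 2) * (1 - Real.tanh x ^ 2) -
      8 * x * y ^ 2 * (2 * Real.tanh x + 2 * x * (1 - Real.tanh x ^ 2)) +
      2 * y ^ 2 * CX k P Q x y := by
  rw [dvg_f]
  unfold Dvg CX CO
  simp only [fP, fQ, eu, f, v, ds, de]
  push_cast
  ring

theorem dvg_p (k : ℚ) (P Q : Ex) (x y : ℝ) : (dvg k (fp P) (fQ Q)).f x y =
    -8 * x * y ^ 2 + 2 * y ^ 2 * CX k P Q x y := by
  rw [dvg_f]
  unfold Dvg CX CO
  simp only [fp, fQ, eu, f, v, ds, de]
  push_cast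
  ring

/-- The reduction of the pointwise inequality. -/
theorem star_id (k : ℚ) (a P Q p q : Ex) (x y w r : ℝ) :
    (3 * w ^ 2 - 1 + (a0 k (fP P) (fQ Q)).f x y) +
        r * (2 * w + (a1 k (fP P) (fQ Q) (fp p) (fQ q)).f x y) +
        r ^ 2 * (1 / 2 + (a2 k (fp p) (fQ q)).f x y) =
      y ^ 2 * QX k a P Q p q x y r + (w - (up (ga a)).f x y) *
        (3 * w + 3 * (up (ga a)).f x y + 2 * r) := by
  have e0 : (a0 k (fP P) (fQ Q)).f x y =
      -1 / 2 * (inn k (fP P) (fQ Q) (fP P) (fQ Q)).f x y +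
        1 / 2 * (dvg k (fP P) (fQ Q)).f x y := by
    simp only [a0, f, v]
    push_cast
    ring
  have e1 : (a1 k (fP P) (fQ Q) (fp p) (fQ q)).f x y =
      -(inn k (fP P) (fQ Q) (fp p) (fQ q)).f x y + 1 / 3 * (dvg k (fp p) (fQ q)).f x y := by
    simp only [a1, f, v]
    push_cast
    ring
  have e2 : (a2 k (fp p) (fQ q)).f x y =
      -1 / 2 * (inn k (fp p) (fQ q) (fp p) (fQ q)).f x y := by
    simp only [a2, f, v]
    push_cast
    ring
  rw [e0, e1, e2, dvg_P, dvg_p, inn_f, inn_f, inn_f, up_f, ga_f]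
  unfold Inn QX QH
  generalize CX k P Q x y = X
  generalize CX k p q x y = Y
  simp only [fP, fQ, fp, f, v]
  push_cast
  ring

/-- Twice the residual of `tau + eps ^ 2 G`, divided by `eps ^ 2`. -/
def RX (k : ℚ) (G : Ex) (x y : ℝ) : ℝ :=
  RES k x y (Real.tanh x) (G.f x y) (G.ds.f x y) (G.eu.f x y) (G.ds.ds.f x y)
    (G.ds.eu.f x y) (G.eu.eu.f x y)

/-- The radial derivative of `tau + eps ^ 2 G`. -/
def AX (k : ℚ) (G : Ex) (x y : ℝ) : ℝ :=
  RAD k x y (Real.tanh x) (G.f x y) (G.ds.f x y) (G.eu.f x y)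

/-- The final theorem: the fields exist. Here `T = tau + eps ^ 2 (1 - tau ^ 2) a` and
`T - eps ^ 2 D`, `T + eps ^ 2 D` are the sub- and supersolution. -/
theorem final {u : E8 → ℝ} (hu : Sol u) {k : ℚ} (hk : 0 < k) {a D P Q p q : Ex} (ha : a.Ok)
    (hD : D.Ok) (hP : P.Ok) (hQ : Q.Ok) (hp : p.Ok) (hq : q.Ok)
    (hodd : ∀ s e, a.f (-s) e = -a.f s e) (Bd C₁ c₂ : ℝ) (hC₁ : 0 ≤ C₁) (hc₂ : 0 < c₂)
    (hD0 : ∀ s e, Reg k s e → 0 ≤ s → 0 ≤ D.f s e)
    (hT : ∀ s e, Reg k s e → 0 ≤ s → 0 ≤ (up (ga a)).f s e)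
    (hBd : ∀ s e, Reg k s e → 0 < s → (up (ga a)).f s e ≤ Bd)
    (hfar : ∀ s e, Reg k s e → 0 < s → 1 - k * e ^ 2 + 2 * e ^ 2 < 160 * s ^ 2 →
      c₂ ≤ (up (ga a)).f s e - e ^ 2 * D.f s e)
    (hru : ∀ s e, Reg k s e → 0 < s → (up (add (ga a) D)).f s e < 1 →
      AX k (add (ga a) D) s e ≤ C₁ * (up (add (ga a) D)).f s e)
    (hsu : ∀ s e, Reg k s e → 0 < s → (up (add (ga a) D)).f s e < 1 →
      RX k (add (ga a) D) s e ≤ 0)
    (hrl : ∀ s e, Reg k s e → 0 < s → 0 < (up (sub (ga a) D)).f s e →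
      AX k (sub (ga a) D) s e ≤ C₁ * (up (sub (ga a) D)).f s e)
    (hsl : ∀ s e, Reg k s e → 0 < s → 0 < (up (sub (ga a) D)).f s e →
      0 ≤ RX k (sub (ga a) D) s e)
    (hpos : ∀ s e y, Reg k s e → 0 ≤ s → 0 ≤ y → y ≤ 1 →
      y ≤ 1 - (up (ga a)).f s e + e ^ 2 * D.f s e →
      D.f s e * (6 * (up (ga a)).f s e + 2 * y) ≤ QX k a P Q p q s e y)
    (hneg : ∀ s e y, Reg k s e → 0 < s → 0 ≤ y → y ≤ 2 →
      y ≤ 1 + (up (ga a)).f s e + e ^ 2 * D.f s e →
      D.f s e * (6 * (up (ga a)).f s e + 2 * y) ≤ QX k a P Q p q (-s) e y) :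
    ∃ B C : E8 → E8, ContDiff ℝ 1 B ∧ ContDiff ℝ 1 C ∧ Star u B C := by
  have hk' : (0 : ℝ) < k := by exact_mod_cast hk
  have hga : (ga a).Ok := ⟨⟨trivial, trivial, trivial, trivial⟩, ha⟩
  have hplus : ∀ s e, (up (add (ga a) D)).f s e = (up (ga a)).f s e + e ^ 2 * D.f s e := by
    intro s e
    rw [up_f, up_f]
    simp only [f, v]
    ring
  have hminus : ∀ s e, (up (sub (ga a) D)).f s e = (up (ga a)).f s e - e ^ 2 * D.f s e := by
    intro s e
    rw [up_f, up_f]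
    simp only [f, sub_v]
    ring
  have hTodd : ∀ s e, (up (ga a)).f (-s) e = -(up (ga a)).f s e := by
    intro s e
    rw [up_f, up_f, ga_f, ga_f, hodd, Real.tanh_neg]
    ring
  have hT0 : ∀ e, (up (ga a)).f 0 e = 0 := by
    intro e
    have := hTodd 0 e
    rw [neg_zero] at this
    linarith
  have hU := upper_of_ex hu hk (g := up (add (ga a) D)) (up_ok ⟨hga, hD⟩) C₁ c₂ hC₁ hc₂
    (fun s e h1 h2 => by
      rw [hplus]
      have := hT s e h1 h2
      have := mul_nonneg (sq_nonneg e) (hD0 s e h1 h2)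
      linarith)
    (fun s e h1 h2 h3 => by
      rw [hplus]
      have := hfar s e h1 h2 h3
      have := mul_nonneg (sq_nonneg e) (hD0 s e h1 h2.le)
      linarith)
    (fun s e h1 h2 h3 => by
      rw [up_rad]
      exact hru s e h1 h2 h3)
    (fun s e h1 h2 h3 => by
      rw [up_res]
      exact mul_nonpos_of_nonneg_of_nonpos (sq_nonneg e) (hsu s e h1 h2 h3))
  have hL := lower_of_ex hu hk (g := up (sub (ga a) D)) (up_ok ⟨hga, trivial, hD⟩) Bd C₁ c₂
    hC₁ hc₂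
    (fun e h1 => by
      rw [hminus, hT0]
      have := mul_nonneg (sq_nonneg e) (hD0 0 e h1 le_rfl)
      linarith)
    (fun s e h1 h2 => by
      rw [hminus]
      have := hBd s e h1 h2
      have := mul_nonneg (sq_nonneg e) (hD0 s e h1 h2.le)
      linarith)
    (fun s e h1 h2 h3 => by
      rw [hminus]
      exact hfar s e h1 h2 h3)
    (fun s e h1 h2 h3 => by
      rw [up_rad]
      exact hrl s e h1 h2 h3)
    (fun s e h1 h2 h3 => by
      rw [up_res]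
      exact mul_nonneg (sq_nonneg e) (hsl s e h1 h2 h3))
  have hband := hu.band hk' (fun s e => (up (ga a)).f s e - e ^ 2 * D.f s e)
    (fun s e => (up (ga a)).f s e + e ^ 2 * D.f s e) (fun x hx => by
      have h1 := hU x hx
      have h2 := hL x hx
      rw [hplus] at h1
      rw [hminus] at h2
      exact ⟨h2, h1⟩)
  refine fields_of_ex hk (P := fP P) (Q := fQ Q) (p := fp p) (q := fQ q)
    ⟨⟨trivial, trivial⟩, ⟨trivial, trivial⟩, hP⟩ ⟨trivial, hQ⟩
    ⟨trivial, ⟨trivial, trivial⟩, hp⟩ ⟨trivial, hq⟩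
    (fun s e w => (0 < s ∧ (up (ga a)).f s e - e ^ 2 * D.f s e ≤ w ∧
        w ≤ (up (ga a)).f s e + e ^ 2 * D.f s e ∧ 0 < w ∧ w < 1) ∨ (s = 0 ∧ w = 0) ∨
      (s < 0 ∧ (up (ga a)).f (-s) e - e ^ 2 * D.f (-s) e ≤ -w ∧
        -w ≤ (up (ga a)).f (-s) e + e ^ 2 * D.f (-s) e ∧ 0 < -w ∧ -w < 1)) hband ?_
  intro s e w y hr hb hy0 hy1
  rw [star_id]
  have he : 0 < e ^ 2 := pow_pos hr.1 2
  rcases hb with ⟨h1, h2, h3, h4, h5⟩ | ⟨h1, h2⟩ | ⟨h1, h2, h3, h4, h5⟩
  · have hd := hD0 s e hr h1.le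
    have ht := hT s e hr h1.le
    have hq := hpos s e y hr h1.le hy0 (by linarith) (by linarith)
    have h6 := mul_le_mul_of_nonneg_left hq he.le
    set T := (up (ga a)).f s e with hTd
    set d := e ^ 2 * D.f s e with hdd
    have h7 : 0 ≤ d := mul_nonneg he.le hd
    have h8 : e ^ 2 * (D.f s e * (6 * T + 2 * y)) = d * (6 * T + 2 * y) := by
      rw [hdd]
      ring
    rw [h8] at h6
    have h9 : -(d * (6 * T + 2 * y)) ≤ (w - T) * (3 * w + 3 * T + 2 * y) := by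
      have h10 : (w - T) * (3 * w + 3 * T + 2 * y) =
        3 * (w - T) ^ 2 + (w - T) * (6 * T + 2 * y) := by ring
      have h11 : 0 ≤ (w - T + d) * (6 * T + 2 * y) :=
        mul_nonneg (by linarith) (by linarith)
      have h12 := sq_nonneg (w - T)
      rw [h10]
      linarith
    linarith
  · subst h1 h2
    have hd := hD0 0 e hr le_rfl
    have hq := hpos 0 e y hr le_rfl hy0 (by linarith) (by
      rw [hT0]
      have := mul_nonneg he.le hd
      linarith)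
    rw [hT0] at hq ⊢
    have h6 := mul_le_mul_of_nonneg_left hq he.le
    have h7 : 0 ≤ e ^ 2 * (D.f 0 e * (6 * 0 + 2 * y)) :=
      mul_nonneg he.le (mul_nonneg hd (by linarith))
    linarith
  · have hs : 0 < -s := by linarith
    have hr' : Reg k (-s) e := by
      refine ⟨hr.1, hr.2.1, ?_⟩
      rw [abs_neg]
      exact hr.2.2
    have hd := hD0 (-s) e hr' hs.le
    have ht := hT (-s) e hr' hs.le
    have hq := hneg (-s) e y hr' hs hy0 (by linarith) (by linarith)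
    rw [neg_neg] at hq
    have h6 := mul_le_mul_of_nonneg_left hq he.le
    have hTs : (up (ga a)).f s e = -(up (ga a)).f (-s) e := by
      rw [hTodd]
      ring
    rw [hTs]
    set T := (up (ga a)).f (-s) e with hTd
    set d := e ^ 2 * D.f (-s) e with hdd
    have h7 : 0 ≤ d := mul_nonneg he.le hd
    have h8 : e ^ 2 * (D.f (-s) e * (6 * T + 2 * y)) = d * (6 * T + 2 * y) := by
      rw [hdd]
      ring
    rw [h8] at h6
    have h9 : -(d * (6 * T + 2 * y)) ≤ (w - -T) * (3 * w + 3 * -T + 2 * y) := by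
      have h10 : (w - -T) * (3 * w + 3 * -T + 2 * y) =
        3 * (w + T) ^ 2 + (-w - T) * (6 * T) + (w + T) * (2 * y) := by ring
      have h11 : 0 ≤ (-w - T + d) * (6 * T) := mul_nonneg (by linarith) (by linarith)
      have h12 : 0 ≤ (w + T + d) * (2 * y) := mul_nonneg (by linarith) (by linarith)
      have h13 := sq_nonneg (w + T)
      rw [h10]
      linarith
    linarith

end Ex

end Pool.Agent.Saddle
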