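import Mathlib

set_option autoImplicit false

/-!
# Calculus on `ℝ⁸` for the saddle solution of the Allen-Cahn equation

First derivatives, Laplace operator, product rule, second derivative test.
-/

open Filter Topology

noncomputable section

namespace Pool.Agent.Saddle

/-- the space `ℝ⁸` -/
abbrev E8 : Type := EuclideanSpace ℝ (Fin 8)

/-- the basis vectors -/
def ei (i : Fin 8) : E8 := EuclideanSpace.single i (1 : ℝ)

/-- derivative in the direction of a basis vector -/
def pd (i : Fin 8) (f : E8 → ℝ) (x : E8) : ℝ := fderiv ℝ f x (ei i)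

/-- Laplace operator, literally as in the frozen statement -/
def lap (u : E8 → ℝ) (x : E8) : ℝ :=
  ∑ i : Fin 8, fderiv ℝ (fun y => fderiv ℝ u y (EuclideanSpace.single i (1 : ℝ))) x
    (EuclideanSpace.single i (1 : ℝ))

/-- radial derivative `x · ∇ f` -/
def rad (f : E8 → ℝ) (x : E8) : ℝ := fderiv ℝ f x x

theorem lap_eq (f : E8 → ℝ) (x : E8) : lap f x = ∑ i, pd i (pd i f) x := rfl

/-- the quadratic form with coefficients `c` -/
def Qc (c : Fin 8 → ℝ) (x : E8) : ℝ := ∑ i, c i * x i ^ 2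

/-- `S = |x'|²` -/
def SS (x : E8) : ℝ := ∑ i ∈ Finset.univ.filter (fun i : Fin 8 => (i : ℕ) < 4), x i ^ 2

/-- `T = |x''|²` -/
def TT (x : E8) : ℝ := ∑ i ∈ Finset.univ.filter (fun i : Fin 8 => 4 ≤ (i : ℕ)), x i ^ 2

/-- the signs -/
def sgn (i : Fin 8) : ℝ := if (i : ℕ) < 4 then 1 else -1

theorem sgn_sq (i : Fin 8) : sgn i ^ 2 = 1 := by
  unfold sgn
  split_ifs <;> norm_num

theorem Qc_one (x : E8) : Qc (fun _ => 1) x = SS x + TT x := by
  unfold Qc SS TT
  rw [Finset.sum_filter, Finset.sum_filter, ← Finset.sum_add_distrib]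
  apply Finset.sum_congr rfl
  intro i _
  by_cases h : (i : ℕ) < 4
  · rw [if_pos h, if_neg (by omega)]; ring
  · rw [if_neg h, if_pos (by omega)]; ring

theorem Qc_sgn (x : E8) : Qc sgn x = SS x - TT x := by
  unfold Qc SS TT sgn
  rw [Finset.sum_filter, Finset.sum_filter, ← Finset.sum_sub_distrib]
  apply Finset.sum_congr rfl
  intro i _
  by_cases h : (i : ℕ) < 4
  · have h' : ¬ 4 ≤ (i : ℕ) := by omega
    simp [h, h']
  · have h' : 4 ≤ (i : ℕ) := by omega
    simp [h, h']

theorem SS_nonneg (x : E8) : 0 ≤ SS x := Finset.sum_nonneg fun _ _ => sq_nonneg _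

theorem TT_nonneg (x : E8) : 0 ≤ TT x := Finset.sum_nonneg fun _ _ => sq_nonneg _

theorem norm_sq_eq (x : E8) : ‖x‖ ^ 2 = SS x + TT x := by
  rw [← Qc_one, EuclideanSpace.norm_sq_eq]
  simp [Qc]

theorem Qc_contDiff (c : Fin 8 → ℝ) {n : WithTop ℕ∞} : ContDiff ℝ n (Qc c) := by
  unfold Qc
  fun_prop

theorem hasFDerivAt_Qc (c : Fin 8 → ℝ) (x : E8) :
    HasFDerivAt (Qc c) (∑ i, (2 * c i * x i) • (EuclideanSpace.proj i : E8 →L[ℝ] ℝ)) x := by
  unfold Qc
  apply HasFDerivAt.fun_sum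
  intro i _
  have h1 : HasFDerivAt (fun y : E8 => y i) (EuclideanSpace.proj i : E8 →L[ℝ] ℝ) x :=
    (EuclideanSpace.proj i : E8 →L[ℝ] ℝ).hasFDerivAt
  have h2 := (h1.pow 2).const_mul (c i)
  refine h2.congr_fderiv ?_
  ext v
  simp
  ring

theorem pd_Qc (c : Fin 8 → ℝ) (i : Fin 8) (x : E8) : pd i (Qc c) x = 2 * c i * x i := by
  unfold pd
  rw [(hasFDerivAt_Qc c x).fderiv]
  simp [ei]

theorem rad_Qc (c : Fin 8 → ℝ) (x : E8) : rad (Qc c) x = 2 * Qc c x := by
  unfold rad
  rw [(hasFDerivAt_Qc c x).fderiv]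
  simp only [Qc, Finset.mul_sum]
  simp
  apply Finset.sum_congr rfl
  intro i _
  ring

theorem pd_coord (i j : Fin 8) (x : E8) : pd i (fun y : E8 => y j) x = if i = j then 1 else 0 := by
  unfold pd
  have h1 : HasFDerivAt (fun y : E8 => y j) (EuclideanSpace.proj j : E8 →L[ℝ] ℝ) x :=
    (EuclideanSpace.proj j : E8 →L[ℝ] ℝ).hasFDerivAt
  rw [h1.fderiv]
  simp [ei, eq_comm]

/-! ### rules for the first derivatives -/

theorem pd_add {f g : E8 → ℝ} {x : E8} (i : Fin 8) (hf : DifferentiableAt ℝ f x)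
    (hg : DifferentiableAt ℝ g x) : pd i (fun y => f y + g y) x = pd i f x + pd i g x := by
  unfold pd
  rw [fderiv_fun_add hf hg]
  rfl

theorem pd_sub {f g : E8 → ℝ} {x : E8} (i : Fin 8) (hf : DifferentiableAt ℝ f x)
    (hg : DifferentiableAt ℝ g x) : pd i (fun y => f y - g y) x = pd i f x - pd i g x := by
  unfold pd
  rw [fderiv_fun_sub hf hg]
  rfl

theorem pd_mul {f g : E8 → ℝ} {x : E8} (i : Fin 8) (hf : DifferentiableAt ℝ f x)
    (hg : DifferentiableAt ℝ g x) :
    pd i (fun y => f y * g y) x = f x * pd i g x + g x * pd i f x := by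
  unfold pd
  rw [fderiv_fun_mul hf hg]
  simp

theorem pd_const_mul {f : E8 → ℝ} {x : E8} (i : Fin 8) (c : ℝ) (hf : DifferentiableAt ℝ f x) :
    pd i (fun y => c * f y) x = c * pd i f x := by
  unfold pd
  rw [fderiv_const_mul hf]
  simp

theorem pd_const (i : Fin 8) (c : ℝ) (x : E8) : pd i (fun _ => c) x = 0 := by
  unfold pd
  simp

theorem pd_inv {f : E8 → ℝ} {x : E8} (i : Fin 8) (hf : DifferentiableAt ℝ f x) (h0 : f x ≠ 0) :
    pd i (fun y => (f y)⁻¹) x = -(pd i f x) / f x ^ 2 := by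
  unfold pd
  have h1 := (hasDerivAt_inv h0).comp_hasFDerivAt x hf.hasFDerivAt
  have h2 : HasFDerivAt (fun y => (f y)⁻¹) (-(f x ^ 2)⁻¹ • fderiv ℝ f x) x := h1
  rw [h2.fderiv]
  simp
  ring

theorem pd_exp {f : E8 → ℝ} {x : E8} (i : Fin 8) (hf : DifferentiableAt ℝ f x) :
    pd i (fun y => Real.exp (f y)) x = Real.exp (f x) * pd i f x := by
  unfold pd
  rw [hf.hasFDerivAt.exp.fderiv]
  simp

theorem contDiff_pd {f : E8 → ℝ} (hf : ContDiff ℝ 2 f) (i : Fin 8) : ContDiff ℝ 1 (pd i f) := by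
  unfold pd
  have h1 : ContDiff ℝ 1 (fderiv ℝ f) := hf.fderiv_right (by norm_num)
  exact h1.clm_apply contDiff_const

theorem diff_pd {f : E8 → ℝ} (hf : ContDiff ℝ 2 f) (i : Fin 8) : Differentiable ℝ (pd i f) :=
  (contDiff_pd hf i).differentiable (by norm_num)

theorem diff_of {f : E8 → ℝ} (hf : ContDiff ℝ 2 f) : Differentiable ℝ f :=
  hf.differentiable (by norm_num)

/-! ### rules for the Laplace operator -/

theorem lap_add {f g : E8 → ℝ} (hf : ContDiff ℝ 2 f) (hg : ContDiff ℝ 2 g) (x : E8) :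
    lap (fun y => f y + g y) x = lap f x + lap g x := by
  rw [lap_eq, lap_eq, lap_eq, ← Finset.sum_add_distrib]
  apply Finset.sum_congr rfl
  intro i _
  have h1 : pd i (fun y => f y + g y) = fun y => pd i f y + pd i g y := by
    funext y
    exact pd_add i (diff_of hf y) (diff_of hg y)
  rw [h1, pd_add i (diff_pd hf i x) (diff_pd hg i x)]

theorem lap_sub {f g : E8 → ℝ} (hf : ContDiff ℝ 2 f) (hg : ContDiff ℝ 2 g) (x : E8) :
    lap (fun y => f y - g y) x = lap f x - lap g x := by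
  rw [lap_eq, lap_eq, lap_eq, ← Finset.sum_sub_distrib]
  apply Finset.sum_congr rfl
  intro i _
  have h1 : pd i (fun y => f y - g y) = fun y => pd i f y - pd i g y := by
    funext y
    exact pd_sub i (diff_of hf y) (diff_of hg y)
  rw [h1, pd_sub i (diff_pd hf i x) (diff_pd hg i x)]

theorem lap_const_mul {f : E8 → ℝ} (hf : ContDiff ℝ 2 f) (c : ℝ) (x : E8) :
    lap (fun y => c * f y) x = c * lap f x := by
  rw [lap_eq, lap_eq, Finset.mul_sum]
  apply Finset.sum_congr rfl
  intro i _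
  have h1 : pd i (fun y => c * f y) = fun y => c * pd i f y := by
    funext y
    exact pd_const_mul i c (diff_of hf y)
  rw [h1, pd_const_mul i c (diff_pd hf i x)]

theorem lap_mul {f g : E8 → ℝ} (hf : ContDiff ℝ 2 f) (hg : ContDiff ℝ 2 g) (x : E8) :
    lap (fun y => f y * g y) x =
      f x * lap g x + g x * lap f x + 2 * ∑ i, pd i f x * pd i g x := by
  rw [lap_eq, lap_eq, lap_eq, Finset.mul_sum, Finset.mul_sum, Finset.mul_sum,
    ← Finset.sum_add_distrib, ← Finset.sum_add_distrib]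
  apply Finset.sum_congr rfl
  intro i _
  have h1 : pd i (fun y => f y * g y) = fun y => f y * pd i g y + g y * pd i f y := by
    funext y
    exact pd_mul i (diff_of hf y) (diff_of hg y)
  rw [h1, pd_add (f := fun y => f y * pd i g y) (g := fun y => g y * pd i f y) i
    ((diff_of hf x).mul (diff_pd hg i x)) ((diff_of hg x).mul (diff_pd hf i x)),
    pd_mul i (diff_of hf x) (diff_pd hg i x), pd_mul i (diff_of hg x) (diff_pd hf i x)]
  ring

theorem lap_inv {f : E8 → ℝ} (hf : ContDiff ℝ 2 f) (h0 : ∀ x, f x ≠ 0) (x : E8) :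
    lap (fun y => (f y)⁻¹) x = -(lap f x) / f x ^ 2 + 2 * (∑ i, pd i f x ^ 2) / f x ^ 3 := by
  have h1 : ∀ i, pd i (fun y => (f y)⁻¹) = fun y => -(pd i f y * ((f y)⁻¹ * (f y)⁻¹)) := by
    intro i
    funext y
    rw [pd_inv i (diff_of hf y) (h0 y)]
    have := h0 y
    field_simp
  rw [lap_eq, lap_eq, Finset.mul_sum, neg_div, Finset.sum_div, Finset.sum_div,
    ← Finset.sum_neg_distrib, ← Finset.sum_add_distrib]
  apply Finset.sum_congr rfl
  intro i _
  have hd : DifferentiableAt ℝ (fun y => (f y)⁻¹) x := (diff_of hf x).inv (h0 x)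
  have hd2 : DifferentiableAt ℝ (fun y => (f y)⁻¹ * (f y)⁻¹) x := hd.mul hd
  have h2 : pd i (fun y => -(pd i f y * ((f y)⁻¹ * (f y)⁻¹))) x =
      -(pd i (fun y => pd i f y * ((f y)⁻¹ * (f y)⁻¹)) x) := by
    unfold pd
    rw [fderiv_fun_neg]
    rfl
  rw [h1, h2, pd_mul i (diff_pd hf i x) hd2, pd_mul i hd hd, pd_inv i (diff_of hf x) (h0 x)]
  have := h0 x
  field_simp
  ring

theorem lap_Qc (c : Fin 8 → ℝ) (x : E8) : lap (Qc c) x = 2 * ∑ i, c i := by
  rw [lap_eq, Finset.mul_sum]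
  apply Finset.sum_congr rfl
  intro i _
  have h1 : pd i (Qc c) = fun y => 2 * c i * y i := by
    funext y
    exact pd_Qc c i y
  rw [h1, pd_const_mul i (2 * c i) (f := fun y : E8 => y i) (by fun_prop), pd_coord]
  simp

theorem rad_eq (f : E8 → ℝ) (x : E8) : rad f x = ∑ i, x i * pd i f x := by
  unfold rad pd
  have h1 : x = ∑ i, x i • ei i := by
    ext j
    simp [ei, Finset.sum_apply, Pi.single_apply]
  conv_lhs => rw [h1]
  rw [map_sum]
  apply Finset.sum_congr rfl
  intro i _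
  rw [map_smul, smul_eq_mul]
  congr 2
  rw [← h1]

/-- multiplication by `exp (a |x|²)` -/
theorem lap_exp_mul {f : E8 → ℝ} (hf : ContDiff ℝ 2 f) (a : ℝ) (x : E8) :
    lap (fun y => Real.exp (a * Qc (fun _ => 1) y) * f y) x =
      Real.exp (a * Qc (fun _ => 1) x) * (lap f x + 4 * a * rad f x +
        (4 * a ^ 2 * Qc (fun _ => 1) x + 16 * a) * f x) := by
  set R : E8 → ℝ := Qc (fun _ => 1) with hR
  have hRc : ContDiff ℝ 2 R := Qc_contDiff _
  have hE : ContDiff ℝ 2 (fun y => Real.exp (a * R y)) := by fun_prop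
  have hpd : ∀ i y, pd i (fun y => Real.exp (a * R y)) y = Real.exp (a * R y) * (2 * a * y i) := by
    intro i y
    rw [pd_exp i (f := fun y => a * R y) ((diff_of hRc y).const_mul a), pd_const_mul i a (diff_of hRc y), hR, pd_Qc]
    ring
  have hlE : lap (fun y => Real.exp (a * R y)) x =
      Real.exp (a * R x) * (4 * a ^ 2 * R x + 16 * a) := by
    rw [lap_eq]
    have h1 : ∀ i, pd i (pd i (fun y => Real.exp (a * R y))) x =
        Real.exp (a * R x) * (4 * a ^ 2 * x i ^ 2 + 2 * a) := by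
      intro i
      have h2 : pd i (fun y => Real.exp (a * R y)) =
          fun y => Real.exp (a * R y) * (2 * a * y i) := by
        funext y
        exact hpd i y
      rw [h2, pd_mul i (f := fun y => Real.exp (a * R y)) (g := fun y : E8 => 2 * a * y i)
        (diff_of hE x) (by fun_prop), hpd,
        pd_const_mul i (2 * a) (f := fun y : E8 => y i) (by fun_prop), pd_coord]
      simp
      ring
    rw [Finset.sum_congr rfl fun i _ => h1 i, ← Finset.mul_sum, Finset.sum_add_distrib,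
      ← Finset.mul_sum]
    simp [hR, Qc]
    ring
  rw [lap_mul hE hf, hlE]
  have h3 : ∑ i, pd i (fun y => Real.exp (a * R y)) x * pd i f x =
      Real.exp (a * R x) * (2 * a * rad f x) := by
    rw [rad_eq, Finset.mul_sum, Finset.mul_sum]
    apply Finset.sum_congr rfl
    intro i _
    rw [hpd]
    ring
  rw [h3]
  ring

/-! ### second derivative test -/

theorem second_test {g : ℝ → ℝ} (hmax : IsLocalMax g 0) (hc : ContinuousAt g 0) :
    deriv (deriv g) 0 ≤ 0 := by
  by_contra hcon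
  push Not at hcon
  have h0 : deriv g 0 = 0 := hmax.deriv_eq_zero
  have hmin : IsLocalMin g 0 := isLocalMin_of_deriv_deriv_pos hcon h0 hc
  have heq : g =ᶠ[𝓝 0] fun _ => g 0 := by
    filter_upwards [hmax, hmin] with t h1 h2
    exact le_antisymm h1 h2
  have h1 : deriv g =ᶠ[𝓝 0] fun _ => 0 := by
    have := heq.deriv
    simpa using this
  have h2 := h1.deriv_eq
  simp at h2
  linarith

theorem lap_nonpos_of_max {f : E8 → ℝ} (hf : ContDiff ℝ 2 f) {p : E8} (hmax : IsLocalMax f p) :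
    lap f p ≤ 0 := by
  rw [lap_eq]
  apply Finset.sum_nonpos
  intro i _
  set L : ℝ → E8 := fun t => p + t • ei i with hL
  have hL0 : L 0 = p := by simp [hL]
  have hLc : Continuous L := by fun_prop
  have hLd : ∀ t, HasDerivAt L (ei i) t := by
    intro t
    have h1 : HasDerivAt (fun t : ℝ => t • ei i) ((1 : ℝ) • ei i) t :=
      (hasDerivAt_id t).smul_const (ei i)
    rw [one_smul] at h1
    exact h1.const_add p
  have hg : ∀ t, HasDerivAt (fun t => f (L t)) (pd i f (L t)) t := by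
    intro t
    exact ((diff_of hf (L t)).hasFDerivAt).comp_hasDerivAt t (hLd t)
  have hg' : ∀ t, HasDerivAt (fun t => pd i f (L t)) (pd i (pd i f) (L t)) t := by
    intro t
    exact ((diff_pd hf i (L t)).hasFDerivAt).comp_hasDerivAt t (hLd t)
  have h1 : deriv (fun t => f (L t)) = fun t => pd i f (L t) := by
    funext t
    exact (hg t).deriv
  have h2 : deriv (deriv (fun t => f (L t))) 0 = pd i (pd i f) p := by
    rw [h1, (hg' 0).deriv, hL0]
  rw [← h2]
  apply second_test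
  · have h3 : Tendsto L (𝓝 0) (𝓝 p) := by
      have := hLc.tendsto 0
      rwa [hL0] at this
    have h4 := h3.eventually hmax
    filter_upwards [h4] with t ht
    rwa [hL0]
  · exact (hg 0).continuousAt

end Pool.Agent.Saddle
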