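import Pool.Agent.Saddle.B4

/-!
# MP_d5c502_an, the data

The polynomials of the calibration field. All coefficients are integers divided by `1024`.
-/

set_option autoImplicit false

noncomputable section

namespace Pool.Agent.Saddle

namespace Ex

/-- Horner form in `x`. -/
def hp (x : Ex) : List Ex → Ex
  | [] => c 0
  | [a] => a
  | a :: l => add a (mul x (hp x l))

/-- A polynomial in `s` with rational coefficients. -/
def sp (l : List ℚ) : Ex := hp s (l.map c)

/-- `1 + t` -/
def t1 : Ex := add (c 1) t

/-- The polynomial `n`. -/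
def dn : Ex := sp [(11377/1024), (-307/1024), (-10448/1024)]

/-- The polynomial `m`. -/
def dm : Ex := hp e [sp [(11/1024), (2080/1024)],
  sp [(507/1024), (1257/1024), (289/1024)]]

/-- The polynomial `b`. -/
def db : Ex := hp e [hp t [sp [(528/1024), (13412/1024), (-29171/1024)],
    sp [(-33452/1024), (87915/1024), (134931/1024)],
    sp [(-37280/1024), (-72975/1024), (-54314/1024)],
    sp [(-63219/1024), (98441/1024), (-48194/1024)],
    sp [(-50469/1024), (-10594/1024), (-10582/1024)]],
  sp [(-5555/1024), (3695/1024), (-12575/1024), (-15087/1024)]]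

/-- The polynomial `beta`. -/
def dbe : Ex := hp e [hp t [sp [(5227/1024), (2459/1024)],
    sp [(-7577/1024), (-7220/1024)],
    sp [(4088/1024), (13187/1024)],
    sp [(-13452/1024), (-11919/1024)],
    sp [(12339/1024), (-43/1024)]],
  sp [(-3536/1024), (2349/1024), (2243/1024)]]

/-- The polynomial `c`. -/
def dc : Ex := hp t [sp [(2575/1024), (18037/1024), (151698/1024)],
    sp [(-14695/1024), (-103908/1024), (-43623/1024)],
    sp [(-29549/1024), (25411/1024), (-50581/1024)]]

/-- The polynomial `gamma`. -/
def dga : Ex := hp t [sp [(-1881/1024), (-26415/1024)],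
    sp [(21284/1024), (2317/1024)],
    sp [(1616/1024), (6661/1024)]]

/-- The function `a`: `T = tau + eps ^ 2 (1 - tau ^ 2) a`. -/
def da : Ex := mul t (hp e [hp s [c (2513/512), mul (c (4745/1024)) t, c (-885/512),
    mul (c (977/512)) t], c 0, hp s [c (-37), c 0, c 0, mul (c (-150)) t, c 130,
    mul (c (-25)) t]])

/-- The width of the band. -/
def dD : Ex := mul (hp e [c (3/256), c 0, c 80]) (mul t h)

/-- `P2` -/
def dP : Ex := add (mul (c 2) (ga da)) (add (mul (mul (c 2) t) dn) (mul t1 db))

/-- `Q1` -/
def dQ : Ex := add (mul (mul (c 2) t) dm) (mul t1 dbe)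

/-- `p2` -/
def dp : Ex := add dn (mul t1 dc)

/-- `q1` -/
def dq : Ex := add dm (mul t1 dga)

end Ex

end Pool.Agent.Saddle
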