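import Mathlib

/-!
# Straight line programs over graded integers

A graded value `(z, n, m, k, b, c)` stands for a real number `x` with
`x (1 + r)^n (1 + t)^m 2^k = F(r, t)`, where `F` is an integer polynomial whose value at
`(W^D, W)` is `z`.  The numbers `b` and `c` are bounds for `|x| 2^k`, and `c - b` bounds the
difference between `x` and the number of interest.
-/

open Polynomial

namespace Pool.Agent.Saddle.Eng

/-- integers with a sign -/
inductive Z
  | p (n : ℕ)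
  | m (n : ℕ)

namespace Z

/-- the integer -/
def toInt : Z → ℤ
  | p n => (n : ℤ)
  | m n => -(n : ℤ)

/-- the absolute value -/
noncomputable def abs (a : Z) : ℕ := Z.rec (fun x => x) (fun x => x) a

/-- the negative -/
noncomputable def neg (a : Z) : Z := Z.rec (fun x => Z.m x) (fun x => Z.p x) a

/-- the product -/
noncomputable def mul (a b : Z) : Z :=
  Z.rec (fun x => Z.rec (fun y => Z.p (Nat.mul x y)) (fun y => Z.m (Nat.mul x y)) b)
    (fun x => Z.rec (fun y => Z.m (Nat.mul x y)) (fun y => Z.p (Nat.mul x y)) b) a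

/-- multiple by a natural number -/
noncomputable def scl (f : ℕ) (a : Z) : Z :=
  Z.rec (fun x => Z.p (Nat.mul f x)) (fun x => Z.m (Nat.mul f x)) a

/-- the difference of two natural numbers -/
noncomputable def sb (x y : ℕ) : Z :=
  Bool.rec (Z.m (Nat.sub y x)) (Z.p (Nat.sub x y)) (Nat.ble y x)

/-- the sum -/
noncomputable def add (a b : Z) : Z :=
  Z.rec (fun x => Z.rec (fun y => Z.p (Nat.add x y)) (fun y => sb x y) b)
    (fun x => Z.rec (fun y => sb y x) (fun y => Z.m (Nat.add x y)) b) a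

theorem toInt_abs (a : Z) : ((a.abs : ℕ) : ℤ) = |a.toInt| := by
  cases a with
  | p n => simp [abs, toInt]
  | m n => simp [abs, toInt]

theorem toInt_neg (a : Z) : a.neg.toInt = -a.toInt := by
  cases a with
  | p n => simp [neg, toInt]
  | m n => simp [neg, toInt]

theorem toInt_mul (a b : Z) : (a.mul b).toInt = a.toInt * b.toInt := by
  cases a with
  | p x =>
    cases b with
    | p y => simp [mul, toInt]
    | m y => simp [mul, toInt]
  | m x =>
    cases b with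
    | p y => simp [mul, toInt]
    | m y => simp [mul, toInt]

theorem toInt_scl (f : ℕ) (a : Z) : (a.scl f).toInt = f * a.toInt := by
  cases a with
  | p x => simp [scl, toInt]
  | m x => simp [scl, toInt]

theorem toInt_sb (x y : ℕ) : (sb x y).toInt = (x : ℤ) - y := by
  unfold sb
  cases h : Nat.ble y x with
  | true =>
    have h1 : y ≤ x := Nat.le_of_ble_eq_true h
    simp [toInt, Nat.cast_sub h1]
  | false =>
    have h1 : ¬ y ≤ x := by
      intro h2
      rw [Nat.ble_eq_true_of_le h2] at h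
      exact absurd h (by simp)
    simp [toInt, Nat.cast_sub (not_le.1 h1).le]

theorem toInt_add (a b : Z) : (a.add b).toInt = a.toInt + b.toInt := by
  cases a with
  | p x =>
    cases b with
    | p y => simp [add, toInt]
    | m y =>
      change (sb x y).toInt = (x : ℤ) + -(y : ℤ)
      rw [toInt_sb]
      ring
  | m x =>
    cases b with
    | p y =>
      change (sb y x).toInt = -(x : ℤ) + (y : ℤ)
      rw [toInt_sb]
      ring
    | m y => simp [add, toInt]; ring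

end Z

/-- expressions -/
inductive Ex
  | lit (z : Z) (k : ℕ)
  | var (i : ℕ)
  | add (a b : Ex)
  | mul (a b : Ex)

/-- graded values -/
structure G where
  z : Z
  n : ℕ
  m : ℕ
  k : ℕ
  b : ℕ
  c : ℕ

/-- the value of `(1 + r)^n (1 + t)^m 2^k` -/
noncomputable def fac (r1 t1 n m k : ℕ) : ℕ :=
  Nat.mul (Nat.mul (Nat.pow r1 n) (Nat.pow t1 m)) (Nat.pow 2 k)

/-- product -/
noncomputable def gmul (g h : G) : G :=
  G.rec (fun z n m k b c => G.rec (fun z' n' m' k' b' c' =>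
    G.mk (Z.mul z z') (Nat.add n n') (Nat.add m m') (Nat.add k k') (Nat.mul b b')
      (Nat.mul c c')) h) g

/-- sum -/
noncomputable def gadd (r1 t1 : ℕ) (g h : G) : G :=
  G.rec (fun z n m k b c => G.rec (fun z' n' m' k' b' c' =>
    G.mk (Z.add (Z.scl (fac r1 t1 (Nat.sub n' n) (Nat.sub m' m) (Nat.sub k' k)) z)
       (Z.scl (fac r1 t1 (Nat.sub n n') (Nat.sub m m') (Nat.sub k k')) z'))
      (Nat.add n (Nat.sub n' n)) (Nat.add m (Nat.sub m' m)) (Nat.add k (Nat.sub k' k))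
      (Nat.add (Nat.mul (Nat.pow 2 (Nat.sub k' k)) b) (Nat.mul (Nat.pow 2 (Nat.sub k k')) b'))
      (Nat.add (Nat.mul (Nat.pow 2 (Nat.sub k' k)) c) (Nat.mul (Nat.pow 2 (Nat.sub k k')) c'))) h) g

/-- the zero value -/
def gzero : G := G.mk (Z.p 0) 0 0 0 0 0

/-- entry of a list -/
noncomputable def get (l : List G) (i : ℕ) : G :=
  List.rec (fun _ => gzero) (fun a _ ih i => Nat.rec a (fun j _ => ih j) i) l i

/-- value of an expression -/
noncomputable def ev (r1 t1 : ℕ) (env : List G) (e : Ex) : G :=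
  Ex.rec (fun z k => G.mk z 0 0 k (Z.abs z) (Z.abs z)) (fun i => get env i)
    (fun _ _ a b => gadd r1 t1 a b) (fun _ _ a b => gmul a b) e

/-- run a program, the results are put in front of the environment -/
noncomputable def run (r1 t1 : ℕ) (pr : List Ex) (env : List G) : List G :=
  List.rec (fun env => env) (fun e _ ih env => ih (List.cons (ev r1 t1 env e) env)) pr env

/-! ### Real values -/

/-- real value of an expression -/
noncomputable def Ex.R (env : List ℝ) : Ex → ℝ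
  | lit z k => (z.toInt : ℝ) / 2 ^ k
  | var i => env.getD i 0
  | add a b => a.R env + b.R env
  | mul a b => a.R env * b.R env

/-- real values of a program -/
noncomputable def runR : List Ex → List ℝ → List ℝ
  | [], env => env
  | e :: l, env => runR l (e.R env :: env)

/-! ### Polynomials -/

/-- value at `(W^D, W)` -/
noncomputable def evZ (W D : ℕ) : ℤ[X][X] →+* ℤ :=
  eval₂RingHom (evalRingHom (W : ℤ)) ((W : ℤ) ^ D)

/-- value at the real point `(r, t)` -/
noncomputable def evR (r t : ℝ) : ℤ[X][X] →+* ℝ :=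
  eval₂RingHom (eval₂RingHom (Int.castRingHom ℝ) t) r

/-- value at `(1, 1)` -/
noncomputable def e11 : ℤ[X][X] →+* ℤ := eval₂RingHom (evalRingHom (1 : ℤ)) 1

/-- `A` dominates `F` -/
def Dom (F A : ℤ[X][X]) : Prop := ∀ i j, |(F.coeff i).coeff j| ≤ (A.coeff i).coeff j

theorem Dom.nonneg {F A : ℤ[X][X]} (h : Dom F A) (i j : ℕ) : 0 ≤ (A.coeff i).coeff j :=
  (abs_nonneg _).trans (h i j)

theorem Dom.add {F A F' A' : ℤ[X][X]} (h : Dom F A) (h' : Dom F' A') :
    Dom (F + F') (A + A') := by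
  intro i j
  simp only [coeff_add]
  exact (abs_add_le _ _).trans (add_le_add (h i j) (h' i j))

theorem coeff2_mul (F F' : ℤ[X][X]) (i j : ℕ) : ((F * F').coeff i).coeff j =
    ∑ u ∈ Finset.HasAntidiagonal.antidiagonal i, ∑ v ∈ Finset.HasAntidiagonal.antidiagonal j,
      (F.coeff u.1).coeff v.1 * (F'.coeff u.2).coeff v.2 := by
  rw [coeff_mul, finsetSum_coeff]
  exact Finset.sum_congr rfl fun u _ => coeff_mul _ _ _

theorem Dom.mul {F A F' A' : ℤ[X][X]} (h : Dom F A) (h' : Dom F' A') :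
    Dom (F * F') (A * A') := by
  intro i j
  rw [coeff2_mul, coeff2_mul]
  refine (Finset.abs_sum_le_sum_abs _ _).trans (Finset.sum_le_sum fun u _ => ?_)
  refine (Finset.abs_sum_le_sum_abs _ _).trans (Finset.sum_le_sum fun v _ => ?_)
  rw [abs_mul]
  exact mul_le_mul (h _ _) (h' _ _) (abs_nonneg _) (h.nonneg _ _)

theorem sum_le_eval_one {f : ℤ[X]} (h : ∀ j, 0 ≤ f.coeff j) (j : ℕ) : f.coeff j ≤ f.eval 1 := by
  rw [eval_eq_sum_range]
  simp only [one_pow, mul_one]
  by_cases hj : j ∈ Finset.range (f.natDegree + 1)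
  · exact Finset.single_le_sum (fun i _ => h i) hj
  · rw [Finset.mem_range, not_lt] at hj
    rw [coeff_eq_zero_of_natDegree_lt hj]
    exact Finset.sum_nonneg fun i _ => h i

theorem eval_one_nonneg {f : ℤ[X]} (h : ∀ j, 0 ≤ f.coeff j) : 0 ≤ f.eval 1 :=
  (h 0).trans (sum_le_eval_one h 0)

theorem e11_apply (A : ℤ[X][X]) :
    e11 A = ∑ i ∈ Finset.range (A.natDegree + 1), (A.coeff i).eval 1 := by
  unfold e11
  rw [coe_eval₂RingHom, eval₂_eq_sum_range]
  simp only [one_pow, mul_one, coe_evalRingHom]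

theorem coeff_le_e11 {A : ℤ[X][X]} (h : ∀ i j, 0 ≤ (A.coeff i).coeff j) (i j : ℕ) :
    (A.coeff i).coeff j ≤ e11 A := by
  rw [e11_apply]
  have h1 : ∀ i ∈ Finset.range (A.natDegree + 1), 0 ≤ (A.coeff i).eval 1 :=
    fun i _ => eval_one_nonneg (h i)
  by_cases hi : i ∈ Finset.range (A.natDegree + 1)
  · exact (sum_le_eval_one (h i) j).trans
      (Finset.single_le_sum (f := fun i => (A.coeff i).eval 1) h1 hi)
  · rw [Finset.mem_range, not_lt] at hi
    rw [coeff_eq_zero_of_natDegree_lt hi, coeff_zero]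
    exact Finset.sum_nonneg h1

theorem e11_nonneg {A : ℤ[X][X]} (h : ∀ i j, 0 ≤ (A.coeff i).coeff j) : 0 ≤ e11 A :=
  (h 0 0).trans (coeff_le_e11 h 0 0)

/-- the polynomial part of a representation -/
structure PRep (W D : ℕ) (r t : ℝ) (z : ℤ) (n m : ℕ) (B : ℤ) (v : ℝ) (F A : ℤ[X][X]) : Prop where
  hz : evZ W D F = z
  hD : Dom F A
  hA : e11 A ≤ B
  hd : ∀ i j, n < i ∨ m < j → (F.coeff i).coeff j = 0
  hv : evR r t F = v

theorem PRep.B_nonneg {W D : ℕ} {r t : ℝ} {z : ℤ} {n m : ℕ} {B : ℤ} {v : ℝ} {F A : ℤ[X][X]}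
    (h : PRep W D r t z n m B v F A) : 0 ≤ B := (e11_nonneg h.hD.nonneg).trans h.hA

theorem PRep.mul {W D : ℕ} {r t : ℝ} {z z' : ℤ} {n m n' m' : ℕ} {B B' : ℤ} {v v' : ℝ}
    {F A F' A' : ℤ[X][X]} (h : PRep W D r t z n m B v F A)
    (h' : PRep W D r t z' n' m' B' v' F' A') :
    PRep W D r t (z * z') (n + n') (m + m') (B * B') (v * v') (F * F') (A * A') where
  hz := by rw [map_mul, h.hz, h'.hz]
  hD := h.hD.mul h'.hD
  hA := by
    rw [map_mul]
    exact mul_le_mul h.hA h'.hA (e11_nonneg h'.hD.nonneg) h.B_nonneg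
  hd := by
    intro i j hij
    rw [coeff2_mul]
    refine Finset.sum_eq_zero fun u hu => Finset.sum_eq_zero fun w hw => ?_
    rw [Finset.HasAntidiagonal.mem_antidiagonal] at hu hw
    by_cases hc : n < u.1 ∨ m < w.1
    · rw [h.hd _ _ hc, zero_mul]
    · rw [h'.hd u.2 w.2 (by omega), mul_zero]
  hv := by rw [map_mul, h.hv, h'.hv]

theorem PRep.add {W D : ℕ} {r t : ℝ} {z z' : ℤ} {n m : ℕ} {B B' : ℤ} {v v' : ℝ}
    {F A F' A' : ℤ[X][X]} (h : PRep W D r t z n m B v F A)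
    (h' : PRep W D r t z' n m B' v' F' A') :
    PRep W D r t (z + z') n m (B + B') (v + v') (F + F') (A + A') where
  hz := by rw [map_add, h.hz, h'.hz]
  hD := h.hD.add h'.hD
  hA := by
    rw [map_add]
    exact add_le_add h.hA h'.hA
  hd := by
    intro i j hij
    rw [coeff_add, coeff_add, h.hd _ _ hij, h'.hd _ _ hij, add_zero]
  hv := by rw [map_add, h.hv, h'.hv]

theorem PRep.neg {W D : ℕ} {r t : ℝ} {z : ℤ} {n m : ℕ} {B : ℤ} {v : ℝ}
    {F A : ℤ[X][X]} (h : PRep W D r t z n m B v F A) :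
    PRep W D r t (-z) n m B (-v) (-F) A where
  hz := by rw [map_neg, h.hz]
  hD := by
    intro i j
    rw [coeff_neg, coeff_neg, abs_neg]
    exact h.hD i j
  hA := h.hA
  hd := by
    intro i j hij
    rw [coeff_neg, coeff_neg, h.hd _ _ hij, neg_zero]
  hv := by rw [map_neg, h.hv]

theorem PRep.le {W D : ℕ} {r t : ℝ} {z : ℤ} {n m : ℕ} {B B' : ℤ} {v : ℝ}
    {F A : ℤ[X][X]} (h : PRep W D r t z n m B v F A) (hB : B ≤ B') :
    PRep W D r t z n m B' v F A := ⟨h.hz, h.hD, h.hA.trans hB, h.hd, h.hv⟩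

/-- constants -/
theorem prep_const (W D : ℕ) (r t : ℝ) (a : ℤ) :
    PRep W D r t a 0 0 |a| (a : ℝ) (C (C a)) (C (C |a|)) where
  hz := by simp [evZ]
  hD := by
    intro i j
    rw [coeff_C, coeff_C]
    by_cases hi : i = 0
    · rw [if_pos hi, if_pos hi, coeff_C, coeff_C]
      by_cases hj : j = 0
      · rw [if_pos hj, if_pos hj]
      · rw [if_neg hj, if_neg hj, abs_zero]
    · rw [if_neg hi, if_neg hi, coeff_zero, abs_zero]
  hA := by simp [e11]
  hd := by
    intro i j hij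
    rw [coeff_C]
    by_cases hi : i = 0
    · rw [if_pos hi, coeff_C, if_neg (by omega)]
    · rw [if_neg hi, coeff_zero]
  hv := by simp [evR]

/-- the first variable -/
theorem prep_X (W D : ℕ) (r t : ℝ) :
    PRep W D r t ((W : ℤ) ^ D) 1 0 1 r (X : ℤ[X][X]) X where
  hz := by simp [evZ]
  hD := by
    intro i j
    rw [coeff_X]
    by_cases hi : 1 = i
    · rw [if_pos hi, coeff_one]
      by_cases hj : j = 0
      · rw [if_pos hj, abs_one]
      · rw [if_neg hj, abs_zero]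
    · rw [if_neg hi, coeff_zero, abs_zero]
  hA := by simp [e11]
  hd := by
    intro i j hij
    rw [coeff_X]
    by_cases hi : 1 = i
    · rw [if_pos hi, coeff_one, if_neg (by omega)]
    · rw [if_neg hi, coeff_zero]
  hv := by simp [evR]

/-- the second variable -/
theorem prep_CX (W D : ℕ) (r t : ℝ) :
    PRep W D r t (W : ℤ) 0 1 1 t (C X : ℤ[X][X]) (C X) where
  hz := by simp [evZ]
  hD := by
    intro i j
    rw [coeff_C]
    by_cases hi : i = 0
    · rw [if_pos hi, coeff_X]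
      by_cases hj : 1 = j
      · rw [if_pos hj, abs_one]
      · rw [if_neg hj, abs_zero]
    · rw [if_neg hi, coeff_zero, abs_zero]
  hA := by simp [e11]
  hd := by
    intro i j hij
    rw [coeff_C]
    by_cases hi : i = 0
    · rw [if_pos hi, coeff_X, if_neg (by omega)]
    · rw [if_neg hi, coeff_zero]
  hv := by simp [evR]

theorem PRep.mono {W D : ℕ} {r t : ℝ} {z : ℤ} {n m n' m' : ℕ} {B : ℤ} {v : ℝ}
    {F A : ℤ[X][X]} (h : PRep W D r t z n m B v F A) (hn : n ≤ n') (hm : m ≤ m') :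
    PRep W D r t z n' m' B v F A :=
  ⟨h.hz, h.hD, h.hA, fun i j hij => h.hd i j (by omega), h.hv⟩

/-- representation by some polynomial -/
def PR (W D : ℕ) (r t : ℝ) (z : ℤ) (n m : ℕ) (B : ℤ) (v : ℝ) : Prop :=
  ∃ F A : ℤ[X][X], PRep W D r t z n m B v F A

section PR

variable {W D : ℕ} {r t : ℝ} {z z' : ℤ} {n m n' m' : ℕ} {B B' : ℤ} {v v' : ℝ}

theorem PR.mul (h : PR W D r t z n m B v) (h' : PR W D r t z' n' m' B' v') :
    PR W D r t (z * z') (n + n') (m + m') (B * B') (v * v') := by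
  obtain ⟨F, A, h⟩ := h
  obtain ⟨F', A', h'⟩ := h'
  exact ⟨_, _, h.mul h'⟩

theorem PR.add (h : PR W D r t z n m B v) (h' : PR W D r t z' n m B' v') :
    PR W D r t (z + z') n m (B + B') (v + v') := by
  obtain ⟨F, A, h⟩ := h
  obtain ⟨F', A', h'⟩ := h'
  exact ⟨_, _, h.add h'⟩

theorem PR.neg (h : PR W D r t z n m B v) : PR W D r t (-z) n m B (-v) := by
  obtain ⟨F, A, h⟩ := h
  exact ⟨_, _, h.neg⟩

theorem PR.le (h : PR W D r t z n m B v) (hB : B ≤ B') : PR W D r t z n m B' v := by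
  obtain ⟨F, A, h⟩ := h
  exact ⟨_, _, h.le hB⟩

theorem PR.mono (h : PR W D r t z n m B v) (hn : n ≤ n') (hm : m ≤ m') :
    PR W D r t z n' m' B v := by
  obtain ⟨F, A, h⟩ := h
  exact ⟨_, _, h.mono hn hm⟩

theorem PR.B_nonneg (h : PR W D r t z n m B v) : 0 ≤ B := by
  obtain ⟨F, A, h⟩ := h
  exact h.B_nonneg

theorem pr_const (a : ℤ) : PR W D r t a 0 0 |a| (a : ℝ) := ⟨_, _, prep_const W D r t a⟩

/-- linear polynomials in the first variable -/
theorem pr_lr (a b : ℤ) : PR W D r t (a + b * (W : ℤ) ^ D) 1 0 (|a| + |b|) (a + b * r) := by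
  have h1 : PR W D r t a 1 0 |a| (a : ℝ) := (pr_const a).mono (Nat.zero_le 1) (le_refl 0)
  have h2 : PR W D r t (b * (W : ℤ) ^ D) (0 + 1) (0 + 0) (|b| * 1) (b * r) :=
    (pr_const b).mul ⟨_, _, prep_X W D r t⟩
  rw [mul_one, zero_add, zero_add] at h2
  exact h1.add h2

/-- linear polynomials in the second variable -/
theorem pr_lt (a b : ℤ) : PR W D r t (a + b * (W : ℤ)) 0 1 (|a| + |b|) (a + b * t) := by
  have h1 : PR W D r t a 0 1 |a| (a : ℝ) := (pr_const a).mono (le_refl 0) (Nat.zero_le 1)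
  have h2 : PR W D r t (b * (W : ℤ)) (0 + 0) (0 + 1) (|b| * 1) (b * t) :=
    (pr_const b).mul ⟨_, _, prep_CX W D r t⟩
  rw [mul_one, zero_add, zero_add] at h2
  exact h1.add h2

theorem PR.pow (h : PR W D r t z n m B v) (l : ℕ) :
    PR W D r t (z ^ l) (l * n) (l * m) (B ^ l) (v ^ l) := by
  induction l with
  | zero =>
    have h1 : PR W D r t 1 0 0 |1| ((1 : ℤ) : ℝ) := pr_const 1
    rw [abs_one, Int.cast_one] at h1
    rw [pow_zero, pow_zero, pow_zero, zero_mul, zero_mul]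
    exact h1
  | succ l ih =>
    have h1 := ih.mul h
    rw [pow_succ, pow_succ, pow_succ, Nat.succ_mul, Nat.succ_mul]
    exact h1

end PR

/-- the factor -/
theorem pr_fac (W D : ℕ) (r t : ℝ) (n m k : ℕ) :
    PR W D r t ((fac (1 + W ^ D) (1 + W) n m k : ℕ) : ℤ) n m (2 ^ (n + m) * 2 ^ k)
      ((1 + r) ^ n * (1 + t) ^ m * 2 ^ k) := by
  have h1 := (pr_lr (W := W) (D := D) (r := r) (t := t) 1 1).pow n
  have h2 := (pr_lt (W := W) (D := D) (r := r) (t := t) 1 1).pow m
  have h3 := (pr_const (W := W) (D := D) (r := r) (t := t) 2).pow k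
  have h4 := (h1.mul h2).mul h3
  simp only [mul_one, mul_zero, add_zero, zero_add, one_mul, Int.cast_one, abs_one] at h4
  have h5 : ((fac (1 + W ^ D) (1 + W) n m k : ℕ) : ℤ) =
      (1 + (W : ℤ) ^ D) ^ n * (1 + (W : ℤ)) ^ m * 2 ^ k := by
    change (((1 + W ^ D) ^ n * (1 + W) ^ m * 2 ^ k : ℕ) : ℤ) = _
    push_cast
    ring
  rw [h5]
  have h6 : ((1 : ℤ) + 1) ^ n * (1 + 1) ^ m * |2| ^ k = 2 ^ (n + m) * 2 ^ k := by
    rw [pow_add]
    norm_num
  rw [h6] at h4
  have h7 : ((2 : ℤ) : ℝ) = 2 := by norm_num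
  rw [h7] at h4
  exact h4

/-- `g` represents the real number `y` -/
def Rep (W D : ℕ) (r t : ℝ) (g : G) (y : ℝ) : Prop :=
  ∃ x : ℝ, PR W D r t g.z.toInt g.n g.m (2 ^ (g.n + g.m) * g.b)
    (x * ((1 + r) ^ g.n * (1 + t) ^ g.m * 2 ^ g.k)) ∧ |x| * 2 ^ g.k ≤ g.b ∧
    |y - x| * 2 ^ g.k ≤ (g.c : ℝ) - g.b

section Rep

variable {W D : ℕ} {r t : ℝ}

theorem Rep.mul {g g' : G} {y y' : ℝ} (h : Rep W D r t g y) (h' : Rep W D r t g' y') :
    Rep W D r t (gmul g g') (y * y') := by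
  obtain ⟨z, n, m, k, b, c⟩ := g
  obtain ⟨z', n', m', k', b', c'⟩ := g'
  obtain ⟨x, h1, h2, h3⟩ := h
  obtain ⟨x', h1', h2', h3'⟩ := h'
  simp only at h1 h2 h3 h1' h2' h3'
  refine ⟨x * x', ?_, ?_, ?_⟩
  · change PR W D r t (Z.mul z z').toInt (n + n') (m + m')
      (2 ^ ((n + n') + (m + m')) * ((b * b' : ℕ) : ℤ))
      (x * x' * ((1 + r) ^ (n + n') * (1 + t) ^ (m + m') * 2 ^ (k + k')))
    rw [Z.toInt_mul]
    have h4 := h1.mul h1'
    have e1 : (2 : ℤ) ^ (n + m) * b * (2 ^ (n' + m') * b') =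
        2 ^ ((n + n') + (m + m')) * ((b * b' : ℕ) : ℤ) := by
      push_cast
      ring
    have e2 : x * ((1 + r) ^ n * (1 + t) ^ m * 2 ^ k) *
        (x' * ((1 + r) ^ n' * (1 + t) ^ m' * 2 ^ k')) =
        x * x' * ((1 + r) ^ (n + n') * (1 + t) ^ (m + m') * 2 ^ (k + k')) := by ring
    rw [e1, e2] at h4
    exact h4
  · change |x * x'| * 2 ^ (k + k') ≤ ((b * b' : ℕ) : ℝ)
    rw [abs_mul, pow_add]
    push_cast
    calc |x| * |x'| * (2 ^ k * 2 ^ k') = (|x| * 2 ^ k) * (|x'| * 2 ^ k') := by ring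
      _ ≤ b * b' := mul_le_mul h2 h2' (by positivity) (by positivity)
  · change |y * y' - x * x'| * 2 ^ (k + k') ≤ ((c * c' : ℕ) : ℝ) - ((b * b' : ℕ) : ℝ)
    push_cast
    have h5 : |y'| * 2 ^ k' ≤ c' := by
      have h6 : |y'| ≤ |y' - x'| + |x'| := by
        have := abs_add_le (y' - x') x'
        rwa [sub_add_cancel] at this
      calc |y'| * 2 ^ k' ≤ (|y' - x'| + |x'|) * 2 ^ k' :=
            mul_le_mul_of_nonneg_right h6 (by positivity)
        _ = |y' - x'| * 2 ^ k' + |x'| * 2 ^ k' := by ring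
        _ ≤ c' := by linarith
    have h7 : |y * y' - x * x'| ≤ |y - x| * |y'| + |x| * |y' - x'| := by
      have e : y * y' - x * x' = (y - x) * y' + x * (y' - x') := by ring
      rw [e]
      refine (abs_add_le _ _).trans (le_of_eq ?_)
      rw [abs_mul, abs_mul]
    calc |y * y' - x * x'| * 2 ^ (k + k')
        ≤ (|y - x| * |y'| + |x| * |y' - x'|) * 2 ^ (k + k') :=
          mul_le_mul_of_nonneg_right h7 (by positivity)
      _ = (|y - x| * 2 ^ k) * (|y'| * 2 ^ k') + (|x| * 2 ^ k) * (|y' - x'| * 2 ^ k') := by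
          rw [pow_add]
          ring
      _ ≤ (c - b) * c' + b * (c' - b') := by
          have hc : (0 : ℝ) ≤ c - b := le_trans (by positivity) h3
          exact add_le_add (mul_le_mul h3 h5 (by positivity) hc)
            (mul_le_mul h2 h3' (by positivity) (by positivity))
      _ = c * c' - b * b' := by ring

/-- multiplication with one -/
theorem Rep.lift {z : Z} {n m k b c : ℕ} {y : ℝ} (h : Rep W D r t (G.mk z n m k b c) y)
    (dn dm dk : ℕ) : Rep W D r t (G.mk (Z.scl (fac (1 + W ^ D) (1 + W) dn dm dk) z)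
      (n + dn) (m + dm) (k + dk) (2 ^ dk * b) (2 ^ dk * c)) y := by
  obtain ⟨x, h1, h2, h3⟩ := h
  simp only at h1 h2 h3
  refine ⟨x, ?_, ?_, ?_⟩
  · have h4 := h1.mul (pr_fac W D r t dn dm dk)
    change PR W D r t (Z.scl (fac (1 + W ^ D) (1 + W) dn dm dk) z).toInt (n + dn) (m + dm)
      (2 ^ ((n + dn) + (m + dm)) * ((2 ^ dk * b : ℕ) : ℤ))
      (x * ((1 + r) ^ (n + dn) * (1 + t) ^ (m + dm) * 2 ^ (k + dk)))
    rw [Z.toInt_scl, mul_comm]
    have e1 : (2 : ℤ) ^ (n + m) * b * (2 ^ (dn + dm) * 2 ^ dk) =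
        2 ^ ((n + dn) + (m + dm)) * ((2 ^ dk * b : ℕ) : ℤ) := by
      push_cast
      ring
    have e2 : x * ((1 + r) ^ n * (1 + t) ^ m * 2 ^ k) *
        ((1 + r) ^ dn * (1 + t) ^ dm * 2 ^ dk) =
        x * ((1 + r) ^ (n + dn) * (1 + t) ^ (m + dm) * 2 ^ (k + dk)) := by ring
    rw [e1, e2] at h4
    exact h4
  · change |x| * 2 ^ (k + dk) ≤ ((2 ^ dk * b : ℕ) : ℝ)
    push_cast
    calc |x| * 2 ^ (k + dk) = 2 ^ dk * (|x| * 2 ^ k) := by rw [pow_add]; ring
      _ ≤ 2 ^ dk * b := mul_le_mul_of_nonneg_left h2 (by positivity)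
  · change |y - x| * 2 ^ (k + dk) ≤ ((2 ^ dk * c : ℕ) : ℝ) - ((2 ^ dk * b : ℕ) : ℝ)
    push_cast
    calc |y - x| * 2 ^ (k + dk) = 2 ^ dk * (|y - x| * 2 ^ k) := by rw [pow_add]; ring
      _ ≤ 2 ^ dk * (c - b) := mul_le_mul_of_nonneg_left h3 (by positivity)
      _ = 2 ^ dk * c - 2 ^ dk * b := by ring

theorem Rep.add_same {z z' : Z} {n m k b c b' c' : ℕ} {y y' : ℝ}
    (h : Rep W D r t (G.mk z n m k b c) y) (h' : Rep W D r t (G.mk z' n m k b' c') y') :
    Rep W D r t (G.mk (Z.add z z') n m k (b + b') (c + c')) (y + y') := by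
  obtain ⟨x, h1, h2, h3⟩ := h
  obtain ⟨x', h1', h2', h3'⟩ := h'
  simp only at h1 h2 h3 h1' h2' h3'
  refine ⟨x + x', ?_, ?_, ?_⟩
  · change PR W D r t (Z.add z z').toInt n m (2 ^ (n + m) * ((b + b' : ℕ) : ℤ))
      ((x + x') * ((1 + r) ^ n * (1 + t) ^ m * 2 ^ k))
    have h4 := h1.add h1'
    rw [Z.toInt_add]
    have e1 : (2 : ℤ) ^ (n + m) * b + 2 ^ (n + m) * b' = 2 ^ (n + m) * ((b + b' : ℕ) : ℤ) := by
      push_cast
      ring
    rw [e1, ← add_mul] at h4
    exact h4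
  · change |x + x'| * 2 ^ k ≤ ((b + b' : ℕ) : ℝ)
    push_cast
    calc |x + x'| * 2 ^ k ≤ (|x| + |x'|) * 2 ^ k :=
          mul_le_mul_of_nonneg_right (abs_add_le _ _) (by positivity)
      _ = |x| * 2 ^ k + |x'| * 2 ^ k := by ring
      _ ≤ b + b' := add_le_add h2 h2'
  · change |y + y' - (x + x')| * 2 ^ k ≤ ((c + c' : ℕ) : ℝ) - ((b + b' : ℕ) : ℝ)
    push_cast
    have e : y + y' - (x + x') = (y - x) + (y' - x') := by ring
    rw [e]
    calc |y - x + (y' - x')| * 2 ^ k ≤ (|y - x| + |y' - x'|) * 2 ^ k :=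
          mul_le_mul_of_nonneg_right (abs_add_le _ _) (by positivity)
      _ = |y - x| * 2 ^ k + |y' - x'| * 2 ^ k := by ring
      _ ≤ (c + c') - (b + b') := by linarith

theorem Rep.add {g g' : G} {y y' : ℝ} (h : Rep W D r t g y) (h' : Rep W D r t g' y') :
    Rep W D r t (gadd (1 + W ^ D) (1 + W) g g') (y + y') := by
  obtain ⟨z, n, m, k, b, c⟩ := g
  obtain ⟨z', n', m', k', b', c'⟩ := g'
  have h1 := h.lift (n' - n) (m' - m) (k' - k)
  have h2 := h'.lift (n - n') (m - m') (k - k')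
  rw [show n' + (n - n') = n + (n' - n) by omega, show m' + (m - m') = m + (m' - m) by omega,
    show k' + (k - k') = k + (k' - k) by omega] at h2
  exact h1.add_same h2

theorem rep_lit (z : Z) (k : ℕ) :
    Rep W D r t (G.mk z 0 0 k z.abs z.abs) ((z.toInt : ℝ) / 2 ^ k) := by
  refine ⟨(z.toInt : ℝ) / 2 ^ k, ?_, ?_, ?_⟩
  · change PR W D r t z.toInt 0 0 (2 ^ (0 + 0) * ((z.abs : ℕ) : ℤ))
      ((z.toInt : ℝ) / 2 ^ k * ((1 + r) ^ 0 * (1 + t) ^ 0 * 2 ^ k))
    have h1 := pr_const (W := W) (D := D) (r := r) (t := t) z.toInt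
    rw [Z.toInt_abs, add_zero, pow_zero, one_mul, pow_zero, pow_zero, one_mul, one_mul,
      div_mul_cancel₀ _ (by positivity)]
    exact h1
  · change |(z.toInt : ℝ) / 2 ^ k| * 2 ^ k ≤ ((z.abs : ℕ) : ℝ)
    have h1 : ((z.abs : ℕ) : ℝ) = |(z.toInt : ℝ)| := by
      have := congrArg (fun n : ℤ => (n : ℝ)) (Z.toInt_abs z)
      simpa using this
    rw [h1, abs_div, abs_of_pos (by positivity : (0 : ℝ) < 2 ^ k),
      div_mul_cancel₀ _ (by positivity)]
  · change |(z.toInt : ℝ) / 2 ^ k - (z.toInt : ℝ) / 2 ^ k| * 2 ^ k ≤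
      ((z.abs : ℕ) : ℝ) - ((z.abs : ℕ) : ℝ)
    rw [sub_self, sub_self, abs_zero, zero_mul]

theorem rep_gzero : Rep W D r t gzero 0 := by
  have h := rep_lit (W := W) (D := D) (r := r) (t := t) (Z.p 0) 0
  have e : (((Z.p 0).toInt : ℤ) : ℝ) / 2 ^ 0 = 0 := by simp [Z.toInt]
  rw [e] at h
  exact h

theorem rep_get {env : List G} {envR : List ℝ} (h : List.Forall₂ (Rep W D r t) env envR) (i : ℕ) :
    Rep W D r t (get env i) (envR.getD i 0) := by
  induction h generalizing i with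
  | nil => exact rep_gzero
  | cons h _ ih =>
    cases i with
    | zero => exact h
    | succ i => exact ih i

theorem rep_ev {env : List G} {envR : List ℝ} (h : List.Forall₂ (Rep W D r t) env envR) (e : Ex) :
    Rep W D r t (ev (1 + W ^ D) (1 + W) env e) (e.R envR) := by
  induction e with
  | lit z k => exact rep_lit z k
  | var i => exact rep_get h i
  | add a b iha ihb => exact iha.add ihb
  | mul a b iha ihb => exact iha.mul ihb

theorem rep_run (pr : List Ex) {env : List G} {envR : List ℝ}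
    (h : List.Forall₂ (Rep W D r t) env envR) :
    List.Forall₂ (Rep W D r t) (run (1 + W ^ D) (1 + W) pr env) (runR pr envR) := by
  induction pr generalizing env envR with
  | nil => exact h
  | cons e l ih => exact ih (List.Forall₂.cons (rep_ev h e) h)

end Rep

end Pool.Agent.Saddle.Eng
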