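import Pool.Agent.Saddle.Eng1

/-!
# Positivity of all coefficients from one integer
-/

open Polynomial

namespace Pool.Agent.Saddle.Eng

/-- Balanced digits are unique. -/
theorem digits (W : ℕ) (hW : 0 < W) : ∀ (L : ℕ) (c : ℕ → ℤ) (N : ℕ),
    (N : ℤ) = ∑ l ∈ Finset.range L, c l * (W : ℤ) ^ l → (∀ l < L, 2 * |c l| < W) →
    (∀ l < L, 2 * (N / W ^ l % W) < W) → ∀ l < L, 0 ≤ c l := by
  intro L
  induction L with
  | zero =>
    intro c N _ _ _ l hl
    exact absurd hl (Nat.not_lt_zero l)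
  | succ L ih =>
    intro c N hN hc hd
    have hW' : (0 : ℤ) < W := by exact_mod_cast hW
    set S : ℤ := ∑ l ∈ Finset.range L, c (l + 1) * (W : ℤ) ^ l with hS
    have h1 : (N : ℤ) = c 0 + W * S := by
      rw [hN, Finset.sum_range_succ', hS, Finset.mul_sum, pow_zero, mul_one, add_comm]
      congr 1
      refine Finset.sum_congr rfl fun l _ => ?_
      rw [pow_succ]
      ring
    have h0 := hd 0 (Nat.succ_pos L)
    rw [pow_zero, Nat.div_one] at h0
    have h2 : (N : ℤ) = (N % W : ℕ) + W * (N / W : ℕ) := by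
      have := Nat.mod_add_div N W
      exact_mod_cast this.symm
    have h3 : c 0 - (N % W : ℕ) = W * ((N / W : ℕ) - S) := by linarith
    have h4 := hc 0 (Nat.succ_pos L)
    have h5 : |c 0 - (N % W : ℕ)| < W := by
      have h6 : |c 0 - (N % W : ℕ)| ≤ |c 0| + (N % W : ℕ) := by
        have := abs_sub (c 0) ((N % W : ℕ) : ℤ)
        rwa [Nat.abs_cast] at this
      have h7 : 2 * ((N % W : ℕ) : ℤ) < W := by exact_mod_cast h0
      linarith
    have h6 : ((N / W : ℕ) : ℤ) - S = 0 := by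
      by_contra hne
      have h7 : (1 : ℤ) ≤ |((N / W : ℕ) : ℤ) - S| := Int.one_le_abs hne
      rw [h3, abs_mul, abs_of_pos hW'] at h5
      nlinarith
    have h7 : c 0 = (N % W : ℕ) := by
      rw [h6, mul_zero] at h3
      linarith
    have h8 : ((N / W : ℕ) : ℤ) = S := by linarith
    intro l hl
    cases l with
    | zero =>
      rw [h7]
      exact Int.natCast_nonneg _
    | succ l =>
      refine ih (fun l => c (l + 1)) (N / W) h8 (fun l hl => hc (l + 1) (by omega)) ?_ l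
        (by omega)
      intro l hl
      have := hd (l + 1) (by omega)
      rw [pow_succ', ← Nat.div_div_eq_div_mul] at this
      exact this

/-- the top bits of the first `L` digits -/
noncomputable def msk (w L : ℕ) : ℕ :=
  Nat.mul (Nat.div (Nat.sub (Nat.pow 2 (Nat.mul w L)) 1) (Nat.sub (Nat.pow 2 w) 1))
    (Nat.pow 2 (Nat.sub w 1))

theorem msk_eq (w L : ℕ) (hw : 1 ≤ w) :
    msk w L = ∑ l ∈ Finset.range L, 2 ^ (w - 1) * (2 ^ w) ^ l := by
  change (2 ^ (w * L) - 1) / (2 ^ w - 1) * 2 ^ (w - 1) = _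
  have h2 : 2 ≤ 2 ^ w := by
    calc 2 = 2 ^ 1 := (pow_one 2).symm
      _ ≤ 2 ^ w := Nat.pow_le_pow_right (by norm_num) hw
  rw [pow_mul, ← Nat.geomSum_eq h2, ← Finset.mul_sum, mul_comm]

theorem msk_succ (w L : ℕ) (hw : 1 ≤ w) : msk w (L + 1) = 2 ^ (w - 1) + 2 ^ w * msk w L := by
  rw [msk_eq w _ hw, msk_eq w _ hw, Finset.sum_range_succ', pow_zero, mul_one, add_comm,
    Finset.mul_sum]
  congr 1
  refine Finset.sum_congr rfl fun l _ => ?_
  rw [pow_succ]
  ring

theorem msk_digits (w : ℕ) (hw : 1 ≤ w) : ∀ (L N : ℕ), N &&& msk w L = 0 →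
    ∀ l < L, 2 * (N / (2 ^ w) ^ l % 2 ^ w) < 2 ^ w := by
  intro L
  induction L with
  | zero =>
    intro N _ l hl
    exact absurd hl (Nat.not_lt_zero l)
  | succ L ih =>
    intro N hN l hl
    have hlt : 2 ^ (w - 1) < 2 ^ w := Nat.pow_lt_pow_right (by norm_num) (by omega)
    have e2 : 2 ^ w = 2 * 2 ^ (w - 1) := by
      conv_lhs => rw [show w = (w - 1) + 1 by omega, pow_succ, mul_comm]
    rw [msk_succ w L hw] at hN
    have h1 : (2 ^ (w - 1) + 2 ^ w * msk w L) % 2 ^ w = 2 ^ (w - 1) := by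
      rw [Nat.add_mul_mod_self_left, Nat.mod_eq_of_lt hlt]
    have h2 : (2 ^ (w - 1) + 2 ^ w * msk w L) / 2 ^ w = msk w L := by
      rw [Nat.add_mul_div_left _ _ (by positivity), Nat.div_eq_of_lt hlt, zero_add]
    have h3 := congrArg (fun n => n % 2 ^ w) hN
    have h4 := congrArg (fun n => n / 2 ^ w) hN
    simp only [Nat.and_mod_two_pow, Nat.and_div_two_pow, h1, h2, Nat.zero_mod,
      Nat.zero_div] at h3 h4
    cases l with
    | zero =>
      rw [pow_zero, Nat.div_one]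
      by_contra hcon
      rw [not_lt, e2] at hcon
      have h5 : 2 ^ (w - 1) ≤ N % 2 ^ w := by
        rw [← e2] at hcon
        omega
      have h6 : N % 2 ^ w < 2 ^ w := Nat.mod_lt _ (by positivity)
      have h7 : N % 2 ^ w / 2 ^ (w - 1) = 1 := by
        apply Nat.div_eq_of_lt_le
        · rw [one_mul]
          exact h5
        · rw [e2] at h6
          omega
      have h8 : (N % 2 ^ w &&& 2 ^ (w - 1)).testBit (w - 1) = true := by
        rw [Nat.testBit_land, Nat.testBit_two_pow_self, Bool.and_true,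
          Nat.testBit_eq_decide_div_mod_eq, h7]
        simp
      rw [h3, Nat.zero_testBit] at h8
      exact absurd h8 (by simp)
    | succ l =>
      have := ih (N / 2 ^ w) h4 l (by omega)
      rw [Nat.div_div_eq_div_mul, ← pow_succ'] at this
      exact this

theorem sum_range_mul' (f : ℕ → ℤ) (D K : ℕ) : ∑ l ∈ Finset.range (D * K), f l =
    ∑ i ∈ Finset.range K, ∑ j ∈ Finset.range D, f (D * i + j) := by
  induction K with
  | zero => simp
  | succ K ih =>
    rw [Finset.sum_range_succ, ← ih, Nat.mul_succ, Finset.sum_range_add]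

theorem natDegree_lt_of {R : Type*} [Semiring R] (f : R[X]) (n K : ℕ) (hK : n < K)
    (h : ∀ i, n < i → f.coeff i = 0) : f.natDegree < K :=
  lt_of_le_of_lt (natDegree_le_iff_coeff_eq_zero.2 h) hK

/-- Positivity from the digits. -/
theorem PR.pos {w D : ℕ} {r t : ℝ} (hw : 1 ≤ w) (hr : 0 ≤ r) (ht : 0 ≤ t) {N n m K : ℕ} {B : ℤ}
    {v : ℝ} (h : PR (2 ^ w) D r t (N : ℤ) n m B v) (hn : n < K) (hm : m < D)
    (hB : 2 * B < 2 ^ w) (hN : N &&& msk w (D * K) = 0) : 0 ≤ v := by
  obtain ⟨F, A, h⟩ := h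
  have hD0 : 0 < D := lt_of_le_of_lt (Nat.zero_le m) hm
  have hF1 : F.natDegree < K := by
    apply natDegree_lt_of F n K hn
    intro i hi
    ext j
    rw [h.hd i j (Or.inl hi), coeff_zero]
  have hF2 : ∀ i, (F.coeff i).natDegree < D := by
    intro i
    apply natDegree_lt_of _ m D hm
    intro j hj
    exact h.hd i j (Or.inr hj)
  have hb : ∀ i j, 2 * |(F.coeff i).coeff j| < ((2 ^ w : ℕ) : ℤ) := by
    intro i j
    have h1 := (h.hD i j).trans ((coeff_le_e11 h.hD.nonneg i j).trans h.hA)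
    push_cast
    linarith
  have hz : (N : ℤ) = ∑ l ∈ Finset.range (D * K),
      (F.coeff (l / D)).coeff (l % D) * ((2 ^ w : ℕ) : ℤ) ^ l := by
    rw [sum_range_mul', ← h.hz]
    unfold evZ
    rw [coe_eval₂RingHom, eval₂_eq_sum_range' _ hF1]
    refine Finset.sum_congr rfl fun i _ => ?_
    rw [coe_evalRingHom, eval_eq_sum_range' (hF2 i), Finset.sum_mul]
    refine Finset.sum_congr rfl fun j hj => ?_
    rw [Finset.mem_range] at hj
    have e1 : (D * i + j) / D = i := by
      rw [Nat.mul_add_div hD0, Nat.div_eq_of_lt hj, add_zero]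
    have e2 : (D * i + j) % D = j := by
      rw [Nat.mul_add_mod, Nat.mod_eq_of_lt hj]
    rw [e1, e2, pow_add, pow_mul]
    ring
  have hpos := digits (2 ^ w) (by positivity) (D * K) _ N hz (fun l _ => hb _ _)
    (msk_digits w hw _ N hN)
  have hcoef : ∀ i < K, ∀ j < D, 0 ≤ (F.coeff i).coeff j := by
    intro i hi j hj
    have h1 : D * i + j < D * K := by
      calc D * i + j < D * i + D := by omega
        _ = D * (i + 1) := by ring
        _ ≤ D * K := Nat.mul_le_mul_left D hi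
    have h2 := hpos (D * i + j) h1
    have e1 : (D * i + j) / D = i := by
      rw [Nat.mul_add_div hD0, Nat.div_eq_of_lt hj, add_zero]
    have e2 : (D * i + j) % D = j := by
      rw [Nat.mul_add_mod, Nat.mod_eq_of_lt hj]
    rwa [e1, e2] at h2
  rw [← h.hv]
  unfold evR
  rw [coe_eval₂RingHom, eval₂_eq_sum_range' _ hF1]
  refine Finset.sum_nonneg fun i hi => mul_nonneg ?_ (pow_nonneg hr i)
  rw [coe_eval₂RingHom, eval₂_eq_sum_range' _ (hF2 i)]
  refine Finset.sum_nonneg fun j hj => mul_nonneg ?_ (pow_nonneg ht j)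
  rw [Finset.mem_range] at hi hj
  have := hcoef i hi j hj
  simpa using this

/-- positivity test -/
noncomputable def pos (w D K : ℕ) (g : G) : Bool :=
  G.rec (fun z n m _ b c => Z.rec (fun x =>
    and (Nat.ble (Nat.mul (Nat.sub c b) (fac (Nat.add 1 (Nat.pow (Nat.pow 2 w) D))
      (Nat.add 1 (Nat.pow 2 w)) n m 0)) x)
    (and (Nat.beq (Nat.land (Nat.sub x (Nat.mul (Nat.sub c b)
      (fac (Nat.add 1 (Nat.pow (Nat.pow 2 w) D)) (Nat.add 1 (Nat.pow 2 w)) n m 0)))
        (msk w (Nat.mul D K))) 0)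
    (and (Nat.ble (Nat.add n 1) K) (and (Nat.ble (Nat.add m 1) D)
      (and (Nat.ble 1 w) (Nat.ble (Nat.add (Nat.mul 2 (Nat.mul (Nat.pow 2 (Nat.add n m)) c)) 1)
        (Nat.pow 2 w))))))) (fun _ => false) z) g

theorem pos_sound {w D K : ℕ} {r t : ℝ} (hr : 0 ≤ r) (ht : 0 ≤ t) {g : G} {y : ℝ}
    (h : Rep (2 ^ w) D r t g y) (hp : pos w D K g = true) : 0 ≤ y := by
  obtain ⟨z, n, m, k, b, c⟩ := g
  obtain ⟨x, h1, h2, h3⟩ := h
  simp only at h1 h2 h3
  cases z with
  | m a => exact absurd hp (by simp [pos])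
  | p a =>
    have hp' : (Nat.ble ((c - b) * fac (1 + (2 ^ w) ^ D) (1 + 2 ^ w) n m 0) a &&
        (Nat.beq ((a - (c - b) * fac (1 + (2 ^ w) ^ D) (1 + 2 ^ w) n m 0) &&& msk w (D * K)) 0 &&
        (Nat.ble (n + 1) K && (Nat.ble (m + 1) D && (Nat.ble 1 w &&
        Nat.ble (2 * (2 ^ (n + m) * c) + 1) (2 ^ w)))))) = true := hp
    rw [Bool.and_eq_true, Bool.and_eq_true, Bool.and_eq_true, Bool.and_eq_true,
      Bool.and_eq_true] at hp'
    obtain ⟨q1, q2, q3, q4, q5, q6⟩ := hp'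
    have q1 := Nat.le_of_ble_eq_true q1
    have q2 := Nat.eq_of_beq_eq_true q2
    have q3 := Nat.le_of_ble_eq_true q3
    have q4 := Nat.le_of_ble_eq_true q4
    have q5 := Nat.le_of_ble_eq_true q5
    have q6 := Nat.le_of_ble_eq_true q6
    have hbc : b ≤ c := by
      have : (0 : ℝ) ≤ (c : ℝ) - b := le_trans (by positivity) h3
      have h4 : (b : ℝ) ≤ c := by linarith
      exact_mod_cast h4
    have hf := (pr_const (W := 2 ^ w) (D := D) (r := r) (t := t) ((c - b : ℕ) : ℤ)).mul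
      (pr_fac (2 ^ w) D r t n m 0)
    rw [zero_add, zero_add] at hf
    have h4 := h1.add hf.neg
    have e1 : (Z.p a).toInt + -(((c - b : ℕ) : ℤ) *
        ((fac (1 + (2 ^ w) ^ D) (1 + 2 ^ w) n m 0 : ℕ) : ℤ)) =
        ((a - (c - b) * fac (1 + (2 ^ w) ^ D) (1 + 2 ^ w) n m 0 : ℕ) : ℤ) := by
      rw [Nat.cast_sub q1]
      push_cast [Z.toInt]
      ring
    rw [e1] at h4
    have h5 := h4.pos q5 hr ht (K := K) (by omega) (by omega) ?_ q2
    · have hpos : (0 : ℝ) < (1 + r) ^ n * (1 + t) ^ m := by positivity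
      have e2 : x * ((1 + r) ^ n * (1 + t) ^ m * 2 ^ k) + -((((c - b : ℕ) : ℤ) : ℝ) *
          ((1 + r) ^ n * (1 + t) ^ m * 2 ^ 0)) =
          (x * 2 ^ k - ((c : ℝ) - b)) * ((1 + r) ^ n * (1 + t) ^ m) := by
        rw [Int.cast_natCast, Nat.cast_sub hbc]
        ring
      rw [e2] at h5
      have h6 := nonneg_of_mul_nonneg_left h5 hpos
      have h7 : (x - y) * 2 ^ k ≤ |y - x| * 2 ^ k := by
        apply mul_le_mul_of_nonneg_right _ (by positivity)
        rw [abs_sub_comm]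
        exact le_abs_self _
      have h8 : 0 ≤ y * 2 ^ k := by
        have : y * 2 ^ k = x * 2 ^ k - (x - y) * 2 ^ k := by ring
        rw [this]
        linarith
      exact nonneg_of_mul_nonneg_left h8 (by positivity)
    · have e3 : |((c - b : ℕ) : ℤ)| = (c : ℤ) - b := by
        rw [Nat.abs_cast, Nat.cast_sub hbc]
      rw [e3]
      have e4 : (2 : ℤ) * (2 ^ (n + m) * b + (c - b) * (2 ^ (n + m) * 2 ^ 0)) =
          2 * (2 ^ (n + m) * c) := by ring
      rw [e4]
      have : ((2 * (2 ^ (n + m) * c) + 1 : ℕ) : ℤ) ≤ ((2 ^ w : ℕ) : ℤ) := by exact_mod_cast q6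
      push_cast at this
      linarith

end Pool.Agent.Saddle.Eng
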