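import Pool.Agent.Saddle.Eng2

/-!
# Leaves, polynomials in one variable, and the comparison principle for `tanh`
-/

namespace Pool.Agent.Saddle.Eng

/-- the maximum -/
noncomputable def mx (a b : ℕ) : ℕ := Nat.add a (Nat.sub b a)

theorem le_mx_left (a b : ℕ) : a ≤ mx a b := Nat.le_add_right _ _

theorem le_mx_right (a b : ℕ) : b ≤ mx a b := by
  change b ≤ a + (b - a)
  omega

/-- the value `(a + b r) / (1 + r) / 2^k` -/
noncomputable def leafR (w D : ℕ) (a b : Z) (k : ℕ) : G :=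
  G.mk (Z.add a (Z.scl (Nat.pow (Nat.pow 2 w) D) b)) 1 0 k (mx a.abs b.abs) (mx a.abs b.abs)

/-- the value `(a + b t) / (1 + t) / 2^k` -/
noncomputable def leafT (w : ℕ) (a b : Z) (k : ℕ) : G :=
  G.mk (Z.add a (Z.scl (Nat.pow 2 w) b)) 0 1 k (mx a.abs b.abs) (mx a.abs b.abs)

theorem abs_le_mx (a b : Z) : |((a.toInt : ℤ) : ℝ)| ≤ (mx a.abs b.abs : ℕ) ∧
    |((b.toInt : ℤ) : ℝ)| ≤ (mx a.abs b.abs : ℕ) := by
  have h1 : |((a.toInt : ℤ) : ℝ)| = ((a.abs : ℕ) : ℝ) := by
    have := congrArg (fun n : ℤ => (n : ℝ)) (Z.toInt_abs a)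
    simpa using this.symm
  have h2 : |((b.toInt : ℤ) : ℝ)| = ((b.abs : ℕ) : ℝ) := by
    have := congrArg (fun n : ℤ => (n : ℝ)) (Z.toInt_abs b)
    simpa using this.symm
  rw [h1, h2]
  exact ⟨by exact_mod_cast le_mx_left _ _, by exact_mod_cast le_mx_right _ _⟩

theorem abs_le_mx_int (a b : Z) : |a.toInt| + |b.toInt| ≤ 2 ^ 1 * ((mx a.abs b.abs : ℕ) : ℤ) := by
  rw [← Z.toInt_abs, ← Z.toInt_abs]
  have h1 : ((a.abs : ℕ) : ℤ) ≤ (mx a.abs b.abs : ℕ) := by exact_mod_cast le_mx_left _ _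
  have h2 : ((b.abs : ℕ) : ℤ) ≤ (mx a.abs b.abs : ℕ) := by exact_mod_cast le_mx_right _ _
  linarith

theorem weighted_abs_le {a b r M : ℝ} (hr : 0 ≤ r) (ha : |a| ≤ M) (hb : |b| ≤ M) :
    |(a + b * r) / (1 + r)| ≤ M := by
  have h1 : 0 < 1 + r := by linarith
  rw [abs_div, abs_of_pos h1, div_le_iff₀ h1]
  calc |a + b * r| ≤ |a| + |b * r| := abs_add_le _ _
    _ = |a| + |b| * r := by rw [abs_mul, abs_of_nonneg hr]
    _ ≤ M + M * r := add_le_add ha (mul_le_mul_of_nonneg_right hb hr)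
    _ = M * (1 + r) := by ring

theorem rep_leafR {w D : ℕ} {r t : ℝ} (hr : 0 ≤ r) (a b : Z) (k : ℕ) :
    Rep (2 ^ w) D r t (leafR w D a b k)
      (((a.toInt : ℝ) + (b.toInt : ℝ) * r) / (1 + r) / 2 ^ k) := by
  have h1r : 0 < 1 + r := by linarith
  refine ⟨((a.toInt : ℝ) + (b.toInt : ℝ) * r) / (1 + r) / 2 ^ k, ?_, ?_, ?_⟩
  · change PR (2 ^ w) D r t (Z.add a (Z.scl ((2 ^ w) ^ D) b)).toInt 1 0
      (2 ^ (1 + 0) * ((mx a.abs b.abs : ℕ) : ℤ))
      (((a.toInt : ℝ) + (b.toInt : ℝ) * r) / (1 + r) / 2 ^ k *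
        ((1 + r) ^ 1 * (1 + t) ^ 0 * 2 ^ k))
    have h1 := (pr_lr (W := 2 ^ w) (D := D) (r := r) (t := t) a.toInt b.toInt).le
      (abs_le_mx_int a b)
    have e1 : (Z.add a (Z.scl ((2 ^ w) ^ D) b)).toInt =
        a.toInt + b.toInt * (((2 ^ w : ℕ) : ℤ)) ^ D := by
      rw [Z.toInt_add, Z.toInt_scl]
      push_cast
      ring
    have e2 : ((a.toInt : ℝ) + (b.toInt : ℝ) * r) / (1 + r) / 2 ^ k *
        ((1 + r) ^ 1 * (1 + t) ^ 0 * 2 ^ k) = (a.toInt : ℝ) + (b.toInt : ℝ) * r := by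
      field_simp
    rw [e1, e2, add_zero]
    exact h1
  · change |((a.toInt : ℝ) + (b.toInt : ℝ) * r) / (1 + r) / 2 ^ k| * 2 ^ k ≤
      ((mx a.abs b.abs : ℕ) : ℝ)
    rw [abs_div _ (2 ^ k), abs_of_pos (by positivity : (0 : ℝ) < 2 ^ k),
      div_mul_cancel₀ _ (by positivity)]
    exact weighted_abs_le hr (abs_le_mx a b).1 (abs_le_mx a b).2
  · change |_ - _| * 2 ^ k ≤ ((mx a.abs b.abs : ℕ) : ℝ) - ((mx a.abs b.abs : ℕ) : ℝ)
    rw [sub_self, sub_self, abs_zero, zero_mul]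

theorem rep_leafT {w D : ℕ} {r t : ℝ} (ht : 0 ≤ t) (a b : Z) (k : ℕ) :
    Rep (2 ^ w) D r t (leafT w a b k)
      (((a.toInt : ℝ) + (b.toInt : ℝ) * t) / (1 + t) / 2 ^ k) := by
  have h1t : 0 < 1 + t := by linarith
  refine ⟨((a.toInt : ℝ) + (b.toInt : ℝ) * t) / (1 + t) / 2 ^ k, ?_, ?_, ?_⟩
  · change PR (2 ^ w) D r t (Z.add a (Z.scl (2 ^ w) b)).toInt 0 1
      (2 ^ (0 + 1) * ((mx a.abs b.abs : ℕ) : ℤ))
      (((a.toInt : ℝ) + (b.toInt : ℝ) * t) / (1 + t) / 2 ^ k *
        ((1 + r) ^ 0 * (1 + t) ^ 1 * 2 ^ k))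
    have h1 := (pr_lt (W := 2 ^ w) (D := D) (r := r) (t := t) a.toInt b.toInt).le
      (abs_le_mx_int a b)
    have e1 : (Z.add a (Z.scl (2 ^ w) b)).toInt =
        a.toInt + b.toInt * ((2 ^ w : ℕ) : ℤ) := by
      rw [Z.toInt_add, Z.toInt_scl]
      push_cast
      ring
    have e2 : ((a.toInt : ℝ) + (b.toInt : ℝ) * t) / (1 + t) / 2 ^ k *
        ((1 + r) ^ 0 * (1 + t) ^ 1 * 2 ^ k) = (a.toInt : ℝ) + (b.toInt : ℝ) * t := by
      field_simp
    rw [e1, e2, zero_add]
    exact h1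
  · change |((a.toInt : ℝ) + (b.toInt : ℝ) * t) / (1 + t) / 2 ^ k| * 2 ^ k ≤
      ((mx a.abs b.abs : ℕ) : ℝ)
    rw [abs_div _ (2 ^ k), abs_of_pos (by positivity : (0 : ℝ) < 2 ^ k),
      div_mul_cancel₀ _ (by positivity)]
    exact weighted_abs_le ht (abs_le_mx a b).1 (abs_le_mx a b).2
  · change |_ - _| * 2 ^ k ≤ ((mx a.abs b.abs : ℕ) : ℝ) - ((mx a.abs b.abs : ℕ) : ℝ)
    rw [sub_self, sub_self, abs_zero, zero_mul]

/-- polynomials in one variable -/
noncomputable def horner (r1 t1 : ℕ) (X : G) (k : ℕ) (cs : List Z) : G :=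
  List.rec gzero (fun c l ih => List.rec (G.mk c 0 0 k c.abs c.abs)
    (fun _ _ _ => gadd r1 t1 (G.mk c 0 0 k c.abs c.abs) (gmul X ih)) l) cs

/-- the real values of polynomials in one variable -/
noncomputable def hornerR (k : ℕ) (x : ℝ) : List Z → ℝ
  | [] => 0
  | c :: l => (c.toInt : ℝ) / 2 ^ k + x * hornerR k x l

theorem rep_horner {W D : ℕ} {r t : ℝ} {X : G} {x : ℝ} (h : Rep W D r t X x) (k : ℕ)
    (cs : List Z) : Rep W D r t (horner (1 + W ^ D) (1 + W) X k cs) (hornerR k x cs) := by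
  induction cs with
  | nil => exact rep_gzero
  | cons c l ih =>
    cases l with
    | nil =>
      have h1 := rep_lit (W := W) (D := D) (r := r) (t := t) c k
      have e : hornerR k x [c] = (c.toInt : ℝ) / 2 ^ k := by
        change (c.toInt : ℝ) / 2 ^ k + x * 0 = _
        rw [mul_zero, add_zero]
      rw [e]
      exact h1
    | cons c' l' => exact (rep_lit c k).add (h.mul ih)

/-- enlarge the error -/
noncomputable def gerr (e ke : ℕ) (g : G) : G :=
  G.rec (fun z n m k b c => G.mk z n m k b (Nat.add c (Nat.mul e (Nat.pow 2 (Nat.sub k ke))))) g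

theorem rep_gerr {W D : ℕ} {r t : ℝ} {g : G} {y y' : ℝ} (h : Rep W D r t g y) (e ke : ℕ)
    (he : |y' - y| ≤ (e : ℝ) / 2 ^ ke) : Rep W D r t (gerr e ke g) y' := by
  obtain ⟨z, n, m, k, b, c⟩ := g
  obtain ⟨x, h1, h2, h3⟩ := h
  simp only at h1 h2 h3
  refine ⟨x, h1, h2, ?_⟩
  change |y' - x| * 2 ^ k ≤ ((c + e * 2 ^ (k - ke) : ℕ) : ℝ) - b
  push_cast
  have h4 : |y' - x| ≤ |y' - y| + |y - x| := by
    have := abs_add_le (y' - y) (y - x)
    rwa [sub_add_sub_cancel] at this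
  have h5 : (e : ℝ) / 2 ^ ke * 2 ^ k ≤ e * 2 ^ (k - ke) := by
    rw [div_mul_eq_mul_div, div_le_iff₀ (by positivity), mul_assoc, ← pow_add]
    apply mul_le_mul_of_nonneg_left _ (Nat.cast_nonneg e)
    exact pow_le_pow_right₀ (by norm_num) (by omega)
  calc |y' - x| * 2 ^ k ≤ (|y' - y| + |y - x|) * 2 ^ k :=
        mul_le_mul_of_nonneg_right h4 (by positivity)
    _ = |y' - y| * 2 ^ k + |y - x| * 2 ^ k := by ring
    _ ≤ (e : ℝ) / 2 ^ ke * 2 ^ k + (c - b) :=
        add_le_add (mul_le_mul_of_nonneg_right he (by positivity)) h3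
    _ ≤ e * 2 ^ (k - ke) + (c - b) := by linarith
    _ = c + e * 2 ^ (k - ke) - b := by ring

/-- coefficients of the derivative -/
noncomputable def dcoef (j : ℕ) (cs : List Z) : List Z :=
  List.rec (fun _ => []) (fun c _ ih j => List.cons (Z.scl j c) (ih (Nat.add j 1))) cs j

/-- coefficients of the derivative of a polynomial -/
noncomputable def dpoly (cs : List Z) : List Z := dcoef 1 (List.tail cs)

theorem hornerR_eq_sum (k : ℕ) (x : ℝ) (cs : List Z) : hornerR k x cs =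
    ∑ i ∈ Finset.range cs.length, ((cs.getD i (Z.p 0)).toInt : ℝ) / 2 ^ k * x ^ i := by
  induction cs with
  | nil => simp [hornerR]
  | cons c l ih =>
    rw [hornerR, ih, List.length_cons, Finset.sum_range_succ', Finset.mul_sum, add_comm]
    congr 1
    · refine Finset.sum_congr rfl fun i _ => ?_
      rw [List.getD_cons_succ, pow_succ]
      ring
    · simp

theorem hornerR_dcoef (k : ℕ) (x : ℝ) (cs : List Z) : ∀ j : ℕ, hornerR k x (dcoef j cs) =
    ∑ i ∈ Finset.range cs.length,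
      ((j + i : ℕ) : ℝ) * (((cs.getD i (Z.p 0)).toInt : ℝ) / 2 ^ k) * x ^ i := by
  induction cs with
  | nil =>
    intro j
    change (0 : ℝ) = _
    simp
  | cons c l ih =>
    intro j
    change ((Z.scl j c).toInt : ℝ) / 2 ^ k + x * hornerR k x (dcoef (j + 1) l) = _
    rw [ih (j + 1), List.length_cons, Finset.sum_range_succ', Finset.mul_sum, add_comm]
    congr 1
    · refine Finset.sum_congr rfl fun i _ => ?_
      rw [List.getD_cons_succ, pow_succ]
      push_cast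
      ring
    · rw [Z.toInt_scl]
      simp
      ring

theorem hasDerivAt_hornerR (k : ℕ) (cs : List Z) (x : ℝ) :
    HasDerivAt (fun y => hornerR k y cs) (hornerR k x (dpoly cs)) x := by
  cases cs with
  | nil =>
    change HasDerivAt (fun _ => (0 : ℝ)) (0 : ℝ) x
    exact hasDerivAt_const x 0
  | cons c l =>
    have e1 : (fun y => hornerR k y (c :: l)) = fun y => (c.toInt : ℝ) / 2 ^ k +
        ∑ i ∈ Finset.range l.length,
          ((l.getD i (Z.p 0)).toInt : ℝ) / 2 ^ k * y ^ (i + 1) := by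
      funext y
      rw [hornerR, hornerR_eq_sum, Finset.mul_sum]
      congr 1
      refine Finset.sum_congr rfl fun i _ => ?_
      rw [pow_succ]
      ring
    have e2 : hornerR k x (dpoly (c :: l)) = ∑ i ∈ Finset.range l.length,
        ((l.getD i (Z.p 0)).toInt : ℝ) / 2 ^ k * (((i + 1 : ℕ) : ℝ) * x ^ i) := by
      change hornerR k x (dcoef 1 l) = _
      rw [hornerR_dcoef]
      refine Finset.sum_congr rfl fun i _ => ?_
      rw [add_comm 1 i]
      ring
    rw [e1, e2]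
    apply HasDerivAt.const_add
    have h : ∀ i ∈ Finset.range l.length, HasDerivAt
        (fun y : ℝ => ((l.getD i (Z.p 0)).toInt : ℝ) / 2 ^ k * y ^ (i + 1))
        (((l.getD i (Z.p 0)).toInt : ℝ) / 2 ^ k * (((i + 1 : ℕ) : ℝ) * x ^ i)) x := by
      intro i _
      have := (hasDerivAt_pow (i + 1) x).const_mul (((l.getD i (Z.p 0)).toInt : ℝ) / 2 ^ k)
      simpa using this
    have h2 := HasDerivAt.fun_sum h
    exact h2

/-! ### Comparison for the equation `y' = 1 - y²` -/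

theorem exp_factor {f f' q : ℝ → ℝ} {a b : ℝ} (hf : ∀ x, HasDerivAt f (f' x) x)
    (hq : Continuous q) (h : ∀ x ∈ Set.Ioo a b, 0 ≤ f' x + q x * f x) (ha : 0 ≤ f a) :
    ∀ x ∈ Set.Icc a b, 0 ≤ f x := by
  intro x hx
  set Q : ℝ → ℝ := fun u => ∫ y in a..u, q y with hQ
  have hQd : ∀ u, HasDerivAt Q (q u) u := fun u => (hq.integral_hasStrictDerivAt a u).hasDerivAt
  have hg : ∀ u, HasDerivAt (fun u => f u * Real.exp (Q u))
      ((f' u + q u * f u) * Real.exp (Q u)) u := by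
    intro u
    have h1 := (hf u).mul (hQd u).exp
    have e : f' u * Real.exp (Q u) + f u * (Real.exp (Q u) * q u) =
        (f' u + q u * f u) * Real.exp (Q u) := by ring
    rw [e] at h1
    exact h1
  have hmono : MonotoneOn (fun u => f u * Real.exp (Q u)) (Set.Icc a b) := by
    apply monotoneOn_of_deriv_nonneg (convex_Icc a b)
    · exact fun u _ => (hg u).continuousAt.continuousWithinAt
    · exact fun u _ => (hg u).differentiableAt.differentiableWithinAt
    · intro u hu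
      rw [interior_Icc] at hu
      rw [(hg u).deriv]
      exact mul_nonneg (h u hu) (Real.exp_pos _).le
  have hab : a ≤ b := hx.1.trans hx.2
  have h1 := hmono (Set.left_mem_Icc.2 hab) hx hx.1
  have h2 : 0 ≤ f a * Real.exp (Q a) := mul_nonneg ha (Real.exp_pos _).le
  have h3 : 0 ≤ f x * Real.exp (Q x) := h2.trans h1
  exact nonneg_of_mul_nonneg_left h3 (Real.exp_pos _)

theorem tanh_le_of {q q' : ℝ → ℝ} {a b : ℝ} (hq : ∀ x, HasDerivAt q (q' x) x)
    (h : ∀ x ∈ Set.Ioo a b, 1 - q x ^ 2 ≤ q' x) (ha : Real.tanh a ≤ q a) :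
    ∀ x ∈ Set.Icc a b, Real.tanh x ≤ q x := by
  have hc : Continuous q := continuous_iff_continuousAt.2 fun x => (hq x).continuousAt
  have hf : ∀ x, HasDerivAt (fun x => q x * Real.cosh x - Real.sinh x)
      (q' x * Real.cosh x + q x * Real.sinh x - Real.cosh x) x := fun x =>
    ((hq x).mul (Real.hasDerivAt_cosh x)).sub (Real.hasDerivAt_sinh x)
  have key := exp_factor (a := a) (b := b) hf hc ?_ ?_
  · intro x hx
    have h1 := key x hx
    rw [Real.tanh_eq_sinh_div_cosh, div_le_iff₀ (Real.cosh_pos x)]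
    linarith
  · intro x hx
    have h1 := mul_le_mul_of_nonneg_right (h x hx) (Real.cosh_pos x).le
    nlinarith
  · rw [Real.tanh_eq_sinh_div_cosh, div_le_iff₀ (Real.cosh_pos a)] at ha
    linarith

theorem le_tanh_of {q q' : ℝ → ℝ} {a b : ℝ} (hq : ∀ x, HasDerivAt q (q' x) x)
    (h : ∀ x ∈ Set.Ioo a b, q' x ≤ 1 - q x ^ 2) (ha : q a ≤ Real.tanh a) :
    ∀ x ∈ Set.Icc a b, q x ≤ Real.tanh x := by
  have hc : Continuous q := continuous_iff_continuousAt.2 fun x => (hq x).continuousAt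
  have hf : ∀ x, HasDerivAt (fun x => Real.sinh x - q x * Real.cosh x)
      (Real.cosh x - (q' x * Real.cosh x + q x * Real.sinh x)) x := fun x =>
    (Real.hasDerivAt_sinh x).sub ((hq x).mul (Real.hasDerivAt_cosh x))
  have key := exp_factor (a := a) (b := b) hf hc ?_ ?_
  · intro x hx
    have h1 := key x hx
    rw [Real.tanh_eq_sinh_div_cosh, le_div_iff₀ (Real.cosh_pos x)]
    linarith
  · intro x hx
    have h1 := mul_le_mul_of_nonneg_right (h x hx) (Real.cosh_pos x).le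
    nlinarith
  · rw [Real.tanh_eq_sinh_div_cosh, le_div_iff₀ (Real.cosh_pos a)] at ha
    linarith

/-- One step of the chain of approximations of `tanh`. -/
theorem tanh_step {P P' : ℝ → ℝ} {a b E D F : ℝ} (hP : ∀ x, HasDerivAt P (P' x) x)
    (hD : ∀ x ∈ Set.Ioo a b, |P' x - 1 + P x ^ 2| ≤ D) (hE : 0 ≤ E) (hD0 : 0 ≤ D)
    (h2 : ∀ x ∈ Set.Ioo a b, E + D * (x - a) ≤ 2 * P x)
    (ha : |Real.tanh a - P a| ≤ E) (hF : E + D * (b - a) ≤ F) :
    ∀ x ∈ Set.Icc a b, |Real.tanh x - P x| ≤ F := by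
  have hlin : ∀ x, HasDerivAt (fun x => E + D * (x - a)) D x := by
    intro x
    have := (((hasDerivAt_id x).sub_const a).const_mul D).const_add E
    simpa using this
  have hpos : ∀ x ∈ Set.Ioo a b, 0 ≤ E + D * (x - a) := by
    intro x hx
    have := mul_nonneg hD0 (sub_nonneg.2 hx.1.le)
    linarith
  have ha' := abs_le.1 ha
  have up := tanh_le_of (a := a) (b := b) (fun x => (hP x).add (hlin x)) ?_ ?_
  · have lo := le_tanh_of (a := a) (b := b) (fun x => (hP x).sub (hlin x)) ?_ ?_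
    · intro x hx
      have h3 := up x hx
      have h4 := lo x hx
      simp only [Pi.add_apply, Pi.sub_apply] at h3 h4
      have h5 : D * (x - a) ≤ D * (b - a) :=
        mul_le_mul_of_nonneg_left (by linarith [hx.2]) hD0
      rw [abs_le]
      constructor
      · linarith
      · linarith
    · intro x hx
      have h3 := abs_le.1 (hD x hx)
      have h4 := h2 x hx
      have h5 := hpos x hx
      simp only [Pi.sub_apply]
      nlinarith
    · simp only [Pi.sub_apply]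
      rw [sub_self, mul_zero, add_zero]
      linarith [ha'.1]
  · intro x hx
    have h3 := abs_le.1 (hD x hx)
    have h4 := h2 x hx
    have h5 := hpos x hx
    simp only [Pi.add_apply]
    nlinarith
  · simp only [Pi.add_apply]
    rw [sub_self, mul_zero, add_zero]
    linarith [ha'.2]

end Pool.Agent.Saddle.Eng
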