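import Pool.Agent.Saddle.Eng3

/-!
# Certified cells for `tanh` and `sech`, and the test of a program on a cell
-/

namespace Pool.Agent.Saddle.Eng

/-- A cell `[a, b] / 64` with centre `c / 64`: `q` is a polynomial close to `tanh` (coefficients
times `2^72`), `D` bounds its defect, `E` the error at the left end and `F` the error on the
cell (times `2^72`); `p` and `u` are polynomials of low degree (coefficients times `2^40`) close
to `tanh` and `sech` with errors `e` and `f` (times `2^-60`). -/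
structure Cell where
  a : ℕ
  b : ℕ
  c : ℕ
  q : List Z
  D : ℕ
  E : ℕ
  F : ℕ
  p : List Z
  e : ℕ
  u : List Z
  f : ℕ

/-- the variable `x - c` -/
noncomputable def cellX (w dd : ℕ) (C : Cell) : G :=
  leafR w dd (Z.sb C.a C.c) (Z.sb C.b C.c) 6

/-- horner on a cell -/
noncomputable def cellH (w dd : ℕ) (C : Cell) (k : ℕ) (cs : List Z) : G :=
  horner (Nat.add 1 (Nat.pow (Nat.pow 2 w) dd)) (Nat.add 1 (Nat.pow 2 w)) (cellX w dd C) k cs

/-- evaluation with the numbers of a cell -/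
noncomputable def evw (w dd : ℕ) (env : List G) (e : Ex) : G :=
  ev (Nat.add 1 (Nat.pow (Nat.pow 2 w) dd)) (Nat.add 1 (Nat.pow 2 w)) env e

/-- the negative -/
def Ex.neg (a : Ex) : Ex := Ex.mul (Ex.lit (Z.m 1) 0) a

theorem Ex.neg_R (env : List ℝ) (a : Ex) : (Ex.neg a).R env = -(a.R env) := by
  simp [Ex.neg, Ex.R, Z.toInt]

/-- the defect `P' - 1 + P²` in the environment `P, P'` -/
def exR : Ex := Ex.add (Ex.add (Ex.var 1) (Ex.lit (Z.m 1) 0)) (Ex.mul (Ex.var 0) (Ex.var 0))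

/-- the tests of a cell of the chain -/
noncomputable def chainOK (w K : ℕ) (C : Cell) : Bool :=
  and (pos w 1 K (evw w 1 [cellH w 1 C 72 C.q, cellH w 1 C 72 (dpoly C.q)]
    (Ex.add (Ex.lit (Z.p C.D) 72) (Ex.neg exR))))
  (and (pos w 1 K (evw w 1 [cellH w 1 C 72 C.q, cellH w 1 C 72 (dpoly C.q)]
    (Ex.add (Ex.lit (Z.p C.D) 72) exR)))
  (and (pos w 1 K (evw w 1 [cellH w 1 C 72 C.q, leafR w 1 (Z.p 0) (Z.p (Nat.sub C.b C.a)) 6]
    (Ex.add (Ex.mul (Ex.lit (Z.p 2) 0) (Ex.var 0))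
      (Ex.neg (Ex.add (Ex.lit (Z.p C.E) 72) (Ex.mul (Ex.lit (Z.p C.D) 72) (Ex.var 1)))))))
  (and (Nat.ble (Nat.add (Nat.mul C.E 64) (Nat.mul C.D (Nat.sub C.b C.a))) (Nat.mul C.F 64))
  (Nat.ble (Nat.add C.a 1) C.b))))

/-- the value of the polynomial at an end point of the cell -/
noncomputable def endH (w x : ℕ) (C : Cell) : G :=
  horner (Nat.add 1 (Nat.pow (Nat.pow 2 w) 1)) (Nat.add 1 (Nat.pow 2 w))
    (G.mk (Z.sb x C.c) 0 0 6 (Z.abs (Z.sb x C.c)) (Z.abs (Z.sb x C.c))) 72 C.q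

/-- the test at the common end point of two cells -/
noncomputable def linkOK (w : ℕ) (C C' : Cell) : Bool :=
  and (Nat.beq C.b C'.a)
  (and (pos w 1 1 (evw w 1 [endH w C.b C, endH w C'.a C']
    (Ex.add (Ex.lit (Z.sb C'.E C.F) 72) (Ex.neg (Ex.add (Ex.var 0) (Ex.neg (Ex.var 1)))))))
  (pos w 1 1 (evw w 1 [endH w C.b C, endH w C'.a C']
    (Ex.add (Ex.lit (Z.sb C'.E C.F) 72) (Ex.add (Ex.var 0) (Ex.neg (Ex.var 1)))))))

/-- the tests for the polynomials of low degree -/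
noncomputable def lowOK (w K : ℕ) (C : Cell) : Bool :=
  and (pos w 1 K (evw w 1 [cellH w 1 C 72 C.q, cellH w 1 C 40 C.p]
    (Ex.add (Ex.add (Ex.lit (Z.p C.e) 60) (Ex.lit (Z.m C.F) 72))
      (Ex.add (Ex.var 0) (Ex.neg (Ex.var 1))))))
  (and (pos w 1 K (evw w 1 [cellH w 1 C 72 C.q, cellH w 1 C 40 C.p]
    (Ex.add (Ex.add (Ex.lit (Z.p C.e) 60) (Ex.lit (Z.m C.F) 72))
      (Ex.neg (Ex.add (Ex.var 0) (Ex.neg (Ex.var 1)))))))
  (and (pos w 1 K (evw w 1 [cellH w 1 C 72 C.q, cellH w 1 C 40 C.u]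
    (Ex.add (Ex.add (Ex.mul (Ex.lit (Z.p C.f) 60) (Ex.var 1)) (Ex.lit (Z.m (Nat.mul 3 C.F)) 72))
      (Ex.add (Ex.lit (Z.p 1) 0) (Ex.neg (Ex.add (Ex.mul (Ex.var 0) (Ex.var 0))
        (Ex.mul (Ex.var 1) (Ex.var 1))))))))
  (and (pos w 1 K (evw w 1 [cellH w 1 C 72 C.q, cellH w 1 C 40 C.u]
    (Ex.add (Ex.add (Ex.mul (Ex.lit (Z.p C.f) 60) (Ex.var 1)) (Ex.lit (Z.m (Nat.mul 3 C.F)) 72))
      (Ex.neg (Ex.add (Ex.lit (Z.p 1) 0) (Ex.neg (Ex.add (Ex.mul (Ex.var 0) (Ex.var 0))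
        (Ex.mul (Ex.var 1) (Ex.var 1)))))))))
  (and (Nat.ble 1 C.F) (Nat.ble C.F (2 ^ 72))))))

/-- the left end -/
noncomputable def Cell.l (C : Cell) : ℝ := (C.a : ℝ) / 64

/-- the right end -/
noncomputable def Cell.r (C : Cell) : ℝ := (C.b : ℝ) / 64

/-- the centre -/
noncomputable def Cell.m (C : Cell) : ℝ := (C.c : ℝ) / 64

/-- the parameter of a point of an interval -/
theorem param {a b x : ℝ} (hx : a ≤ x) (hb : x < b) :
    ∃ r : ℝ, 0 ≤ r ∧ ∀ c d : ℝ, (c * a + d + (c * b + d) * r) / (1 + r) = c * x + d := by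
  have h1 : 0 < b - x := by linarith
  refine ⟨(x - a) / (b - x), div_nonneg (by linarith) h1.le, ?_⟩
  intro c d
  have h2 : 1 + (x - a) / (b - x) = (b - a) / (b - x) := by
    field_simp
    ring
  have h3 : b - a ≠ 0 := by linarith
  rw [h2]
  field_simp
  ring

section

variable {w dd : ℕ} {r t : ℝ}

theorem rep_cellX (hr : 0 ≤ r) (C : Cell) {x : ℝ}
    (hx : ∀ c d : ℝ, (c * C.l + d + (c * C.r + d) * r) / (1 + r) = c * x + d) :
    Rep (2 ^ w) dd r t (cellX w dd C) (x - C.m) := by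
  have h := rep_leafR (w := w) (D := dd) (t := t) hr (Z.sb C.a C.c) (Z.sb C.b C.c) 6
  rw [Z.toInt_sb, Z.toInt_sb] at h
  have e : (((((C.a : ℤ) - (C.c : ℤ) : ℤ)) : ℝ) + ((((C.b : ℤ) - (C.c : ℤ) : ℤ)) : ℝ) * r) /
      (1 + r) / 2 ^ 6 = x - C.m := by
    have h1 := hx 64 (-(C.c : ℝ))
    have e2 : ((((C.a : ℤ) - (C.c : ℤ) : ℤ)) : ℝ) + ((((C.b : ℤ) - (C.c : ℤ) : ℤ)) : ℝ) * r =
        64 * C.l + -(C.c : ℝ) + (64 * C.r + -(C.c : ℝ)) * r := by
      unfold Cell.l Cell.r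
      push_cast
      ring
    rw [e2, h1]
    unfold Cell.m
    ring
  rw [e] at h
  exact h

theorem rep_cellH (hr : 0 ≤ r) (C : Cell) {x : ℝ}
    (hx : ∀ c d : ℝ, (c * C.l + d + (c * C.r + d) * r) / (1 + r) = c * x + d) (k : ℕ)
    (cs : List Z) : Rep (2 ^ w) dd r t (cellH w dd C k cs) (hornerR k (x - C.m) cs) :=
  rep_horner (rep_cellX hr C hx) k cs

theorem rep_evw {env : List G} {envR : List ℝ} (h : List.Forall₂ (Rep (2 ^ w) dd r t) env envR)
    (e : Ex) : Rep (2 ^ w) dd r t (evw w dd env e) (e.R envR) := rep_ev h e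

end

theorem chain_cell {w K : ℕ} {C : Cell} (h : chainOK w K C = true)
    (ha : |Real.tanh C.l - hornerR 72 (C.l - C.m) C.q| ≤ (C.E : ℝ) / 2 ^ 72) :
    ∀ x ∈ Set.Icc C.l C.r, |Real.tanh x - hornerR 72 (x - C.m) C.q| ≤ (C.F : ℝ) / 2 ^ 72 := by
  unfold chainOK at h
  rw [Bool.and_eq_true, Bool.and_eq_true, Bool.and_eq_true, Bool.and_eq_true] at h
  obtain ⟨q1, q2, q3, q4, q5⟩ := h
  have q4 : C.E * 64 + C.D * (C.b - C.a) ≤ C.F * 64 := Nat.le_of_ble_eq_true q4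
  have q5 : C.a + 1 ≤ C.b := Nat.le_of_ble_eq_true q5
  have hab : (C.a : ℝ) + 1 ≤ C.b := by exact_mod_cast q5
  refine tanh_step (P := fun x => hornerR 72 (x - C.m) C.q)
    (P' := fun x => hornerR 72 (x - C.m) (dpoly C.q)) (a := C.l) (b := C.r)
    (E := (C.E : ℝ) / 2 ^ 72) (D := (C.D : ℝ) / 2 ^ 72) ?_ ?_ (by positivity) (by positivity)
    ?_ ha ?_
  · intro x
    have := (hasDerivAt_hornerR 72 C.q (x - C.m)).comp x ((hasDerivAt_id x).sub_const C.m)
    rw [mul_one] at this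
    exact this
  · intro x hx
    obtain ⟨r, hr, hr'⟩ := param hx.1.le hx.2
    have henv : List.Forall₂ (Rep (2 ^ w) 1 r 0)
        [cellH w 1 C 72 C.q, cellH w 1 C 72 (dpoly C.q)]
        [hornerR 72 (x - C.m) C.q, hornerR 72 (x - C.m) (dpoly C.q)] :=
      .cons (rep_cellH hr C hr' _ _) (.cons (rep_cellH hr C hr' _ _) .nil)
    have h1 := pos_sound hr (le_refl 0) (rep_evw henv _) q1
    have h2 := pos_sound hr (le_refl 0) (rep_evw henv _) q2
    simp only [Ex.R, Ex.neg_R, exR, Z.toInt, List.getD_cons_zero, List.getD_cons_succ,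
      pow_zero, div_one] at h1 h2
    push_cast at h1 h2
    rw [abs_le]
    constructor
    · linarith
    · linarith
  · intro x hx
    obtain ⟨r, hr, hr'⟩ := param hx.1.le hx.2
    have hl : Rep (2 ^ w) 1 r 0 (leafR w 1 (Z.p 0) (Z.p (Nat.sub C.b C.a)) 6) (x - C.l) := by
      have h := rep_leafR (w := w) (D := 1) (t := 0) hr (Z.p 0) (Z.p (Nat.sub C.b C.a)) 6
      have e : ((((Z.p 0).toInt : ℤ) : ℝ) + (((Z.p (Nat.sub C.b C.a)).toInt : ℤ) : ℝ) * r) /
          (1 + r) / 2 ^ 6 = x - C.l := by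
        have h1 := hr' 64 (-(C.a : ℝ))
        have e2 : (((Z.p 0).toInt : ℤ) : ℝ) + (((Z.p (Nat.sub C.b C.a)).toInt : ℤ) : ℝ) * r =
            64 * C.l + -(C.a : ℝ) + (64 * C.r + -(C.a : ℝ)) * r := by
          have e3 : (((Z.p (Nat.sub C.b C.a)).toInt : ℤ) : ℝ) = (C.b : ℝ) - C.a := by
            change (((C.b - C.a : ℕ) : ℤ) : ℝ) = _
            rw [Int.cast_natCast, Nat.cast_sub (by omega)]
          rw [e3]
          unfold Cell.l Cell.r
          simp only [Z.toInt]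
          push_cast
          ring
        rw [e2, h1]
        unfold Cell.l
        ring
      rw [e] at h
      exact h
    have henv : List.Forall₂ (Rep (2 ^ w) 1 r 0)
        [cellH w 1 C 72 C.q, leafR w 1 (Z.p 0) (Z.p (Nat.sub C.b C.a)) 6]
        [hornerR 72 (x - C.m) C.q, x - C.l] :=
      .cons (rep_cellH hr C hr' _ _) (.cons hl .nil)
    have h1 := pos_sound hr (le_refl 0) (rep_evw henv _) q3
    simp only [Ex.R, Ex.neg_R, Z.toInt, List.getD_cons_zero, List.getD_cons_succ,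
      pow_zero, div_one] at h1
    push_cast at h1
    linarith
  · have h1 : (C.E : ℝ) * 64 + C.D * (C.b - C.a) ≤ C.F * 64 := by
      have h2 : ((C.E * 64 + C.D * (C.b - C.a) : ℕ) : ℝ) ≤ ((C.F * 64 : ℕ) : ℝ) := by
        exact_mod_cast q4
      rw [Nat.cast_add, Nat.cast_mul, Nat.cast_mul, Nat.cast_sub (by omega)] at h2
      push_cast at h2
      linarith
    unfold Cell.r Cell.l
    have e : (C.E : ℝ) / 2 ^ 72 + (C.D : ℝ) / 2 ^ 72 * ((C.b : ℝ) / 64 - (C.a : ℝ) / 64) =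
        ((C.E : ℝ) * 64 + C.D * (C.b - C.a)) / 64 / 2 ^ 72 := by ring
    rw [e]
    apply div_le_div_of_nonneg_right _ (by positivity)
    rw [div_le_iff₀ (by norm_num)]
    exact h1

theorem rep_endH (w x : ℕ) (C : Cell) : Rep (2 ^ w) 1 0 0 (endH w x C)
    (hornerR 72 ((x : ℝ) / 64 - C.m) C.q) := by
  have h1 := rep_lit (W := 2 ^ w) (D := 1) (r := 0) (t := 0) (Z.sb x C.c) 6
  have e : (((Z.sb x C.c).toInt : ℤ) : ℝ) / 2 ^ 6 = (x : ℝ) / 64 - C.m := by
    rw [Z.toInt_sb]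
    unfold Cell.m
    push_cast
    ring
  rw [e] at h1
  exact rep_horner h1 72 C.q

theorem link_cell {w : ℕ} {C C' : Cell} (h : linkOK w C C' = true)
    (hC : |Real.tanh C.r - hornerR 72 (C.r - C.m) C.q| ≤ (C.F : ℝ) / 2 ^ 72) :
    |Real.tanh C'.l - hornerR 72 (C'.l - C'.m) C'.q| ≤ (C'.E : ℝ) / 2 ^ 72 ∧ C'.l = C.r := by
  unfold linkOK at h
  rw [Bool.and_eq_true, Bool.and_eq_true] at h
  obtain ⟨q1, q2, q3⟩ := h
  have q1 := Nat.eq_of_beq_eq_true q1
  have hl : C'.l = C.r := by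
    unfold Cell.l Cell.r
    rw [q1]
  have henv : List.Forall₂ (Rep (2 ^ w) 1 0 0) [endH w C.b C, endH w C'.a C']
      [hornerR 72 (C.r - C.m) C.q, hornerR 72 (C'.l - C'.m) C'.q] :=
    .cons (rep_endH w C.b C) (.cons (rep_endH w C'.a C') .nil)
  have h1 := pos_sound (le_refl 0) (le_refl 0) (rep_evw henv _) q2
  have h2 := pos_sound (le_refl 0) (le_refl 0) (rep_evw henv _) q3
  simp only [Ex.R, Ex.neg_R, Z.toInt_sb, List.getD_cons_zero, List.getD_cons_succ] at h1 h2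
  push_cast at h1 h2
  refine ⟨?_, hl⟩
  rw [hl] at h1 h2 ⊢
  have h3 : |hornerR 72 (C.r - C.m) C.q - hornerR 72 (C.r - C'.m) C'.q| ≤
      ((C'.E : ℝ) - C.F) / 2 ^ 72 := by
    rw [abs_le]
    constructor
    · linarith
    · linarith
  have h4 := abs_add_le (Real.tanh C.r - hornerR 72 (C.r - C.m) C.q)
    (hornerR 72 (C.r - C.m) C.q - hornerR 72 (C.r - C'.m) C'.q)
  rw [sub_add_sub_cancel] at h4
  have e : (C'.E : ℝ) / 2 ^ 72 = (C.F : ℝ) / 2 ^ 72 + ((C'.E : ℝ) - C.F) / 2 ^ 72 := by ring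
  rw [e]
  linarith

/-- the statement about a certified cell -/
def Good (C : Cell) : Prop :=
  (∀ x, C.l ≤ x → x < C.r → |Real.tanh x - hornerR 40 (x - C.m) C.p| ≤ (C.e : ℝ) / 2 ^ 60) ∧
  ∀ x, C.l ≤ x → x < C.r → |1 / Real.cosh x - hornerR 40 (x - C.m) C.u| ≤ (C.f : ℝ) / 2 ^ 60

theorem sech_sq (x : ℝ) : (1 / Real.cosh x) ^ 2 = 1 - Real.tanh x ^ 2 := by
  have h := Real.cosh_sq x
  have h1 := Real.cosh_pos x
  rw [Real.tanh_eq_sinh_div_cosh]
  field_simp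
  linarith

theorem abs_tanh_le (x : ℝ) : |Real.tanh x| ≤ 1 := by
  rw [abs_le]
  exact ⟨(Real.neg_one_lt_tanh x).le, (Real.tanh_lt_one x).le⟩

theorem low_cell {w K : ℕ} {C : Cell} (h : lowOK w K C = true)
    (hC : ∀ x ∈ Set.Icc C.l C.r, |Real.tanh x - hornerR 72 (x - C.m) C.q| ≤
      (C.F : ℝ) / 2 ^ 72) : Good C := by
  unfold lowOK at h
  rw [Bool.and_eq_true, Bool.and_eq_true, Bool.and_eq_true, Bool.and_eq_true,
    Bool.and_eq_true] at h
  obtain ⟨q1, q2, q3, q4, q5, q6⟩ := h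
  have q5 := Nat.le_of_ble_eq_true q5
  have q6 := Nat.le_of_ble_eq_true q6
  constructor
  · intro x hx1 hx2
    obtain ⟨r, hr, hr'⟩ := param hx1 hx2
    have henv : List.Forall₂ (Rep (2 ^ w) 1 r 0)
        [cellH w 1 C 72 C.q, cellH w 1 C 40 C.p]
        [hornerR 72 (x - C.m) C.q, hornerR 40 (x - C.m) C.p] :=
      .cons (rep_cellH hr C hr' _ _) (.cons (rep_cellH hr C hr' _ _) .nil)
    have h1 := pos_sound hr (le_refl 0) (rep_evw henv _) q1
    have h2 := pos_sound hr (le_refl 0) (rep_evw henv _) q2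
    simp only [Ex.R, Ex.neg_R, Z.toInt, List.getD_cons_zero, List.getD_cons_succ] at h1 h2
    push_cast at h1 h2
    have h3 := abs_le.1 (hC x ⟨hx1, hx2.le⟩)
    have e : -(C.F : ℝ) / 2 ^ 72 = -((C.F : ℝ) / 2 ^ 72) := by ring
    rw [e] at h1 h2
    rw [abs_le]
    constructor
    · linarith [h3.1]
    · linarith [h3.2]
  · intro x hx1 hx2
    obtain ⟨r, hr, hr'⟩ := param hx1 hx2
    have henv : List.Forall₂ (Rep (2 ^ w) 1 r 0)
        [cellH w 1 C 72 C.q, cellH w 1 C 40 C.u]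
        [hornerR 72 (x - C.m) C.q, hornerR 40 (x - C.m) C.u] :=
      .cons (rep_cellH hr C hr' _ _) (.cons (rep_cellH hr C hr' _ _) .nil)
    have h1 := pos_sound hr (le_refl 0) (rep_evw henv _) q3
    have h2 := pos_sound hr (le_refl 0) (rep_evw henv _) q4
    simp only [Ex.R, Ex.neg_R, Z.toInt, List.getD_cons_zero, List.getD_cons_succ,
      pow_zero, div_one] at h1 h2
    set P := hornerR 72 (x - C.m) C.q with hP
    set u := hornerR 40 (x - C.m) C.u with hu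
    set τ := Real.tanh x with hτ
    set s := 1 / Real.cosh x with hs
    set F : ℝ := (C.F : ℝ) / 2 ^ 72 with hF
    set f : ℝ := (C.f : ℝ) / 2 ^ 60 with hf
    have hF3 : ((-((Nat.mul 3 C.F : ℕ) : ℤ) : ℤ) : ℝ) / 2 ^ 72 = -(3 * F) := by
      have : ((Nat.mul 3 C.F : ℕ) : ℝ) = 3 * (C.F : ℝ) := by
        change ((3 * C.F : ℕ) : ℝ) = _
        push_cast
        ring
      rw [Int.cast_neg, Int.cast_natCast, this, hF]
      ring
    rw [hF3] at h1 h2
    have hf1 : (((C.f : ℕ) : ℤ) : ℝ) / 2 ^ 60 = f := by rw [hf, Int.cast_natCast]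
    rw [hf1] at h1 h2
    have h11 : ((((1 : ℕ) : ℤ)) : ℝ) = 1 := by norm_num
    rw [h11] at h1 h2
    have h3 : |τ - P| ≤ F := hC x ⟨hx1, hx2.le⟩
    have hF0 : 0 < F := by
      rw [hF]
      have : (1 : ℝ) ≤ C.F := by exact_mod_cast q5
      positivity
    have hF1 : F ≤ 1 := by
      rw [hF, div_le_one (by positivity)]
      calc (C.F : ℝ) ≤ ((2 ^ 72 : ℕ) : ℝ) := Nat.cast_le.2 q6
        _ = 2 ^ 72 := by norm_num
    have hs2 : s ^ 2 = 1 - τ ^ 2 := sech_sq x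
    have hs0 : 0 < s := by
      rw [hs]
      exact div_pos one_pos (Real.cosh_pos x)
    have hτ1 : |τ| ≤ 1 := abs_tanh_le x
    have h4 : |P + τ| ≤ 3 := by
      have e1 : P + τ = 2 * τ - (τ - P) := by ring
      rw [e1]
      calc |2 * τ - (τ - P)| ≤ |2 * τ| + |τ - P| := abs_sub _ _
        _ = 2 * |τ| + |τ - P| := by rw [abs_mul, abs_two]
        _ ≤ 3 := by linarith
    have h5 : |P ^ 2 - τ ^ 2| ≤ 3 * F := by
      have e1 : P ^ 2 - τ ^ 2 = -(τ - P) * (P + τ) := by ring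
      rw [e1, abs_mul, abs_neg]
      calc |τ - P| * |P + τ| ≤ F * 3 := mul_le_mul h3 h4 (abs_nonneg _) hF0.le
        _ = 3 * F := by ring
    have h5' := abs_le.1 h5
    have hfu : 3 * F ≤ f * u := by linarith
    have hf0 : 0 ≤ f := by rw [hf]; positivity
    have hu0 : 0 < u := by
      by_contra hcon
      rw [not_lt] at hcon
      have := mul_nonneg hf0 (neg_nonneg.2 hcon)
      linarith
    have h6 : |s ^ 2 - u ^ 2| ≤ f * u := by
      rw [hs2, abs_le]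
      constructor
      · nlinarith [h5'.1, h5'.2]
      · nlinarith [h5'.1, h5'.2]
    have h7 : |s - u| * u ≤ f * u := by
      calc |s - u| * u ≤ |s - u| * (s + u) :=
            mul_le_mul_of_nonneg_left (by linarith) (abs_nonneg _)
        _ = |s ^ 2 - u ^ 2| := by
            rw [← abs_of_pos (by linarith : 0 < s + u), ← abs_mul]
            congr 1
            ring
        _ ≤ f * u := h6
    exact le_of_mul_le_mul_right h7 hu0

end Pool.Agent.Saddle.Eng
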