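import Pool.Agent.Saddle.Eng4

/-!
# The test of a program on the cells
-/

namespace Pool.Agent.Saddle.Eng

/-- the environment `tanh, sech, sigma, eps` for a cell -/
noncomputable def posEnv (w dd : ℕ) (C : Cell) (ea eb ke : ℕ) : List G :=
  [gerr C.e 60 (cellH w dd C 40 C.p), gerr C.f 60 (cellH w dd C 40 C.u),
    leafR w dd (Z.p C.a) (Z.p C.b) 6, leafT w (Z.p ea) (Z.p eb) ke]

/-- the environment `tanh, sech, sigma, eps` for the reflected cell -/
noncomputable def negEnv (w dd : ℕ) (C : Cell) (ea eb ke : ℕ) : List G :=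
  [gmul (G.mk (Z.m 1) 0 0 0 1 1) (gerr C.e 60 (cellH w dd C 40 C.p)),
    gerr C.f 60 (cellH w dd C 40 C.u), leafR w dd (Z.m C.a) (Z.m C.b) 6,
    leafT w (Z.p ea) (Z.p eb) ke]

/-- the first `n` entries are nonnegative -/
noncomputable def posn (w dd K n : ℕ) (l : List G) : Bool :=
  Nat.rec (fun _ => true) (fun _ ih l =>
    List.rec false (fun g l' _ => and (pos w dd K g) (ih l')) l) n l

theorem posn_sound {w dd K : ℕ} {r t : ℝ} (hr : 0 ≤ r) (ht : 0 ≤ t) : ∀ (n : ℕ) {l : List G}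
    {lR : List ℝ}, List.Forall₂ (Rep (2 ^ w) dd r t) l lR → posn w dd K n l = true →
    ∀ i < n, 0 ≤ lR.getD i 0 := by
  intro n
  induction n with
  | zero =>
    intro l lR _ _ i hi
    exact absurd hi (Nat.not_lt_zero i)
  | succ n ih =>
    intro l lR h hp i hi
    cases h with
    | nil => exact absurd hp (by simp [posn])
    | cons h1 h2 =>
      have hp' : (pos w dd K _ && posn w dd K n _) = true := hp
      rw [Bool.and_eq_true] at hp'
      cases i with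
      | zero => exact pos_sound hr ht h1 hp'.1
      | succ i => exact ih h2 hp'.2 i (by omega)

/-- run with the numbers `1 + W^D`, `1 + W` -/
noncomputable def runw (w dd : ℕ) (pr : List Ex) (env : List G) : List G :=
  run (Nat.add 1 (Nat.pow (Nat.pow 2 w) dd)) (Nat.add 1 (Nat.pow 2 w)) pr env

/-- the test on a cell and an interval for `eps` -/
noncomputable def boxOK (w dd K : ℕ) (pr : List Ex) (n : ℕ) (sg : Bool) (C : Cell)
    (ea eb ke : ℕ) : Bool :=
  posn w dd K n (runw w dd pr (Bool.rec (negEnv w dd C ea eb ke) (posEnv w dd C ea eb ke) sg))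

section

variable {w dd : ℕ} {r t : ℝ}

theorem rep_eps (ht : 0 ≤ t) {ea eb ke : ℕ} {y : ℝ}
    (hy : ∀ c d : ℝ, (c * ((ea : ℝ) / 2 ^ ke) + d + (c * ((eb : ℝ) / 2 ^ ke) + d) * t) /
      (1 + t) = c * y + d) : Rep (2 ^ w) dd r t (leafT w (Z.p ea) (Z.p eb) ke) y := by
  have h := rep_leafT (w := w) (D := dd) (r := r) ht (Z.p ea) (Z.p eb) ke
  have e : (((((Z.p ea).toInt : ℤ)) : ℝ) + ((((Z.p eb).toInt : ℤ)) : ℝ) * t) /
      (1 + t) / 2 ^ ke = y := by
    have h1 := hy (2 ^ ke) 0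
    have h2 : (2 : ℝ) ^ ke ≠ 0 := by positivity
    simp only [Z.toInt, Int.cast_natCast]
    rw [add_zero, add_zero, add_zero, mul_div_cancel₀ _ h2, mul_div_cancel₀ _ h2] at h1
    rw [h1, mul_div_cancel_left₀ _ h2]
  rw [e] at h
  exact h

theorem rep_sig (hr : 0 ≤ r) {C : Cell} {x : ℝ}
    (hx : ∀ c d : ℝ, (c * C.l + d + (c * C.r + d) * r) / (1 + r) = c * x + d) :
    Rep (2 ^ w) dd r t (leafR w dd (Z.p C.a) (Z.p C.b) 6) x := by
  have h := rep_leafR (w := w) (D := dd) (t := t) hr (Z.p C.a) (Z.p C.b) 6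
  have e : (((((Z.p C.a).toInt : ℤ)) : ℝ) + ((((Z.p C.b).toInt : ℤ)) : ℝ) * r) /
      (1 + r) / 2 ^ 6 = x := by
    have h1 := hx 64 0
    simp only [Z.toInt, Int.cast_natCast]
    unfold Cell.l Cell.r at h1
    rw [add_zero, add_zero, add_zero, mul_div_cancel₀ _ (by norm_num),
      mul_div_cancel₀ _ (by norm_num)] at h1
    rw [h1]
    ring
  rw [e] at h
  exact h

theorem rep_sig_neg (hr : 0 ≤ r) {C : Cell} {x : ℝ}
    (hx : ∀ c d : ℝ, (c * C.l + d + (c * C.r + d) * r) / (1 + r) = c * x + d) :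
    Rep (2 ^ w) dd r t (leafR w dd (Z.m C.a) (Z.m C.b) 6) (-x) := by
  have h := rep_leafR (w := w) (D := dd) (t := t) hr (Z.m C.a) (Z.m C.b) 6
  have e : (((((Z.m C.a).toInt : ℤ)) : ℝ) + ((((Z.m C.b).toInt : ℤ)) : ℝ) * r) /
      (1 + r) / 2 ^ 6 = -x := by
    have h1 := hx 64 0
    simp only [Z.toInt, Int.cast_natCast, Int.cast_neg]
    unfold Cell.l Cell.r at h1
    rw [add_zero, add_zero, add_zero, mul_div_cancel₀ _ (by norm_num),
      mul_div_cancel₀ _ (by norm_num)] at h1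
    have e2 : (-(C.a : ℝ) + -(C.b : ℝ) * r) / (1 + r) = -(((C.a : ℝ) + (C.b : ℝ) * r) / (1 + r)) := by
      ring
    rw [e2, h1]
    ring
  rw [e] at h
  exact h

end

/-- Soundness of the test on a box. -/
theorem box_sound {w dd K n : ℕ} {pr : List Ex} {sg : Bool} {C : Cell} {ea eb ke : ℕ}
    (hC : Good C) (h : boxOK w dd K pr n sg C ea eb ke = true) {x y : ℝ} (hx1 : C.l ≤ x)
    (hx2 : x < C.r) (hy1 : (ea : ℝ) / 2 ^ ke ≤ y) (hy2 : y < (eb : ℝ) / 2 ^ ke) :
    ∀ i < n, 0 ≤ (runR pr [Real.tanh (if sg then x else -x), 1 / Real.cosh x,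
      (if sg then x else -x), y]).getD i 0 := by
  obtain ⟨r, hr, hr'⟩ := param hx1 hx2
  obtain ⟨t, ht, ht'⟩ := param hy1 hy2
  have hp : Rep (2 ^ w) dd r t (gerr C.e 60 (cellH w dd C 40 C.p)) (Real.tanh x) :=
    rep_gerr (rep_cellH hr C hr' 40 C.p) C.e 60 (hC.1 x hx1 hx2)
  have hu : Rep (2 ^ w) dd r t (gerr C.f 60 (cellH w dd C 40 C.u)) (1 / Real.cosh x) :=
    rep_gerr (rep_cellH hr C hr' 40 C.u) C.f 60 (hC.2 x hx1 hx2)
  have he : Rep (2 ^ w) dd r t (leafT w (Z.p ea) (Z.p eb) ke) y := rep_eps ht ht'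
  cases sg with
  | true =>
    have henv : List.Forall₂ (Rep (2 ^ w) dd r t) (posEnv w dd C ea eb ke)
        [Real.tanh (if true = true then x else -x), 1 / Real.cosh x,
          (if true = true then x else -x), y] := by
      rw [if_pos rfl]
      exact .cons hp (.cons hu (.cons (rep_sig hr hr') (.cons he .nil)))
    exact posn_sound hr ht n (rep_run pr henv) h
  | false =>
    have henv : List.Forall₂ (Rep (2 ^ w) dd r t) (negEnv w dd C ea eb ke)
        [Real.tanh (if false = true then x else -x), 1 / Real.cosh x,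
          (if false = true then x else -x), y] := by
      rw [if_neg (by simp)]
      refine .cons ?_ (.cons hu (.cons (rep_sig_neg hr hr') (.cons he .nil)))
      have h1 := (rep_lit (W := 2 ^ w) (D := dd) (r := r) (t := t) (Z.m 1) 0).mul hp
      have e : (((Z.m 1).toInt : ℤ) : ℝ) / 2 ^ 0 * Real.tanh x = Real.tanh (-x) := by
        rw [Real.tanh_neg]
        simp [Z.toInt]
      rw [e] at h1
      exact h1
    exact posn_sound hr ht n (rep_run pr henv) h

/-- all the intervals of a list -/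
noncomputable def listOK (w dd K : ℕ) (pr : List Ex) (n : ℕ) (sg : Bool) (C : Cell) (ke ea : ℕ)
    (es : List ℕ) : Bool :=
  List.rec (fun ea => Nat.ble (Nat.add (Nat.mul 64 (Nat.pow 2 (Nat.mul 2 ke))) 1)
    (Nat.add (Nat.mul 1536 (Nat.mul ea ea)) (Nat.mul (Nat.mul 4 C.a) (Nat.mul ea (Nat.pow 2 ke)))))
    (fun eb _ ih ea => and (boxOK w dd K pr n sg C ea eb ke) (ih eb)) es ea

/-- Soundness of the test on a row, for `24 e² + 4 s e ≤ 1`. -/
theorem list_sound {w dd K n : ℕ} {pr : List Ex} {sg : Bool} {C : Cell} {ke : ℕ}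
    (hC : Good C) : ∀ (es : List ℕ) (ea : ℕ), listOK w dd K pr n sg C ke ea es = true →
    ∀ {x y : ℝ}, C.l ≤ x → x < C.r → (ea : ℝ) / 2 ^ ke ≤ y → 24 * y ^ 2 + 4 * x * y ≤ 1 →
    ∀ i < n, 0 ≤ (runR pr [Real.tanh (if sg then x else -x), 1 / Real.cosh x,
      (if sg then x else -x), y]).getD i 0 := by
  intro es
  induction es with
  | nil =>
    intro ea h x y hx1 _ hy h24
    exfalso
    have h1 : 64 * 2 ^ (2 * ke) + 1 ≤ 1536 * (ea * ea) + 4 * C.a * (ea * 2 ^ ke) :=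
      Nat.le_of_ble_eq_true h
    have h2 : (64 : ℝ) * 2 ^ (2 * ke) + 1 ≤ 1536 * (ea * ea) + 4 * C.a * (ea * 2 ^ ke) := by
      exact_mod_cast h1
    have hl0 : 0 ≤ C.l := by unfold Cell.l; positivity
    have hk : (0 : ℝ) < 2 ^ ke := by positivity
    have h0 : (0 : ℝ) ≤ (ea : ℝ) / 2 ^ ke := by positivity
    have h3 : 24 * ((ea : ℝ) / 2 ^ ke) ^ 2 + 4 * C.l * ((ea : ℝ) / 2 ^ ke) ≤ 1 := by
      have h4 : ((ea : ℝ) / 2 ^ ke) ^ 2 ≤ y ^ 2 := pow_le_pow_left₀ h0 hy 2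
      have h5 : C.l * ((ea : ℝ) / 2 ^ ke) ≤ x * y :=
        mul_le_mul hx1 hy h0 (hl0.trans hx1)
      nlinarith
    have h6 : (24 * ((ea : ℝ) / 2 ^ ke) ^ 2 + 4 * C.l * ((ea : ℝ) / 2 ^ ke)) *
        (64 * 2 ^ (2 * ke)) = 1536 * (ea * ea) + 4 * C.a * (ea * 2 ^ ke) := by
      unfold Cell.l
      rw [pow_mul', sq ((2 : ℝ) ^ ke)]
      field_simp
      ring
    have h7 : (24 * ((ea : ℝ) / 2 ^ ke) ^ 2 + 4 * C.l * ((ea : ℝ) / 2 ^ ke)) *
        (64 * 2 ^ (2 * ke)) ≤ 1 * (64 * 2 ^ (2 * ke)) :=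
      mul_le_mul_of_nonneg_right h3 (by positivity)
    linarith
  | cons eb es ih =>
    intro ea h x y hx1 hx2 hy h24 i hi
    have h' : (boxOK w dd K pr n sg C ea eb ke && listOK w dd K pr n sg C ke eb es) = true := h
    rw [Bool.and_eq_true] at h'
    by_cases hyb : y < (eb : ℝ) / 2 ^ ke
    · exact box_sound hC h'.1 hx1 hx2 hy hyb i hi
    · exact ih eb h'.2 hx1 hx2 (not_lt.1 hyb) h24 i hi

end Pool.Agent.Saddle.Eng
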