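import Pool.Agent.Saddle.Eng5

/-!
# Chains of cells
-/

namespace Pool.Agent.Saddle.Eng

/-- the bound of the chain -/
def Chn (C : Cell) : Prop := C.l ≤ C.r ∧
  ∀ x ∈ Set.Icc C.l C.r, |Real.tanh x - hornerR 72 (x - C.m) C.q| ≤ (C.F : ℝ) / 2 ^ 72

theorem le_of_chainOK {w K : ℕ} {C : Cell} (h : chainOK w K C = true) : C.l ≤ C.r := by
  unfold chainOK at h
  rw [Bool.and_eq_true, Bool.and_eq_true, Bool.and_eq_true, Bool.and_eq_true] at h
  have q5 : C.a + 1 ≤ C.b := Nat.le_of_ble_eq_true h.2.2.2.2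
  have hab : (C.a : ℝ) + 1 ≤ C.b := by exact_mod_cast q5
  unfold Cell.l Cell.r
  linarith

theorem Chn.next {w K : ℕ} {C C' : Cell} (h : Chn C) (hl : linkOK w C C' = true)
    (hc : chainOK w K C' = true) : Chn C' :=
  ⟨le_of_chainOK hc, chain_cell hc (link_cell hl (h.2 C.r ⟨h.1, le_rfl⟩)).1⟩

theorem Chn.good {w K : ℕ} {C : Cell} (h : Chn C) (hl : lowOK w K C = true) : Good C :=
  low_cell hl h.2

theorem chn_first {w K : ℕ} {C : Cell} (ha : C.a = 0) (hc : C.c = 0)
    (hq : (C.q.getD 0 (Z.p 0)).toInt = 0) (h : chainOK w K C = true) : Chn C := by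
  refine ⟨le_of_chainOK h, chain_cell h ?_⟩
  have e1 : C.l = 0 := by
    unfold Cell.l
    rw [ha]
    norm_num
  have e2 : C.m = 0 := by
    unfold Cell.m
    rw [hc]
    norm_num
  have e3 : hornerR 72 0 C.q = 0 := by
    revert hq
    cases C.q with
    | nil => exact fun _ => rfl
    | cons c l =>
      intro hq
      have hq' : c.toInt = 0 := hq
      rw [hornerR, hq']
      simp
  rw [e1, e2, sub_self, Real.tanh_zero, e3, sub_self, abs_zero]
  positivity

/-- the cells of a list cover an interval -/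
def covOK (b : ℕ) : List Cell → ℕ → Bool
  | [], a => Nat.beq a b
  | C :: l, a => and (Nat.beq C.a a) (covOK b l C.b)

theorem cover (b : ℕ) : ∀ (l : List Cell) (a : ℕ), covOK b l a = true → ∀ {x : ℝ},
    (a : ℝ) / 64 ≤ x → x < (b : ℝ) / 64 → ∃ C ∈ l, C.l ≤ x ∧ x < C.r := by
  intro l
  induction l with
  | nil =>
    intro a h x hx1 hx2
    have h1 : a = b := Nat.eq_of_beq_eq_true h
    rw [h1] at hx1
    exact absurd hx2 (not_lt.2 hx1)
  | cons C l ih =>
    intro a h x hx1 hx2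
    have h' : (Nat.beq C.a a && covOK b l C.b) = true := h
    rw [Bool.and_eq_true] at h'
    have h1 : C.a = a := Nat.eq_of_beq_eq_true h'.1
    by_cases hx : x < C.r
    · refine ⟨C, List.mem_cons_self, ?_, hx⟩
      unfold Cell.l
      rw [h1]
      exact hx1
    · obtain ⟨C', hC', h2⟩ := ih C.b h'.2 (not_lt.1 hx) hx2
      exact ⟨C', List.mem_cons_of_mem C hC', h2⟩

end Pool.Agent.Saddle.Eng
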