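import Pool.Agent.Saddle.TabC

/-!
# The test of a program on the cells, with padding of `tanh`
-/

namespace Pool.Agent.Saddle.Eng

/-- numerator and denominator multiplied by `2^j` -/
noncomputable def gpad (j : ℕ) (g : G) : G :=
  gmul (G.mk (Z.p (Nat.pow 2 j)) 0 0 j (Nat.pow 2 j) (Nat.pow 2 j)) g

theorem rep_gpad {W D : ℕ} {r t : ℝ} {g : G} {y : ℝ} (h : Rep W D r t g y) (j : ℕ) :
    Rep W D r t (gpad j g) y := by
  have h1 := (rep_lit (W := W) (D := D) (r := r) (t := t) (Z.p (Nat.pow 2 j)) j).mul h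
  have e : (((Z.p (Nat.pow 2 j)).toInt : ℤ) : ℝ) / 2 ^ j * y = y := by
    have h2 : (((Z.p (Nat.pow 2 j)).toInt : ℤ) : ℝ) = 2 ^ j := by
      change (((2 ^ j : ℕ) : ℤ) : ℝ) = 2 ^ j
      push_cast
      rfl
    rw [h2, div_self (by positivity), one_mul]
  rw [e] at h1
  exact h1

/-- the environment `tanh, sech, sigma, eps` for a cell -/
noncomputable def posEnv2 (w dd pd : ℕ) (C : Cell) (ea eb ke : ℕ) : List G :=
  [gerr C.e 60 (gpad pd (cellH w dd C 40 C.p)), gerr C.f 60 (cellH w dd C 40 C.u),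
    leafR w dd (Z.p C.a) (Z.p C.b) 6, leafT w (Z.p ea) (Z.p eb) ke]

/-- the environment `tanh, sech, sigma, eps` for the reflected cell -/
noncomputable def negEnv2 (w dd pd : ℕ) (C : Cell) (ea eb ke : ℕ) : List G :=
  [gmul (G.mk (Z.m 1) 0 0 0 1 1) (gerr C.e 60 (gpad pd (cellH w dd C 40 C.p))),
    gerr C.f 60 (cellH w dd C 40 C.u), leafR w dd (Z.m C.a) (Z.m C.b) 6,
    leafT w (Z.p ea) (Z.p eb) ke]

/-- the test on a cell and an interval for `eps` -/
noncomputable def boxOK2 (w dd K pd : ℕ) (pr : List Ex) (n : ℕ) (sg : Bool) (C : Cell)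
    (ea eb ke : ℕ) : Bool :=
  posn w dd K n (runw w dd pr
    (Bool.rec (negEnv2 w dd pd C ea eb ke) (posEnv2 w dd pd C ea eb ke) sg))

/-- Soundness of the test on a box. -/
theorem box_sound2 {w dd K pd n : ℕ} {pr : List Ex} {sg : Bool} {C : Cell} {ea eb ke : ℕ}
    (hC : Good C) (h : boxOK2 w dd K pd pr n sg C ea eb ke = true) {x y : ℝ} (hx1 : C.l ≤ x)
    (hx2 : x < C.r) (hy1 : (ea : ℝ) / 2 ^ ke ≤ y) (hy2 : y < (eb : ℝ) / 2 ^ ke) :
    ∀ i < n, 0 ≤ (runR pr [Real.tanh (if sg then x else -x), 1 / Real.cosh x,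
      (if sg then x else -x), y]).getD i 0 := by
  obtain ⟨r, hr, hr'⟩ := param hx1 hx2
  obtain ⟨t, ht, ht'⟩ := param hy1 hy2
  have hp : Rep (2 ^ w) dd r t (gerr C.e 60 (gpad pd (cellH w dd C 40 C.p))) (Real.tanh x) :=
    rep_gerr (rep_gpad (rep_cellH hr C hr' 40 C.p) pd) C.e 60 (hC.1 x hx1 hx2)
  have hu : Rep (2 ^ w) dd r t (gerr C.f 60 (cellH w dd C 40 C.u)) (1 / Real.cosh x) :=
    rep_gerr (rep_cellH hr C hr' 40 C.u) C.f 60 (hC.2 x hx1 hx2)
  have he : Rep (2 ^ w) dd r t (leafT w (Z.p ea) (Z.p eb) ke) y := rep_eps ht ht'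
  cases sg with
  | true =>
    have henv : List.Forall₂ (Rep (2 ^ w) dd r t) (posEnv2 w dd pd C ea eb ke)
        [Real.tanh (if true = true then x else -x), 1 / Real.cosh x,
          (if true = true then x else -x), y] := by
      rw [if_pos rfl]
      exact .cons hp (.cons hu (.cons (rep_sig hr hr') (.cons he .nil)))
    exact posn_sound hr ht n (rep_run pr henv) h
  | false =>
    have henv : List.Forall₂ (Rep (2 ^ w) dd r t) (negEnv2 w dd pd C ea eb ke)
        [Real.tanh (if false = true then x else -x), 1 / Real.cosh x,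
          (if false = true then x else -x), y] := by
      rw [if_neg (by simp)]
      refine .cons ?_ (.cons hu (.cons (rep_sig_neg hr hr') (.cons he .nil)))
      have h1 := (rep_lit (W := 2 ^ w) (D := dd) (r := r) (t := t) (Z.m 1) 0).mul hp
      have e : (((Z.m 1).toInt : ℤ) : ℝ) / 2 ^ 0 * Real.tanh x = Real.tanh (-x) := by
        rw [Real.tanh_neg]
        simp [Z.toInt]
      rw [e] at h1
      exact h1
    exact posn_sound hr ht n (rep_run pr henv) h

/-- all the intervals of a list -/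
noncomputable def listOK2 (w dd K pd : ℕ) (pr : List Ex) (n : ℕ) (sg : Bool) (C : Cell)
    (ke ea : ℕ) (es : List ℕ) : Bool :=
  List.rec (fun ea => Nat.ble (Nat.add (Nat.mul 64 (Nat.pow 2 (Nat.mul 2 ke))) 1)
    (Nat.add (Nat.mul 1536 (Nat.mul ea ea)) (Nat.mul (Nat.mul 4 C.a) (Nat.mul ea (Nat.pow 2 ke)))))
    (fun eb _ ih ea => and (boxOK2 w dd K pd pr n sg C ea eb ke) (ih eb)) es ea

/-- Soundness of the test on a row, for `24 e² + 4 s e ≤ 1`. -/
theorem list_sound2 {w dd K pd n : ℕ} {pr : List Ex} {sg : Bool} {C : Cell} {ke : ℕ}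
    (hC : Good C) : ∀ (es : List ℕ) (ea : ℕ), listOK2 w dd K pd pr n sg C ke ea es = true →
    ∀ {x y : ℝ}, C.l ≤ x → x < C.r → (ea : ℝ) / 2 ^ ke ≤ y → 24 * y ^ 2 + 4 * x * y ≤ 1 →
    ∀ i < n, 0 ≤ (runR pr [Real.tanh (if sg then x else -x), 1 / Real.cosh x,
      (if sg then x else -x), y]).getD i 0 := by
  intro es
  induction es with
  | nil =>
    intro ea h x y hx1 hx2 hy h24
    have h' : listOK 1 1 1 [] 0 true C ke ea [] = true := h
    exact absurd (list_sound (n := 0) hC [] ea h' hx1 hx2 hy h24) (by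
      exfalso
      have h1 : 64 * 2 ^ (2 * ke) + 1 ≤ 1536 * (ea * ea) + 4 * C.a * (ea * 2 ^ ke) :=
        Nat.le_of_ble_eq_true h
      have h2 : (64 : ℝ) * 2 ^ (2 * ke) + 1 ≤ 1536 * (ea * ea) + 4 * C.a * (ea * 2 ^ ke) := by
        exact_mod_cast h1
      have hl0 : 0 ≤ C.l := by unfold Cell.l; positivity
      have hk : (0 : ℝ) < 2 ^ ke := by positivity
      have h0 : (0 : ℝ) ≤ (ea : ℝ) / 2 ^ ke := by positivity
      have h3 : 24 * ((ea : ℝ) / 2 ^ ke) ^ 2 + 4 * C.l * ((ea : ℝ) / 2 ^ ke) ≤ 1 := by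
        have h4 : ((ea : ℝ) / 2 ^ ke) ^ 2 ≤ y ^ 2 := pow_le_pow_left₀ h0 hy 2
        have h5 : C.l * ((ea : ℝ) / 2 ^ ke) ≤ x * y :=
          mul_le_mul hx1 hy h0 (hl0.trans hx1)
        nlinarith
      have h6 : (24 * ((ea : ℝ) / 2 ^ ke) ^ 2 + 4 * C.l * ((ea : ℝ) / 2 ^ ke)) *
          (64 * 2 ^ (2 * ke)) = 1536 * (ea * ea) + 4 * C.a * (ea * 2 ^ ke) := by
        unfold Cell.l
        rw [pow_mul', sq ((2 : ℝ) ^ ke)]
        field_simp
        ring
      have h7 : (24 * ((ea : ℝ) / 2 ^ ke) ^ 2 + 4 * C.l * ((ea : ℝ) / 2 ^ ke)) *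
          (64 * 2 ^ (2 * ke)) ≤ 1 * (64 * 2 ^ (2 * ke)) :=
        mul_le_mul_of_nonneg_right h3 (by positivity)
      linarith)
  | cons eb es ih =>
    intro ea h x y hx1 hx2 hy h24 i hi
    have h' : (boxOK2 w dd K pd pr n sg C ea eb ke && listOK2 w dd K pd pr n sg C ke eb es) =
      true := h
    rw [Bool.and_eq_true] at h'
    by_cases hyb : y < (eb : ℝ) / 2 ^ ke
    · exact box_sound2 hC h'.1 hx1 hx2 hy hyb i hi
    · exact ih eb h'.2 hx1 hx2 (not_lt.1 hyb) h24 i hi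

end Pool.Agent.Saddle.Eng
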