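import Pool.Agent.Saddle.P0
import Pool.Agent.Saddle.Data

/-!
# The program for the main inequality

The straight line program for the three coefficients (in `y`) of the main expression, and its
real values.
-/

set_option autoImplicit false
set_option linter.all false

noncomputable section

namespace Pool.Agent.Saddle

namespace PM

/-- instruction 0 -/
def q_H : Eng.Ex :=
  .mul (.var 1) (.var 1)

/-- instruction 1 -/
def q_e2 : Eng.Ex :=
  .mul (.var 4) (.var 4)

/-- instruction 2 -/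
def q_A : Eng.Ex :=
  .add (.lit (.p 1) 0) (.mul (.lit (.m 24) 0) (.var 0))

/-- instruction 3 -/
def q_sH : Eng.Ex :=
  .mul (.var 5) (.var 2)

/-- instruction 4 -/
def q_st : Eng.Ex :=
  .mul (.var 6) (.var 4)

/-- instruction 5 -/
def q_s2 : Eng.Ex :=
  .mul (.var 7) (.var 7)

/-- instruction 6 -/
def q_s3t : Eng.Ex :=
  .mul (.var 0) (.var 1)

/-- instruction 7 -/
def q_G4 : Eng.Ex :=
  .add (.lit (.m 37) 0) (.add (.mul (.lit (.m 150) 0) (.var 0)) (.mul (.var 1) (.add (.mul (.lit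
    (.p 130) 0) (.var 1)) (.mul (.lit (.m 25) 0) (.var 0)))))

/-- instruction 8 -/
def q_AP : Eng.Ex :=
  .add (.lit (.p 2513) 9) (.add (.mul (.lit (.p 4745) 10) (.var 3)) (.add (.mul (.lit (.m 885) 9)
    (.var 2)) (.add (.mul (.lit (.p 977) 9) (.var 1)) (.mul (.var 6) (.var 0)))))

/-- instruction 9 -/
def q_u3 : Eng.Ex :=
  .mul (.var 3) (.add (.mul (.lit (.p 3) 0) (.var 9)) (.var 5))

/-- instruction 10 -/
def q_APS : Eng.Ex :=
  .add (.mul (.lit (.p 4745) 10) (.add (.var 10) (.var 6))) (.add (.mul (.lit (.m 885) 8) (.var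
    12)) (.add (.mul (.lit (.p 977) 9) (.var 0)) (.mul (.var 8) (.add (.mul (.lit (.m 150) 0)
    (.var 0)) (.mul (.var 4) (.add (.mul (.lit (.p 520) 0) (.var 12)) (.mul (.lit (.m 25) 0)
    (.mul (.var 4) (.add (.mul (.lit (.p 5) 0) (.var 10)) (.var 6))))))))))

/-- instruction 11 -/
def q_a : Eng.Ex :=
  .mul (.var 11) (.var 2)

/-- instruction 12 -/
def q_aS : Eng.Ex :=
  .add (.mul (.var 11) (.var 3)) (.mul (.var 12) (.var 1))

/-- instruction 13 -/
def q_HA : Eng.Ex :=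
  .mul (.var 12) (.var 1)

/-- instruction 14 -/
def q_HAS : Eng.Ex :=
  .mul (.var 13) (.add (.var 1) (.mul (.lit (.m 2) 0) (.mul (.var 14) (.var 2))))

/-- instruction 15 -/
def q_N : Eng.Ex :=
  .add (.lit (.p 11377) 10) (.mul (.var 17) (.add (.lit (.m 307) 10) (.mul (.var 17) (.lit (.m
    653) 6))))

/-- instruction 16 -/
def q_NS : Eng.Ex :=
  .add (.lit (.m 307) 10) (.mul (.var 18) (.lit (.m 653) 5))

/-- instruction 17 -/
def q_M1 : Eng.Ex :=
  .add (.lit (.p 507) 10) (.mul (.var 19) (.add (.lit (.p 1257) 10) (.mul (.var 19) (.lit (.p 289)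
    10))))

/-- instruction 18 -/
def q_M : Eng.Ex :=
  .add (.add (.lit (.p 11) 10) (.mul (.var 20) (.lit (.p 65) 5))) (.mul (.var 21) (.var 0))

/-- instruction 19 -/
def q_MS : Eng.Ex :=
  .add (.lit (.p 65) 5) (.mul (.var 22) (.add (.lit (.p 1257) 10) (.mul (.var 21) (.lit (.p 289)
    9))))

/-- instruction 20 -/
def q_b0 : Eng.Ex :=
  .add (.lit (.p 33) 6) (.mul (.var 22) (.add (.lit (.p 3353) 8) (.mul (.var 22) (.lit (.m 29171)
    10))))

/-- instruction 21 -/
def q_b1 : Eng.Ex :=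
  .add (.lit (.m 8363) 8) (.mul (.var 23) (.add (.lit (.p 87915) 10) (.mul (.var 23) (.lit (.p
    134931) 10))))

/-- instruction 22 -/
def q_b2 : Eng.Ex :=
  .add (.lit (.m 1165) 5) (.mul (.var 24) (.add (.lit (.m 72975) 10) (.mul (.var 24) (.lit (.m
    27157) 9))))

/-- instruction 23 -/
def q_b3 : Eng.Ex :=
  .add (.lit (.m 63219) 10) (.mul (.var 25) (.add (.lit (.p 98441) 10) (.mul (.var 25) (.lit (.m
    24097) 9))))

/-- instruction 24 -/
def q_b4 : Eng.Ex :=
  .add (.lit (.m 50469) 10) (.mul (.var 26) (.add (.lit (.m 5297) 9) (.mul (.var 26) (.lit (.m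
    5291) 9))))

/-- instruction 25 -/
def q_bP : Eng.Ex :=
  .add (.lit (.m 5555) 10) (.mul (.var 27) (.add (.lit (.p 3695) 10) (.mul (.var 27) (.add (.lit
    (.m 12575) 10) (.mul (.var 27) (.lit (.m 15087) 10))))))

/-- instruction 26 -/
def q_bV : Eng.Ex :=
  .add (.add (.var 5) (.mul (.var 26) (.add (.var 4) (.mul (.var 26) (.add (.var 3) (.mul (.var
    26) (.add (.var 2) (.mul (.var 26) (.var 1))))))))) (.mul (.var 29) (.var 0))

/-- instruction 27 -/
def q_bS : Eng.Ex :=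
  .add (.add (.add (.add (.lit (.p 3353) 8) (.mul (.var 29) (.lit (.m 29171) 9))) (.mul (.var 27)
    (.add (.add (.lit (.p 87915) 10) (.mul (.var 29) (.lit (.p 134931) 9))) (.mul (.var 27)
    (.add (.add (.lit (.m 72975) 10) (.mul (.var 29) (.lit (.m 27157) 8))) (.mul (.var 27) (.add
    (.add (.lit (.p 98441) 10) (.mul (.var 29) (.lit (.m 24097) 8))) (.mul (.var 27) (.add (.lit
    (.m 5297) 9) (.mul (.var 29) (.lit (.m 5291) 8))))))))))) (.mul (.var 30) (.add (.lit (.p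
    3695) 10) (.mul (.var 29) (.add (.lit (.m 12575) 9) (.mul (.var 29) (.lit (.m 45261)
    10))))))) (.mul (.var 26) (.add (.var 5) (.mul (.var 27) (.add (.mul (.lit (.p 2) 0) (.var
    4)) (.mul (.var 27) (.add (.mul (.lit (.p 3) 0) (.var 3)) (.mul (.var 27) (.mul (.lit (.p 4)
    0) (.var 2)))))))))

/-- instruction 28 -/
def q_w0 : Eng.Ex :=
  .add (.lit (.p 5227) 10) (.mul (.var 30) (.lit (.p 2459) 10))

/-- instruction 29 -/
def q_w1 : Eng.Ex :=
  .add (.lit (.m 7577) 10) (.mul (.var 31) (.lit (.m 1805) 8))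

/-- instruction 30 -/
def q_w2 : Eng.Ex :=
  .add (.lit (.p 511) 7) (.mul (.var 32) (.lit (.p 13187) 10))

/-- instruction 31 -/
def q_w3 : Eng.Ex :=
  .add (.lit (.m 3363) 8) (.mul (.var 33) (.lit (.m 11919) 10))

/-- instruction 32 -/
def q_w4 : Eng.Ex :=
  .add (.lit (.p 12339) 10) (.mul (.var 34) (.lit (.m 43) 10))

/-- instruction 33 -/
def q_wP : Eng.Ex :=
  .add (.lit (.m 221) 6) (.mul (.var 35) (.add (.lit (.p 2349) 10) (.mul (.var 35) (.lit (.p 2243)
    10))))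

/-- instruction 34 -/
def q_wV : Eng.Ex :=
  .add (.add (.var 5) (.mul (.var 34) (.add (.var 4) (.mul (.var 34) (.add (.var 3) (.mul (.var
    34) (.add (.var 2) (.mul (.var 34) (.var 1))))))))) (.mul (.var 37) (.var 0))

/-- instruction 35 -/
def q_wS : Eng.Ex :=
  .add (.add (.add (.lit (.p 2459) 10) (.mul (.var 35) (.add (.lit (.m 1805) 8) (.mul (.var 35)
    (.add (.lit (.p 13187) 10) (.mul (.var 35) (.add (.lit (.m 11919) 10) (.mul (.var 35) (.lit
    (.m 43) 10))))))))) (.mul (.var 38) (.add (.lit (.p 2349) 10) (.mul (.var 37) (.lit (.p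
    2243) 9))))) (.mul (.var 34) (.add (.var 5) (.mul (.var 35) (.add (.mul (.lit (.p 2) 0)
    (.var 4)) (.mul (.var 35) (.add (.mul (.lit (.p 3) 0) (.var 3)) (.mul (.var 35) (.mul (.lit
    (.p 4) 0) (.var 2)))))))))

/-- instruction 36 -/
def q_c0 : Eng.Ex :=
  .add (.lit (.p 2575) 10) (.mul (.var 38) (.add (.lit (.p 18037) 10) (.mul (.var 38) (.lit (.p
    75849) 9))))

/-- instruction 37 -/
def q_c1 : Eng.Ex :=
  .add (.lit (.m 14695) 10) (.mul (.var 39) (.add (.lit (.m 25977) 8) (.mul (.var 39) (.lit (.m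
    43623) 10))))

/-- instruction 38 -/
def q_c2 : Eng.Ex :=
  .add (.lit (.m 29549) 10) (.mul (.var 40) (.add (.lit (.p 25411) 10) (.mul (.var 40) (.lit (.m
    50581) 10))))

/-- instruction 39 -/
def q_cV : Eng.Ex :=
  .add (.var 2) (.mul (.var 39) (.add (.var 1) (.mul (.var 39) (.var 0))))

/-- instruction 40 -/
def q_cS : Eng.Ex :=
  .add (.add (.add (.lit (.p 18037) 10) (.mul (.var 42) (.lit (.p 75849) 8))) (.mul (.var 40)
    (.add (.add (.lit (.m 25977) 8) (.mul (.var 42) (.lit (.m 43623) 9))) (.mul (.var 40) (.add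
    (.lit (.p 25411) 10) (.mul (.var 42) (.lit (.m 50581) 9))))))) (.mul (.var 39) (.add (.var
    2) (.mul (.var 40) (.mul (.lit (.p 2) 0) (.var 1)))))

/-- instruction 41 -/
def q_g0 : Eng.Ex :=
  .add (.lit (.m 1881) 10) (.mul (.var 43) (.lit (.m 26415) 10))

/-- instruction 42 -/
def q_g1 : Eng.Ex :=
  .add (.lit (.p 5321) 8) (.mul (.var 44) (.lit (.p 2317) 10))

/-- instruction 43 -/
def q_g2 : Eng.Ex :=
  .add (.lit (.p 101) 6) (.mul (.var 45) (.lit (.p 6661) 10))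

/-- instruction 44 -/
def q_gV : Eng.Ex :=
  .add (.var 2) (.mul (.var 44) (.add (.var 1) (.mul (.var 44) (.var 0))))

/-- instruction 45 -/
def q_gS : Eng.Ex :=
  .add (.add (.lit (.m 26415) 10) (.mul (.var 45) (.add (.lit (.p 2317) 10) (.mul (.var 45) (.lit
    (.p 6661) 10))))) (.mul (.var 44) (.add (.var 2) (.mul (.var 45) (.mul (.lit (.p 2) 0) (.var
    1)))))

/-- instruction 46 -/
def q_t1 : Eng.Ex :=
  .add (.lit (.p 1) 0) (.var 46)

/-- instruction 47 -/
def q_P : Eng.Ex :=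
  .add (.mul (.lit (.p 2) 0) (.add (.var 33) (.mul (.var 47) (.var 31)))) (.mul (.var 0) (.var
    20))

/-- instruction 48 -/
def q_PS : Eng.Ex :=
  .add (.mul (.lit (.p 2) 0) (.add (.var 33) (.add (.mul (.var 47) (.var 32)) (.mul (.var 48)
    (.var 31))))) (.add (.mul (.var 47) (.var 21)) (.mul (.var 1) (.var 20)))

/-- instruction 49 -/
def q_PE : Eng.Ex :=
  .add (.mul (.var 51) (.var 0)) (.add (.mul (.lit (.p 4) 0) (.mul (.mul (.var 48) (.var 49))
    (.mul (.var 47) (.var 41)))) (.mul (.var 2) (.mul (.var 52) (.var 23))))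

/-- instruction 50 -/
def q_Q : Eng.Ex :=
  .add (.mul (.lit (.p 2) 0) (.mul (.var 50) (.var 31))) (.mul (.var 3) (.var 15))

/-- instruction 51 -/
def q_QS : Eng.Ex :=
  .add (.mul (.lit (.p 2) 0) (.add (.mul (.var 50) (.var 32)) (.mul (.var 51) (.var 31)))) (.add
    (.mul (.var 50) (.var 16)) (.mul (.var 4) (.var 15)))

/-- instruction 52 -/
def q_QE : Eng.Ex :=
  .add (.mul (.var 54) (.var 0)) (.mul (.var 55) (.add (.mul (.lit (.p 2) 0) (.mul (.var 52) (.var
    34))) (.mul (.var 5) (.var 18))))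

/-- instruction 53 -/
def q_p : Eng.Ex :=
  .add (.var 37) (.mul (.var 6) (.var 13))

/-- instruction 54 -/
def q_pS : Eng.Ex :=
  .add (.var 37) (.add (.mul (.var 53) (.var 14)) (.mul (.var 7) (.var 13)))

/-- instruction 55 -/
def q_q : Eng.Ex :=
  .add (.var 36) (.mul (.var 8) (.var 10))

/-- instruction 56 -/
def q_qS : Eng.Ex :=
  .add (.var 36) (.add (.mul (.var 55) (.var 11)) (.mul (.var 9) (.var 10)))

/-- instruction 57 -/
def q_qE : Eng.Ex :=
  .add (.mul (.var 59) (.var 0)) (.mul (.var 60) (.var 39))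

/-- instruction 58 -/
def q_se : Eng.Ex :=
  .mul (.var 60) (.var 61)

/-- instruction 59 -/
def q_eP : Eng.Ex :=
  .mul (.var 62) (.var 11)

/-- instruction 60 -/
def q_ep : Eng.Ex :=
  .mul (.var 63) (.var 6)

/-- instruction 61 -/
def q_XC : Eng.Ex :=
  .add (.mul (.lit (.p 1) 1) (.mul (.var 58) (.var 12))) (.add (.mul (.lit (.m 4) 0) (.mul (.var
    2) (.add (.mul (.lit (.p 3) 0) (.var 1)) (.mul (.var 64) (.var 11))))) (.add (.mul (.lit (.p
    2) 0) (.mul (.var 63) (.var 9))) (.add (.mul (.lit (.m 1) 0) (.mul (.var 58) (.add (.mul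
    (.lit (.p 2) 0) (.var 10)) (.var 8)))) (.mul (.lit (.p 8) 0) (.var 10)))))

/-- instruction 62 -/
def q_YC : Eng.Ex :=
  .add (.mul (.lit (.p 1) 1) (.mul (.var 59) (.var 7))) (.add (.mul (.lit (.m 4) 0) (.mul (.var 3)
    (.add (.mul (.lit (.p 3) 0) (.var 1)) (.mul (.var 65) (.mul (.var 64) (.var 7)))))) (.add
    (.mul (.lit (.p 2) 0) (.mul (.var 64) (.var 5))) (.add (.mul (.lit (.m 1) 0) (.mul (.var 59)
    (.add (.mul (.lit (.p 2) 0) (.var 6)) (.var 4)))) (.mul (.lit (.p 8) 0) (.var 6)))))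

/-- instruction 63 -/
def q_T : Eng.Ex :=
  .add (.var 63) (.mul (.var 61) (.var 49))

/-- instruction 64 -/
def q_D : Eng.Ex :=
  .mul (.add (.lit (.p 3) 8) (.mul (.lit (.p 80) 0) (.var 62))) (.mul (.var 64) (.var 65))

/-- instruction 65 -/
def q_R0 : Eng.Ex :=
  .mul (.lit (.p 3) 0) (.add (.mul (.lit (.p 6) 0) (.mul (.var 65) (.var 51))) (.add (.mul (.lit
    (.p 3) 0) (.mul (.var 63) (.mul (.var 51) (.var 51)))) (.add (.mul (.lit (.p 48) 0) (.mul
    (.var 65) (.var 65))) (.add (.mul (.lit (.m 24) 0) (.var 64)) (.add (.mul (.lit (.m 8) 0)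
    (.mul (.var 67) (.add (.var 65) (.var 61)))) (.add (.var 3) (.add (.mul (.lit (.m 2) 0)
    (.mul (.mul (.var 62) (.var 65)) (.var 17))) (.add (.mul (.lit (.m 8) 0) (.mul (.var 60)
    (.var 14))) (.add (.mul (.lit (.m 1) 1) (.mul (.var 62) (.add (.mul (.var 5) (.var 5)) (.mul
    (.var 14) (.var 14))))) (.add (.mul (.lit (.m 4) 0) (.mul (.var 6) (.mul (.var 5) (.var
    14)))) (.mul (.lit (.m 6) 0) (.mul (.var 0) (.var 1)))))))))))))

/-- instruction 66 -/
def q_r1 : Eng.Ex :=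
  .add (.mul (.lit (.p 3) 0) (.add (.mul (.lit (.p 2) 0) (.var 52)) (.add (.mul (.lit (.p 48) 0)
    (.var 66)) (.add (.mul (.lit (.m 1) 0) (.mul (.var 63) (.add (.mul (.lit (.p 2) 0) (.mul
    (.var 66) (.var 12))) (.var 18)))) (.add (.mul (.lit (.m 4) 0) (.add (.mul (.lit (.p 2) 0)
    (.mul (.var 61) (.var 10))) (.mul (.var 68) (.var 15)))) (.add (.mul (.lit (.m 1) 0) (.mul
    (.var 63) (.add (.mul (.var 6) (.var 5)) (.mul (.var 15) (.var 10))))) (.mul (.lit (.m 4) 0)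
    (.mul (.var 7) (.add (.mul (.var 6) (.var 10)) (.mul (.var 5) (.var 15))))))))))) (.add
    (.mul (.lit (.m 8) 0) (.var 68)) (.mul (.lit (.p 2) 0) (.var 3)))

/-- instruction 67 -/
def q_r2 : Eng.Ex :=
  .mul (.lit (.p 3) 0) (.add (.lit (.p 12) 0) (.add (.mul (.lit (.m 1) 0) (.mul (.var 64) (.var
    13))) (.add (.mul (.lit (.m 4) 0) (.mul (.var 69) (.var 11))) (.add (.mul (.lit (.m 1) 1)
    (.mul (.var 64) (.add (.mul (.var 6) (.var 6)) (.mul (.var 11) (.var 11))))) (.mul (.lit (.m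
    4) 0) (.mul (.var 8) (.mul (.var 6) (.var 11))))))))

/-- the program -/
def pr1 : List Eng.Ex :=
  [q_H, q_e2, q_A, q_sH, q_st, q_s2, q_s3t, q_G4, q_AP, q_u3, q_APS, q_a, q_aS, q_HA, q_HAS, q_N,
    q_NS, q_M1, q_M, q_MS, q_b0, q_b1, q_b2, q_b3, q_b4, q_bP, q_bV, q_bS, q_w0, q_w1, q_w2,
    q_w3, q_w4, q_wP, q_wV, q_wS, q_c0, q_c1, q_c2, q_cV, q_cS, q_g0, q_g1, q_g2, q_gV, q_gS,
    q_t1, q_P, q_PS, q_PE, q_Q, q_QS, q_QE, q_p, q_pS, q_q, q_qS, q_qE, q_se, q_eP, q_ep, q_XC,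
    q_YC, q_T, q_D, q_R0, q_r1, q_r2]

/-- value 0 -/
def v_H (s e : ℝ) : ℝ :=
  1 - Real.tanh s ^ 2

/-- value 1 -/
def v_e2 (s e : ℝ) : ℝ :=
  (e * e)

/-- value 2 -/
def v_A (s e : ℝ) : ℝ :=
  (1 + ((-24) * v_e2 s e))

/-- value 3 -/
def v_sH (s e : ℝ) : ℝ :=
  (s * v_H s e)

/-- value 4 -/
def v_st (s e : ℝ) : ℝ :=
  (s * Real.tanh s)

/-- value 5 -/
def v_s2 (s e : ℝ) : ℝ :=
  (s * s)

/-- value 6 -/
def v_s3t (s e : ℝ) : ℝ :=
  (v_s2 s e * v_st s e)

/-- value 7 -/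
def v_G4 (s e : ℝ) : ℝ :=
  ((-37) + (((-150) * v_s3t s e) + (v_s2 s e * ((130 * v_s2 s e) + ((-25) * v_s3t s e)))))

/-- value 8 -/
def v_AP (s e : ℝ) : ℝ :=
  ((2513 / 512) + (((4745 / 1024) * v_st s e) + (((-885 / 512) * v_s2 s e) + (((977 / 512) * v_s3t
    s e) + (v_e2 s e * v_G4 s e)))))

/-- value 9 -/
def v_u3 (s e : ℝ) : ℝ :=
  (v_s2 s e * ((3 * Real.tanh s) + v_sH s e))

/-- value 10 -/
def v_APS (s e : ℝ) : ℝ :=
  (((4745 / 1024) * (Real.tanh s + v_sH s e)) + (((-885 / 256) * s) + (((977 / 512) * v_u3 s e) +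
    (v_e2 s e * (((-150) * v_u3 s e) + (v_s2 s e * ((520 * s) + ((-25) * (v_s2 s e * ((5 *
    Real.tanh s) + v_sH s e))))))))))

/-- value 11 -/
def v_a (s e : ℝ) : ℝ :=
  Ex.da.f s e

/-- value 12 -/
def v_aS (s e : ℝ) : ℝ :=
  Ex.da.ds.f s e

/-- value 13 -/
def v_HA (s e : ℝ) : ℝ :=
  (v_H s e * v_a s e)

/-- value 14 -/
def v_HAS (s e : ℝ) : ℝ :=
  (v_H s e * (v_aS s e + ((-2) * (Real.tanh s * v_a s e))))

/-- value 15 -/
def v_N (s e : ℝ) : ℝ :=
  Ex.dn.f s e

/-- value 16 -/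
def v_NS (s e : ℝ) : ℝ :=
  Ex.dn.ds.f s e

/-- value 17 -/
def v_M1 (s e : ℝ) : ℝ :=
  ((507 / 1024) + (s * ((1257 / 1024) + (s * (289 / 1024)))))

/-- value 18 -/
def v_M (s e : ℝ) : ℝ :=
  Ex.dm.f s e

/-- value 19 -/
def v_MS (s e : ℝ) : ℝ :=
  Ex.dm.ds.f s e

/-- value 20 -/
def v_b0 (s e : ℝ) : ℝ :=
  ((33 / 64) + (s * ((3353 / 256) + (s * (-29171 / 1024)))))

/-- value 21 -/
def v_b1 (s e : ℝ) : ℝ :=
  ((-8363 / 256) + (s * ((87915 / 1024) + (s * (134931 / 1024)))))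

/-- value 22 -/
def v_b2 (s e : ℝ) : ℝ :=
  ((-1165 / 32) + (s * ((-72975 / 1024) + (s * (-27157 / 512)))))

/-- value 23 -/
def v_b3 (s e : ℝ) : ℝ :=
  ((-63219 / 1024) + (s * ((98441 / 1024) + (s * (-24097 / 512)))))

/-- value 24 -/
def v_b4 (s e : ℝ) : ℝ :=
  ((-50469 / 1024) + (s * ((-5297 / 512) + (s * (-5291 / 512)))))

/-- value 25 -/
def v_bP (s e : ℝ) : ℝ :=
  ((-5555 / 1024) + (s * ((3695 / 1024) + (s * ((-12575 / 1024) + (s * (-15087 / 1024)))))))

/-- value 26 -/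
def v_bV (s e : ℝ) : ℝ :=
  Ex.db.f s e

/-- value 27 -/
def v_bS (s e : ℝ) : ℝ :=
  Ex.db.ds.f s e

/-- value 28 -/
def v_w0 (s e : ℝ) : ℝ :=
  ((5227 / 1024) + (s * (2459 / 1024)))

/-- value 29 -/
def v_w1 (s e : ℝ) : ℝ :=
  ((-7577 / 1024) + (s * (-1805 / 256)))

/-- value 30 -/
def v_w2 (s e : ℝ) : ℝ :=
  ((511 / 128) + (s * (13187 / 1024)))

/-- value 31 -/
def v_w3 (s e : ℝ) : ℝ :=
  ((-3363 / 256) + (s * (-11919 / 1024)))

/-- value 32 -/
def v_w4 (s e : ℝ) : ℝ :=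
  ((12339 / 1024) + (s * (-43 / 1024)))

/-- value 33 -/
def v_wP (s e : ℝ) : ℝ :=
  ((-221 / 64) + (s * ((2349 / 1024) + (s * (2243 / 1024)))))

/-- value 34 -/
def v_wV (s e : ℝ) : ℝ :=
  Ex.dbe.f s e

/-- value 35 -/
def v_wS (s e : ℝ) : ℝ :=
  Ex.dbe.ds.f s e

/-- value 36 -/
def v_c0 (s e : ℝ) : ℝ :=
  ((2575 / 1024) + (s * ((18037 / 1024) + (s * (75849 / 512)))))

/-- value 37 -/
def v_c1 (s e : ℝ) : ℝ :=
  ((-14695 / 1024) + (s * ((-25977 / 256) + (s * (-43623 / 1024)))))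

/-- value 38 -/
def v_c2 (s e : ℝ) : ℝ :=
  ((-29549 / 1024) + (s * ((25411 / 1024) + (s * (-50581 / 1024)))))

/-- value 39 -/
def v_cV (s e : ℝ) : ℝ :=
  Ex.dc.f s e

/-- value 40 -/
def v_cS (s e : ℝ) : ℝ :=
  Ex.dc.ds.f s e

/-- value 41 -/
def v_g0 (s e : ℝ) : ℝ :=
  ((-1881 / 1024) + (s * (-26415 / 1024)))

/-- value 42 -/
def v_g1 (s e : ℝ) : ℝ :=
  ((5321 / 256) + (s * (2317 / 1024)))

/-- value 43 -/
def v_g2 (s e : ℝ) : ℝ :=
  ((101 / 64) + (s * (6661 / 1024)))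

/-- value 44 -/
def v_gV (s e : ℝ) : ℝ :=
  Ex.dga.f s e

/-- value 45 -/
def v_gS (s e : ℝ) : ℝ :=
  Ex.dga.ds.f s e

/-- value 46 -/
def v_t1 (s e : ℝ) : ℝ :=
  (1 + Real.tanh s)

/-- value 47 -/
def v_P (s e : ℝ) : ℝ :=
  Ex.dP.f s e

/-- value 48 -/
def v_PS (s e : ℝ) : ℝ :=
  Ex.dP.ds.f s e

/-- value 49 -/
def v_PE (s e : ℝ) : ℝ :=
  Ex.dP.eu.f s e

/-- value 50 -/
def v_Q (s e : ℝ) : ℝ :=
  Ex.dQ.f s e

/-- value 51 -/
def v_QS (s e : ℝ) : ℝ :=
  Ex.dQ.ds.f s e

/-- value 52 -/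
def v_QE (s e : ℝ) : ℝ :=
  Ex.dQ.eu.f s e

/-- value 53 -/
def v_p (s e : ℝ) : ℝ :=
  Ex.dp.f s e

/-- value 54 -/
def v_pS (s e : ℝ) : ℝ :=
  Ex.dp.ds.f s e

/-- value 55 -/
def v_q (s e : ℝ) : ℝ :=
  Ex.dq.f s e

/-- value 56 -/
def v_qS (s e : ℝ) : ℝ :=
  Ex.dq.ds.f s e

/-- value 57 -/
def v_qE (s e : ℝ) : ℝ :=
  Ex.dq.eu.f s e

/-- value 58 -/
def v_se (s e : ℝ) : ℝ :=
  (s * e)

/-- value 59 -/
def v_eP (s e : ℝ) : ℝ :=
  (e * v_P s e)

/-- value 60 -/
def v_ep (s e : ℝ) : ℝ :=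
  (e * v_p s e)

/-- value 61 -/
def v_XC (s e : ℝ) : ℝ :=
  Ex.CX 24 Ex.dP Ex.dQ s e

/-- value 62 -/
def v_YC (s e : ℝ) : ℝ :=
  Ex.CX 24 Ex.dp Ex.dq s e

/-- value 63 -/
def v_T (s e : ℝ) : ℝ :=
  (Ex.up (Ex.ga Ex.da)).f s e

/-- value 64 -/
def v_D (s e : ℝ) : ℝ :=
  Ex.dD.f s e

/-- value 65 -/
def v_R0 (s e : ℝ) : ℝ :=
  (3 * ((6 * (Real.tanh s * v_HA s e)) + ((3 * (v_e2 s e * (v_HA s e * v_HA s e))) + ((48 *
    (Real.tanh s * Real.tanh s)) + (((-24) * v_H s e) + (((-8) * (s * (Real.tanh s + v_sH s e)))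
    + (v_XC s e + (((-2) * ((v_A s e * Real.tanh s) * v_P s e)) + (((-8) * (v_st s e * v_Q s e))
    + (((-1 / 2) * (v_A s e * ((v_eP s e * v_eP s e) + (v_Q s e * v_Q s e)))) + (((-4) * (v_se s
    e * (v_eP s e * v_Q s e))) + ((-6) * (v_D s e * v_T s e)))))))))))))

/-- value 66 -/
def v_r1 (s e : ℝ) : ℝ :=
  ((3 * ((2 * v_HA s e) + ((48 * Real.tanh s) + (((-1) * (v_A s e * ((2 * (Real.tanh s * v_p s e))
    + v_P s e))) + (((-4) * ((2 * (v_st s e * v_q s e)) + (s * v_Q s e))) + (((-1) * (v_A s e *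
    ((v_eP s e * v_ep s e) + (v_Q s e * v_q s e)))) + ((-4) * (v_se s e * ((v_eP s e * v_q s e)
    + (v_ep s e * v_Q s e)))))))))) + (((-8) * s) + (2 * v_YC s e)))

/-- value 67 -/
def v_r2 (s e : ℝ) : ℝ :=
  (3 * (12 + (((-1) * (v_A s e * v_p s e)) + (((-4) * (s * v_q s e)) + (((-1 / 2) * (v_A s e *
    ((v_ep s e * v_ep s e) + (v_q s e * v_q s e)))) + ((-4) * (v_se s e * (v_ep s e * v_q s
    e))))))))

/-- the environment -/
def env0 (s e : ℝ) : List ℝ := [Real.tanh s, 1 / Real.cosh s, s, e]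

/-- the environment -/
def env1 (s e : ℝ) : List ℝ := v_H s e :: env0 s e

/-- the environment -/
def env2 (s e : ℝ) : List ℝ := v_e2 s e :: env1 s e

/-- the environment -/
def env3 (s e : ℝ) : List ℝ := v_A s e :: env2 s e

/-- the environment -/
def env4 (s e : ℝ) : List ℝ := v_sH s e :: env3 s e

/-- the environment -/
def env5 (s e : ℝ) : List ℝ := v_st s e :: env4 s e

/-- the environment -/
def env6 (s e : ℝ) : List ℝ := v_s2 s e :: env5 s e

/-- the environment -/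
def env7 (s e : ℝ) : List ℝ := v_s3t s e :: env6 s e

/-- the environment -/
def env8 (s e : ℝ) : List ℝ := v_G4 s e :: env7 s e

/-- the environment -/
def env9 (s e : ℝ) : List ℝ := v_AP s e :: env8 s e

/-- the environment -/
def env10 (s e : ℝ) : List ℝ := v_u3 s e :: env9 s e

/-- the environment -/
def env11 (s e : ℝ) : List ℝ := v_APS s e :: env10 s e

/-- the environment -/
def env12 (s e : ℝ) : List ℝ := v_a s e :: env11 s e

/-- the environment -/
def env13 (s e : ℝ) : List ℝ := v_aS s e :: env12 s e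

/-- the environment -/
def env14 (s e : ℝ) : List ℝ := v_HA s e :: env13 s e

/-- the environment -/
def env15 (s e : ℝ) : List ℝ := v_HAS s e :: env14 s e

/-- the environment -/
def env16 (s e : ℝ) : List ℝ := v_N s e :: env15 s e

/-- the environment -/
def env17 (s e : ℝ) : List ℝ := v_NS s e :: env16 s e

/-- the environment -/
def env18 (s e : ℝ) : List ℝ := v_M1 s e :: env17 s e

/-- the environment -/
def env19 (s e : ℝ) : List ℝ := v_M s e :: env18 s e

/-- the environment -/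
def env20 (s e : ℝ) : List ℝ := v_MS s e :: env19 s e

/-- the environment -/
def env21 (s e : ℝ) : List ℝ := v_b0 s e :: env20 s e

/-- the environment -/
def env22 (s e : ℝ) : List ℝ := v_b1 s e :: env21 s e

/-- the environment -/
def env23 (s e : ℝ) : List ℝ := v_b2 s e :: env22 s e

/-- the environment -/
def env24 (s e : ℝ) : List ℝ := v_b3 s e :: env23 s e

/-- the environment -/
def env25 (s e : ℝ) : List ℝ := v_b4 s e :: env24 s e

/-- the environment -/
def env26 (s e : ℝ) : List ℝ := v_bP s e :: env25 s e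

/-- the environment -/
def env27 (s e : ℝ) : List ℝ := v_bV s e :: env26 s e

/-- the environment -/
def env28 (s e : ℝ) : List ℝ := v_bS s e :: env27 s e

/-- the environment -/
def env29 (s e : ℝ) : List ℝ := v_w0 s e :: env28 s e

/-- the environment -/
def env30 (s e : ℝ) : List ℝ := v_w1 s e :: env29 s e

/-- the environment -/
def env31 (s e : ℝ) : List ℝ := v_w2 s e :: env30 s e

/-- the environment -/
def env32 (s e : ℝ) : List ℝ := v_w3 s e :: env31 s e

/-- the environment -/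
def env33 (s e : ℝ) : List ℝ := v_w4 s e :: env32 s e

/-- the environment -/
def env34 (s e : ℝ) : List ℝ := v_wP s e :: env33 s e

/-- the environment -/
def env35 (s e : ℝ) : List ℝ := v_wV s e :: env34 s e

/-- the environment -/
def env36 (s e : ℝ) : List ℝ := v_wS s e :: env35 s e

/-- the environment -/
def env37 (s e : ℝ) : List ℝ := v_c0 s e :: env36 s e

/-- the environment -/
def env38 (s e : ℝ) : List ℝ := v_c1 s e :: env37 s e

/-- the environment -/
def env39 (s e : ℝ) : List ℝ := v_c2 s e :: env38 s e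

/-- the environment -/
def env40 (s e : ℝ) : List ℝ := v_cV s e :: env39 s e

/-- the environment -/
def env41 (s e : ℝ) : List ℝ := v_cS s e :: env40 s e

/-- the environment -/
def env42 (s e : ℝ) : List ℝ := v_g0 s e :: env41 s e

/-- the environment -/
def env43 (s e : ℝ) : List ℝ := v_g1 s e :: env42 s e

/-- the environment -/
def env44 (s e : ℝ) : List ℝ := v_g2 s e :: env43 s e

/-- the environment -/
def env45 (s e : ℝ) : List ℝ := v_gV s e :: env44 s e

/-- the environment -/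
def env46 (s e : ℝ) : List ℝ := v_gS s e :: env45 s e

/-- the environment -/
def env47 (s e : ℝ) : List ℝ := v_t1 s e :: env46 s e

/-- the environment -/
def env48 (s e : ℝ) : List ℝ := v_P s e :: env47 s e

/-- the environment -/
def env49 (s e : ℝ) : List ℝ := v_PS s e :: env48 s e

/-- the environment -/
def env50 (s e : ℝ) : List ℝ := v_PE s e :: env49 s e

/-- the environment -/
def env51 (s e : ℝ) : List ℝ := v_Q s e :: env50 s e

/-- the environment -/
def env52 (s e : ℝ) : List ℝ := v_QS s e :: env51 s e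

/-- the environment -/
def env53 (s e : ℝ) : List ℝ := v_QE s e :: env52 s e

/-- the environment -/
def env54 (s e : ℝ) : List ℝ := v_p s e :: env53 s e

/-- the environment -/
def env55 (s e : ℝ) : List ℝ := v_pS s e :: env54 s e

/-- the environment -/
def env56 (s e : ℝ) : List ℝ := v_q s e :: env55 s e

/-- the environment -/
def env57 (s e : ℝ) : List ℝ := v_qS s e :: env56 s e

/-- the environment -/
def env58 (s e : ℝ) : List ℝ := v_qE s e :: env57 s e

/-- the environment -/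
def env59 (s e : ℝ) : List ℝ := v_se s e :: env58 s e

/-- the environment -/
def env60 (s e : ℝ) : List ℝ := v_eP s e :: env59 s e

/-- the environment -/
def env61 (s e : ℝ) : List ℝ := v_ep s e :: env60 s e

/-- the environment -/
def env62 (s e : ℝ) : List ℝ := v_XC s e :: env61 s e

/-- the environment -/
def env63 (s e : ℝ) : List ℝ := v_YC s e :: env62 s e

/-- the environment -/
def env64 (s e : ℝ) : List ℝ := v_T s e :: env63 s e

/-- the environment -/
def env65 (s e : ℝ) : List ℝ := v_D s e :: env64 s e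

/-- the environment -/
def env66 (s e : ℝ) : List ℝ := v_R0 s e :: env65 s e

/-- the environment -/
def env67 (s e : ℝ) : List ℝ := v_r1 s e :: env66 s e

/-- the environment -/
def env68 (s e : ℝ) : List ℝ := v_r2 s e :: env67 s e

theorem de_a (s e : ℝ) : Ex.da.de.f s e = Real.tanh s * (2 * e * v_G4 s e) := by
  unfold v_G4 v_s3t v_s2 v_st
  simp only [Ex.da, Ex.hp, Ex.de, Ex.f, Ex.v]
  push_cast
  ring

theorem de_n (s e : ℝ) : Ex.dn.de.f s e = 0 := by
  simp only [Ex.dn, Ex.sp, Ex.hp, List.map, Ex.de, Ex.f, Ex.v]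
  push_cast
  ring

theorem de_m (s e : ℝ) : Ex.dm.de.f s e = v_M1 s e := by
  unfold v_M1
  simp only [Ex.dm, Ex.sp, Ex.hp, List.map, Ex.de, Ex.f, Ex.v]
  push_cast
  ring

theorem de_b (s e : ℝ) : Ex.db.de.f s e = v_bP s e := by
  unfold v_bP
  simp only [Ex.db, Ex.sp, Ex.hp, List.map, Ex.de, Ex.f, Ex.v]
  push_cast
  ring

theorem de_w (s e : ℝ) : Ex.dbe.de.f s e = v_wP s e := by
  unfold v_wP
  simp only [Ex.dbe, Ex.sp, Ex.hp, List.map, Ex.de, Ex.f, Ex.v]
  push_cast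
  ring

theorem de_c (s e : ℝ) : Ex.dc.de.f s e = 0 := by
  simp only [Ex.dc, Ex.sp, Ex.hp, List.map, Ex.de, Ex.f, Ex.v]
  push_cast
  ring

theorem de_g (s e : ℝ) : Ex.dga.de.f s e = 0 := by
  simp only [Ex.dga, Ex.sp, Ex.hp, List.map, Ex.de, Ex.f, Ex.v]
  push_cast
  ring

theorem eu_p (s e : ℝ) : Ex.dp.eu.f s e = s * v_pS s e := by
  have h1 := de_n s e
  have h2 := de_c s e
  unfold Ex.f at h1 h2
  unfold v_pS
  simp only [Ex.dp, Ex.t1, Ex.eu, Ex.ds, Ex.de, Ex.f, Ex.v, h1, h2]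
  push_cast
  ring

theorem l_H (s e : ℝ) : q_H.R (env0 s e) = v_H s e := by
  simp only [q_H, Eng.Ex.R, Eng.Z.toInt]
  rw [show (env0 s e).getD 1 0 = 1 / Real.cosh s from rfl]
  have h1 := Eng.sech_sq s
  unfold v_H
  rw [← h1]
  ring

theorem l_e2 (s e : ℝ) : q_e2.R (env1 s e) = v_e2 s e := by
  simp only [q_e2, Eng.Ex.R, Eng.Z.toInt]
  rw [show (env1 s e).getD 4 0 = e from rfl]
  unfold v_e2
  push_cast
  ring

theorem l_A (s e : ℝ) : q_A.R (env2 s e) = v_A s e := by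
  simp only [q_A, Eng.Ex.R, Eng.Z.toInt]
  rw [show (env2 s e).getD 0 0 = v_e2 s e from rfl]
  unfold v_A
  push_cast
  ring

theorem l_sH (s e : ℝ) : q_sH.R (env3 s e) = v_sH s e := by
  simp only [q_sH, Eng.Ex.R, Eng.Z.toInt]
  rw [show (env3 s e).getD 5 0 = s from rfl, show (env3 s e).getD 2 0 = v_H s e from rfl]
  unfold v_sH
  push_cast
  ring

theorem l_st (s e : ℝ) : q_st.R (env4 s e) = v_st s e := by
  simp only [q_st, Eng.Ex.R, Eng.Z.toInt]
  rw [show (env4 s e).getD 6 0 = s from rfl, show (env4 s e).getD 4 0 = Real.tanh s from rfl]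
  unfold v_st
  push_cast
  ring

theorem l_s2 (s e : ℝ) : q_s2.R (env5 s e) = v_s2 s e := by
  simp only [q_s2, Eng.Ex.R, Eng.Z.toInt]
  rw [show (env5 s e).getD 7 0 = s from rfl]
  unfold v_s2
  push_cast
  ring

theorem l_s3t (s e : ℝ) : q_s3t.R (env6 s e) = v_s3t s e := by
  simp only [q_s3t, Eng.Ex.R, Eng.Z.toInt]
  rw [show (env6 s e).getD 0 0 = v_s2 s e from rfl, show (env6 s e).getD 1 0 = v_st s e from rfl]
  unfold v_s3t
  push_cast
  ring

theorem l_G4 (s e : ℝ) : q_G4.R (env7 s e) = v_G4 s e := by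
  simp only [q_G4, Eng.Ex.R, Eng.Z.toInt]
  rw [show (env7 s e).getD 0 0 = v_s3t s e from rfl, show (env7 s e).getD 1 0 = v_s2 s e from rfl]
  unfold v_G4
  push_cast
  ring

theorem l_AP (s e : ℝ) : q_AP.R (env8 s e) = v_AP s e := by
  simp only [q_AP, Eng.Ex.R, Eng.Z.toInt]
  rw [show (env8 s e).getD 3 0 = v_st s e from rfl, show (env8 s e).getD 2 0 = v_s2 s e from rfl,
    show (env8 s e).getD 1 0 = v_s3t s e from rfl, show (env8 s e).getD 6 0 = v_e2 s e from rfl,
    show (env8 s e).getD 0 0 = v_G4 s e from rfl]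
  unfold v_AP
  push_cast
  ring

theorem l_u3 (s e : ℝ) : q_u3.R (env9 s e) = v_u3 s e := by
  simp only [q_u3, Eng.Ex.R, Eng.Z.toInt]
  rw [show (env9 s e).getD 3 0 = v_s2 s e from rfl, show (env9 s e).getD 9 0 = Real.tanh s from
    rfl, show (env9 s e).getD 5 0 = v_sH s e from rfl]
  unfold v_u3
  push_cast
  ring

theorem l_APS (s e : ℝ) : q_APS.R (env10 s e) = v_APS s e := by
  simp only [q_APS, Eng.Ex.R, Eng.Z.toInt]
  rw [show (env10 s e).getD 10 0 = Real.tanh s from rfl, show (env10 s e).getD 6 0 = v_sH s e from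
    rfl, show (env10 s e).getD 12 0 = s from rfl, show (env10 s e).getD 0 0 = v_u3 s e from rfl,
    show (env10 s e).getD 8 0 = v_e2 s e from rfl, show (env10 s e).getD 4 0 = v_s2 s e from
    rfl]
  unfold v_APS
  push_cast
  ring

theorem l_a (s e : ℝ) : q_a.R (env11 s e) = v_a s e := by
  simp only [q_a, Eng.Ex.R, Eng.Z.toInt]
  rw [show (env11 s e).getD 11 0 = Real.tanh s from rfl, show (env11 s e).getD 2 0 = v_AP s e from
    rfl]
  unfold v_a v_AP v_G4 v_s3t v_s2 v_st v_e2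
  simp only [Ex.da, Ex.hp, Ex.ds, Ex.f, Ex.v]
  push_cast
  ring

theorem l_aS (s e : ℝ) : q_aS.R (env12 s e) = v_aS s e := by
  simp only [q_aS, Eng.Ex.R, Eng.Z.toInt]
  rw [show (env12 s e).getD 11 0 = v_H s e from rfl, show (env12 s e).getD 3 0 = v_AP s e from
    rfl, show (env12 s e).getD 12 0 = Real.tanh s from rfl, show (env12 s e).getD 1 0 = v_APS s
    e from rfl]
  simp only [v_aS, v_H, v_AP, v_APS, v_G4, v_u3, v_s3t, v_s2, v_st, v_sH, v_e2]
  simp only [Ex.da, Ex.hp, Ex.ds, Ex.f, Ex.v]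
  push_cast
  ring

theorem l_HA (s e : ℝ) : q_HA.R (env13 s e) = v_HA s e := by
  simp only [q_HA, Eng.Ex.R, Eng.Z.toInt]
  rw [show (env13 s e).getD 12 0 = v_H s e from rfl, show (env13 s e).getD 1 0 = v_a s e from rfl]
  unfold v_HA
  push_cast
  ring

theorem l_HAS (s e : ℝ) : q_HAS.R (env14 s e) = v_HAS s e := by
  simp only [q_HAS, Eng.Ex.R, Eng.Z.toInt]
  rw [show (env14 s e).getD 13 0 = v_H s e from rfl, show (env14 s e).getD 1 0 = v_aS s e from
    rfl, show (env14 s e).getD 14 0 = Real.tanh s from rfl, show (env14 s e).getD 2 0 = v_a s e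
    from rfl]
  unfold v_HAS
  push_cast
  ring

theorem l_N (s e : ℝ) : q_N.R (env15 s e) = v_N s e := by
  simp only [q_N, Eng.Ex.R, Eng.Z.toInt]
  rw [show (env15 s e).getD 17 0 = s from rfl]
  unfold v_N
  simp only [Ex.dn, Ex.sp, Ex.hp, List.map, Ex.ds, Ex.f, Ex.v]
  push_cast
  ring

theorem l_NS (s e : ℝ) : q_NS.R (env16 s e) = v_NS s e := by
  simp only [q_NS, Eng.Ex.R, Eng.Z.toInt]
  rw [show (env16 s e).getD 18 0 = s from rfl]
  unfold v_NS
  simp only [Ex.dn, Ex.sp, Ex.hp, List.map, Ex.ds, Ex.f, Ex.v]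
  push_cast
  ring

theorem l_M1 (s e : ℝ) : q_M1.R (env17 s e) = v_M1 s e := by
  simp only [q_M1, Eng.Ex.R, Eng.Z.toInt]
  rw [show (env17 s e).getD 19 0 = s from rfl]
  unfold v_M1
  push_cast
  ring

theorem l_M (s e : ℝ) : q_M.R (env18 s e) = v_M s e := by
  simp only [q_M, Eng.Ex.R, Eng.Z.toInt]
  rw [show (env18 s e).getD 20 0 = s from rfl, show (env18 s e).getD 21 0 = e from rfl, show
    (env18 s e).getD 0 0 = v_M1 s e from rfl]
  unfold v_M v_M1
  simp only [Ex.dm, Ex.sp, Ex.hp, List.map, Ex.ds, Ex.f, Ex.v]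
  push_cast
  ring

theorem l_MS (s e : ℝ) : q_MS.R (env19 s e) = v_MS s e := by
  simp only [q_MS, Eng.Ex.R, Eng.Z.toInt]
  rw [show (env19 s e).getD 22 0 = e from rfl, show (env19 s e).getD 21 0 = s from rfl]
  unfold v_MS
  simp only [Ex.dm, Ex.sp, Ex.hp, List.map, Ex.ds, Ex.f, Ex.v]
  push_cast
  ring

theorem l_b0 (s e : ℝ) : q_b0.R (env20 s e) = v_b0 s e := by
  simp only [q_b0, Eng.Ex.R, Eng.Z.toInt]
  rw [show (env20 s e).getD 22 0 = s from rfl]
  unfold v_b0
  push_cast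
  ring

theorem l_b1 (s e : ℝ) : q_b1.R (env21 s e) = v_b1 s e := by
  simp only [q_b1, Eng.Ex.R, Eng.Z.toInt]
  rw [show (env21 s e).getD 23 0 = s from rfl]
  unfold v_b1
  push_cast
  ring

theorem l_b2 (s e : ℝ) : q_b2.R (env22 s e) = v_b2 s e := by
  simp only [q_b2, Eng.Ex.R, Eng.Z.toInt]
  rw [show (env22 s e).getD 24 0 = s from rfl]
  unfold v_b2
  push_cast
  ring

theorem l_b3 (s e : ℝ) : q_b3.R (env23 s e) = v_b3 s e := by
  simp only [q_b3, Eng.Ex.R, Eng.Z.toInt]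
  rw [show (env23 s e).getD 25 0 = s from rfl]
  unfold v_b3
  push_cast
  ring

theorem l_b4 (s e : ℝ) : q_b4.R (env24 s e) = v_b4 s e := by
  simp only [q_b4, Eng.Ex.R, Eng.Z.toInt]
  rw [show (env24 s e).getD 26 0 = s from rfl]
  unfold v_b4
  push_cast
  ring

theorem l_bP (s e : ℝ) : q_bP.R (env25 s e) = v_bP s e := by
  simp only [q_bP, Eng.Ex.R, Eng.Z.toInt]
  rw [show (env25 s e).getD 27 0 = s from rfl]
  unfold v_bP
  push_cast
  ring

theorem l_bV (s e : ℝ) : q_bV.R (env26 s e) = v_bV s e := by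
  simp only [q_bV, Eng.Ex.R, Eng.Z.toInt]
  rw [show (env26 s e).getD 5 0 = v_b0 s e from rfl, show (env26 s e).getD 26 0 = Real.tanh s from
    rfl, show (env26 s e).getD 4 0 = v_b1 s e from rfl, show (env26 s e).getD 3 0 = v_b2 s e
    from rfl, show (env26 s e).getD 2 0 = v_b3 s e from rfl, show (env26 s e).getD 1 0 = v_b4 s
    e from rfl, show (env26 s e).getD 29 0 = e from rfl, show (env26 s e).getD 0 0 = v_bP s e
    from rfl]
  unfold v_bV v_b0 v_b1 v_b2 v_b3 v_b4 v_bP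
  simp only [Ex.db, Ex.sp, Ex.hp, List.map, Ex.ds, Ex.f, Ex.v]
  push_cast
  ring

theorem l_bS (s e : ℝ) : q_bS.R (env27 s e) = v_bS s e := by
  simp only [q_bS, Eng.Ex.R, Eng.Z.toInt]
  rw [show (env27 s e).getD 29 0 = s from rfl, show (env27 s e).getD 27 0 = Real.tanh s from rfl,
    show (env27 s e).getD 30 0 = e from rfl, show (env27 s e).getD 26 0 = v_H s e from rfl, show
    (env27 s e).getD 5 0 = v_b1 s e from rfl, show (env27 s e).getD 4 0 = v_b2 s e from rfl,
    show (env27 s e).getD 3 0 = v_b3 s e from rfl, show (env27 s e).getD 2 0 = v_b4 s e from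
    rfl]
  unfold v_bS v_H v_b1 v_b2 v_b3 v_b4
  simp only [Ex.db, Ex.sp, Ex.hp, List.map, Ex.ds, Ex.f, Ex.v]
  push_cast
  ring

theorem l_w0 (s e : ℝ) : q_w0.R (env28 s e) = v_w0 s e := by
  simp only [q_w0, Eng.Ex.R, Eng.Z.toInt]
  rw [show (env28 s e).getD 30 0 = s from rfl]
  unfold v_w0
  push_cast
  ring

theorem l_w1 (s e : ℝ) : q_w1.R (env29 s e) = v_w1 s e := by
  simp only [q_w1, Eng.Ex.R, Eng.Z.toInt]
  rw [show (env29 s e).getD 31 0 = s from rfl]
  unfold v_w1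
  push_cast
  ring

theorem l_w2 (s e : ℝ) : q_w2.R (env30 s e) = v_w2 s e := by
  simp only [q_w2, Eng.Ex.R, Eng.Z.toInt]
  rw [show (env30 s e).getD 32 0 = s from rfl]
  unfold v_w2
  push_cast
  ring

theorem l_w3 (s e : ℝ) : q_w3.R (env31 s e) = v_w3 s e := by
  simp only [q_w3, Eng.Ex.R, Eng.Z.toInt]
  rw [show (env31 s e).getD 33 0 = s from rfl]
  unfold v_w3
  push_cast
  ring

theorem l_w4 (s e : ℝ) : q_w4.R (env32 s e) = v_w4 s e := by
  simp only [q_w4, Eng.Ex.R, Eng.Z.toInt]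
  rw [show (env32 s e).getD 34 0 = s from rfl]
  unfold v_w4
  push_cast
  ring

theorem l_wP (s e : ℝ) : q_wP.R (env33 s e) = v_wP s e := by
  simp only [q_wP, Eng.Ex.R, Eng.Z.toInt]
  rw [show (env33 s e).getD 35 0 = s from rfl]
  unfold v_wP
  push_cast
  ring

theorem l_wV (s e : ℝ) : q_wV.R (env34 s e) = v_wV s e := by
  simp only [q_wV, Eng.Ex.R, Eng.Z.toInt]
  rw [show (env34 s e).getD 5 0 = v_w0 s e from rfl, show (env34 s e).getD 34 0 = Real.tanh s from
    rfl, show (env34 s e).getD 4 0 = v_w1 s e from rfl, show (env34 s e).getD 3 0 = v_w2 s e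
    from rfl, show (env34 s e).getD 2 0 = v_w3 s e from rfl, show (env34 s e).getD 1 0 = v_w4 s
    e from rfl, show (env34 s e).getD 37 0 = e from rfl, show (env34 s e).getD 0 0 = v_wP s e
    from rfl]
  unfold v_wV v_w0 v_w1 v_w2 v_w3 v_w4 v_wP
  simp only [Ex.dbe, Ex.sp, Ex.hp, List.map, Ex.ds, Ex.f, Ex.v]
  push_cast
  ring

theorem l_wS (s e : ℝ) : q_wS.R (env35 s e) = v_wS s e := by
  simp only [q_wS, Eng.Ex.R, Eng.Z.toInt]
  rw [show (env35 s e).getD 35 0 = Real.tanh s from rfl, show (env35 s e).getD 38 0 = e from rfl,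
    show (env35 s e).getD 37 0 = s from rfl, show (env35 s e).getD 34 0 = v_H s e from rfl, show
    (env35 s e).getD 5 0 = v_w1 s e from rfl, show (env35 s e).getD 4 0 = v_w2 s e from rfl,
    show (env35 s e).getD 3 0 = v_w3 s e from rfl, show (env35 s e).getD 2 0 = v_w4 s e from
    rfl]
  unfold v_wS v_H v_w1 v_w2 v_w3 v_w4
  simp only [Ex.dbe, Ex.sp, Ex.hp, List.map, Ex.ds, Ex.f, Ex.v]
  push_cast
  ring

theorem l_c0 (s e : ℝ) : q_c0.R (env36 s e) = v_c0 s e := by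
  simp only [q_c0, Eng.Ex.R, Eng.Z.toInt]
  rw [show (env36 s e).getD 38 0 = s from rfl]
  unfold v_c0
  push_cast
  ring

theorem l_c1 (s e : ℝ) : q_c1.R (env37 s e) = v_c1 s e := by
  simp only [q_c1, Eng.Ex.R, Eng.Z.toInt]
  rw [show (env37 s e).getD 39 0 = s from rfl]
  unfold v_c1
  push_cast
  ring

theorem l_c2 (s e : ℝ) : q_c2.R (env38 s e) = v_c2 s e := by
  simp only [q_c2, Eng.Ex.R, Eng.Z.toInt]
  rw [show (env38 s e).getD 40 0 = s from rfl]
  unfold v_c2
  push_cast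
  ring

theorem l_cV (s e : ℝ) : q_cV.R (env39 s e) = v_cV s e := by
  simp only [q_cV, Eng.Ex.R, Eng.Z.toInt]
  rw [show (env39 s e).getD 2 0 = v_c0 s e from rfl, show (env39 s e).getD 39 0 = Real.tanh s from
    rfl, show (env39 s e).getD 1 0 = v_c1 s e from rfl, show (env39 s e).getD 0 0 = v_c2 s e
    from rfl]
  unfold v_cV v_c0 v_c1 v_c2
  simp only [Ex.dc, Ex.sp, Ex.hp, List.map, Ex.ds, Ex.f, Ex.v]
  push_cast
  ring

theorem l_cS (s e : ℝ) : q_cS.R (env40 s e) = v_cS s e := by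
  simp only [q_cS, Eng.Ex.R, Eng.Z.toInt]
  rw [show (env40 s e).getD 42 0 = s from rfl, show (env40 s e).getD 40 0 = Real.tanh s from rfl,
    show (env40 s e).getD 39 0 = v_H s e from rfl, show (env40 s e).getD 2 0 = v_c1 s e from
    rfl, show (env40 s e).getD 1 0 = v_c2 s e from rfl]
  unfold v_cS v_H v_c1 v_c2
  simp only [Ex.dc, Ex.sp, Ex.hp, List.map, Ex.ds, Ex.f, Ex.v]
  push_cast
  ring

theorem l_g0 (s e : ℝ) : q_g0.R (env41 s e) = v_g0 s e := by
  simp only [q_g0, Eng.Ex.R, Eng.Z.toInt]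
  rw [show (env41 s e).getD 43 0 = s from rfl]
  unfold v_g0
  push_cast
  ring

theorem l_g1 (s e : ℝ) : q_g1.R (env42 s e) = v_g1 s e := by
  simp only [q_g1, Eng.Ex.R, Eng.Z.toInt]
  rw [show (env42 s e).getD 44 0 = s from rfl]
  unfold v_g1
  push_cast
  ring

theorem l_g2 (s e : ℝ) : q_g2.R (env43 s e) = v_g2 s e := by
  simp only [q_g2, Eng.Ex.R, Eng.Z.toInt]
  rw [show (env43 s e).getD 45 0 = s from rfl]
  unfold v_g2
  push_cast
  ring

theorem l_gV (s e : ℝ) : q_gV.R (env44 s e) = v_gV s e := by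
  simp only [q_gV, Eng.Ex.R, Eng.Z.toInt]
  rw [show (env44 s e).getD 2 0 = v_g0 s e from rfl, show (env44 s e).getD 44 0 = Real.tanh s from
    rfl, show (env44 s e).getD 1 0 = v_g1 s e from rfl, show (env44 s e).getD 0 0 = v_g2 s e
    from rfl]
  unfold v_gV v_g0 v_g1 v_g2
  simp only [Ex.dga, Ex.sp, Ex.hp, List.map, Ex.ds, Ex.f, Ex.v]
  push_cast
  ring

theorem l_gS (s e : ℝ) : q_gS.R (env45 s e) = v_gS s e := by
  simp only [q_gS, Eng.Ex.R, Eng.Z.toInt]
  rw [show (env45 s e).getD 45 0 = Real.tanh s from rfl, show (env45 s e).getD 44 0 = v_H s e from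
    rfl, show (env45 s e).getD 2 0 = v_g1 s e from rfl, show (env45 s e).getD 1 0 = v_g2 s e
    from rfl]
  unfold v_gS v_H v_g1 v_g2
  simp only [Ex.dga, Ex.sp, Ex.hp, List.map, Ex.ds, Ex.f, Ex.v]
  push_cast
  ring

theorem l_t1 (s e : ℝ) : q_t1.R (env46 s e) = v_t1 s e := by
  simp only [q_t1, Eng.Ex.R, Eng.Z.toInt]
  rw [show (env46 s e).getD 46 0 = Real.tanh s from rfl]
  unfold v_t1
  push_cast
  ring

theorem l_P (s e : ℝ) : q_P.R (env47 s e) = v_P s e := by
  simp only [q_P, Eng.Ex.R, Eng.Z.toInt]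
  rw [show (env47 s e).getD 33 0 = v_HA s e from rfl, show (env47 s e).getD 47 0 = Real.tanh s
    from rfl, show (env47 s e).getD 31 0 = v_N s e from rfl, show (env47 s e).getD 0 0 = v_t1 s
    e from rfl, show (env47 s e).getD 20 0 = v_bV s e from rfl]
  unfold v_P v_HA v_H v_a v_N v_bV v_t1
  simp only [Ex.dP, Ex.ga, Ex.t1, Ex.sub, Ex.f, Ex.v]
  push_cast
  ring

theorem l_PS (s e : ℝ) : q_PS.R (env48 s e) = v_PS s e := by
  simp only [q_PS, Eng.Ex.R, Eng.Z.toInt]
  rw [show (env48 s e).getD 33 0 = v_HAS s e from rfl, show (env48 s e).getD 47 0 = v_H s e from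
    rfl, show (env48 s e).getD 32 0 = v_N s e from rfl, show (env48 s e).getD 48 0 = Real.tanh s
    from rfl, show (env48 s e).getD 31 0 = v_NS s e from rfl, show (env48 s e).getD 21 0 = v_bV
    s e from rfl, show (env48 s e).getD 1 0 = v_t1 s e from rfl, show (env48 s e).getD 20 0 =
    v_bS s e from rfl]
  unfold v_PS v_HAS v_H v_a v_aS v_N v_NS v_bV v_bS v_t1
  simp only [Ex.dP, Ex.ga, Ex.t1, Ex.sub, Ex.ds, Ex.f, Ex.v]
  push_cast
  ring

theorem l_PE (s e : ℝ) : q_PE.R (env49 s e) = v_PE s e := by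
  simp only [q_PE, Eng.Ex.R, Eng.Z.toInt]
  rw [show (env49 s e).getD 51 0 = s from rfl, show (env49 s e).getD 0 0 = v_PS s e from rfl, show
    (env49 s e).getD 48 0 = v_H s e from rfl, show (env49 s e).getD 49 0 = Real.tanh s from rfl,
    show (env49 s e).getD 47 0 = v_e2 s e from rfl, show (env49 s e).getD 41 0 = v_G4 s e from
    rfl, show (env49 s e).getD 2 0 = v_t1 s e from rfl, show (env49 s e).getD 52 0 = e from rfl,
    show (env49 s e).getD 23 0 = v_bP s e from rfl]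
  have h1 := de_a s e
  have h2 := de_n s e
  have h3 := de_b s e
  unfold Ex.f at h1 h2 h3
  unfold v_PE v_PS v_H v_e2 v_t1
  simp only [Ex.dP, Ex.ga, Ex.t1, Ex.sub, Ex.eu, Ex.ds, Ex.de, Ex.f, Ex.v, h1, h2, h3]
  push_cast
  ring

theorem l_Q (s e : ℝ) : q_Q.R (env50 s e) = v_Q s e := by
  simp only [q_Q, Eng.Ex.R, Eng.Z.toInt]
  rw [show (env50 s e).getD 50 0 = Real.tanh s from rfl, show (env50 s e).getD 31 0 = v_M s e from
    rfl, show (env50 s e).getD 3 0 = v_t1 s e from rfl, show (env50 s e).getD 15 0 = v_wV s e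
    from rfl]
  unfold v_Q v_M v_wV v_t1
  simp only [Ex.dQ, Ex.t1, Ex.f, Ex.v]
  push_cast
  ring

theorem l_QS (s e : ℝ) : q_QS.R (env51 s e) = v_QS s e := by
  simp only [q_QS, Eng.Ex.R, Eng.Z.toInt]
  rw [show (env51 s e).getD 50 0 = v_H s e from rfl, show (env51 s e).getD 32 0 = v_M s e from
    rfl, show (env51 s e).getD 51 0 = Real.tanh s from rfl, show (env51 s e).getD 31 0 = v_MS s
    e from rfl, show (env51 s e).getD 16 0 = v_wV s e from rfl, show (env51 s e).getD 4 0 = v_t1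
    s e from rfl, show (env51 s e).getD 15 0 = v_wS s e from rfl]
  unfold v_QS v_H v_M v_MS v_wV v_wS v_t1
  simp only [Ex.dQ, Ex.t1, Ex.ds, Ex.f, Ex.v]
  push_cast
  ring

theorem l_QE (s e : ℝ) : q_QE.R (env52 s e) = v_QE s e := by
  simp only [q_QE, Eng.Ex.R, Eng.Z.toInt]
  rw [show (env52 s e).getD 54 0 = s from rfl, show (env52 s e).getD 0 0 = v_QS s e from rfl, show
    (env52 s e).getD 55 0 = e from rfl, show (env52 s e).getD 52 0 = Real.tanh s from rfl, show
    (env52 s e).getD 34 0 = v_M1 s e from rfl, show (env52 s e).getD 5 0 = v_t1 s e from rfl,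
    show (env52 s e).getD 18 0 = v_wP s e from rfl]
  have h1 := de_m s e
  have h2 := de_w s e
  unfold Ex.f at h1 h2
  unfold v_QE v_QS v_t1
  simp only [Ex.dQ, Ex.t1, Ex.eu, Ex.ds, Ex.de, Ex.f, Ex.v, h1, h2]
  push_cast
  ring

theorem l_p (s e : ℝ) : q_p.R (env53 s e) = v_p s e := by
  simp only [q_p, Eng.Ex.R, Eng.Z.toInt]
  rw [show (env53 s e).getD 37 0 = v_N s e from rfl, show (env53 s e).getD 6 0 = v_t1 s e from
    rfl, show (env53 s e).getD 13 0 = v_cV s e from rfl]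
  unfold v_p v_N v_cV v_t1
  simp only [Ex.dp, Ex.t1, Ex.f, Ex.v]
  push_cast
  ring

theorem l_pS (s e : ℝ) : q_pS.R (env54 s e) = v_pS s e := by
  simp only [q_pS, Eng.Ex.R, Eng.Z.toInt]
  rw [show (env54 s e).getD 37 0 = v_NS s e from rfl, show (env54 s e).getD 53 0 = v_H s e from
    rfl, show (env54 s e).getD 14 0 = v_cV s e from rfl, show (env54 s e).getD 7 0 = v_t1 s e
    from rfl, show (env54 s e).getD 13 0 = v_cS s e from rfl]
  unfold v_pS v_NS v_H v_cV v_cS v_t1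
  simp only [Ex.dp, Ex.t1, Ex.ds, Ex.f, Ex.v]
  push_cast
  ring

theorem l_q (s e : ℝ) : q_q.R (env55 s e) = v_q s e := by
  simp only [q_q, Eng.Ex.R, Eng.Z.toInt]
  rw [show (env55 s e).getD 36 0 = v_M s e from rfl, show (env55 s e).getD 8 0 = v_t1 s e from
    rfl, show (env55 s e).getD 10 0 = v_gV s e from rfl]
  unfold v_q v_M v_gV v_t1
  simp only [Ex.dq, Ex.t1, Ex.f, Ex.v]
  push_cast
  ring

theorem l_qS (s e : ℝ) : q_qS.R (env56 s e) = v_qS s e := by
  simp only [q_qS, Eng.Ex.R, Eng.Z.toInt]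
  rw [show (env56 s e).getD 36 0 = v_MS s e from rfl, show (env56 s e).getD 55 0 = v_H s e from
    rfl, show (env56 s e).getD 11 0 = v_gV s e from rfl, show (env56 s e).getD 9 0 = v_t1 s e
    from rfl, show (env56 s e).getD 10 0 = v_gS s e from rfl]
  unfold v_qS v_MS v_H v_gV v_gS v_t1
  simp only [Ex.dq, Ex.t1, Ex.ds, Ex.f, Ex.v]
  push_cast
  ring

theorem l_qE (s e : ℝ) : q_qE.R (env57 s e) = v_qE s e := by
  simp only [q_qE, Eng.Ex.R, Eng.Z.toInt]
  rw [show (env57 s e).getD 59 0 = s from rfl, show (env57 s e).getD 0 0 = v_qS s e from rfl, show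
    (env57 s e).getD 60 0 = e from rfl, show (env57 s e).getD 39 0 = v_M1 s e from rfl]
  have h1 := de_m s e
  have h2 := de_g s e
  unfold Ex.f at h1 h2
  unfold v_qE v_qS
  simp only [Ex.dq, Ex.t1, Ex.eu, Ex.ds, Ex.de, Ex.f, Ex.v, h1, h2]
  push_cast
  ring

theorem l_se (s e : ℝ) : q_se.R (env58 s e) = v_se s e := by
  simp only [q_se, Eng.Ex.R, Eng.Z.toInt]
  rw [show (env58 s e).getD 60 0 = s from rfl, show (env58 s e).getD 61 0 = e from rfl]
  unfold v_se
  push_cast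
  ring

theorem l_eP (s e : ℝ) : q_eP.R (env59 s e) = v_eP s e := by
  simp only [q_eP, Eng.Ex.R, Eng.Z.toInt]
  rw [show (env59 s e).getD 62 0 = e from rfl, show (env59 s e).getD 11 0 = v_P s e from rfl]
  unfold v_eP
  push_cast
  ring

theorem l_ep (s e : ℝ) : q_ep.R (env60 s e) = v_ep s e := by
  simp only [q_ep, Eng.Ex.R, Eng.Z.toInt]
  rw [show (env60 s e).getD 63 0 = e from rfl, show (env60 s e).getD 6 0 = v_p s e from rfl]
  unfold v_ep
  push_cast
  ring

theorem l_XC (s e : ℝ) : q_XC.R (env61 s e) = v_XC s e := by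
  simp only [q_XC, Eng.Ex.R, Eng.Z.toInt]
  rw [show (env61 s e).getD 58 0 = v_A s e from rfl, show (env61 s e).getD 12 0 = v_PS s e from
    rfl, show (env61 s e).getD 2 0 = v_se s e from rfl, show (env61 s e).getD 1 0 = v_eP s e
    from rfl, show (env61 s e).getD 64 0 = e from rfl, show (env61 s e).getD 11 0 = v_PE s e
    from rfl, show (env61 s e).getD 63 0 = s from rfl, show (env61 s e).getD 9 0 = v_QS s e from
    rfl, show (env61 s e).getD 10 0 = v_Q s e from rfl, show (env61 s e).getD 8 0 = v_QE s e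
    from rfl]
  unfold v_XC Ex.CX CO v_A v_PS v_se v_eP v_PE v_QS v_Q v_QE v_e2 v_P
  push_cast
  ring

theorem l_YC (s e : ℝ) : q_YC.R (env62 s e) = v_YC s e := by
  simp only [q_YC, Eng.Ex.R, Eng.Z.toInt]
  rw [show (env62 s e).getD 59 0 = v_A s e from rfl, show (env62 s e).getD 7 0 = v_pS s e from
    rfl, show (env62 s e).getD 3 0 = v_se s e from rfl, show (env62 s e).getD 1 0 = v_ep s e
    from rfl, show (env62 s e).getD 65 0 = e from rfl, show (env62 s e).getD 64 0 = s from rfl,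
    show (env62 s e).getD 5 0 = v_qS s e from rfl, show (env62 s e).getD 6 0 = v_q s e from rfl,
    show (env62 s e).getD 4 0 = v_qE s e from rfl]
  have h1 := eu_p s e
  unfold v_YC Ex.CX CO
  rw [h1]
  unfold v_A v_se v_ep v_qS v_q v_qE v_e2 v_p v_pS
  push_cast
  ring

theorem l_T (s e : ℝ) : q_T.R (env63 s e) = v_T s e := by
  simp only [q_T, Eng.Ex.R, Eng.Z.toInt]
  rw [show (env63 s e).getD 63 0 = Real.tanh s from rfl, show (env63 s e).getD 61 0 = v_e2 s e
    from rfl, show (env63 s e).getD 49 0 = v_HA s e from rfl]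
  unfold v_T v_HA v_H v_a v_e2
  simp only [Ex.up, Ex.ga, Ex.sub, Ex.f, Ex.v]
  push_cast
  ring

theorem l_D (s e : ℝ) : q_D.R (env64 s e) = v_D s e := by
  simp only [q_D, Eng.Ex.R, Eng.Z.toInt]
  rw [show (env64 s e).getD 62 0 = v_e2 s e from rfl, show (env64 s e).getD 64 0 = Real.tanh s
    from rfl, show (env64 s e).getD 65 0 = 1 / Real.cosh s from rfl]
  unfold v_D v_e2
  simp only [Ex.dD, Ex.hp, Ex.f, Ex.v, sech]
  push_cast
  ring

theorem l_R0 (s e : ℝ) : q_R0.R (env65 s e) = v_R0 s e := by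
  simp only [q_R0, Eng.Ex.R, Eng.Z.toInt]
  rw [show (env65 s e).getD 65 0 = Real.tanh s from rfl, show (env65 s e).getD 51 0 = v_HA s e
    from rfl, show (env65 s e).getD 63 0 = v_e2 s e from rfl, show (env65 s e).getD 64 0 = v_H s
    e from rfl, show (env65 s e).getD 67 0 = s from rfl, show (env65 s e).getD 61 0 = v_sH s e
    from rfl, show (env65 s e).getD 3 0 = v_XC s e from rfl, show (env65 s e).getD 62 0 = v_A s
    e from rfl, show (env65 s e).getD 17 0 = v_P s e from rfl, show (env65 s e).getD 60 0 = v_st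
    s e from rfl, show (env65 s e).getD 14 0 = v_Q s e from rfl, show (env65 s e).getD 5 0 =
    v_eP s e from rfl, show (env65 s e).getD 6 0 = v_se s e from rfl, show (env65 s e).getD 0 0
    = v_D s e from rfl, show (env65 s e).getD 1 0 = v_T s e from rfl]
  unfold v_R0
  push_cast
  ring

theorem l_r1 (s e : ℝ) : q_r1.R (env66 s e) = v_r1 s e := by
  simp only [q_r1, Eng.Ex.R, Eng.Z.toInt]
  rw [show (env66 s e).getD 52 0 = v_HA s e from rfl, show (env66 s e).getD 66 0 = Real.tanh s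
    from rfl, show (env66 s e).getD 63 0 = v_A s e from rfl, show (env66 s e).getD 12 0 = v_p s
    e from rfl, show (env66 s e).getD 18 0 = v_P s e from rfl, show (env66 s e).getD 61 0 = v_st
    s e from rfl, show (env66 s e).getD 10 0 = v_q s e from rfl, show (env66 s e).getD 68 0 = s
    from rfl, show (env66 s e).getD 15 0 = v_Q s e from rfl, show (env66 s e).getD 6 0 = v_eP s
    e from rfl, show (env66 s e).getD 5 0 = v_ep s e from rfl, show (env66 s e).getD 7 0 = v_se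
    s e from rfl, show (env66 s e).getD 3 0 = v_YC s e from rfl]
  unfold v_r1
  push_cast
  ring

theorem l_r2 (s e : ℝ) : q_r2.R (env67 s e) = v_r2 s e := by
  simp only [q_r2, Eng.Ex.R, Eng.Z.toInt]
  rw [show (env67 s e).getD 64 0 = v_A s e from rfl, show (env67 s e).getD 13 0 = v_p s e from
    rfl, show (env67 s e).getD 69 0 = s from rfl, show (env67 s e).getD 11 0 = v_q s e from rfl,
    show (env67 s e).getD 6 0 = v_ep s e from rfl, show (env67 s e).getD 8 0 = v_se s e from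
    rfl]
  unfold v_r2
  push_cast
  ring

theorem step {q : Eng.Ex} {l : List Eng.Ex} {env : List ℝ} {v : ℝ} (h : q.R env = v) :
    Eng.runR (q :: l) env = Eng.runR l (v :: env) := by
  rw [Eng.runR, h]

theorem run_pr1 (s e : ℝ) : Eng.runR pr1 (env0 s e) = env68 s e := by
  unfold pr1
  rw [step (l_H s e), show v_H s e :: env0 s e = env1 s e from rfl]
  rw [step (l_e2 s e), show v_e2 s e :: env1 s e = env2 s e from rfl]
  rw [step (l_A s e), show v_A s e :: env2 s e = env3 s e from rfl]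
  rw [step (l_sH s e), show v_sH s e :: env3 s e = env4 s e from rfl]
  rw [step (l_st s e), show v_st s e :: env4 s e = env5 s e from rfl]
  rw [step (l_s2 s e), show v_s2 s e :: env5 s e = env6 s e from rfl]
  rw [step (l_s3t s e), show v_s3t s e :: env6 s e = env7 s e from rfl]
  rw [step (l_G4 s e), show v_G4 s e :: env7 s e = env8 s e from rfl]
  rw [step (l_AP s e), show v_AP s e :: env8 s e = env9 s e from rfl]
  rw [step (l_u3 s e), show v_u3 s e :: env9 s e = env10 s e from rfl]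
  rw [step (l_APS s e), show v_APS s e :: env10 s e = env11 s e from rfl]
  rw [step (l_a s e), show v_a s e :: env11 s e = env12 s e from rfl]
  rw [step (l_aS s e), show v_aS s e :: env12 s e = env13 s e from rfl]
  rw [step (l_HA s e), show v_HA s e :: env13 s e = env14 s e from rfl]
  rw [step (l_HAS s e), show v_HAS s e :: env14 s e = env15 s e from rfl]
  rw [step (l_N s e), show v_N s e :: env15 s e = env16 s e from rfl]
  rw [step (l_NS s e), show v_NS s e :: env16 s e = env17 s e from rfl]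
  rw [step (l_M1 s e), show v_M1 s e :: env17 s e = env18 s e from rfl]
  rw [step (l_M s e), show v_M s e :: env18 s e = env19 s e from rfl]
  rw [step (l_MS s e), show v_MS s e :: env19 s e = env20 s e from rfl]
  rw [step (l_b0 s e), show v_b0 s e :: env20 s e = env21 s e from rfl]
  rw [step (l_b1 s e), show v_b1 s e :: env21 s e = env22 s e from rfl]
  rw [step (l_b2 s e), show v_b2 s e :: env22 s e = env23 s e from rfl]
  rw [step (l_b3 s e), show v_b3 s e :: env23 s e = env24 s e from rfl]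
  rw [step (l_b4 s e), show v_b4 s e :: env24 s e = env25 s e from rfl]
  rw [step (l_bP s e), show v_bP s e :: env25 s e = env26 s e from rfl]
  rw [step (l_bV s e), show v_bV s e :: env26 s e = env27 s e from rfl]
  rw [step (l_bS s e), show v_bS s e :: env27 s e = env28 s e from rfl]
  rw [step (l_w0 s e), show v_w0 s e :: env28 s e = env29 s e from rfl]
  rw [step (l_w1 s e), show v_w1 s e :: env29 s e = env30 s e from rfl]
  rw [step (l_w2 s e), show v_w2 s e :: env30 s e = env31 s e from rfl]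
  rw [step (l_w3 s e), show v_w3 s e :: env31 s e = env32 s e from rfl]
  rw [step (l_w4 s e), show v_w4 s e :: env32 s e = env33 s e from rfl]
  rw [step (l_wP s e), show v_wP s e :: env33 s e = env34 s e from rfl]
  rw [step (l_wV s e), show v_wV s e :: env34 s e = env35 s e from rfl]
  rw [step (l_wS s e), show v_wS s e :: env35 s e = env36 s e from rfl]
  rw [step (l_c0 s e), show v_c0 s e :: env36 s e = env37 s e from rfl]
  rw [step (l_c1 s e), show v_c1 s e :: env37 s e = env38 s e from rfl]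
  rw [step (l_c2 s e), show v_c2 s e :: env38 s e = env39 s e from rfl]
  rw [step (l_cV s e), show v_cV s e :: env39 s e = env40 s e from rfl]
  rw [step (l_cS s e), show v_cS s e :: env40 s e = env41 s e from rfl]
  rw [step (l_g0 s e), show v_g0 s e :: env41 s e = env42 s e from rfl]
  rw [step (l_g1 s e), show v_g1 s e :: env42 s e = env43 s e from rfl]
  rw [step (l_g2 s e), show v_g2 s e :: env43 s e = env44 s e from rfl]
  rw [step (l_gV s e), show v_gV s e :: env44 s e = env45 s e from rfl]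
  rw [step (l_gS s e), show v_gS s e :: env45 s e = env46 s e from rfl]
  rw [step (l_t1 s e), show v_t1 s e :: env46 s e = env47 s e from rfl]
  rw [step (l_P s e), show v_P s e :: env47 s e = env48 s e from rfl]
  rw [step (l_PS s e), show v_PS s e :: env48 s e = env49 s e from rfl]
  rw [step (l_PE s e), show v_PE s e :: env49 s e = env50 s e from rfl]
  rw [step (l_Q s e), show v_Q s e :: env50 s e = env51 s e from rfl]
  rw [step (l_QS s e), show v_QS s e :: env51 s e = env52 s e from rfl]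
  rw [step (l_QE s e), show v_QE s e :: env52 s e = env53 s e from rfl]
  rw [step (l_p s e), show v_p s e :: env53 s e = env54 s e from rfl]
  rw [step (l_pS s e), show v_pS s e :: env54 s e = env55 s e from rfl]
  rw [step (l_q s e), show v_q s e :: env55 s e = env56 s e from rfl]
  rw [step (l_qS s e), show v_qS s e :: env56 s e = env57 s e from rfl]
  rw [step (l_qE s e), show v_qE s e :: env57 s e = env58 s e from rfl]
  rw [step (l_se s e), show v_se s e :: env58 s e = env59 s e from rfl]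
  rw [step (l_eP s e), show v_eP s e :: env59 s e = env60 s e from rfl]
  rw [step (l_ep s e), show v_ep s e :: env60 s e = env61 s e from rfl]
  rw [step (l_XC s e), show v_XC s e :: env61 s e = env62 s e from rfl]
  rw [step (l_YC s e), show v_YC s e :: env62 s e = env63 s e from rfl]
  rw [step (l_T s e), show v_T s e :: env63 s e = env64 s e from rfl]
  rw [step (l_D s e), show v_D s e :: env64 s e = env65 s e from rfl]
  rw [step (l_R0 s e), show v_R0 s e :: env65 s e = env66 s e from rfl]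
  rw [step (l_r1 s e), show v_r1 s e :: env66 s e = env67 s e from rfl]
  rw [step (l_r2 s e), show v_r2 s e :: env67 s e = env68 s e from rfl]
  rfl

theorem main_id (s e y : ℝ) : v_R0 s e + y * v_r1 s e + y ^ 2 * v_r2 s e =
    3 * (Ex.QX 24 Ex.da Ex.dP Ex.dQ Ex.dp Ex.dq s e y - 6 * Ex.dD.f s e *
      (Ex.up (Ex.ga Ex.da)).f s e) := by
  simp only [v_R0, v_r1, v_r2, Ex.QX, QH, v_T, v_D, v_XC, v_YC, v_HA, v_sH, v_H, v_A, v_st,
    v_eP, v_ep, v_se, v_e2, v_a, v_P, v_Q, v_p, v_q]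
  generalize Ex.CX 24 Ex.dP Ex.dQ s e = X
  generalize Ex.CX 24 Ex.dp Ex.dq s e = Y
  generalize (Ex.up (Ex.ga Ex.da)).f s e = T
  generalize Ex.dD.f s e = D
  generalize Ex.da.f s e = a
  generalize Ex.dP.f s e = P
  generalize Ex.dQ.f s e = Q
  generalize Ex.dp.f s e = p
  generalize Ex.dq.f s e = q
  generalize Real.tanh s = t
  push_cast
  ring

end PM

end Pool.Agent.Saddle
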