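import Pool.Agent.Saddle.P1

/-!
# The main inequality on a cell
-/

set_option autoImplicit false
set_option linter.all false

noncomputable section

namespace Pool.Agent.Saddle

namespace PM

/-- the second part of the program; `al / 2^ka + be / 2^kb s + ga / 2^kg e²` bounds `y`,
`g` is minus the sign -/
def pr2 (al be ga g g6 : Eng.Z) (ka kb kg : ℕ) : List Eng.Ex :=
  [.add (.lit al ka) (.add (.mul (.lit be kb) (.var 70)) (.mul (.lit ga kg) (.var 66))),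
   .add (.var 0) (.add (.lit (.m 1) 0) (.add (.var 5) (.mul (.lit g 0) (.mul (.var 67) (.var 4))))),
   .mul (.var 1) (.add (.var 3) (.mul (.lit g6 0) (.var 5))),
   .mul (.mul (.var 2) (.var 2)) (.var 3),
   .var 2,
   .var 7,
   .add (.var 8) (.mul (.lit (.p 1) 2) (.var 3)),
   .add (.var 9) (.add (.mul (.lit (.p 1) 1) (.var 4)) (.mul (.lit (.p 1) 2) (.var 3))),
   .add (.var 10) (.add (.mul (.lit (.p 3) 2) (.var 5)) (.mul (.lit (.p 1) 1) (.var 4))),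
   .add (.var 11) (.add (.var 6) (.var 5))]

/-- the whole program -/
def prog (al be ga g g6 : Eng.Z) (ka kb kg : ℕ) : List Eng.Ex :=
  pr1 ++ pr2 al be ga g g6 ka kb kg

theorem runR_append (l l' : List Eng.Ex) (env : List ℝ) :
    Eng.runR (l ++ l') env = Eng.runR l' (Eng.runR l env) := by
  induction l generalizing env with
  | nil => rfl
  | cons a l ih => exact ih _

/-- The results. -/
theorem run_prog (al be ga g g6 : Eng.Z) (ka kb kg : ℕ) (s e Y1 chk R1 R2 : ℝ)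
    (hY : Y1 = (al.toInt : ℝ) / 2 ^ ka + ((be.toInt : ℝ) / 2 ^ kb * s +
        (ga.toInt : ℝ) / 2 ^ kg * v_e2 s e))
    (hc : chk = Y1 + (-1 + (v_T s e + (g.toInt : ℝ) * (v_e2 s e * v_D s e))))
    (h1 : R1 = Y1 * (v_r1 s e + (g6.toInt : ℝ) * v_D s e))
    (h2 : R2 = Y1 * Y1 * v_r2 s e) :
    ∃ l : List ℝ, Eng.runR (prog al be ga g g6 ka kb kg)
        [Real.tanh s, 1 / Real.cosh s, s, e] =
        (v_R0 s e + (R1 + R2)) :: (v_R0 s e + (3 / 4 * R1 + 1 / 2 * R2)) ::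
        (v_R0 s e + (1 / 2 * R1 + 1 / 4 * R2)) :: (v_R0 s e + 1 / 4 * R1) :: v_R0 s e ::
        chk :: l := by
  refine ⟨R2 :: R1 :: chk :: Y1 :: env68 s e, ?_⟩
  rw [prog, runR_append, show [Real.tanh s, 1 / Real.cosh s, s, e] = env0 s e from rfl, run_pr1]
  unfold pr2
  rw [step (v := Y1) (by
    simp only [Eng.Ex.R]
    rw [show (env68 s e).getD 70 0 = s from rfl, show (env68 s e).getD 66 0 = v_e2 s e from rfl,
      hY])]
  rw [step (v := chk) (by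
    simp only [Eng.Ex.R]
    rw [show (Y1 :: env68 s e).getD 0 0 = Y1 from rfl,
      show (Y1 :: env68 s e).getD 5 0 = v_T s e from rfl,
      show (Y1 :: env68 s e).getD 67 0 = v_e2 s e from rfl,
      show (Y1 :: env68 s e).getD 4 0 = v_D s e from rfl, hc]
    simp [Eng.Z.toInt])]
  rw [step (v := R1) (by
    simp only [Eng.Ex.R]
    rw [show (chk :: Y1 :: env68 s e).getD 1 0 = Y1 from rfl,
      show (chk :: Y1 :: env68 s e).getD 3 0 = v_r1 s e from rfl,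
      show (chk :: Y1 :: env68 s e).getD 5 0 = v_D s e from rfl, h1]
    simp)]
  rw [step (v := R2) (by
    simp only [Eng.Ex.R]
    rw [show (R1 :: chk :: Y1 :: env68 s e).getD 2 0 = Y1 from rfl,
      show (R1 :: chk :: Y1 :: env68 s e).getD 3 0 = v_r2 s e from rfl, h2])]
  rw [step (v := chk) (by
    simp only [Eng.Ex.R]
    rfl)]
  rw [step (v := v_R0 s e) (by
    simp only [Eng.Ex.R]
    rfl)]
  rw [step (v := v_R0 s e + 1 / 4 * R1) (by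
    simp only [Eng.Ex.R]
    rw [show (v_R0 s e :: chk :: R2 :: R1 :: chk :: Y1 :: env68 s e).getD 8 0 = v_R0 s e from rfl,
      show (v_R0 s e :: chk :: R2 :: R1 :: chk :: Y1 :: env68 s e).getD 3 0 = R1 from rfl]
    norm_num [Eng.Z.toInt])]
  rw [step (v := v_R0 s e + (1 / 2 * R1 + 1 / 4 * R2)) (by
    simp only [Eng.Ex.R]
    rw [show ((v_R0 s e + 1 / 4 * R1) :: v_R0 s e :: chk :: R2 :: R1 :: chk :: Y1 ::
        env68 s e).getD 9 0 = v_R0 s e from rfl,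
      show ((v_R0 s e + 1 / 4 * R1) :: v_R0 s e :: chk :: R2 :: R1 :: chk :: Y1 ::
        env68 s e).getD 4 0 = R1 from rfl,
      show ((v_R0 s e + 1 / 4 * R1) :: v_R0 s e :: chk :: R2 :: R1 :: chk :: Y1 ::
        env68 s e).getD 3 0 = R2 from rfl]
    norm_num [Eng.Z.toInt])]
  rw [step (v := v_R0 s e + (3 / 4 * R1 + 1 / 2 * R2)) (by
    simp only [Eng.Ex.R]
    rw [show ((v_R0 s e + (1 / 2 * R1 + 1 / 4 * R2)) :: (v_R0 s e + 1 / 4 * R1) :: v_R0 s e ::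
        chk :: R2 :: R1 :: chk :: Y1 :: env68 s e).getD 10 0 = v_R0 s e from rfl,
      show ((v_R0 s e + (1 / 2 * R1 + 1 / 4 * R2)) :: (v_R0 s e + 1 / 4 * R1) :: v_R0 s e ::
        chk :: R2 :: R1 :: chk :: Y1 :: env68 s e).getD 5 0 = R1 from rfl,
      show ((v_R0 s e + (1 / 2 * R1 + 1 / 4 * R2)) :: (v_R0 s e + 1 / 4 * R1) :: v_R0 s e ::
        chk :: R2 :: R1 :: chk :: Y1 :: env68 s e).getD 4 0 = R2 from rfl]
    norm_num [Eng.Z.toInt])]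
  rw [step (v := v_R0 s e + (R1 + R2)) (by
    simp only [Eng.Ex.R]
    rfl)]
  rfl

/-- Bernstein form with two intervals. -/
theorem bern {R0 r1 r2 Y R1 R2 y : ℝ} (e1 : R1 = Y * r1) (e2 : R2 = Y * Y * r2) (hy0 : 0 ≤ y)
    (hy : y ≤ Y) (h0 : 0 ≤ R0) (h1 : 0 ≤ R0 + 1 / 4 * R1)
    (h2 : 0 ≤ R0 + (1 / 2 * R1 + 1 / 4 * R2)) (h3 : 0 ≤ R0 + (3 / 4 * R1 + 1 / 2 * R2))
    (h4 : 0 ≤ R0 + (R1 + R2)) : 0 ≤ R0 + y * r1 + y ^ 2 * r2 := by
  by_cases hY : Y = 0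
  · have : y = 0 := le_antisymm (hY ▸ hy) hy0
    rw [this]
    simpa using h0
  · have hYp : 0 < Y := lt_of_le_of_ne (hy0.trans hy) (Ne.symm hY)
    obtain ⟨v, hv⟩ : ∃ v, v = y / Y := ⟨_, rfl⟩
    have hyv : y = v * Y := by
      rw [hv]
      field_simp
    have hv0 : 0 ≤ v := by
      rw [hv]
      positivity
    have hv1 : v ≤ 1 := by
      rw [hv]
      exact (div_le_one hYp).2 hy
    have key : R0 + y * r1 + y ^ 2 * r2 = R0 + v * R1 + v ^ 2 * R2 := by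
      rw [hyv, e1, e2]
      ring
    rw [key]
    rcases le_total v (1 / 2) with hh | hh
    · have a1 : 0 ≤ 2 * v := by linarith
      have a2 : 0 ≤ 1 - 2 * v := by linarith
      have := mul_nonneg (mul_nonneg a2 a2) h0
      have := mul_nonneg (mul_nonneg a1 a2) h1
      have := mul_nonneg (mul_nonneg a1 a1) h2
      nlinarith
    · have a1 : 0 ≤ 2 * v - 1 := by linarith
      have a2 : 0 ≤ 2 - 2 * v := by linarith
      have := mul_nonneg (mul_nonneg a2 a2) h2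
      have := mul_nonneg (mul_nonneg a1 a2) h3
      have := mul_nonneg (mul_nonneg a1 a1) h4
      nlinarith

/-- the bound `T` -/
def TT (s e : ℝ) : ℝ := (Ex.up (Ex.ga Ex.da)).f s e

/-- the statement for `s ≥ 0` on a cell -/
def PosC (C : Eng.Cell) : Prop := ∀ s e y : ℝ, C.l ≤ s → s < C.r → 0 ≤ e →
  24 * e ^ 2 + 4 * s * e ≤ 1 → 0 ≤ y → y ≤ 1 - (Ex.up (Ex.ga Ex.da)).f s e + e ^ 2 * Ex.dD.f s e →
  Ex.dD.f s e * (6 * (Ex.up (Ex.ga Ex.da)).f s e + 2 * y) ≤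
    Ex.QX 24 Ex.da Ex.dP Ex.dQ Ex.dp Ex.dq s e y

/-- the statement for the reflected cell -/
def NegC (C : Eng.Cell) : Prop := ∀ s e y : ℝ, C.l ≤ s → s < C.r → 0 ≤ e →
  24 * e ^ 2 + 4 * s * e ≤ 1 → 0 ≤ y → y ≤ 1 + (Ex.up (Ex.ga Ex.da)).f s e + e ^ 2 * Ex.dD.f s e →
  Ex.dD.f s e * (6 * (Ex.up (Ex.ga Ex.da)).f s e + 2 * y) ≤
    Ex.QX 24 Ex.da Ex.dP Ex.dQ Ex.dp Ex.dq (-s) e y

theorem six {f : ℕ → ℝ} (h : ∀ i < 6, 0 ≤ f i) :
    0 ≤ f 0 ∧ 0 ≤ f 1 ∧ 0 ≤ f 2 ∧ 0 ≤ f 3 ∧ 0 ≤ f 4 ∧ 0 ≤ f 5 :=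
  ⟨h 0 (by norm_num), h 1 (by norm_num), h 2 (by norm_num), h 3 (by norm_num), h 4 (by norm_num),
    h 5 (by norm_num)⟩

theorem posC {w dd K pd : ℕ} {al be ga : Eng.Z} {ka kb kg : ℕ} {C : Eng.Cell} {ke : ℕ}
    {es : List ℕ} (hC : Eng.Good C)
    (h : Eng.listOK2 w dd K pd (prog al be ga (.m 1) (.m 6) ka kb kg) 6 true C ke 0 es = true) :
    PosC C := by
  intro s e y hs1 hs2 he h24 hy0 hy
  have h0 := Eng.list_sound2 hC es 0 h hs1 hs2 (by simpa using he) h24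
  simp only [if_true] at h0
  obtain ⟨l, hl⟩ := run_prog al be ga (.m 1) (.m 6) ka kb kg s e _ _ _ _ rfl rfl rfl rfl
  rw [hl] at h0
  obtain ⟨h5, h4, h3, h2, h1, h0⟩ := six h0
  simp only [List.getD_cons_zero, List.getD_cons_succ] at h0 h1 h2 h3 h4 h5
  set Y1 := (al.toInt : ℝ) / 2 ^ ka + ((be.toInt : ℝ) / 2 ^ kb * s +
        (ga.toInt : ℝ) / 2 ^ kg * v_e2 s e) with hY1
  have hyY : y ≤ Y1 := by
    have e1 : ((Eng.Z.m 1).toInt : ℝ) = -1 := by simp [Eng.Z.toInt]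
    rw [e1] at h0
    have e2 : v_T s e = (Ex.up (Ex.ga Ex.da)).f s e := rfl
    have e3 : v_D s e = Ex.dD.f s e := rfl
    have e4 : v_e2 s e = e ^ 2 := by
      unfold v_e2
      ring
    rw [e2, e3, e4] at h0
    linarith
  have hb := bern (R0 := v_R0 s e) rfl rfl hy0 hyY h1 h2 h3 h4 h5
  have hm := main_id s e y
  have e1 : ((Eng.Z.m 6).toInt : ℝ) = -6 := by simp [Eng.Z.toInt]
  rw [e1] at hb
  have e3 : v_D s e = Ex.dD.f s e := rfl
  rw [e3] at hb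
  nlinarith [hb, hm]

theorem da_odd (s e : ℝ) : Ex.da.f (-s) e = -Ex.da.f s e := by
  simp only [Ex.da, Ex.hp, Ex.f, Ex.v, Real.tanh_neg]
  push_cast
  ring

theorem T_odd (s e : ℝ) : (Ex.up (Ex.ga Ex.da)).f (-s) e = -(Ex.up (Ex.ga Ex.da)).f s e := by
  rw [Ex.up_f, Ex.up_f, Ex.ga_f, Ex.ga_f, da_odd, Real.tanh_neg]
  ring

theorem D_odd (s e : ℝ) : Ex.dD.f (-s) e = -Ex.dD.f s e := by
  simp only [Ex.dD, Ex.hp, Ex.f, Ex.v, Real.tanh_neg, sech_neg]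
  push_cast
  ring

theorem negC {w dd K pd : ℕ} {al be ga : Eng.Z} {ka kb kg : ℕ} {C : Eng.Cell} {ke : ℕ}
    {es : List ℕ} (hC : Eng.Good C)
    (h : Eng.listOK2 w dd K pd (prog al be ga (.p 1) (.p 6) ka kb kg) 6 false C ke 0 es = true) :
    NegC C := by
  intro s e y hs1 hs2 he h24 hy0 hy
  have h0 := Eng.list_sound2 hC es 0 h hs1 hs2 (by simpa using he) h24
  rw [if_neg (by simp : ¬ (false = true)), ← Real.cosh_neg s] at h0
  obtain ⟨l, hl⟩ := run_prog al be ga (.p 1) (.p 6) ka kb kg (-s) e _ _ _ _ rfl rfl rfl rfl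
  rw [hl] at h0
  obtain ⟨h5, h4, h3, h2, h1, h0⟩ := six h0
  simp only [List.getD_cons_zero, List.getD_cons_succ] at h0 h1 h2 h3 h4 h5
  set Y1 := (al.toInt : ℝ) / 2 ^ ka + ((be.toInt : ℝ) / 2 ^ kb * (-s) +
        (ga.toInt : ℝ) / 2 ^ kg * v_e2 (-s) e) with hY1
  have e2 : v_T (-s) e = -(Ex.up (Ex.ga Ex.da)).f s e := T_odd s e
  have e3 : v_D (-s) e = -Ex.dD.f s e := D_odd s e
  have hyY : y ≤ Y1 := by
    have e1 : ((Eng.Z.p 1).toInt : ℝ) = 1 := by simp [Eng.Z.toInt]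
    rw [e1] at h0
    have e4 : v_e2 (-s) e = e ^ 2 := by
      unfold v_e2
      ring
    rw [e2, e3, e4] at h0
    linarith
  have hb := bern (R0 := v_R0 (-s) e) rfl rfl hy0 hyY h1 h2 h3 h4 h5
  have hm := main_id (-s) e y
  have e1 : ((Eng.Z.p 6).toInt : ℝ) = 6 := by simp [Eng.Z.toInt]
  rw [e1, e3] at hb
  rw [T_odd, D_odd] at hm
  nlinarith [hb, hm]

end PM

end Pool.Agent.Saddle
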