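import Pool.Agent.Saddle.P2

/-!
# Kernel checks for the main inequality, cells 0 to 47, positive side
-/

set_option autoImplicit false
set_option linter.all false
set_option maxRecDepth 100000

namespace Pool.Agent.Saddle

namespace PM

theorem kp0 : Eng.listOK2 936 9 65 0 (prog (.p 2049) (.m 1019) (.p 3) (.m 1) (.m 6) 11 10 6) 6 true Eng.T0
    7 0 [27] = true := by decide +kernel

theorem kp1 : Eng.listOK2 936 9 65 0 (prog (.p 4083) (.m 247) (.p 1) (.m 1) (.m 6) 12 8 6) 6 true Eng.T1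
    6 0 [13] = true := by decide +kernel

theorem kp2 : Eng.listOK2 936 9 65 0 (prog (.p 4025) (.m 465) (.p 1) (.m 1) (.m 6) 12 9 6) 6 true Eng.T2
    5 0 [6] = true := by decide +kernel

theorem kp3 : Eng.listOK2 936 9 65 0 (prog (.p 3905) (.m 425) (.p 1) (.m 1) (.m 6) 12 9 6) 6 true Eng.T3
    7 0 [23] = true := by decide +kernel

theorem kp4 : Eng.listOK2 936 9 65 0 (prog (.p 3721) (.m 379) (.p 1) (.m 1) (.m 6) 12 9 6) 6 true Eng.T4
    6 0 [11] = true := by decide +kernel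

theorem kp5 : Eng.listOK2 936 9 65 0 (prog (.p 869) (.m 165) (.p 1) (.m 1) (.m 6) 10 8 6) 6 true Eng.T5
    7 0 [21] = true := by decide +kernel

theorem kp6 : Eng.listOK2 936 9 65 0 (prog (.p 3189) (.m 141) (.p 1) (.m 1) (.m 6) 12 8 6) 6 true Eng.T6
    5 0 [5] = true := by decide +kernel

theorem kp7 : Eng.listOK2 936 9 65 0 (prog (.p 1435) (.m 473) (.p 1) (.m 1) (.m 6) 11 10 6) 6 true Eng.T7
    7 0 [19] = true := by decide +kernel

theorem kp8 : Eng.listOK2 936 9 65 0 (prog (.p 1271) (.m 391) (.p 1) (.m 1) (.m 6) 11 10 6) 6 true Eng.T8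
    6 0 [9] = true := by decide +kernel

theorem kp9 : Eng.listOK2 936 9 65 0 (prog (.p 2223) (.m 5) (.p 1) (.m 1) (.m 6) 12 4 6) 6 true Eng.T9
    7 0 [17] = true := by decide +kernel

theorem kp10 : Eng.listOK2 936 9 65 0 (prog (.p 959) (.m 259) (.p 1) (.m 1) (.m 6) 11 10 6) 6 true Eng.T10
    8 0 [33] = true := by decide +kernel

theorem kp11 : Eng.listOK2 936 9 65 0 (prog (.p 819) (.m 13) (.p 1) (.m 1) (.m 6) 11 6 6) 6 true Eng.T11
    5 0 [4] = true := by decide +kernel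

theorem kp12 : Eng.listOK2 936 9 65 0 (prog (.p 1387) (.m 83) (.p 1) (.m 1) (.m 6) 12 9 6) 6 true Eng.T12
    7 0 [15] = true := by decide +kernel

theorem kp13 : Eng.listOK2 936 9 65 0 (prog (.p 583) (.m 33) (.p 1) (.m 1) (.m 6) 11 8 6) 6 true Eng.T13
    8 0 [29] = true := by decide +kernel

theorem kp14 : Eng.listOK2 872 9 55 0 (prog (.p 485) (.m 13) (.p 1) (.m 1) (.m 6) 11 7 6) 6 true Eng.T14
    6 0 [7] = true := by decide +kernel

theorem kp15 : Eng.listOK2 872 9 55 0 (prog (.p 805) (.m 41) (.p 1) (.m 1) (.m 6) 12 9 6) 6 true Eng.T15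
    7 0 [13] = true := by decide +kernel

theorem kp16 : Eng.listOK2 872 9 55 0 (prog (.p 669) (.m 65) (.p 1) (.m 1) (.m 6) 12 10 6) 6 true Eng.T16
    7 0 [13] = true := by decide +kernel

theorem kp17 : Eng.listOK2 872 9 55 0 (prog (.p 551) (.m 51) (.p 1) (.m 1) (.m 6) 12 10 6) 6 true Eng.T17
    5 0 [3] = true := by decide +kernel

theorem kp18 : Eng.listOK2 872 9 55 0 (prog (.p 113) (.m 5) (.p 1) (.m 1) (.m 6) 10 7 6) 6 true Eng.T18
    5 0 [3] = true := by decide +kernel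

theorem kp19 : Eng.listOK2 872 9 55 0 (prog (.p 367) (.m 31) (.p 1) (.m 1) (.m 6) 12 10 6) 6 true Eng.T19
    8 0 [23] = true := by decide +kernel

theorem kp20 : Eng.listOK2 872 9 55 0 (prog (.p 307) (.m 25) (.p 1) (.m 1) (.m 6) 12 10 6) 6 true Eng.T20
    7 0 [11] = true := by decide +kernel

theorem kp21 : Eng.listOK2 872 9 55 0 (prog (.p 61) (.m 19) (.p 1) (.m 1) (.m 6) 10 10 6) 6 true Eng.T21
    8 0 [21] = true := by decide +kernel

theorem kp22 : Eng.listOK2 872 9 55 0 (prog (.p 25) (.m 15) (.p 1) (.m 1) (.m 6) 9 10 6) 6 true Eng.T22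
    6 0 [5] = true := by decide +kernel

theorem kp23 : Eng.listOK2 872 9 55 0 (prog (.p 83) (.m 3) (.p 1) (.m 1) (.m 6) 11 8 6) 6 true Eng.T23
    6 0 [5] = true := by decide +kernel

theorem kp24 : Eng.listOK2 872 9 55 0 (prog (.p 65) (.m 9) (.p 1) (.m 1) (.m 6) 11 10 6) 6 true Eng.T24
    8 0 [19] = true := by decide +kernel

theorem kp25 : Eng.listOK2 872 9 55 0 (prog (.p 105) (.m 7) (.p 1) (.m 1) (.m 6) 12 10 6) 6 true Eng.T25
    8 0 [19] = true := by decide +kernel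

theorem kp26 : Eng.listOK2 872 9 55 0 (prog (.p 23) (.m 3) (.p 1) (.m 1) (.m 6) 10 9 6) 6 true Eng.T26
    7 0 [9] = true := by decide +kernel

theorem kp27 : Eng.listOK2 872 9 55 0 (prog (.p 79) (.m 5) (.p 1) (.m 1) (.m 6) 12 10 6) 6 true Eng.T27
    8 0 [17] = true := by decide +kernel

theorem kp28 : Eng.listOK2 872 9 55 0 (prog (.p 33) (.m 1) (.p 1) (.m 1) (.m 6) 11 8 6) 6 true Eng.T28
    8 0 [17] = true := by decide +kernel

theorem kp29 : Eng.listOK2 872 9 55 0 (prog (.p 51) (.m 3) (.p 1) (.m 1) (.m 6) 12 10 6) 6 true Eng.T29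
    9 0 [33] = true := by decide +kernel

theorem kp30 : Eng.listOK2 872 9 55 0 (prog (.p 13) (.m 3) (.p 1) (.m 1) (.m 6) 10 10 6) 6 true Eng.T30
    5 0 [2] = true := by decide +kernel

theorem kp31 : Eng.listOK2 872 9 55 0 (prog (.p 9) (.m 1) (.p 1) (.m 1) (.m 6) 10 9 6) 6 true Eng.T31
    5 0 [2] = true := by decide +kernel

theorem kp32 : Eng.listOK2 872 9 55 0 (prog (.p 37) (.m 1) (.p 1) (.m 1) (.m 6) 12 9 6) 6 true Eng.T32
    8 0 [15] = true := by decide +kernel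

theorem kp33 : Eng.listOK2 872 9 55 0 (prog (.p 5) (.m 1) (.p 1) (.m 1) (.m 6) 10 10 6) 6 true Eng.T33
    8 0 [15] = true := by decide +kernel

theorem kp34 : Eng.listOK2 872 9 55 0 (prog (.p 21) (.m 1) (.p 1) (.m 1) (.m 6) 12 10 6) 6 true Eng.T34
    7 0 [7] = true := by decide +kernel

theorem kp35 : Eng.listOK2 808 9 47 0 (prog (.p 21) (.m 1) (.p 1) (.m 1) (.m 6) 12 10 6) 6 true Eng.T35
    7 0 [7] = true := by decide +kernel

theorem kp36 : Eng.listOK2 808 9 47 0 (prog (.p 21) (.m 1) (.p 1) (.m 1) (.m 6) 12 10 6) 6 true Eng.T36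
    7 0 [7] = true := by decide +kernel

theorem kp37 : Eng.listOK2 808 9 47 0 (prog (.p 21) (.m 1) (.p 1) (.m 1) (.m 6) 12 10 6) 6 true Eng.T37
    8 0 [13] = true := by decide +kernel

theorem kp38 : Eng.listOK2 808 9 47 0 (prog (.p 11) (.m 1) (.p 1) (.m 1) (.m 6) 11 10 6) 6 true Eng.T38
    8 0 [13] = true := by decide +kernel

theorem kp39 : Eng.listOK2 808 9 47 0 (prog (.p 11) (.m 1) (.p 1) (.m 1) (.m 6) 11 10 6) 6 true Eng.T39
    8 0 [13] = true := by decide +kernel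

theorem kp40 : Eng.listOK2 808 9 47 0 (prog (.p 23) (.m 1) (.p 1) (.m 1) (.m 6) 12 10 6) 6 true Eng.T40
    9 0 [25] = true := by decide +kernel

theorem kp41 : Eng.listOK2 808 9 47 0 (prog (.p 23) (.m 1) (.p 1) (.m 1) (.m 6) 12 10 6) 6 true Eng.T41
    6 0 [3] = true := by decide +kernel

theorem kp42 : Eng.listOK2 808 9 47 0 (prog (.p 23) (.m 1) (.p 1) (.m 1) (.m 6) 12 10 6) 6 true Eng.T42
    6 0 [3] = true := by decide +kernel

theorem kp43 : Eng.listOK2 808 9 45 0 (prog (.p 3) (.m 1) (.p 1) (.m 1) (.m 6) 9 10 6) 6 true Eng.T43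
    6 0 [3] = true := by decide +kernel

theorem kp44 : Eng.listOK2 808 9 45 0 (prog (.p 3) (.m 1) (.p 1) (.m 1) (.m 6) 9 10 6) 6 true Eng.T44
    9 0 [23] = true := by decide +kernel

theorem kp45 : Eng.listOK2 808 9 45 0 (prog (.p 25) (.m 1) (.p 1) (.m 1) (.m 6) 12 10 6) 6 true Eng.T45
    8 0 [11] = true := by decide +kernel

theorem kp46 : Eng.listOK2 808 9 45 0 (prog (.p 25) (.m 1) (.p 1) (.m 1) (.m 6) 12 10 6) 6 true Eng.T46
    8 0 [11] = true := by decide +kernel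

theorem kp47 : Eng.listOK2 808 9 45 0 (prog (.p 13) (.m 1) (.p 1) (.m 1) (.m 6) 11 10 6) 6 true Eng.T47
    8 0 [11] = true := by decide +kernel

end PM

end Pool.Agent.Saddle
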