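import Pool.Agent.Saddle.Calc

set_option autoImplicit false

/-!
# The auxiliary function `Φ = q / (q + X²) + 1 / q`, `q = 1 + |x|²`, `X = |x'|² - |x''|²`

`ΔΦ + Φ ≤ -1` near the Simons cone, `ΔΦ + Φ ≤ 30` everywhere, `0 < Φ ≤ 2`,
`-4 Φ ≤ x · ∇Φ ≤ 0`.
-/

open Filter Topology

noncomputable section

namespace Pool.Agent.Saddle

/-- `|x|²` -/
abbrev Rf : E8 → ℝ := Qc (fun _ => 1)

/-- `|x'|² - |x''|²` -/
abbrev Xf : E8 → ℝ := Qc sgn

/-- `1 + |x|²` -/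
def qf (x : E8) : ℝ := 1 + Rf x

/-- `q + X²` -/
def hf (x : E8) : ℝ := qf x + Xf x * Xf x

/-- the auxiliary function -/
def Phi (x : E8) : ℝ := qf x * (hf x)⁻¹ + (qf x)⁻¹

theorem Rf_nonneg (x : E8) : 0 ≤ Rf x := by
  rw [Rf, Qc_one]
  linarith [SS_nonneg x, TT_nonneg x]

theorem qf_pos (x : E8) : 1 ≤ qf x := by
  unfold qf
  linarith [Rf_nonneg x]

theorem hf_pos (x : E8) : 1 ≤ hf x := by
  unfold hf
  nlinarith [qf_pos x, mul_self_nonneg (Xf x)]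

theorem qf_contDiff : ContDiff ℝ 2 qf := contDiff_const.add (Qc_contDiff _)

theorem hf_contDiff : ContDiff ℝ 2 hf :=
  qf_contDiff.add ((Qc_contDiff _).mul (Qc_contDiff _))

theorem hf_ne (x : E8) : hf x ≠ 0 := by
  have := hf_pos x
  positivity

theorem qf_ne (x : E8) : qf x ≠ 0 := by
  have := qf_pos x
  positivity

theorem Phi_contDiff : ContDiff ℝ 2 Phi := by
  unfold Phi
  exact (qf_contDiff.mul (hf_contDiff.inv hf_ne)).add (qf_contDiff.inv qf_ne)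

theorem pd_qf (i : Fin 8) (x : E8) : pd i qf x = 2 * x i := by
  have h1 : pd i qf x = pd i (fun y => (fun _ : E8 => (1 : ℝ)) y + Rf y) x := rfl
  rw [h1, pd_add i (by fun_prop) (diff_of (Qc_contDiff _) x), pd_const, pd_Qc]
  ring

theorem pd_Xf (i : Fin 8) (x : E8) : pd i Xf x = 2 * sgn i * x i := pd_Qc _ _ _

theorem pd_hf (i : Fin 8) (x : E8) : pd i hf x = 2 * x i + 4 * Xf x * sgn i * x i := by
  have h1 : pd i hf x = pd i (fun y => qf y + (fun z => Xf z * Xf z) y) x := rfl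
  have hX : DifferentiableAt ℝ Xf x := diff_of (Qc_contDiff _) x
  rw [h1, pd_add (g := fun z => Xf z * Xf z) i (diff_of qf_contDiff x) (hX.mul hX), pd_qf,
    pd_mul i hX hX, pd_Xf]
  ring

theorem lap_qf (x : E8) : lap qf x = 16 := by
  have h1 : lap qf x = lap (fun y => (fun _ : E8 => (1 : ℝ)) y + Rf y) x := rfl
  rw [h1, lap_add contDiff_const (Qc_contDiff _), lap_Qc]
  have h2 : lap (fun _ : E8 => (1 : ℝ)) x = 0 := by
    rw [lap_eq]
    apply Finset.sum_eq_zero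
    intro i _
    have : pd i (fun _ : E8 => (1 : ℝ)) = fun _ => 0 := by
      funext y
      exact pd_const i 1 y
    rw [this, pd_const]
  rw [h2]
  simp
  norm_num

theorem sum_sgn : ∑ i, sgn i = 0 := by
  simp [Fin.sum_univ_eight, sgn]

theorem lap_Xf (x : E8) : lap Xf x = 0 := by
  rw [lap_Qc, sum_sgn, mul_zero]

theorem sum_sq (x : E8) : ∑ i, x i ^ 2 = Rf x := by simp [Qc]

theorem sum_sgn_sq (x : E8) : ∑ i, sgn i * x i ^ 2 = Xf x := rfl

theorem lap_hf (x : E8) : lap hf x = 16 + 8 * Rf x := by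
  have h1 : lap hf x = lap (fun y => qf y + (fun z => Xf z * Xf z) y) x := rfl
  have hX : ContDiff ℝ 2 Xf := Qc_contDiff _
  rw [h1, lap_add (g := fun z => Xf z * Xf z) qf_contDiff (hX.mul hX), lap_mul hX hX, lap_qf,
    lap_Xf]
  have h2 : ∑ i, pd i Xf x * pd i Xf x = 4 * Rf x := by
    rw [← sum_sq, Finset.mul_sum]
    apply Finset.sum_congr rfl
    intro i _
    rw [pd_Xf]
    have := sgn_sq i
    linear_combination 4 * x i ^ 2 * this
  rw [h2]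
  ring

theorem sum_pd_hf (x : E8) : ∑ i, pd i hf x ^ 2 = 4 * Rf x + 16 * Xf x ^ 2 + 16 * Xf x ^ 2 * Rf x := by
  have h1 : ∀ i, pd i hf x ^ 2 =
      (4 + 16 * Xf x ^ 2) * x i ^ 2 + 16 * Xf x * (sgn i * x i ^ 2) := by
    intro i
    rw [pd_hf]
    have := sgn_sq i
    linear_combination 16 * Xf x ^ 2 * x i ^ 2 * this
  rw [Finset.sum_congr rfl fun i _ => h1 i, Finset.sum_add_distrib, ← Finset.mul_sum,
    ← Finset.mul_sum, sum_sq, sum_sgn_sq]
  ring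

theorem sum_pd_qf (x : E8) : ∑ i, pd i qf x ^ 2 = 4 * Rf x := by
  rw [← sum_sq, Finset.mul_sum]
  apply Finset.sum_congr rfl
  intro i _
  rw [pd_qf]
  ring

theorem sum_pd_qf_hinv (x : E8) : ∑ i, pd i qf x * pd i (fun y => (hf y)⁻¹) x =
    -(4 * Rf x + 8 * Xf x ^ 2) / hf x ^ 2 := by
  have h1 : ∀ i, pd i qf x * pd i (fun y => (hf y)⁻¹) x =
      -(4 * x i ^ 2 + 8 * Xf x * (sgn i * x i ^ 2)) / hf x ^ 2 := by
    intro i
    rw [pd_inv i (diff_of hf_contDiff x) (hf_ne x), pd_qf, pd_hf]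
    ring
  rw [Finset.sum_congr rfl fun i _ => h1 i, ← Finset.sum_div, Finset.sum_neg_distrib,
    Finset.sum_add_distrib, ← Finset.mul_sum, ← Finset.mul_sum, sum_sq, sum_sgn_sq]
  ring

theorem lap_Phi (x : E8) : lap Phi x =
    qf x * (-(16 + 8 * Rf x) / hf x ^ 2 +
      2 * (4 * Rf x + 16 * Xf x ^ 2 + 16 * Xf x ^ 2 * Rf x) / hf x ^ 3) +
    16 * (hf x)⁻¹ + 2 * (-(4 * Rf x + 8 * Xf x ^ 2) / hf x ^ 2) +
    (-16 / qf x ^ 2 + 2 * (4 * Rf x) / qf x ^ 3) := by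
  have h1 : lap Phi x = lap (fun y => (fun z => qf z * (hf z)⁻¹) y + (fun z => (qf z)⁻¹) y) x := rfl
  have hi : ContDiff ℝ 2 (fun y => (hf y)⁻¹) := hf_contDiff.inv hf_ne
  rw [h1, lap_add (f := fun z => qf z * (hf z)⁻¹) (g := fun z => (qf z)⁻¹)
    (qf_contDiff.mul hi) (qf_contDiff.inv qf_ne), lap_mul qf_contDiff hi,
    lap_inv hf_contDiff hf_ne, lap_inv qf_contDiff qf_ne, lap_hf, sum_pd_hf, sum_pd_qf,
    sum_pd_qf_hinv, lap_qf]
  ring

/-- the normal form of `ΔΦ + Φ` -/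
theorem lap_Phi_add (x : E8) (w y : ℝ) (hw : w = (qf x)⁻¹) (hy : y = Xf x ^ 2 * (qf x)⁻¹) :
    lap Phi x + Phi x = -8 * (1 + w) / (1 + y) ^ 2 + 8 * (w - w ^ 2 + 4 * y) / (1 + y) ^ 3 +
      16 * w / (1 + y) - 8 * (w - w ^ 2 + 2 * y * w) / (1 + y) ^ 2 - 8 * w ^ 2 - 8 * w ^ 3 +
      1 / (1 + y) + w := by
  have hq := qf_pos x
  have hR : Rf x = qf x - 1 := by unfold qf; ring
  have hh : hf x = qf x * (1 + y) := by
    rw [hy]
    unfold hf
    have := qf_ne x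
    field_simp
  have hX2 : Xf x ^ 2 = qf x * y := by
    rw [hy]
    have := qf_ne x
    field_simp
  have hy0 : 0 ≤ y := by
    rw [hy]
    have : 0 ≤ (qf x)⁻¹ := by positivity
    positivity
  rw [lap_Phi, Phi, hR, hX2, hh, hw]
  generalize qf x = q at *
  have hq0 : q ≠ 0 := by positivity
  have hy1 : 1 + y ≠ 0 := by positivity
  field_simp
  ring

theorem Phi_near (x : E8) (hx : 20 * Xf x ^ 2 ≤ qf x) : lap Phi x + Phi x ≤ -1 := by
  have hq := qf_pos x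
  obtain ⟨w, hw⟩ : ∃ w, w = (qf x)⁻¹ := ⟨_, rfl⟩
  obtain ⟨y, hy⟩ : ∃ y, y = Xf x ^ 2 * (qf x)⁻¹ := ⟨_, rfl⟩
  rw [lap_Phi_add x w y hw hy]
  have hw0 : 0 ≤ w := by rw [hw]; positivity
  have hw1 : w ≤ 1 := by rw [hw]; exact inv_le_one_of_one_le₀ hq
  have hy0 : 0 ≤ y := by rw [hy]; have : 0 ≤ (qf x)⁻¹ := by positivity
                         positivity
  have hy1 : y ≤ 1 / 20 := by
    rw [hy, ← div_eq_mul_inv, div_le_iff₀ (by positivity)]
    linarith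
  have hpos : 0 < (1 + y) ^ 3 := by positivity
  have key : -8 * (1 + w) * (1 + y) + 8 * (w - w ^ 2 + 4 * y) + 16 * w * (1 + y) ^ 2 -
      8 * (w - w ^ 2 + 2 * y * w) * (1 + y) + (-8 * w ^ 2 - 8 * w ^ 3 + w + 1) * (1 + y) ^ 3 +
      (1 + y) ^ 2 ≤ 0 := by
    have e1 : 0 ≤ w * (1 - w) := by nlinarith
    have e2 : y ^ 2 ≤ y / 20 := by nlinarith
    have e3 : 0 ≤ w ^ 2 := by positivity
    have e4 : 0 ≤ w ^ 3 := by positivity
    have e5 : (1 + y) ^ 2 ≤ 1 + 3 * y := by nlinarith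
    have e6 : (1 + y) ^ 3 ≤ 1 + 4 * y := by nlinarith
    have e7 : 1 ≤ (1 + y) ^ 3 := by nlinarith [mul_nonneg hy0 hy0, mul_nonneg (mul_nonneg hy0 hy0) hy0]
    have f1 : 16 * w * (1 + y) ^ 2 ≤ 16 * w * (1 + 3 * y) :=
      mul_le_mul_of_nonneg_left e5 (by positivity)
    have f2 : (w + 1) * (1 + y) ^ 3 ≤ (w + 1) * (1 + 4 * y) :=
      mul_le_mul_of_nonneg_left e6 (by positivity)
    have f3 : (8 * w ^ 2 + 8 * w ^ 3) * 1 ≤ (8 * w ^ 2 + 8 * w ^ 3) * (1 + y) ^ 3 :=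
      mul_le_mul_of_nonneg_left e7 (by positivity)
    have f4 : 0 ≤ 8 * (w - w ^ 2 + 2 * y * w) * y := by
      have : 0 ≤ w - w ^ 2 + 2 * y * w := by nlinarith [mul_nonneg hy0 hw0]
      positivity
    have f5 : 0 ≤ y * w := mul_nonneg hy0 hw0
    have f6 : y * w ≤ w / 20 := by nlinarith
    have f7 : 0 ≤ (w - 2 / 5) ^ 2 * (w + 1) := by positivity
    nlinarith [sq_nonneg (w - 1 / 2), sq_nonneg (w - 2 / 5)]
  have : (-8 * (1 + w) / (1 + y) ^ 2 + 8 * (w - w ^ 2 + 4 * y) / (1 + y) ^ 3 +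
      16 * w / (1 + y) - 8 * (w - w ^ 2 + 2 * y * w) / (1 + y) ^ 2 - 8 * w ^ 2 - 8 * w ^ 3 +
      1 / (1 + y) + w) + 1 = (-8 * (1 + w) * (1 + y) + 8 * (w - w ^ 2 + 4 * y) +
      16 * w * (1 + y) ^ 2 -
      8 * (w - w ^ 2 + 2 * y * w) * (1 + y) + (-8 * w ^ 2 - 8 * w ^ 3 + w + 1) * (1 + y) ^ 3 +
      (1 + y) ^ 2) / (1 + y) ^ 3 := by
    have hy1 : 1 + y ≠ 0 := by positivity
    field_simp
    ring
  have h2 := div_nonpos_of_nonpos_of_nonneg key hpos.le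
  linarith

theorem Phi_far (x : E8) : lap Phi x + Phi x ≤ 60 := by
  have hq := qf_pos x
  obtain ⟨w, hw⟩ : ∃ w, w = (qf x)⁻¹ := ⟨_, rfl⟩
  obtain ⟨y, hy⟩ : ∃ y, y = Xf x ^ 2 * (qf x)⁻¹ := ⟨_, rfl⟩
  rw [lap_Phi_add x w y hw hy]
  have hw0 : 0 ≤ w := by rw [hw]; positivity
  have hw1 : w ≤ 1 := by rw [hw]; exact inv_le_one_of_one_le₀ hq
  have hy0 : 0 ≤ y := by rw [hy]; have : 0 ≤ (qf x)⁻¹ := by positivity
                         positivity
  have a1 : -8 * (1 + w) / (1 + y) ^ 2 ≤ 0 := by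
    apply div_nonpos_of_nonpos_of_nonneg _ (by positivity)
    nlinarith
  have a2 : 8 * (w - w ^ 2 + 4 * y) / (1 + y) ^ 3 ≤ 40 := by
    rw [div_le_iff₀ (by positivity)]
    nlinarith [mul_nonneg hy0 hy0, mul_nonneg (mul_nonneg hy0 hy0) hy0, mul_nonneg hw0 hw0]
  have a3 : 16 * w / (1 + y) ≤ 16 := by
    rw [div_le_iff₀ (by positivity)]
    nlinarith
  have a4 : 0 ≤ 8 * (w - w ^ 2 + 2 * y * w) / (1 + y) ^ 2 := by
    apply div_nonneg _ (by positivity)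
    nlinarith [mul_nonneg hy0 hw0, mul_nonneg hw0 (sub_nonneg.2 hw1)]
  have a5 : 1 / (1 + y) ≤ 1 := by
    rw [div_le_iff₀ (by positivity)]
    linarith
  have a6 : 0 ≤ w ^ 2 := by positivity
  have a7 : 0 ≤ w ^ 3 := by positivity
  linarith

theorem Phi_pos (x : E8) : 0 < Phi x := by
  unfold Phi
  have := qf_pos x
  have := hf_pos x
  positivity

theorem Phi_le (x : E8) : Phi x ≤ 2 := by
  unfold Phi
  have h1 := qf_pos x
  have h2 := hf_pos x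
  have h3 : qf x ≤ hf x := by
    unfold hf
    nlinarith [mul_self_nonneg (Xf x)]
  have h4 : qf x * (hf x)⁻¹ ≤ 1 := by
    rw [← div_eq_mul_inv, div_le_iff₀ (by positivity)]
    linarith
  have h5 : (qf x)⁻¹ ≤ 1 := inv_le_one_of_one_le₀ h1
  linarith

theorem Phi_ge (x : E8) (hx : 20 * Xf x ^ 2 ≤ qf x) : 1 / 2 ≤ Phi x := by
  unfold Phi
  have h1 := qf_pos x
  have h2 := hf_pos x
  have h4 : 1 / 2 ≤ qf x * (hf x)⁻¹ := by
    rw [← div_eq_mul_inv, le_div_iff₀ (by positivity)]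
    unfold hf
    nlinarith
  have h5 : 0 ≤ (qf x)⁻¹ := by positivity
  linarith

/-! ### radial derivative -/

theorem rad_add {f g : E8 → ℝ} {x : E8} (hf : DifferentiableAt ℝ f x)
    (hg : DifferentiableAt ℝ g x) : rad (fun y => f y + g y) x = rad f x + rad g x := by
  unfold rad
  rw [fderiv_fun_add hf hg]
  rfl

theorem rad_sub {f g : E8 → ℝ} {x : E8} (hf : DifferentiableAt ℝ f x)
    (hg : DifferentiableAt ℝ g x) : rad (fun y => f y - g y) x = rad f x - rad g x := by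
  unfold rad
  rw [fderiv_fun_sub hf hg]
  rfl

theorem rad_mul {f g : E8 → ℝ} {x : E8} (hf : DifferentiableAt ℝ f x)
    (hg : DifferentiableAt ℝ g x) :
    rad (fun y => f y * g y) x = f x * rad g x + g x * rad f x := by
  unfold rad
  rw [fderiv_fun_mul hf hg]
  simp

theorem rad_const_mul {f : E8 → ℝ} {x : E8} (c : ℝ) (hf : DifferentiableAt ℝ f x) :
    rad (fun y => c * f y) x = c * rad f x := by
  unfold rad
  rw [fderiv_const_mul hf]
  simp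

theorem rad_inv {f : E8 → ℝ} {x : E8} (hf : DifferentiableAt ℝ f x) (h0 : f x ≠ 0) :
    rad (fun y => (f y)⁻¹) x = -(rad f x) / f x ^ 2 := by
  unfold rad
  have h1 := (hasDerivAt_inv h0).comp_hasFDerivAt x hf.hasFDerivAt
  have h2 : HasFDerivAt (fun y => (f y)⁻¹) (-(f x ^ 2)⁻¹ • fderiv ℝ f x) x := h1
  rw [h2.fderiv]
  simp
  ring

theorem rad_exp {f : E8 → ℝ} {x : E8} (hf : DifferentiableAt ℝ f x) :
    rad (fun y => Real.exp (f y)) x = Real.exp (f x) * rad f x := by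
  unfold rad
  rw [hf.hasFDerivAt.exp.fderiv]
  simp

theorem rad_qf (x : E8) : rad qf x = 2 * Rf x := by
  have h1 : rad qf x = rad (fun y => (fun _ : E8 => (1 : ℝ)) y + Rf y) x := rfl
  rw [h1, rad_add (by fun_prop) (diff_of (Qc_contDiff _) x), rad_Qc]
  simp [rad]

theorem rad_hf (x : E8) : rad hf x = 2 * Rf x + 4 * Xf x ^ 2 := by
  have h1 : rad hf x = rad (fun y => qf y + (fun z => Xf z * Xf z) y) x := rfl
  have hX : DifferentiableAt ℝ Xf x := diff_of (Qc_contDiff _) x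
  rw [h1, rad_add (g := fun z => Xf z * Xf z) (diff_of qf_contDiff x) (hX.mul hX), rad_qf,
    rad_mul hX hX, rad_Qc]
  ring

theorem rad_Phi (x : E8) : rad Phi x =
    -(Xf x ^ 2 * (2 * Rf x + 4)) / hf x ^ 2 - 2 * Rf x / qf x ^ 2 := by
  have h1 : rad Phi x = rad (fun y => (fun z => qf z * (hf z)⁻¹) y + (fun z => (qf z)⁻¹) y) x := rfl
  have hq := diff_of qf_contDiff x
  have hh := diff_of hf_contDiff x
  rw [h1, rad_add (f := fun z => qf z * (hf z)⁻¹) (g := fun z => (qf z)⁻¹)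
    (hq.mul (hh.inv (hf_ne x))) (hq.inv (qf_ne x)), rad_mul (g := fun z => (hf z)⁻¹) hq (hh.inv (hf_ne x)),
    rad_inv hh (hf_ne x), rad_inv hq (qf_ne x), rad_qf, rad_hf]
  have e1 : hf x = qf x + Xf x ^ 2 := by unfold hf; ring
  have e2 : Rf x = qf x - 1 := by unfold qf; ring
  have h2 := hf_ne x
  rw [e1] at h2 ⊢
  have h3 := qf_ne x
  rw [e2]
  generalize qf x = q at *
  generalize Xf x = X at *
  field_simp
  ring

theorem rad_Phi_nonpos (x : E8) : rad Phi x ≤ 0 := by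
  rw [rad_Phi]
  have h1 := Rf_nonneg x
  have h2 := qf_pos x
  have h3 := hf_pos x
  have a1 : 0 ≤ Xf x ^ 2 * (2 * Rf x + 4) / hf x ^ 2 := by positivity
  have a2 : 0 ≤ 2 * Rf x / qf x ^ 2 := by positivity
  rw [neg_div]
  linarith

theorem rad_Phi_ge (x : E8) : -(4 * Phi x) ≤ rad Phi x := by
  rw [rad_Phi, Phi]
  have h1 := Rf_nonneg x
  have h2 := qf_pos x
  have h3 := hf_pos x
  have e1 : hf x = qf x + Xf x ^ 2 := by unfold hf; ring
  have e2 : qf x = 1 + Rf x := rfl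
  have a1 : Xf x ^ 2 * (2 * Rf x + 4) / hf x ^ 2 ≤ 4 * (qf x * (hf x)⁻¹) := by
    rw [div_le_iff₀ (by positivity)]
    have : 4 * (qf x * (hf x)⁻¹) * hf x ^ 2 = 4 * qf x * hf x := by
      have := hf_ne x
      field_simp
    rw [this, e1, e2]
    nlinarith [sq_nonneg (Xf x), mul_nonneg h1 (sq_nonneg (Xf x))]
  have a2 : 2 * Rf x / qf x ^ 2 ≤ 4 * (qf x)⁻¹ := by
    rw [div_le_iff₀ (by positivity)]
    have : 4 * (qf x)⁻¹ * qf x ^ 2 = 4 * qf x := by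
      have := qf_ne x
      field_simp
    rw [this, e2]
    linarith
  rw [neg_div]
  linarith

end Pool.Agent.Saddle
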