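import Pool.Agent.Saddle.TabC

/-!
# The first cell, with `tanh x / x`
-/

namespace Pool.Agent.Saddle.Eng

theorem chain_cell_lin {w K : ℕ} {C : Cell} (h : chainOK w K C = true)
    (ha : |Real.tanh C.l - hornerR 72 (C.l - C.m) C.q| ≤ (C.E : ℝ) / 2 ^ 72) :
    ∀ x ∈ Set.Icc C.l C.r, |Real.tanh x - hornerR 72 (x - C.m) C.q| ≤
      (C.E : ℝ) / 2 ^ 72 + (C.D : ℝ) / 2 ^ 72 * (x - C.l) := by
  intro x₀ hx₀
  unfold chainOK at h
  rw [Bool.and_eq_true, Bool.and_eq_true, Bool.and_eq_true, Bool.and_eq_true] at h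
  obtain ⟨q1, q2, q3, q4, q5⟩ := h
  have q5 : C.a + 1 ≤ C.b := Nat.le_of_ble_eq_true q5
  have hab : (C.a : ℝ) + 1 ≤ C.b := by exact_mod_cast q5
  refine tanh_step (P := fun x => hornerR 72 (x - C.m) C.q)
    (P' := fun x => hornerR 72 (x - C.m) (dpoly C.q)) (a := C.l) (b := x₀)
    (E := (C.E : ℝ) / 2 ^ 72) (D := (C.D : ℝ) / 2 ^ 72) ?_ ?_ (by positivity) (by positivity)
    ?_ ha le_rfl x₀ ⟨hx₀.1, le_rfl⟩
  · intro x
    have := (hasDerivAt_hornerR 72 C.q (x - C.m)).comp x ((hasDerivAt_id x).sub_const C.m)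
    rw [mul_one] at this
    exact this
  · intro x hx
    obtain ⟨r, hr, hr'⟩ := param hx.1.le (hx.2.trans_le hx₀.2)
    have henv : List.Forall₂ (Rep (2 ^ w) 1 r 0)
        [cellH w 1 C 72 C.q, cellH w 1 C 72 (dpoly C.q)]
        [hornerR 72 (x - C.m) C.q, hornerR 72 (x - C.m) (dpoly C.q)] :=
      .cons (rep_cellH hr C hr' _ _) (.cons (rep_cellH hr C hr' _ _) .nil)
    have h1 := pos_sound hr (le_refl 0) (rep_evw henv _) q1
    have h2 := pos_sound hr (le_refl 0) (rep_evw henv _) q2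
    simp only [Ex.R, Ex.neg_R, exR, Z.toInt, List.getD_cons_zero, List.getD_cons_succ,
      pow_zero, div_one] at h1 h2
    push_cast at h1 h2
    rw [abs_le]
    constructor
    · linarith
    · linarith
  · intro x hx
    obtain ⟨r, hr, hr'⟩ := param hx.1.le (hx.2.trans_le hx₀.2)
    have hl : Rep (2 ^ w) 1 r 0 (leafR w 1 (Z.p 0) (Z.p (Nat.sub C.b C.a)) 6) (x - C.l) := by
      have h := rep_leafR (w := w) (D := 1) (t := 0) hr (Z.p 0) (Z.p (Nat.sub C.b C.a)) 6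
      have e : ((((Z.p 0).toInt : ℤ) : ℝ) + (((Z.p (Nat.sub C.b C.a)).toInt : ℤ) : ℝ) * r) /
          (1 + r) / 2 ^ 6 = x - C.l := by
        have h1 := hr' 64 (-(C.a : ℝ))
        have e2 : (((Z.p 0).toInt : ℤ) : ℝ) + (((Z.p (Nat.sub C.b C.a)).toInt : ℤ) : ℝ) * r =
            64 * C.l + -(C.a : ℝ) + (64 * C.r + -(C.a : ℝ)) * r := by
          have e3 : (((Z.p (Nat.sub C.b C.a)).toInt : ℤ) : ℝ) = (C.b : ℝ) - C.a := by
            change (((C.b - C.a : ℕ) : ℤ) : ℝ) = _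
            rw [Int.cast_natCast, Nat.cast_sub (by omega)]
          rw [e3]
          unfold Cell.l Cell.r
          simp only [Z.toInt]
          push_cast
          ring
        rw [e2, h1]
        unfold Cell.l
        ring
      rw [e] at h
      exact h
    have henv : List.Forall₂ (Rep (2 ^ w) 1 r 0)
        [cellH w 1 C 72 C.q, leafR w 1 (Z.p 0) (Z.p (Nat.sub C.b C.a)) 6]
        [hornerR 72 (x - C.m) C.q, x - C.l] :=
      .cons (rep_cellH hr C hr' _ _) (.cons hl .nil)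
    have h1 := pos_sound hr (le_refl 0) (rep_evw henv _) q3
    simp only [Ex.R, Ex.neg_R, Z.toInt, List.getD_cons_zero, List.getD_cons_succ,
      pow_zero, div_one] at h1
    push_cast at h1
    linarith

/-- a polynomial close to `tanh x / x` on the first cell -/
def om0 : List Z :=
  [.p 1099511627777, .m 468, .m 366503816891, .m 2749741, .p 146661014289, .m 625358111,
    .m 56587153281]

/-- its error -/
def eo0 : ℕ := 4529503

/-- the test for `om0` -/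
noncomputable def omOK (w K : ℕ) : Bool :=
  and (pos w 1 K (evw w 1 [cellH w 1 T0 72 (List.tail T0.q), cellH w 1 T0 40 om0]
    (Ex.add (Ex.add (Ex.lit (Z.p eo0) 60) (Ex.lit (Z.m T0.D) 72))
      (Ex.add (Ex.var 0) (Ex.neg (Ex.var 1))))))
  (pos w 1 K (evw w 1 [cellH w 1 T0 72 (List.tail T0.q), cellH w 1 T0 40 om0]
    (Ex.add (Ex.add (Ex.lit (Z.p eo0) 60) (Ex.lit (Z.m T0.D) 72))
      (Ex.neg (Ex.add (Ex.var 0) (Ex.neg (Ex.var 1)))))))

theorem om_ok : omOK 512 64 = true := by decide +kernel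

theorem T0_l : T0.l = 0 := by
  unfold Cell.l T0
  norm_num

theorem T0_m : T0.m = 0 := by
  unfold Cell.m T0
  norm_num

theorem T0_r : T0.r = 1 / 8 := by
  unfold Cell.r T0
  norm_num

theorem om_bound {x : ℝ} (hx0 : 0 < x) (hx1 : x < 1 / 8) :
    |Real.tanh x / x - hornerR 40 (x - T0.m) om0| ≤ (eo0 : ℝ) / 2 ^ 60 := by
  have hch : |Real.tanh T0.l - hornerR 72 (T0.l - T0.m) T0.q| ≤ (T0.E : ℝ) / 2 ^ 72 := by
    rw [T0_l, T0_m, sub_self, Real.tanh_zero]
    have e3 : hornerR 72 0 T0.q = 0 := by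
      have h1 : T0.q = Z.p 0 :: List.tail T0.q := rfl
      rw [h1, hornerR]
      simp [Z.toInt]
    rw [e3, sub_self, abs_zero]
    positivity
  have h1 := chain_cell_lin tc0 hch x ⟨by rw [T0_l]; exact hx0.le, by rw [T0_r]; exact hx1.le⟩
  rw [T0_l, sub_zero] at h1
  have hE : (T0.E : ℝ) = 0 := by
    change ((0 : ℕ) : ℝ) = 0
    exact Nat.cast_zero
  rw [hE, zero_div, zero_add, T0_m, sub_zero] at h1
  have h2 : hornerR 72 x T0.q = x * hornerR 72 x (List.tail T0.q) := by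
    have h3 : T0.q = Z.p 0 :: List.tail T0.q := rfl
    conv_lhs => rw [h3]
    rw [hornerR]
    simp [Z.toInt]
  rw [h2] at h1
  have h3 : |Real.tanh x / x - hornerR 72 x (List.tail T0.q)| ≤ (T0.D : ℝ) / 2 ^ 72 := by
    have e : Real.tanh x / x - hornerR 72 x (List.tail T0.q) =
        (Real.tanh x - x * hornerR 72 x (List.tail T0.q)) / x := by
      field_simp
    rw [e, abs_div, abs_of_pos hx0, div_le_iff₀ hx0]
    exact h1
  have h := om_ok
  unfold omOK at h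
  rw [Bool.and_eq_true] at h
  have hx1' : x < T0.r := by
    rw [T0_r]
    exact hx1
  have hx0' : T0.l ≤ x := by
    rw [T0_l]
    exact hx0.le
  obtain ⟨r, hr, hr'⟩ := param hx0' hx1'
  have henv : List.Forall₂ (Rep (2 ^ 512) 1 r 0)
      [cellH 512 1 T0 72 (List.tail T0.q), cellH 512 1 T0 40 om0]
      [hornerR 72 (x - T0.m) (List.tail T0.q), hornerR 40 (x - T0.m) om0] :=
    .cons (rep_cellH hr T0 hr' _ _) (.cons (rep_cellH hr T0 hr' _ _) .nil)
  have h4 := pos_sound hr (le_refl 0) (rep_evw henv _) h.1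
  have h5 := pos_sound hr (le_refl 0) (rep_evw henv _) h.2
  simp only [Ex.R, Ex.neg_R, Z.toInt, List.getD_cons_zero, List.getD_cons_succ] at h4 h5
  rw [T0_m, sub_zero] at h4 h5 ⊢
  have e1 : ((-((T0.D : ℕ) : ℤ) : ℤ) : ℝ) / 2 ^ 72 = -((T0.D : ℝ) / 2 ^ 72) := by
    rw [Int.cast_neg, Int.cast_natCast]
    ring
  have e2 : (((eo0 : ℕ) : ℤ) : ℝ) / 2 ^ 60 = (eo0 : ℝ) / 2 ^ 60 := by rw [Int.cast_natCast]
  rw [e1, e2] at h4 h5
  have h6 := abs_le.1 h3
  rw [abs_le]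
  constructor
  · linarith [h6.1]
  · linarith [h6.2]

/-- the environment `tanh x / x, sech, sigma, eps` for the first cell -/
noncomputable def omEnv (w dd : ℕ) (ea eb ke : ℕ) : List G :=
  [gerr eo0 60 (cellH w dd T0 40 om0), gerr T0.f 60 (cellH w dd T0 40 T0.u),
    leafR w dd (Z.p T0.a) (Z.p T0.b) 6, leafT w (Z.p ea) (Z.p eb) ke]

/-- Soundness of the test on a box, first cell. -/
theorem om_sound {w dd K n : ℕ} {pr : List Ex} {ea eb ke : ℕ}
    (h : posn w dd K n (runw w dd pr (omEnv w dd ea eb ke)) = true) {x y : ℝ} (hx1 : 0 < x)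
    (hx2 : x < 1 / 8) (hy1 : (ea : ℝ) / 2 ^ ke ≤ y) (hy2 : y < (eb : ℝ) / 2 ^ ke) :
    ∀ i < n, 0 ≤ (runR pr [Real.tanh x / x, 1 / Real.cosh x, x, y]).getD i 0 := by
  have hx1' : T0.l ≤ x := by
    rw [T0_l]
    exact hx1.le
  have hx2' : x < T0.r := by
    rw [T0_r]
    exact hx2
  obtain ⟨r, hr, hr'⟩ := param hx1' hx2'
  obtain ⟨t, ht, ht'⟩ := param hy1 hy2
  have hp : Rep (2 ^ w) dd r t (gerr eo0 60 (cellH w dd T0 40 om0)) (Real.tanh x / x) :=
    rep_gerr (rep_cellH hr T0 hr' 40 om0) eo0 60 (om_bound hx1 hx2)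
  have hu : Rep (2 ^ w) dd r t (gerr T0.f 60 (cellH w dd T0 40 T0.u)) (1 / Real.cosh x) :=
    rep_gerr (rep_cellH hr T0 hr' 40 T0.u) T0.f 60 (gd0.2 x hx1' hx2')
  have he : Rep (2 ^ w) dd r t (leafT w (Z.p ea) (Z.p eb) ke) y := rep_eps ht ht'
  exact posn_sound hr ht n (rep_run pr (.cons hp (.cons hu (.cons (rep_sig hr hr')
    (.cons he .nil))))) h

end Pool.Agent.Saddle.Eng
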