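import Pool.Agent.Saddle.T3

/-!
# MP_d5c502_an: the soft conditions (all `s`)

Positivity of the approximate solution and of the lower barrier, upper bound, the condition away
from the cone, the radial conditions.
-/

set_option autoImplicit false

noncomputable section

namespace Pool.Agent.Saddle

theorem tanh_ge {x : ℝ} (hx : 0 ≤ x) : x / (1 + x) ≤ Real.tanh x := by
  rw [Real.tanh_eq_sinh_div_cosh, Real.cosh_eq, Real.sinh_eq, Real.exp_neg,
    div_div_div_cancel_right₀ two_ne_zero]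
  have h1 := Real.exp_pos x
  have h2 : 1 + 2 * x ≤ Real.exp x * Real.exp x := by
    rw [← Real.exp_add]
    have := Real.add_one_le_exp (x + x)
    linarith
  rw [div_le_div_iff₀ (by linarith) (by positivity)]
  have h3 : (Real.exp x - (Real.exp x)⁻¹) * (1 + x) - x * (Real.exp x + (Real.exp x)⁻¹) =
      (Real.exp x * Real.exp x - (1 + 2 * x)) * (Real.exp x)⁻¹ := by
    field_simp
    ring
  have h4 : 0 ≤ (Real.exp x * Real.exp x - (1 + 2 * x)) * (Real.exp x)⁻¹ :=
    mul_nonneg (by linarith) (inv_nonneg.2 h1.le)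
  linarith

theorem tanh_nonneg' {x : ℝ} (hx : 0 ≤ x) : 0 ≤ Real.tanh x :=
  le_trans (by positivity) (tanh_ge hx)

theorem tanh_le_one' (x : ℝ) : Real.tanh x ≤ 1 := (tanh_bounds x).2

theorem sech_le_one (x : ℝ) : sech x ≤ 1 := by
  unfold sech
  exact inv_le_one_of_one_le₀ (Real.one_le_cosh x)

theorem sech_x {x : ℝ} (hx : 0 ≤ x) : sech x ^ 2 * (1 + x ^ 2) ≤ 1 := by
  unfold sech
  have h1 : x ≤ Real.sinh x := Real.self_le_sinh_iff.2 hx
  have h2 := Real.cosh_sq x
  have h3 := Real.cosh_pos x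
  have h4 : 1 + x ^ 2 ≤ Real.cosh x ^ 2 := by
    have := pow_le_pow_left₀ hx h1 2
    linarith
  rw [inv_pow, inv_mul_le_iff₀ (by positivity)]
  linarith

/-- The facts used for all `s >= 0`. -/
structure Pos (x y t h : ℝ) : Prop where
  hx : 0 ≤ x
  hy0 : 0 < y
  hy : y ^ 2 ≤ 1 / 24
  hxy : 4 * x * y ≤ 1
  h0 : 0 < h
  h1 : h ≤ 1
  hh : h ^ 2 * (1 + x ^ 2) ≤ 1
  t0 : 0 ≤ t
  t1 : t ≤ 1
  tx : x / (1 + x) ≤ t
  sq : 1 - t ^ 2 = h ^ 2

theorem tanh_le_self {x : ℝ} (hx : 0 ≤ x) : Real.tanh x ≤ x := by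
  have h1 : ∀ y : ℝ, HasDerivAt (fun y => y - Real.tanh y) (Real.tanh y ^ 2) y := by
    intro y
    have h2 := (hasDerivAt_id y).sub (tanh_hasDerivAt y)
    refine h2.congr_deriv ?_
    ring
  have h2 : MonotoneOn (fun y => y - Real.tanh y) (Set.Ici 0) := by
    refine monotoneOn_of_deriv_nonneg (convex_Ici 0) ?_ ?_ ?_
    · exact fun y _ => (h1 y).continuousAt.continuousWithinAt
    · exact fun y _ => (h1 y).differentiableAt.differentiableWithinAt
    · intro y _
      rw [(h1 y).deriv]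
      exact sq_nonneg _
  have h3 := h2 (Set.mem_Ici.2 le_rfl) (Set.mem_Ici.2 hx) hx
  simp only [Real.tanh_zero, sub_zero] at h3
  linarith

theorem pos_of {x y : ℝ} (hr : Reg 24 x y) (hx : 0 ≤ x) : Pos x y (Real.tanh x) (sech x) := by
  refine ⟨hx, hr.1, by linarith [hr.2.1], ?_, sech_pos x, sech_le_one x, sech_x hx,
    tanh_nonneg' hx, tanh_le_one' x, tanh_ge hx, (sech_sq x).symm⟩
  have h1 := hr.2.2
  rw [abs_of_nonneg hx] at h1
  have := sq_nonneg y
  linarith

namespace Ex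

/-- `da / t` -/
def apE : Ex := su [(2513 / 512, 0, 0, 0), (4745 / 1024, 1, 0, 1), (-885 / 512, 2, 0, 0),
  (977 / 512, 3, 0, 1), (-37, 0, 2, 0), (130, 4, 2, 0), (-25, 5, 2, 1), (-150, 3, 2, 1)]

theorem da_ap (x y z w : ℝ) : da.v x y z w = z * apE.v x y z w := by
  unfold da apE
  simp only [Ex.hp, su, mo, pw, v]
  push_cast
  ring

theorem ap_v (x y z w : ℝ) : apE.v x y z w = 2513 / 512 + 4745 / 1024 * x * z -
    885 / 512 * x ^ 2 + 977 / 512 * x ^ 3 * z + y ^ 2 * (-37 + 130 * x ^ 4 -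
    25 * x ^ 5 * z - 150 * x ^ 3 * z) := by
  unfold apE
  simp only [su, mo, pw, v]
  push_cast
  ring

theorem dE_v (x y z w : ℝ) : dE.v x y z w = 3 / 256 + 80 * y ^ 2 := by
  simp only [dE, Ex.hp, v]
  push_cast
  ring

theorem dD_v (x y z w : ℝ) : dD.v x y z w = (3 / 256 + 80 * y ^ 2) * (z * w) := by
  simp only [dD, Ex.hp, v]
  push_cast
  ring

/-- The lower bound for the correction. -/
theorem ap_low {x y t h : ℝ} (T : Pos x y t h) :
    -(1 / 5) ≤ y ^ 2 * (h ^ 2 * apE.v x y t h) := by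
  have hxy2 : x ^ 2 * y ^ 2 ≤ 1 / 16 := by
    have h0 : 0 ≤ 4 * x * y := mul_nonneg (by linarith [T.hx]) T.hy0.le
    have := pow_le_pow_left₀ h0 T.hxy 2
    nlinarith
  have hx := T.hx
  have ht0 := T.t0
  have ht1 := T.t1
  have hy := T.hy
  have hy0 := sq_nonneg y
  have a1 : 25 * x ^ 5 * t * y ^ 2 ≤ 25 / 16 * (x ^ 3 * t) := by
    have h1 : 0 ≤ x ^ 3 * t := by positivity
    have := mul_le_mul_of_nonneg_left hxy2 h1
    linarith
  have a2 : 150 * x ^ 3 * t * y ^ 2 ≤ 150 / 16 * (x * t) := by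
    have h1 : 0 ≤ x * t := by positivity
    have := mul_le_mul_of_nonneg_left hxy2 h1
    linarith
  have a3 : 0 ≤ x ^ 3 * t := by positivity
  have a4 : x * t ≤ x := mul_le_of_le_one_right hx ht1
  have a5 : 0 ≤ x ^ 4 * y ^ 2 := by positivity
  have h1 : -(7 / 4 * x ^ 2 + 5 * x) ≤ apE.v x y t h := by
    rw [ap_v]
    nlinarith
  have h2 : 0 ≤ h ^ 2 := sq_nonneg h
  have h3 := mul_le_mul_of_nonneg_left h1 h2
  have h4 : h ^ 2 * (7 / 4 * x ^ 2 + 5 * x) ≤ 17 / 4 := by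
    have := T.hh
    nlinarith [mul_nonneg h2 (sq_nonneg (x - 1))]
  have h5 : -(17 / 4) ≤ h ^ 2 * apE.v x y t h := by linarith
  have h6 := mul_le_mul_of_nonneg_left h5 hy0
  nlinarith

/-- The upper bound for the correction. -/
theorem ap_upp {x y t h : ℝ} (T : Pos x y t h) :
    y ^ 2 * (h ^ 2 * apE.v x y t h) ≤ 5 := by
  have hxy2 : x ^ 2 * y ^ 2 ≤ 1 / 16 := by
    have h0 : 0 ≤ 4 * x * y := mul_nonneg (by linarith [T.hx]) T.hy0.le
    have := pow_le_pow_left₀ h0 T.hxy 2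
    nlinarith
  have hx := T.hx
  have ht0 := T.t0
  have ht1 := T.t1
  have hy := T.hy
  have hy0 := sq_nonneg y
  have a1 : 0 ≤ 25 * x ^ 5 * t * y ^ 2 := by positivity
  have a2 : 0 ≤ 150 * x ^ 3 * t * y ^ 2 := by positivity
  have a3 : x ^ 3 * t ≤ x ^ 3 := mul_le_of_le_one_right (by positivity) ht1
  have a4 : x * t ≤ x := mul_le_of_le_one_right hx ht1
  have a5 : 130 * x ^ 4 * y ^ 2 ≤ 130 / 16 * x ^ 2 := by
    have := mul_le_mul_of_nonneg_left hxy2 (sq_nonneg x)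
    nlinarith
  have h1 : apE.v x y t h ≤ 5 + 5 * x + 2 * x ^ 3 + 9 * x ^ 2 := by
    rw [ap_v]
    nlinarith [sq_nonneg x]
  have h2 : 0 ≤ h ^ 2 := sq_nonneg h
  have h3 := mul_le_mul_of_nonneg_left h1 (mul_nonneg hy0 h2)
  have h4 : h ^ 2 ≤ 1 := by nlinarith [T.hh, mul_nonneg h2 (sq_nonneg x)]
  have h5 : h ^ 2 * x ^ 2 ≤ 1 := by nlinarith [T.hh]
  have h6 : h ^ 2 * x ≤ 1 := by nlinarith [T.hh, mul_nonneg h2 (sq_nonneg (x - 1))]
  have h7 : y ^ 2 * h ^ 2 * x ^ 3 ≤ 1 / 16 := by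
    have e1 : y ^ 2 * h ^ 2 * x ^ 3 = (x ^ 2 * y ^ 2) * (h ^ 2 * x) := by ring
    rw [e1]
    have : 0 ≤ h ^ 2 * x := by positivity
    nlinarith [mul_nonneg (sq_nonneg x) hy0]
  have h8 : y ^ 2 * h ^ 2 ≤ 1 / 24 := by nlinarith
  have h9 : y ^ 2 * (h ^ 2 * x) ≤ 1 / 24 := by
    have : 0 ≤ h ^ 2 * x := by positivity
    nlinarith
  have h10 : y ^ 2 * (h ^ 2 * x ^ 2) ≤ 1 / 24 := by
    have : 0 ≤ h ^ 2 * x ^ 2 := by positivity
    nlinarith
  nlinarith

/-- The barriers are at least `tau / 2`. -/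
theorem up_ge {x y t h : ℝ} (T : Pos x y t h) :
    t / 2 ≤ t + y ^ 2 * (h ^ 2 * da.v x y t h) - y ^ 2 * dD.v x y t h := by
  rw [da_ap, dD_v]
  have h1 := ap_low T
  have hy := T.hy
  have hy0 := sq_nonneg y
  have h2 : y ^ 2 * ((3 / 256 + 80 * y ^ 2) * h) ≤ 3 / 20 := by
    have h3 : (3 / 256 + 80 * y ^ 2) * h ≤ 7 / 2 := by
      have : (3 / 256 + 80 * y ^ 2) * h ≤ (3 / 256 + 80 * y ^ 2) * 1 :=
        mul_le_mul_of_nonneg_left T.h1 (by positivity)
      nlinarith
    have h4 : 0 ≤ (3 / 256 + 80 * y ^ 2) * h := mul_nonneg (by positivity) T.h0.le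
    nlinarith
  have h5 : 0 ≤ t * (1 / 2 + y ^ 2 * (h ^ 2 * apE.v x y t h) -
      y ^ 2 * ((3 / 256 + 80 * y ^ 2) * h)) := mul_nonneg T.t0 (by linarith)
  nlinarith

theorem up_fv (G : Ex) (x y : ℝ) : (up G).f x y =
    Real.tanh x + y ^ 2 * G.v x y (Real.tanh x) (sech x) := up_f G x y

theorem ga_fv (a : Ex) (x y : ℝ) : (ga a).f x y =
    sech x ^ 2 * a.v x y (Real.tanh x) (sech x) := by
  rw [ga_f, ← sech_sq]
  rfl

theorem dD_nonneg {x y : ℝ} (hx : 0 ≤ x) : 0 ≤ dD.f x y := by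
  have h1 : dD.f x y = (3 / 256 + 80 * y ^ 2) * (Real.tanh x * sech x) := dD_v _ _ _ _
  rw [h1]
  exact mul_nonneg (by positivity) (mul_nonneg (tanh_nonneg' hx) (sech_pos x).le)

/-- The lower barrier is at least `tau / 2`. -/
theorem low_ge {x y : ℝ} (hr : Reg 24 x y) (hx : 0 ≤ x) :
    Real.tanh x / 2 ≤ (up (ga da)).f x y - y ^ 2 * dD.f x y := by
  have h1 := up_ge (pos_of hr hx)
  rw [up_f, ga_fv]
  exact h1

/-- Positivity of the approximate solution. -/
theorem soft_T {x y : ℝ} (hr : Reg 24 x y) (hx : 0 ≤ x) :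
    Real.tanh x / 2 ≤ (up (ga da)).f x y := by
  have h1 := low_ge hr hx
  have h2 := mul_nonneg (sq_nonneg y) (dD_nonneg (y := y) hx)
  linarith

/-- The upper bound. -/
theorem soft_Bd {x y : ℝ} (hr : Reg 24 x y) (hx : 0 ≤ x) : (up (ga da)).f x y ≤ 6 := by
  have T := pos_of hr hx
  have h1 := ap_upp T
  rw [up_f, ga_fv, da_ap]
  have h2 := mul_le_mul_of_nonneg_left h1 T.t0
  have := T.t1
  nlinarith

/-- The condition away from the cone. -/
theorem soft_far {x y : ℝ} (hr : Reg 24 x y) (hx : 0 < x)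
    (hf : 1 - 24 * y ^ 2 + 2 * y ^ 2 < 160 * x ^ 2) :
    1 / 200 ≤ (up (ga da)).f x y - y ^ 2 * dD.f x y := by
  have T := pos_of hr hx.le
  refine le_trans ?_ (low_ge hr hx.le)
  have h1 := T.hy
  have h2 : (1 : ℝ) / 50 ≤ x := by
    by_contra h3
    push Not at h3
    nlinarith
  have h3 : (1 : ℝ) / 100 ≤ x / (1 + x) := by
    rw [div_le_div_iff₀ (by norm_num) (by linarith)]
    linarith
  have h4 := T.tx
  linarith

/-- The bound for `|x| <= 16`. -/
def M : Ex → ℚ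
  | c q => |q|
  | s => 16
  | e => 1
  | t => 1
  | h => 1
  | add a b => a.M + b.M
  | mul a b => a.M * b.M
  | inv _ => 0

theorem M_nonneg (a : Ex) : 0 ≤ a.M := by
  induction a with
  | c q => exact abs_nonneg q
  | s => norm_num [M]
  | e => norm_num [M]
  | t => norm_num [M]
  | h => norm_num [M]
  | add a b ha hb => exact add_nonneg ha hb
  | mul a b ha hb => exact mul_nonneg ha hb
  | inv a _ => exact le_rfl

theorem M_le (a : Ex) (hp : a.pol = true) {x y z w : ℝ} (hx : |x| ≤ 16) (hy : |y| ≤ 1)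
    (hz : |z| ≤ 1) (hw : |w| ≤ 1) : |a.v x y z w| ≤ a.M := by
  induction a with
  | c q =>
    simp only [v, M, Rat.cast_abs]
    exact le_rfl
  | s =>
    simp only [v, M]
    exact_mod_cast hx
  | e =>
    simp only [v, M]
    exact_mod_cast hy
  | t =>
    simp only [v, M]
    exact_mod_cast hz
  | h =>
    simp only [v, M]
    exact_mod_cast hw
  | add a b ha hb =>
    simp only [pol, Bool.and_eq_true] at hp
    have h1 := ha hp.1
    have h2 := hb hp.2
    simp only [v, M]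
    push_cast
    exact (abs_add_le _ _).trans (add_le_add h1 h2)
  | mul a b ha hb =>
    simp only [pol, Bool.and_eq_true] at hp
    have h1 := ha hp.1
    have h2 := hb hp.2
    simp only [v, M]
    push_cast
    rw [abs_mul]
    exact mul_le_mul h1 h2 (abs_nonneg _) (by exact_mod_cast M_nonneg a)
  | inv a _ => simp [pol] at hp

/-- `G / t`, with the sign `q` of the band. -/
def gp (q : ℚ) : Ex := add (mul (sub (c 1) (mul t t)) apE) (mul (c q) (mul dE h))

/-- The coefficient of `s` in the radial derivative. -/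
def ra1 (q : ℚ) : Ex :=
  sub (mul (c 2) (add (sub (c 1) (mul t t)) (mul (mul e e)
    (add (mul (sub (c 1) (mul t t)) (gp q)) (mul t (gp q).ds)))))
    (mul (ke 24) (add (sub (c 1) (mul t t)) (mul (mul e e)
      (mul (sub (c 1) (mul t t)) (gp q)))))

/-- The coefficient of `t` in the radial derivative. -/
def ra2 (q : ℚ) : Ex :=
  mul (c (-1)) (mul (ke 24) (mul (mul e e) (add (mul (c 2) (gp q)) (gp q).eu)))

theorem ax_plus (x y : ℝ) : AX 24 (add (ga da) dD) x y =
    x * (ra1 1).f x y + Real.tanh x * (ra2 1).f x y := by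
  unfold AX RAD ra1 ra2 gp
  simp only [ga, da, apE, dD, dE, Ex.hp, su, mo, pw, sub, ke, f, v, ds, de, eu]
  push_cast
  ring

theorem ax_minus (x y : ℝ) : AX 24 (sub (ga da) dD) x y =
    x * (ra1 (-1)).f x y + Real.tanh x * (ra2 (-1)).f x y := by
  unfold AX RAD ra1 ra2 gp
  simp only [ga, da, apE, dD, dE, Ex.hp, su, mo, pw, sub, ke, f, v, ds, de, eu]
  push_cast
  ring

/-- The radial derivative of the approximate solution, divided by `sech ^ 2`. -/
def rb1 : Ex :=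
  sub (mul (c 2) (add s (mul (mul s (mul e e)) (sub da.ds (mul (mul (c 2) t) da)))))
    (mul (ke 24) (add s (mul (mul e e) (add3 (mul (c 2) da) da.eu
      (mul (mul (c (-2)) (mul s t)) da)))))

/-- The radial derivative of the band, divided by `sech`. -/
def rb2 : Ex :=
  sub (mul (mul (c 2) (mul s (mul e e))) (mul dE (sub (c 1) (mul (c 2) (mul t t)))))
    (mul (ke 24) (mul (mul e e) (add3 (mul (c 2) (mul dE t))
      (mul (mul s dE) (sub (c 1) (mul (c 2) (mul t t)))) (mul (c 160) (mul (mul e e) t)))))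

theorem bx_plus (x y : ℝ) : AX 24 (add (ga da) dD) x y =
    (1 - Real.tanh x ^ 2) * rb1.f x y + sech x * rb2.f x y := by
  unfold AX RAD rb1 rb2 add3
  simp only [ga, da, dD, dE, Ex.hp, sub, ke, f, v, ds, de, eu]
  push_cast
  ring

theorem bx_minus (x y : ℝ) : AX 24 (sub (ga da) dD) x y =
    (1 - Real.tanh x ^ 2) * rb1.f x y - sech x * rb2.f x y := by
  unfold AX RAD rb1 rb2 add3
  simp only [ga, da, dD, dE, Ex.hp, sub, ke, f, v, ds, de, eu]
  push_cast
  ring

theorem bv_le' {x : ℚ × ℤ} {K : ℚ} {m : ℕ} {r : ℝ} (h0 : 0 ≤ x.1) (h1 : x.1 ≤ K)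
    (h2 : x.2 ≤ m) (hr : 16 ≤ r) : bv x r ≤ K * r ^ m := by
  unfold bv
  have h3 : (x.1 : ℝ) ≤ K := by exact_mod_cast h1
  have h4 : r ^ x.2 ≤ r ^ m := by
    rw [← zpow_natCast r m]
    exact zpow_le_zpow_right₀ (by linarith) h2
  have h5 : (0 : ℝ) ≤ x.1 := by exact_mod_cast h0
  exact mul_le_mul h3 h4 (zpow_nonneg (by linarith) _) (h5.trans h3)

theorem d1 : rb1.pol = true ∧ rb1.bd.1 ≤ 5 ∧ rb1.bd.2 ≤ (2 : ℕ) := by
  decide +kernel

theorem d2 : rb2.pol = true ∧ rb2.bd.1 ≤ 1 ∧ rb2.bd.2 ≤ (0 : ℕ) := by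
  decide +kernel

theorem d3 : (ra1 1).pol = true ∧ (ra1 1).M ≤ 10 ^ 10 := by
  decide +kernel

theorem d4 : (ra2 1).pol = true ∧ (ra2 1).M ≤ 10 ^ 12 := by
  decide +kernel

theorem d5 : (ra1 (-1)).pol = true ∧ (ra1 (-1)).M ≤ 10 ^ 10 := by
  decide +kernel

theorem d6 : (ra2 (-1)).pol = true ∧ (ra2 (-1)).M ≤ 10 ^ 12 := by
  decide +kernel

/-- The radial condition from bounds. -/
theorem soft_r {x y A B F U p q : ℝ} (hr : Reg 24 x y) (hx : 0 < x)
    (hU : Real.tanh x / 2 ≤ U)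
    (e1 : F = x * A + Real.tanh x * B) (hA : x ≤ 16 → |A| ≤ 10 ^ 10)
    (hB : x ≤ 16 → |B| ≤ 10 ^ 12)
    (e2 : F = (1 - Real.tanh x ^ 2) * p + q) (hp : 16 ≤ x → |p| ≤ 5 * x ^ 2)
    (hq : 16 ≤ x → |q| ≤ sech x) : F ≤ 10 ^ 14 * U := by
  rcases le_total x 16 with h | h
  · have T := pos_of hr hx.le
    have h1 := (abs_le.1 (hA h)).2
    have h2 := (abs_le.1 (hB h)).2
    have h3 := tanh_le_self hx.le
    have h4 := T.tx
    have h5 : x / 17 ≤ x / (1 + x) := div_le_div_of_nonneg_left hx.le (by linarith) (by linarith)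
    have h6 := mul_le_mul_of_nonneg_left h1 hx.le
    have h7 := mul_le_mul_of_nonneg_left h2 T.t0
    rw [e1]
    linarith
  · have T := tail_of hr h
    have h1 := (abs_le.1 (hp h)).2
    have h2 := (abs_le.1 (hq h)).2
    have h3 : (1 - Real.tanh x ^ 2) * p ≤ sech x ^ 2 * (5 * x ^ 2) := by
      rw [T.sq]
      exact mul_le_mul_of_nonneg_left h1 (sq_nonneg _)
    have h4 : sech x ^ 2 * (5 * x ^ 2) ≤ 1 := by
      have h5 : sech x ^ 2 * (1 + x ^ 2) ≤ 1 := sech_x hx.le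
      have h6 := T.h1
      have h7 := T.h0
      have h8 : sech x ^ 2 * x ^ 2 ≤ sech x * (sech x * x ^ 3) := by
        have h9 : x ^ 2 ≤ x ^ 3 := by
          have : 0 ≤ x ^ 2 * (x - 1) := mul_nonneg (sq_nonneg x) (by linarith)
          linarith
        have := mul_le_mul_of_nonneg_left h9 (sq_nonneg (sech x))
        linarith
      have h10 : sech x * x ^ 3 ≤ 1 / 100 := by
        have h11 := T.hh
        have h12 := T.h3
        have h13 : 0 ≤ x ^ 3 := by positivity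
        have := mul_le_mul_of_nonneg_right h11 h13
        linarith
      nlinarith [mul_nonneg h7.le (pow_nonneg hx.le 3)]
    have h5 : (1 : ℝ) / 2 ≤ Real.tanh x := by
      have h6 := T.ht
      have h7 : Real.exp (-x) ^ 2 ≤ 1 / 4 := by
        have := pow_le_pow_left₀ T.hE.le T.hE1 2
        refine this.trans (by norm_num)
      linarith
    have h6 := T.h1
    rw [e2]
    linarith

theorem hw' (x : ℝ) : |sech x| ≤ 1 := by
  rw [abs_of_pos (sech_pos x)]
  exact sech_le_one x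

theorem hz' {x : ℝ} (hx : 0 ≤ x) : |Real.tanh x| ≤ 1 := by
  rw [abs_of_nonneg (tanh_nonneg' hx)]
  exact tanh_le_one' x

theorem hy' {x y : ℝ} (hr : Reg 24 x y) : |y| ≤ 1 := by
  rw [abs_of_pos hr.1]
  have h1 := hr.2.1
  have h2 := hr.1
  by_contra h3
  push Not at h3
  nlinarith

theorem M_f (a : Ex) (hp : a.pol = true) {K : ℚ} (hK : a.M ≤ K) {x y : ℝ} (hr : Reg 24 x y)
    (hx : 0 ≤ x) (h16 : x ≤ 16) : |a.f x y| ≤ K := by
  have h1 := a.M_le hp (x := x) (y := y) (z := Real.tanh x) (w := sech x)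
    (by rw [abs_of_nonneg hx]; exact h16) (hy' hr) (hz' hx) (hw' x)
  have h2 : (a.M : ℝ) ≤ K := by exact_mod_cast hK
  exact h1.trans h2

/-- The radial condition for the supersolution. -/
theorem soft_ru {x y : ℝ} (hr : Reg 24 x y) (hx : 0 < x) :
    AX 24 (add (ga da) dD) x y ≤ 10 ^ 14 * (up (add (ga da) dD)).f x y := by
  refine soft_r (A := (ra1 1).f x y) (B := (ra2 1).f x y) (p := rb1.f x y)
    (q := sech x * rb2.f x y) hr hx ?_ (ax_plus x y) ?_ ?_ (bx_plus x y) ?_ ?_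
  · have h1 := low_ge hr hx.le
    have h2 := mul_nonneg (sq_nonneg y) (dD_nonneg (y := y) hx.le)
    have h3 : (up (add (ga da) dD)).f x y = (up (ga da)).f x y + y ^ 2 * dD.f x y := by
      rw [up_f, up_f]
      simp only [f, v]
      ring
    rw [h3]
    linarith
  · intro h16
    have := M_f _ d3.1 d3.2 hr hx.le h16
    push_cast at this
    exact this
  · intro h16
    have := M_f _ d4.1 d4.2 hr hx.le h16
    push_cast at this
    exact this
  · intro h16
    have T := tail_of hr h16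
    have := (T.bd rb1 d1.1 (hz' hx.le) (hw' x)).trans
      (bv_le' (bd_nonneg _) d1.2.1 d1.2.2 h16)
    push_cast at this
    exact this
  · intro h16
    have T := tail_of hr h16
    have := (T.bd rb2 d2.1 (hz' hx.le) (hw' x)).trans
      (bv_le' (bd_nonneg _) d2.2.1 d2.2.2 h16)
    rw [abs_mul, abs_of_pos T.h0]
    have h1 := mul_le_mul_of_nonneg_left this T.h0.le
    rw [pow_zero, mul_one, Rat.cast_one, mul_one] at h1
    exact h1

/-- The radial condition for the subsolution. -/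
theorem soft_rl {x y : ℝ} (hr : Reg 24 x y) (hx : 0 < x) :
    AX 24 (sub (ga da) dD) x y ≤ 10 ^ 14 * (up (sub (ga da) dD)).f x y := by
  refine soft_r (A := (ra1 (-1)).f x y) (B := (ra2 (-1)).f x y) (p := rb1.f x y)
    (q := -(sech x * rb2.f x y)) hr hx ?_ (ax_minus x y) ?_ ?_ ?_ ?_ ?_
  · have h1 := low_ge hr hx.le
    have h3 : (up (sub (ga da) dD)).f x y = (up (ga da)).f x y - y ^ 2 * dD.f x y := by
      rw [up_f, up_f]
      simp only [f, sub_v]
      ring
    rw [h3]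
    exact h1
  · intro h16
    have := M_f _ d5.1 d5.2 hr hx.le h16
    push_cast at this
    exact this
  · intro h16
    have := M_f _ d6.1 d6.2 hr hx.le h16
    push_cast at this
    exact this
  · rw [bx_minus]
    ring
  · intro h16
    have T := tail_of hr h16
    have := (T.bd rb1 d1.1 (hz' hx.le) (hw' x)).trans
      (bv_le' (bd_nonneg _) d1.2.1 d1.2.2 h16)
    push_cast at this
    exact this
  · intro h16
    have T := tail_of hr h16
    have := (T.bd rb2 d2.1 (hz' hx.le) (hw' x)).trans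
      (bv_le' (bd_nonneg _) d2.2.1 d2.2.2 h16)
    rw [abs_neg, abs_mul, abs_of_pos T.h0]
    have h1 := mul_le_mul_of_nonneg_left this T.h0.le
    rw [pow_zero, mul_one, Rat.cast_one, mul_one] at h1
    exact h1

/-- `da` is odd. -/
theorem da_odd (x y : ℝ) : da.f (-x) y = -da.f x y := by
  unfold da
  simp only [Ex.hp, f, v, Real.tanh_neg]
  ring

theorem da_ok : da.Ok := pol_ok _ c4.1

theorem dD_ok : dD.Ok := pol_ok _ (by decide +kernel)

/-- The final theorem after the soft conditions and the tail of the residual: it remains to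
check four families of polynomial inequalities. -/
theorem final2 {u : E8 → ℝ} (hu : Sol u) {P Q p q : Ex}
    (hP : P.Ok) (hQ : Q.Ok) (hp : p.Ok) (hq : q.Ok)
    (hsu : ∀ s e, Reg 24 s e → 0 < s → s < 16 → RX 24 (add (ga da) dD) s e ≤ 0)
    (hsl : ∀ s e, Reg 24 s e → 0 < s → s < 16 → 0 ≤ RX 24 (sub (ga da) dD) s e)
    (hpos : ∀ s e y, Reg 24 s e → 0 ≤ s → 0 ≤ y → y ≤ 1 →
      y ≤ 1 - (up (ga da)).f s e + e ^ 2 * dD.f s e →
      dD.f s e * (6 * (up (ga da)).f s e + 2 * y) ≤ QX 24 da P Q p q s e y)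
    (hneg : ∀ s e y, Reg 24 s e → 0 < s → 0 ≤ y → y ≤ 2 →
      y ≤ 1 + (up (ga da)).f s e + e ^ 2 * dD.f s e →
      dD.f s e * (6 * (up (ga da)).f s e + 2 * y) ≤ QX 24 da P Q p q (-s) e y) :
    ∃ B C : E8 → E8, ContDiff ℝ 1 B ∧ ContDiff ℝ 1 C ∧ Star u B C := by
  refine final hu (k := 24) (by norm_num) da_ok dD_ok hP hQ hp hq da_odd 6 (10 ^ 14) (1 / 200)
    (by positivity) (by norm_num) ?_ ?_ ?_ ?_ ?_ ?_ ?_ ?_ ?_ ?_
  · intro s e hr hs
    exact dD_nonneg hs
  · intro s e hr hs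
    rw [Rat.cast_ofNat] at hr
    have h1 := soft_T hr hs
    have := tanh_nonneg' hs
    linarith
  · intro s e hr hs
    rw [Rat.cast_ofNat] at hr
    exact soft_Bd hr hs.le
  · intro s e hr hs hf
    rw [Rat.cast_ofNat] at hr hf
    exact soft_far hr hs hf
  · intro s e hr hs _
    rw [Rat.cast_ofNat] at hr
    exact soft_ru hr hs
  · intro s e hr hs _
    rw [Rat.cast_ofNat] at hr
    rcases lt_or_ge s 16 with h | h
    · exact hsu s e hr hs h
    · exact tail_up hr h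
  · intro s e hr hs _
    rw [Rat.cast_ofNat] at hr
    exact soft_rl hr hs
  · intro s e hr hs _
    rw [Rat.cast_ofNat] at hr
    rcases lt_or_ge s 16 with h | h
    · exact hsl s e hr hs h
    · exact tail_lo hr h
  · intro s e y hr
    rw [Rat.cast_ofNat] at hr
    exact hpos s e y hr
  · intro s e y hr
    rw [Rat.cast_ofNat] at hr
    exact hneg s e y hr

end Ex

end Pool.Agent.Saddle
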