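import Pool.Agent.Saddle.R0
import Pool.Agent.Saddle.T4

/-!
# The programs for the residual and their real values
-/

set_option autoImplicit false

namespace Pool.Agent.Saddle.Eng

/-- The program for the residual in the variables `tanh, sech, s, e`. -/
def prR : List Ex := [
  (.mul (.var 3) (.var 3)),
  (.mul (.var 3) (.var 3)),
  (.mul (.var 2) (.var 2)),
  (.add (.mul (.var 5) (.add (.add (.lit (.m 17227) 9) (.mul (.var 2) (.add (.lit (.m 76763) 7)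
    (.mul (.var 2) (.add (.lit (.m 12517) 4) (.mul (.var 2) (.lit (.p 39072) 0))))))) (.mul
    (.var 1) (.add (.add (.lit (.p 977) 8) (.mul (.var 2) (.add (.lit (.p 45443) 6) (.mul (.var
    2) (.lit (.m 134595) 3))))) (.mul (.var 1) (.add (.mul (.var 2) (.add (.lit (.m 6131) 6)
    (.mul (.var 2) (.add (.lit (.m 135091) 3) (.mul (.var 2) (.lit (.m 208320) 0)))))) (.mul
    (.var 1) (.mul (.var 2) (.mul (.var 2) (.add (.lit (.p 600) 0) (.mul (.var 2) (.lit (.p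
    4800) 0)))))))))))) (.mul (.var 3) (.add (.add (.add (.lit (.p 8609) 8) (.mul (.var 2) (.add
    (.lit (.p 10327) 4) (.mul (.var 2) (.add (.lit (.m 19379) 1) (.mul (.var 2) (.lit (.p 85248)
    0))))))) (.mul (.var 1) (.add (.add (.lit (.p 14661) 8) (.mul (.var 2) (.add (.lit (.m
    113411) 7) (.mul (.var 2) (.add (.lit (.p 31245) 4) (.mul (.var 2) (.lit (.m 28416) 0)))))))
    (.mul (.var 1) (.add (.mul (.var 2) (.add (.lit (.m 122827) 6) (.mul (.var 2) (.add (.lit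
    (.p 117037) 3) (.mul (.var 2) (.lit (.m 508800) 0)))))) (.mul (.var 1) (.mul (.var 2) (.mul
    (.var 2) (.add (.lit (.p 21880) 0) (.mul (.var 2) (.lit (.p 200640) 0))))))))))) (.mul (.var
    3) (.add (.mul (.var 5) (.add (.add (.lit (.m 10739) 8) (.mul (.var 2) (.add (.lit (.p
    180645) 8) (.mul (.var 2) (.add (.lit (.p 552777) 5) (.mul (.var 2) (.lit (.m 117216)
    0))))))) (.mul (.var 1) (.add (.add (.lit (.m 977) 5) (.mul (.var 2) (.add (.lit (.m 52409)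
    7) (.mul (.var 2) (.add (.lit (.p 1030395) 4) (.mul (.var 2) (.lit (.p 907200) 0)))))))
    (.mul (.var 1) (.add (.mul (.var 2) (.add (.lit (.p 51979) 6) (.mul (.var 2) (.add (.lit (.p
    314859) 3) (.mul (.var 2) (.lit (.p 689760) 0)))))) (.mul (.var 1) (.mul (.var 2) (.mul
    (.var 2) (.add (.lit (.m 5400) 0) (.mul (.var 2) (.lit (.m 43200) 0)))))))))))) (.mul (.var
    3) (.add (.add (.add (.lit (.m 1951) 8) (.mul (.var 2) (.add (.lit (.m 5967) 3) (.mul (.var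
    2) (.lit (.p 10656) 0))))) (.mul (.var 1) (.add (.add (.lit (.m 14379) 8) (.mul (.var 2)
    (.add (.lit (.p 377525) 6) (.mul (.var 2) (.add (.lit (.m 565695) 3) (.mul (.var 2) (.lit
    (.p 42624) 0))))))) (.mul (.var 1) (.add (.mul (.var 2) (.add (.lit (.p 23803) 3) (.mul
    (.var 2) (.add (.lit (.m 133923) 0) (.mul (.var 2) (.lit (.m 979200) 0)))))) (.mul (.var 1)
    (.mul (.var 2) (.mul (.var 2) (.add (.lit (.m 37520) 0) (.mul (.var 2) (.lit (.m 351360)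
    0))))))))))) (.mul (.var 3) (.mul (.var 5) (.add (.add (.lit (.p 33215) 9) (.mul (.var 2)
    (.lit (.m 71175) 5))) (.mul (.var 1) (.add (.add (.lit (.p 6839) 8) (.mul (.var 2) (.add
    (.lit (.m 264195) 6) (.mul (.var 2) (.lit (.p 504825) 3))))) (.mul (.var 1) (.add (.mul
    (.var 2) (.add (.lit (.m 25855) 5) (.mul (.var 2) (.add (.lit (.p 177345) 2) (.mul (.var 2)
    (.lit (.p 288000) 0)))))) (.mul (.var 1) (.mul (.var 2) (.mul (.var 2) (.add (.lit (.p 6000)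
    0) (.mul (.var 2) (.lit (.p 48000) 0)))))))))))))))))))),
  (.add (.mul (.var 6) (.mul (.var 3) (.add (.lit (.m 39) 6) (.mul (.var 3) (.add (.lit (.m
    43583) 3) (.mul (.var 3) (.lit (.m 84480) 0))))))) (.mul (.var 4) (.add (.add (.add (.lit
    (.m 9) 8) (.mul (.var 3) (.add (.lit (.m 7647) 5) (.mul (.var 3) (.add (.lit (.p 7031) 0)
    (.mul (.var 3) (.lit (.m 184320) 0))))))) (.mul (.var 2) (.mul (.var 3) (.add (.lit (.p 45)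
    6) (.mul (.var 3) (.add (.lit (.p 38445) 3) (.mul (.var 3) (.lit (.p 38400) 0)))))))) (.mul
    (.var 4) (.add (.mul (.var 6) (.mul (.var 3) (.add (.lit (.p 39) 5) (.mul (.var 3) (.add
    (.lit (.p 43583) 2) (.mul (.var 3) (.lit (.p 168960) 0))))))) (.mul (.var 4) (.add (.mul
    (.var 3) (.add (.lit (.m 27) 4) (.mul (.var 3) (.lit (.m 11520) 0)))) (.mul (.var 2) (.mul
    (.var 3) (.add (.lit (.m 27) 5) (.mul (.var 3) (.add (.lit (.m 23067) 2) (.mul (.var 3)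
    (.lit (.m 46080) 0)))))))))))))),
  (.mul (.var 5) (.add (.add (.add (.lit (.p 2513) 9) (.mul (.var 4) (.lit (.m 37) 0))) (.mul
    (.var 3) (.add (.lit (.m 885) 9) (.mul (.var 3) (.mul (.var 4) (.lit (.p 130) 0)))))) (.mul
    (.var 5) (.mul (.var 7) (.add (.lit (.p 4745) 10) (.mul (.var 3) (.add (.add (.lit (.p 977)
    9) (.mul (.var 4) (.lit (.m 150) 0))) (.mul (.var 3) (.mul (.var 4) (.lit (.m 25)
    0)))))))))),
  (.mul (.var 6) (.add (.lit (.p 3) 8) (.mul (.var 5) (.lit (.p 80) 0)))),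
  (.mul (.var 8) (.var 1)),
  (.mul (.var 9) (.var 4)),
  (.mul (.var 8) (.var 10)),
  (.add (.var 2) (.var 3)),
  (.add (.var 3) (.mul (.lit (.m 1) 0) (.var 4))),
  (.mul (.var 1) (.var 1)),
  (.mul (.var 1) (.var 1)),
  (.add (.add (.var 5) (.mul (.lit (.m 1) 0) (.var 9))) (.mul (.lit (.m 1) 0) (.mul (.var 4)
    (.mul (.var 0) (.add (.mul (.lit (.p 6) 0) (.var 14)) (.mul (.lit (.p 2) 0) (.mul (.var 4)
    (.var 2)))))))),
  (.add (.mul (.var 5) (.mul (.var 2) (.add (.mul (.lit (.p 6) 0) (.var 15)) (.mul (.lit (.p 2)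
    0) (.mul (.var 5) (.var 4)))))) (.mul (.lit (.m 1) 0) (.add (.var 6) (.var 10))))]

/-- The program for the residual divided by `s` in the variables `tanh / s, sech, s, e`. -/
def prR0 : List Ex := [
  (.mul (.var 3) (.var 3)),
  (.mul (.var 3) (.var 3)),
  (.mul (.var 2) (.var 2)),
  (.add (.add (.add (.lit (.m 17227) 9) (.mul (.var 2) (.add (.lit (.m 76763) 7) (.mul (.var 2)
    (.add (.lit (.m 12517) 4) (.mul (.var 2) (.lit (.p 39072) 0))))))) (.mul (.var 1) (.add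
    (.add (.lit (.p 977) 8) (.mul (.var 2) (.add (.lit (.p 45443) 6) (.mul (.var 2) (.lit (.m
    134595) 3))))) (.mul (.var 1) (.add (.mul (.var 2) (.add (.lit (.m 6131) 6) (.mul (.var 2)
    (.add (.lit (.m 135091) 3) (.mul (.var 2) (.lit (.m 208320) 0)))))) (.mul (.var 1) (.mul
    (.var 2) (.mul (.var 2) (.add (.lit (.p 600) 0) (.mul (.var 2) (.lit (.p 4800) 0)))))))))))
    (.mul (.var 3) (.add (.add (.add (.lit (.p 8609) 8) (.mul (.var 2) (.add (.lit (.p 10327) 4)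
    (.mul (.var 2) (.add (.lit (.m 19379) 1) (.mul (.var 2) (.lit (.p 85248) 0))))))) (.mul
    (.var 1) (.add (.add (.lit (.p 14661) 8) (.mul (.var 2) (.add (.lit (.m 113411) 7) (.mul
    (.var 2) (.add (.lit (.p 31245) 4) (.mul (.var 2) (.lit (.m 28416) 0))))))) (.mul (.var 1)
    (.add (.mul (.var 2) (.add (.lit (.m 122827) 6) (.mul (.var 2) (.add (.lit (.p 117037) 3)
    (.mul (.var 2) (.lit (.m 508800) 0)))))) (.mul (.var 1) (.mul (.var 2) (.mul (.var 2) (.add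
    (.lit (.p 21880) 0) (.mul (.var 2) (.lit (.p 200640) 0))))))))))) (.mul (.var 3) (.add (.mul
    (.var 1) (.add (.add (.lit (.m 10739) 8) (.mul (.var 2) (.add (.lit (.p 180645) 8) (.mul
    (.var 2) (.add (.lit (.p 552777) 5) (.mul (.var 2) (.lit (.m 117216) 0))))))) (.mul (.var 1)
    (.add (.add (.lit (.m 977) 5) (.mul (.var 2) (.add (.lit (.m 52409) 7) (.mul (.var 2) (.add
    (.lit (.p 1030395) 4) (.mul (.var 2) (.lit (.p 907200) 0))))))) (.mul (.var 1) (.add (.mul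
    (.var 2) (.add (.lit (.p 51979) 6) (.mul (.var 2) (.add (.lit (.p 314859) 3) (.mul (.var 2)
    (.lit (.p 689760) 0)))))) (.mul (.var 1) (.mul (.var 2) (.mul (.var 2) (.add (.lit (.m 5400)
    0) (.mul (.var 2) (.lit (.m 43200) 0)))))))))))) (.mul (.var 3) (.add (.mul (.var 1) (.add
    (.add (.lit (.m 1951) 8) (.mul (.var 2) (.add (.lit (.m 5967) 3) (.mul (.var 2) (.lit (.p
    10656) 0))))) (.mul (.var 1) (.add (.add (.lit (.m 14379) 8) (.mul (.var 2) (.add (.lit (.p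
    377525) 6) (.mul (.var 2) (.add (.lit (.m 565695) 3) (.mul (.var 2) (.lit (.p 42624)
    0))))))) (.mul (.var 1) (.add (.mul (.var 2) (.add (.lit (.p 23803) 3) (.mul (.var 2) (.add
    (.lit (.m 133923) 0) (.mul (.var 2) (.lit (.m 979200) 0)))))) (.mul (.var 1) (.mul (.var 2)
    (.mul (.var 2) (.add (.lit (.m 37520) 0) (.mul (.var 2) (.lit (.m 351360) 0))))))))))))
    (.mul (.var 3) (.mul (.var 1) (.mul (.var 1) (.add (.add (.lit (.p 33215) 9) (.mul (.var 2)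
    (.lit (.m 71175) 5))) (.mul (.var 1) (.add (.add (.lit (.p 6839) 8) (.mul (.var 2) (.add
    (.lit (.m 264195) 6) (.mul (.var 2) (.lit (.p 504825) 3))))) (.mul (.var 1) (.add (.mul
    (.var 2) (.add (.lit (.m 25855) 5) (.mul (.var 2) (.add (.lit (.p 177345) 2) (.mul (.var 2)
    (.lit (.p 288000) 0)))))) (.mul (.var 1) (.mul (.var 2) (.mul (.var 2) (.add (.lit (.p 6000)
    0) (.mul (.var 2) (.lit (.p 48000) 0))))))))))))))))))))),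
  (.add (.mul (.var 3) (.add (.lit (.m 39) 6) (.mul (.var 3) (.add (.lit (.m 43583) 3) (.mul
    (.var 3) (.lit (.m 84480) 0)))))) (.mul (.var 4) (.add (.add (.add (.lit (.m 9) 8) (.mul
    (.var 3) (.add (.lit (.m 7647) 5) (.mul (.var 3) (.add (.lit (.p 7031) 0) (.mul (.var 3)
    (.lit (.m 184320) 0))))))) (.mul (.var 2) (.mul (.var 3) (.add (.lit (.p 45) 6) (.mul (.var
    3) (.add (.lit (.p 38445) 3) (.mul (.var 3) (.lit (.p 38400) 0)))))))) (.mul (.var 4) (.add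
    (.mul (.var 2) (.mul (.var 3) (.add (.lit (.p 39) 5) (.mul (.var 3) (.add (.lit (.p 43583)
    2) (.mul (.var 3) (.lit (.p 168960) 0))))))) (.mul (.var 4) (.mul (.var 2) (.add (.mul (.var
    3) (.add (.lit (.m 27) 4) (.mul (.var 3) (.lit (.m 11520) 0)))) (.mul (.var 2) (.mul (.var
    3) (.add (.lit (.m 27) 5) (.mul (.var 3) (.add (.lit (.m 23067) 2) (.mul (.var 3) (.lit (.m
    46080) 0))))))))))))))),
  (.mul (.var 5) (.add (.add (.add (.lit (.p 2513) 9) (.mul (.var 4) (.lit (.m 37) 0))) (.mul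
    (.var 3) (.add (.lit (.m 885) 9) (.mul (.var 3) (.mul (.var 4) (.lit (.p 130) 0)))))) (.mul
    (.var 5) (.mul (.var 3) (.add (.lit (.p 4745) 10) (.mul (.var 3) (.add (.add (.lit (.p 977)
    9) (.mul (.var 4) (.lit (.m 150) 0))) (.mul (.var 3) (.mul (.var 4) (.lit (.m 25)
    0)))))))))),
  (.mul (.var 6) (.add (.lit (.p 3) 8) (.mul (.var 5) (.lit (.p 80) 0)))),
  (.mul (.var 8) (.var 1)),
  (.mul (.var 9) (.var 4)),
  (.mul (.var 8) (.var 10)),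
  (.mul (.var 9) (.mul (.var 11) (.var 8))),
  (.add (.var 3) (.var 4)),
  (.add (.var 4) (.mul (.lit (.m 1) 0) (.var 5))),
  (.mul (.var 1) (.var 1)),
  (.mul (.var 1) (.var 1)),
  (.add (.add (.var 6) (.mul (.lit (.m 1) 0) (.var 10))) (.mul (.lit (.m 1) 0) (.mul (.var 4)
    (.mul (.var 0) (.add (.mul (.lit (.p 6) 0) (.var 15)) (.mul (.lit (.p 2) 0) (.mul (.var 5)
    (.var 2)))))))),
  (.add (.mul (.var 5) (.mul (.var 2) (.add (.mul (.lit (.p 6) 0) (.var 16)) (.mul (.lit (.p 2)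
    0) (.mul (.var 6) (.var 4)))))) (.mul (.lit (.m 1) 0) (.add (.var 7) (.var 11))))]

/-- The linear part of the residual of `(1 - t ^ 2) a`, divided by `1 - t ^ 2`. -/
noncomputable def RTr (x y z : ℝ) : ℝ :=
  8609 / 256 * z - 1951 / 256 * z ^ 3 + 10327 / 16 * y ^ 2 * z - 5967 / 8 * y ^ 2 * z ^ 3 -
    19379 / 2 * y ^ 4 * z + 10656 * y ^ 4 * z ^ 3 + 85248 * y ^ 6 * z - 17227 / 512 * x - 10739
    / 256 * x * z ^ 2 + 33215 / 512 * x * z ^ 4 - 76763 / 128 * x * y ^ 2 + 180645 / 256 * x * y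
    ^ 2 * z ^ 2 - 71175 / 32 * x * y ^ 2 * z ^ 4 - 12517 / 16 * x * y ^ 4 + 552777 / 32 * x * y
    ^ 4 * z ^ 2 + 39072 * x * y ^ 6 - 117216 * x * y ^ 6 * z ^ 2 + 14661 / 256 * x ^ 2 * z -
    14379 / 256 * x ^ 2 * z ^ 3 - 113411 / 128 * x ^ 2 * y ^ 2 * z + 377525 / 64 * x ^ 2 * y ^ 2
    * z ^ 3 + 31245 / 16 * x ^ 2 * y ^ 4 * z - 565695 / 8 * x ^ 2 * y ^ 4 * z ^ 3 - 28416 * x ^
    2 * y ^ 6 * z + 42624 * x ^ 2 * y ^ 6 * z ^ 3 + 977 / 256 * x ^ 3 - 977 / 32 * x ^ 3 * z ^ 2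
    + 6839 / 256 * x ^ 3 * z ^ 4 + 45443 / 64 * x ^ 3 * y ^ 2 - 52409 / 128 * x ^ 3 * y ^ 2 * z
    ^ 2 - 264195 / 64 * x ^ 3 * y ^ 2 * z ^ 4 - 134595 / 8 * x ^ 3 * y ^ 4 + 1030395 / 16 * x ^
    3 * y ^ 4 * z ^ 2 + 504825 / 8 * x ^ 3 * y ^ 4 * z ^ 4 + 907200 * x ^ 3 * y ^ 6 * z ^ 2 -
    122827 / 64 * x ^ 4 * y ^ 2 * z + 23803 / 8 * x ^ 4 * y ^ 2 * z ^ 3 + 117037 / 8 * x ^ 4 * y
    ^ 4 * z - 133923 * x ^ 4 * y ^ 4 * z ^ 3 - 508800 * x ^ 4 * y ^ 6 * z - 979200 * x ^ 4 * y ^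
    6 * z ^ 3 - 6131 / 64 * x ^ 5 * y ^ 2 + 51979 / 64 * x ^ 5 * y ^ 2 * z ^ 2 - 25855 / 32 * x
    ^ 5 * y ^ 2 * z ^ 4 - 135091 / 8 * x ^ 5 * y ^ 4 + 314859 / 8 * x ^ 5 * y ^ 4 * z ^ 2 +
    177345 / 4 * x ^ 5 * y ^ 4 * z ^ 4 - 208320 * x ^ 5 * y ^ 6 + 689760 * x ^ 5 * y ^ 6 * z ^ 2
    + 288000 * x ^ 5 * y ^ 6 * z ^ 4 + 21880 * x ^ 6 * y ^ 4 * z - 37520 * x ^ 6 * y ^ 4 * z ^ 3
    + 200640 * x ^ 6 * y ^ 6 * z - 351360 * x ^ 6 * y ^ 6 * z ^ 3 + 600 * x ^ 7 * y ^ 4 - 5400 *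
    x ^ 7 * y ^ 4 * z ^ 2 + 6000 * x ^ 7 * y ^ 4 * z ^ 4 + 4800 * x ^ 7 * y ^ 6 - 43200 * x ^ 7
    * y ^ 6 * z ^ 2 + 48000 * x ^ 7 * y ^ 6 * z ^ 4

/-- The residual of the band, divided by `sech`. -/
noncomputable def RDr (x y z : ℝ) : ℝ :=
  -9 / 256 * z - 7647 / 32 * y ^ 2 * z - 27 / 16 * y ^ 2 * z ^ 3 + 7031 * y ^ 4 * z - 11520 * y
    ^ 4 * z ^ 3 - 184320 * y ^ 6 * z - 39 / 64 * x * y ^ 2 + 39 / 32 * x * y ^ 2 * z ^ 2 - 43583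
    / 8 * x * y ^ 4 + 43583 / 4 * x * y ^ 4 * z ^ 2 - 84480 * x * y ^ 6 + 168960 * x * y ^ 6 * z
    ^ 2 + 45 / 64 * x ^ 2 * y ^ 2 * z - 27 / 32 * x ^ 2 * y ^ 2 * z ^ 3 + 38445 / 8 * x ^ 2 * y
    ^ 4 * z - 23067 / 4 * x ^ 2 * y ^ 4 * z ^ 3 + 38400 * x ^ 2 * y ^ 6 * z - 46080 * x ^ 2 * y
    ^ 6 * z ^ 3

/-- The function `a / t`. -/
noncomputable def Ar (x y z : ℝ) : ℝ :=
  2513 / 512 - 37 * y ^ 2 + 4745 / 1024 * x * z - 885 / 512 * x ^ 2 + 977 / 512 * x ^ 3 * z -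
    150 * x ^ 3 * y ^ 2 * z + 130 * x ^ 4 * y ^ 2 - 25 * x ^ 5 * y ^ 2 * z

/-- The residual of `(1 - t ^ 2) a + q D`, divided by `sech`. -/
noncomputable def Rr (q x y z w : ℝ) : ℝ :=
  w * RTr x y z + q * RDr x y z - y ^ 2 * w * (w * (z * Ar x y z) + q * ((3 / 256 + 80 * y ^ 2)
    * z)) ^ 2 *
    (6 * z + 2 * (y ^ 2 * w * (w * (z * Ar x y z) + q * ((3 / 256 + 80 * y ^ 2) * z))))

/-- `RTr` divided by `x`. -/
noncomputable def RTo (x y o : ℝ) : ℝ :=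
  -17227 / 512 + 8609 / 256 * o - 76763 / 128 * y ^ 2 + 10327 / 16 * y ^ 2 * o - 12517 / 16 * y
    ^ 4 - 19379 / 2 * y ^ 4 * o + 39072 * y ^ 6 + 85248 * y ^ 6 * o + 977 / 256 * x ^ 2 + 14661
    / 256 * x ^ 2 * o - 10739 / 256 * x ^ 2 * o ^ 2 - 1951 / 256 * x ^ 2 * o ^ 3 + 45443 / 64 *
    x ^ 2 * y ^ 2 - 113411 / 128 * x ^ 2 * y ^ 2 * o + 180645 / 256 * x ^ 2 * y ^ 2 * o ^ 2 -
    5967 / 8 * x ^ 2 * y ^ 2 * o ^ 3 - 134595 / 8 * x ^ 2 * y ^ 4 + 31245 / 16 * x ^ 2 * y ^ 4 *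
    o + 552777 / 32 * x ^ 2 * y ^ 4 * o ^ 2 + 10656 * x ^ 2 * y ^ 4 * o ^ 3 - 28416 * x ^ 2 * y
    ^ 6 * o - 117216 * x ^ 2 * y ^ 6 * o ^ 2 - 977 / 32 * x ^ 4 * o ^ 2 - 14379 / 256 * x ^ 4 *
    o ^ 3 + 33215 / 512 * x ^ 4 * o ^ 4 - 6131 / 64 * x ^ 4 * y ^ 2 - 122827 / 64 * x ^ 4 * y ^
    2 * o - 52409 / 128 * x ^ 4 * y ^ 2 * o ^ 2 + 377525 / 64 * x ^ 4 * y ^ 2 * o ^ 3 - 71175 /
    32 * x ^ 4 * y ^ 2 * o ^ 4 - 135091 / 8 * x ^ 4 * y ^ 4 + 117037 / 8 * x ^ 4 * y ^ 4 * o +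
    1030395 / 16 * x ^ 4 * y ^ 4 * o ^ 2 - 565695 / 8 * x ^ 4 * y ^ 4 * o ^ 3 - 208320 * x ^ 4 *
    y ^ 6 - 508800 * x ^ 4 * y ^ 6 * o + 907200 * x ^ 4 * y ^ 6 * o ^ 2 + 42624 * x ^ 4 * y ^ 6
    * o ^ 3 + 6839 / 256 * x ^ 6 * o ^ 4 + 51979 / 64 * x ^ 6 * y ^ 2 * o ^ 2 + 23803 / 8 * x ^
    6 * y ^ 2 * o ^ 3 - 264195 / 64 * x ^ 6 * y ^ 2 * o ^ 4 + 600 * x ^ 6 * y ^ 4 + 21880 * x ^
    6 * y ^ 4 * o + 314859 / 8 * x ^ 6 * y ^ 4 * o ^ 2 - 133923 * x ^ 6 * y ^ 4 * o ^ 3 + 504825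
    / 8 * x ^ 6 * y ^ 4 * o ^ 4 + 4800 * x ^ 6 * y ^ 6 + 200640 * x ^ 6 * y ^ 6 * o + 689760 * x
    ^ 6 * y ^ 6 * o ^ 2 - 979200 * x ^ 6 * y ^ 6 * o ^ 3 - 25855 / 32 * x ^ 8 * y ^ 2 * o ^ 4 -
    5400 * x ^ 8 * y ^ 4 * o ^ 2 - 37520 * x ^ 8 * y ^ 4 * o ^ 3 + 177345 / 4 * x ^ 8 * y ^ 4 *
    o ^ 4 - 43200 * x ^ 8 * y ^ 6 * o ^ 2 - 351360 * x ^ 8 * y ^ 6 * o ^ 3 + 288000 * x ^ 8 * y
    ^ 6 * o ^ 4 + 6000 * x ^ 10 * y ^ 4 * o ^ 4 + 48000 * x ^ 10 * y ^ 6 * o ^ 4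

/-- `RDr` divided by `x`. -/
noncomputable def RDo (x y o : ℝ) : ℝ :=
  -9 / 256 * o - 39 / 64 * y ^ 2 - 7647 / 32 * y ^ 2 * o - 43583 / 8 * y ^ 4 + 7031 * y ^ 4 * o
    - 84480 * y ^ 6 - 184320 * y ^ 6 * o + 45 / 64 * x ^ 2 * y ^ 2 * o + 39 / 32 * x ^ 2 * y ^ 2
    * o ^ 2 - 27 / 16 * x ^ 2 * y ^ 2 * o ^ 3 + 38445 / 8 * x ^ 2 * y ^ 4 * o + 43583 / 4 * x ^
    2 * y ^ 4 * o ^ 2 - 11520 * x ^ 2 * y ^ 4 * o ^ 3 + 38400 * x ^ 2 * y ^ 6 * o + 168960 * x ^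
    2 * y ^ 6 * o ^ 2 - 27 / 32 * x ^ 4 * y ^ 2 * o ^ 3 - 23067 / 4 * x ^ 4 * y ^ 4 * o ^ 3 -
    46080 * x ^ 4 * y ^ 6 * o ^ 3

/-- `Ar` with `z = x o`. -/
noncomputable def Ao (x y o : ℝ) : ℝ :=
  2513 / 512 - 37 * y ^ 2 - 885 / 512 * x ^ 2 + 4745 / 1024 * x ^ 2 * o + 977 / 512 * x ^ 4 * o
    + 130 * x ^ 4 * y ^ 2 - 150 * x ^ 4 * y ^ 2 * o - 25 * x ^ 6 * y ^ 2 * o

/-- `Rr` divided by `x`. -/
noncomputable def Ro (q x y o w : ℝ) : ℝ :=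
  w * RTo x y o + q * RDo x y o - y ^ 2 * w * x ^ 2 * (w * (o * Ao x y o) + q * ((3 / 256 + 80 *
    y ^ 2) * o)) ^ 2 *
    (6 * o + 2 * (y ^ 2 * w * (w * (o * Ao x y o) + q * ((3 / 256 + 80 * y ^ 2) * o))))

theorem RTr_o (x y o : ℝ) : RTr x y (x * o) = x * RTo x y o := by
  unfold RTr RTo
  ring

theorem RDr_o (x y o : ℝ) : RDr x y (x * o) = x * RDo x y o := by
  unfold RDr RDo
  ring

theorem Ar_o (x y o : ℝ) : Ar x y (x * o) = Ao x y o := by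
  unfold Ar Ao
  ring

theorem Rr_o (q x y o w : ℝ) : Rr q x y (x * o) w = x * Ro q x y o w := by
  unfold Rr Ro
  rw [RTr_o, RDr_o, Ar_o]
  ring

theorem prR_0 (x y z w : ℝ) : (runR prR [z, w, x, y]).getD 0 0 = -Rr 1 x y z w := by
  unfold Rr RTr RDr Ar
  simp only [prR, runR, Ex.R, Z.toInt, List.getD_cons_zero, List.getD_cons_succ]
  push_cast
  ring

theorem prR_1 (x y z w : ℝ) : (runR prR [z, w, x, y]).getD 1 0 = Rr (-1) x y z w := by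
  unfold Rr RTr RDr Ar
  simp only [prR, runR, Ex.R, Z.toInt, List.getD_cons_zero, List.getD_cons_succ]
  push_cast
  ring

theorem prR0_0 (x y z w : ℝ) : (runR prR0 [z, w, x, y]).getD 0 0 = -Ro 1 x y z w := by
  unfold Ro RTo RDo Ao
  simp only [prR0, runR, Ex.R, Z.toInt, List.getD_cons_zero, List.getD_cons_succ]
  push_cast
  ring

theorem prR0_1 (x y z w : ℝ) : (runR prR0 [z, w, x, y]).getD 1 0 = Ro (-1) x y z w := by
  unfold Ro RTo RDo Ao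
  simp only [prR0, runR, Ex.R, Z.toInt, List.getD_cons_zero, List.getD_cons_succ]
  push_cast
  ring

end Pool.Agent.Saddle.Eng

namespace Pool.Agent.Saddle.Ex

theorem da_r (x y z w : ℝ) : da.v x y z w = z * Eng.Ar x y z := by
  rw [da_ap]
  unfold apE Eng.Ar
  simp only [su, mo, pw, v]
  push_cast
  ring

theorem ld_r (x y z w : ℝ) : ld.v x y z w = Eng.RDr x y z := by
  unfold ld Eng.RDr
  simp only [su, mo, pw, v]
  push_cast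
  ring

theorem rt_r (x y z w : ℝ) : (rt 24 da).v x y z w = Eng.RTr x y z -
    6 * z * y ^ 2 * ((1 - z ^ 2) * (z * Eng.Ar x y z) ^ 2) -
    2 * y ^ 4 * ((1 - z ^ 2) ^ 2 * (z * Eng.Ar x y z) ^ 3) := by
  unfold rt add3 da Eng.RTr Eng.Ar
  simp only [Ex.hp, sub, ke, v, ds, de, eu]
  push_cast
  ring

end Pool.Agent.Saddle.Ex
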