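import Pool.Agent.Saddle.A4
import Mathlib.Analysis.InnerProductSpace.Laplacian

set_option autoImplicit false

/-!
# Bounded solutions of the Allen-Cahn equation have absolute value less than one

The maximum principle gives `|u| ≤ 1` for a bounded solution, and the boundary point lemma gives
`|u| < 1` if `u` vanishes at the origin.
-/

open Filter Topology

noncomputable section

namespace Pool.Agent.Saddle

theorem laplacian_eq_lap {u : E8 → ℝ} (hu : ContDiff ℝ 2 u) (x : E8) :
    Laplacian.laplacian u x = lap u x := by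
  rw [InnerProductSpace.laplacian_eq_iteratedFDeriv_orthonormalBasis u
    (EuclideanSpace.basisFun (Fin 8) ℝ), lap_eq]
  refine Finset.sum_congr rfl fun i _ => ?_
  rw [iteratedFDeriv_two_apply]
  simp only [EuclideanSpace.basisFun_apply, Matrix.cons_val_zero, Matrix.cons_val_one]
  have h1 : DifferentiableAt ℝ (fderiv ℝ u) x :=
    (hu.fderiv_right (m := 1) (by norm_num)).differentiable one_ne_zero x
  have h2 : fderiv ℝ (fun y => fderiv ℝ u y (ei i)) x (ei i) =
      fderiv ℝ (fderiv ℝ u) x (ei i) (ei i) := by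
    rw [fderiv_clm_apply h1 (differentiableAt_const _)]
    simp
  exact h2.symm

theorem lap_neg {u : E8 → ℝ} (hu : ContDiff ℝ 2 u) (x : E8) : lap (fun y => -u y) x = -lap u x := by
  have h := lap_const_mul hu (-1) x
  simpa using h

theorem lap_const (c : ℝ) (x : E8) : lap (fun _ => c) x = 0 := by
  rw [lap_eq]
  refine Finset.sum_eq_zero fun i _ => ?_
  have h1 : pd i (fun _ : E8 => c) = fun _ => 0 := by
    funext y
    exact pd_const i c y
  rw [h1, pd_const]

/-- a bounded solution is at most one -/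
theorem le_one_of_bounded {u : E8 → ℝ} (hu : ContDiff ℝ 2 u)
    (heq : ∀ x, lap u x + u x - u x ^ 3 = 0) {M : ℝ} (hM : ∀ x, u x ≤ M) (x₀ : E8) :
    u x₀ ≤ 1 := by
  by_contra hcon
  push Not at hcon
  set a := u x₀ with ha
  set b := (1 + a) / 2 with hb
  have hb1 : 1 < b := by linarith
  have hba : b < a := by linarith
  have hc : 0 < b ^ 3 - b := by nlinarith [mul_pos (sub_pos.2 hb1) (sub_pos.2 hb1)]
  obtain ⟨ε, hε0, hε1, hε⟩ : ∃ ε, 0 < ε ∧ ε < (b ^ 3 - b) / 16 ∧ b < a - ε * Rf x₀ := by
    apply pick _ (by positivity)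
    have hF : ContinuousAt (fun t : ℝ => a - t * Rf x₀) 0 := by fun_prop
    apply continuousAt_const.eventually_lt hF
    simpa using hba
  -- the perturbed function
  set v : E8 → ℝ := fun x => u x - ε * Rf x with hv
  have hRc : ContDiff ℝ 2 Rf := Qc_contDiff _
  have hεR : ContDiff ℝ 2 (fun x : E8 => ε * Rf x) := contDiff_const.mul hRc
  have hvc : ContDiff ℝ 2 v := hu.sub hεR
  set ρ := max ((M - b) / ε) (Rf x₀) with hρ
  have hKc : IsCompact {x : E8 | Rf x ≤ ρ} :=
    isCompact_region (isClosed_le Rf_cont continuous_const) ρ fun x hx => hx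
  have hx₀K : x₀ ∈ {x : E8 | Rf x ≤ ρ} := by
    change Rf x₀ ≤ ρ
    exact le_max_right _ _
  obtain ⟨p, hpK, hpmax⟩ := hKc.exists_isMaxOn ⟨x₀, hx₀K⟩ hvc.continuous.continuousOn
  have hvp : b < v p := hε.trans_le (hpmax hx₀K)
  have hup : b < u p := by
    have h1 : v p = u p - ε * Rf p := rfl
    have h2 := mul_nonneg hε0.le (Rf_nonneg p)
    linarith
  have hglob : ∀ x, v x ≤ v p := by
    intro x
    by_cases hx : Rf x ≤ ρ
    · exact hpmax hx
    · push Not at hx
      have h1 : (M - b) / ε < Rf x := (le_max_left _ _).trans_lt hx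
      rw [div_lt_iff₀ hε0] at h1
      have h2 := hM x
      have h3 : v x = u x - ε * Rf x := rfl
      nlinarith
  have h1 : lap v p ≤ 0 := lap_nonpos_of_max hvc (Eventually.of_forall hglob)
  have h2 : lap v p = lap u p - ε * lap Rf p := by
    rw [hv, lap_sub hu hεR, lap_const_mul hRc]
  have h3 : lap Rf p = 16 := by
    have : lap Rf p = 2 * ∑ _i : Fin 8, (1 : ℝ) := lap_Qc _ p
    rw [this]
    simp
    norm_num
  rw [h2, h3] at h1
  have h4 := heq p
  have h5 : b ^ 3 - b < u p ^ 3 - u p := by
    have h6 : 0 < (u p - b) * (u p ^ 2 + u p * b + b ^ 2 - 1) := by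
      apply mul_pos (by linarith)
      nlinarith
    linarith [h6, show (u p - b) * (u p ^ 2 + u p * b + b ^ 2 - 1) =
      (u p ^ 3 - u p) - (b ^ 3 - b) by ring]
  have h6 : ε * 16 < b ^ 3 - b := by
    rwa [lt_div_iff₀ (by norm_num)] at hε1
  linarith

/-- a bounded solution has absolute value at most one -/
theorem abs_le_one_of_bounded {u : E8 → ℝ} (hu : ContDiff ℝ 2 u)
    (heq : ∀ x, lap u x + u x - u x ^ 3 = 0) {M : ℝ} (hM : ∀ x, |u x| ≤ M) (x : E8) :
    |u x| ≤ 1 := by
  rw [abs_le]
  constructor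
  · have h1 := le_one_of_bounded (u := fun y => -u y) hu.neg (fun y => by
      rw [lap_neg hu]
      have := heq y
      linarith [this, show (-u y) ^ 3 = -(u y ^ 3) by ring]) (M := M) (fun y => by
      have := (abs_le.1 (hM y)).1
      linarith) x
    linarith
  · exact le_one_of_bounded hu heq (fun y => (abs_le.1 (hM y)).2) x

/-- Strong maximum principle: a nonnegative `w` with `Δ w ≤ 2 w` and `w 0 > 0` is positive. -/
theorem pos_of_super {w : E8 → ℝ} (hw : ContDiff ℝ 2 w) (h0 : ∀ x, 0 ≤ w x)
    (hs : ∀ x, lap w x ≤ 2 * w x) (hw0 : 0 < w 0) (x : E8) : 0 < w x := by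
  by_contra hcon
  have hx0 : w x = 0 := le_antisymm (not_lt.1 hcon) (h0 x)
  -- the zero closest to the origin
  set Z : Set E8 := {y | w y = 0} with hZ
  have hZc : IsClosed Z := isClosed_eq hw.continuous continuous_const
  obtain ⟨z, hzZ, hz⟩ := hZc.exists_infDist_eq_dist ⟨x, hx0⟩ (0 : E8)
  have hzw : w z = 0 := hzZ
  have hz0 : z ≠ 0 := by
    rintro rfl
    linarith
  set r := ‖z‖ with hr
  have hr0 : 0 < r := norm_pos_iff.2 hz0
  have hin : ∀ y : E8, ‖y‖ < r → 0 < w y := by
    intro y hy
    rcases (h0 y).lt_or_eq with h | h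
    · exact h
    · exfalso
      have h1 := Metric.infDist_le_dist_of_mem (x := (0 : E8)) (s := Z) (y := y) h.symm
      rw [hz, dist_zero_left, dist_zero_left] at h1
      linarith
  -- the minimum on the inner ball
  obtain ⟨q, hq, hqmin⟩ := (isCompact_closedBall (0 : E8) (r / 2)).exists_isMinOn
    ⟨0, Metric.mem_closedBall_self (by positivity)⟩ hw.continuous.continuousOn
  set m := w q with hm
  have hm0 : 0 < m := by
    apply hin
    rw [Metric.mem_closedBall, dist_zero_right] at hq
    linarith
  set α := 18 / r ^ 2 + 1 with hα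
  have hα1 : 1 ≤ α := by
    have : 0 < 18 / r ^ 2 := by positivity
    linarith
  have hαr : 18 ≤ α * r ^ 2 := by
    have : α * r ^ 2 = 18 + r ^ 2 := by
      rw [hα]
      field_simp
    rw [this]
    have := sq_nonneg r
    linarith
  have hRc : ContDiff ℝ 2 Rf := Qc_contDiff _
  set e : E8 → ℝ := fun y => Real.exp (-α * Rf y) with he
  have hec : ContDiff ℝ 2 e := (contDiff_const.mul hRc).exp
  set c := Real.exp (-α * r ^ 2) with hcdef
  set g : E8 → ℝ := fun y => w y - (m * e y - m * c) with hg
  have hme : ContDiff ℝ 2 (fun y => m * e y) := contDiff_const.mul hec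
  have hmec : ContDiff ℝ 2 (fun y => m * e y - m * c) := hme.sub contDiff_const
  have hgc : ContDiff ℝ 2 g := hw.sub hmec
  have hle : ∀ y, lap e y = e y * (4 * α ^ 2 * Rf y - 16 * α) := by
    intro y
    have h1 := lap_exp_mul (f := fun _ => 1) contDiff_const (-α) y
    have h2 : rad (fun _ : E8 => (1 : ℝ)) y = 0 := by
      unfold rad
      simp
    have h3 : (fun y : E8 => Real.exp (-α * Qc (fun _ => 1) y) * 1) = e := by
      funext y
      rw [mul_one]
    rw [h3, lap_const, h2] at h1
    rw [h1]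
    change e y * _ = e y * (4 * α ^ 2 * Qc (fun _ => 1) y - _)
    ring
  have he1 : ∀ y, e y ≤ 1 := by
    intro y
    change Real.exp _ ≤ 1
    rw [Real.exp_le_one_iff]
    have := mul_nonneg (by linarith : 0 ≤ α) (Rf_nonneg y)
    linarith
  have hc0 : 0 < c := Real.exp_pos _
  have hout : ∀ y : E8, r ≤ ‖y‖ → e y ≤ c := by
    intro y hy
    change Real.exp _ ≤ Real.exp _
    rw [Real.exp_le_exp, Rf_eq]
    have h1 : r ^ 2 ≤ ‖y‖ ^ 2 := pow_le_pow_left₀ hr0.le hy 2
    nlinarith
  -- `g` is nonnegative on the closed ball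
  have hgnn : ∀ y ∈ Metric.closedBall (0 : E8) r, 0 ≤ g y := by
    obtain ⟨p, hp, hpmin⟩ := (isCompact_closedBall (0 : E8) r).exists_isMinOn
      ⟨0, Metric.mem_closedBall_self hr0.le⟩ hgc.continuous.continuousOn
    suffices h : 0 ≤ g p from fun y hy => h.trans (hpmin hy)
    by_contra hneg
    push Not at hneg
    have hgp : g p = w p - (m * e p - m * c) := rfl
    have hp1 : ‖p‖ < r := by
      by_contra h
      push Not at h
      have h1 := hout p h
      have h2 := h0 p
      nlinarith
    have hp2 : r / 2 < ‖p‖ := by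
      by_contra h
      push Not at h
      have h1 : m ≤ w p := hqmin (by
        rw [Metric.mem_closedBall, dist_zero_right]
        exact h)
      have h2 := he1 p
      nlinarith
    have hloc : IsLocalMax (fun y => -g y) p := by
      filter_upwards [Metric.isOpen_ball.mem_nhds (show p ∈ Metric.ball (0 : E8) r by
        rw [Metric.mem_ball, dist_zero_right]
        exact hp1)] with y hy
      have := hpmin (Metric.ball_subset_closedBall hy)
      have h3 : g p ≤ g y := this
      linarith
    have h1 := lap_nonpos_of_max hgc.neg hloc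
    have h2 : lap (fun y => -g y) p = -lap g p := lap_neg hgc p
    have h3 : lap g p = lap w p - (m * lap e p - 0) := by
      rw [hg, lap_sub hw hmec, lap_sub hme contDiff_const, lap_const_mul hec, lap_const]
    have h1' : lap (fun y => -g y) p ≤ 0 := h1
    rw [h2, h3, hle] at h1'
    have h4 := hs p
    have hep : 0 < e p := Real.exp_pos _
    have h5 : r ^ 2 / 4 ≤ Rf p := by
      rw [Rf_eq]
      have : (r / 2) ^ 2 ≤ ‖p‖ ^ 2 := pow_le_pow_left₀ (by positivity) hp2.le 2
      linarith [this, show (r / 2) ^ 2 = r ^ 2 / 4 by ring]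
    have h6 : 2 ≤ 4 * α ^ 2 * Rf p - 16 * α := by
      have h7 : 4 * α ^ 2 * (r ^ 2 / 4) ≤ 4 * α ^ 2 * Rf p :=
        mul_le_mul_of_nonneg_left h5 (by positivity)
      have h8 : 4 * α ^ 2 * (r ^ 2 / 4) = α * (α * r ^ 2) := by ring
      rw [h8] at h7
      have h9 : α * 18 ≤ α * (α * r ^ 2) := mul_le_mul_of_nonneg_left hαr (by linarith)
      linarith
    have h7 : e p * 2 ≤ e p * (4 * α ^ 2 * Rf p - 16 * α) :=
      mul_le_mul_of_nonneg_left h6 hep.le
    have h8 : m * (e p * 2) ≤ m * (e p * (4 * α ^ 2 * Rf p - 16 * α)) :=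
      mul_le_mul_of_nonneg_left h7 hm0.le
    nlinarith [mul_pos hm0 hc0]
  -- derivative at the boundary point
  have hdw : fderiv ℝ w z = 0 := by
    apply IsLocalMin.fderiv_eq_zero
    exact Eventually.of_forall fun y => by
      rw [hzw]
      exact h0 y
  have hRz : Rf z = r ^ 2 := Rf_eq z
  have hgz : g z = 0 := by
    change w z - (m * e z - m * c) = 0
    have : e z = c := by
      change Real.exp (-α * Rf z) = Real.exp (-α * r ^ 2)
      rw [hRz]
    rw [hzw, this]
    ring
  have hmin : IsLocalMinOn g (Metric.closedBall (0 : E8) r) z := by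
    filter_upwards [self_mem_nhdsWithin] with y hy
    rw [hgz]
    exact hgnn y hy
  have hseg : segment ℝ z (z + -z) ⊆ Metric.closedBall (0 : E8) r := by
    apply (convex_closedBall (0 : E8) r).segment_subset
    · rw [Metric.mem_closedBall, dist_zero_right]
    · rw [add_neg_cancel]
      exact Metric.mem_closedBall_self hr0.le
  have h1 := hmin.hasFDerivWithinAt_nonneg
    ((hgc.differentiable two_ne_zero z).hasFDerivAt.hasFDerivWithinAt)
    (mem_posTangentConeAt_of_segment_subset hseg)
  rw [map_neg] at h1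
  have h2 : rad g z = rad w z - (m * (c * (-α * (2 * r ^ 2))) - 0) := by
    have h3 : rad (fun y => m * e y - m * c) z = m * (c * (-α * (2 * r ^ 2))) - 0 := by
      rw [rad_sub (diff_of hme z) (differentiableAt_const _), rad_const_mul _ (diff_of hec z),
        he, rad_exp ((diff_of hRc z).const_mul (-α)), rad_const_mul _ (diff_of hRc z)]
      have h4 : rad Rf z = 2 * Rf z := rad_Qc _ z
      have h5 : rad (fun _ : E8 => m * c) z = 0 := by
        unfold rad
        simp
      rw [h4, h5, hRz]
    rw [hg, rad_sub (diff_of hw z) (diff_of hmec z), h3]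
  have h3 : rad w z = 0 := by
    unfold rad
    rw [hdw]
    simp
  have h4 : fderiv ℝ g z z = rad g z := rfl
  rw [h4, h2, h3] at h1
  have h5 : 0 < m * (c * (α * (2 * r ^ 2))) := by positivity
  nlinarith

/-- a bounded solution which vanishes at the origin has absolute value less than one -/
theorem abs_lt_one_of_bounded {u : E8 → ℝ} (hu : ContDiff ℝ 2 u)
    (heq : ∀ x, lap u x + u x - u x ^ 3 = 0) {M : ℝ} (hM : ∀ x, |u x| ≤ M) (h0 : u 0 = 0)
    (x : E8) : |u x| < 1 := by
  have hle := abs_le_one_of_bounded hu heq hM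
  have key : ∀ v : E8 → ℝ, ContDiff ℝ 2 v → (∀ x, lap v x + v x - v x ^ 3 = 0) →
      (∀ x, |v x| ≤ 1) → v 0 = 0 → ∀ x, v x < 1 := by
    intro v hv hveq hv1 hv0 x
    have hc : ContDiff ℝ 2 (fun y => 1 - v y) := contDiff_const.sub hv
    have h1 := pos_of_super hc (fun y => by
      have := (abs_le.1 (hv1 y)).2
      linarith) (fun y => by
      rw [lap_sub contDiff_const hv, lap_const]
      have h2 := hveq y
      obtain ⟨h3, h4⟩ := abs_le.1 (hv1 y)
      nlinarith [mul_nonneg (by linarith : (0 : ℝ) ≤ 1 - v y) (by linarith : (0 : ℝ) ≤ 1 + v y),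
        mul_nonneg (mul_nonneg (by linarith : (0 : ℝ) ≤ 1 - v y)
          (by linarith : (0 : ℝ) ≤ 1 - v y)) (by linarith : (0 : ℝ) ≤ 2 + v y)])
      (by
        simp only [hv0]
        norm_num) x
    linarith
  rw [abs_lt]
  constructor
  · have h1 := key (fun y => -u y) hu.neg (fun y => by
      rw [lap_neg hu]
      have := heq y
      linarith [this, show (-u y) ^ 3 = -(u y ^ 3) by ring]) (fun y => by
      rw [abs_neg]
      exact hle y) (by simp [h0]) x
    linarith
  · exact key u hu heq hle h0 x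

end Pool.Agent.Saddle
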