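import Pool.Agent.Saddle.B4

/-!
# MP_d5c502_an, tails, part 1: order calculus for expressions

For `|s| >= 16`, `4 |s| |e| <= 1`, `|t|, |h| <= 1` every polynomial expression is bounded by
`K |s| ^ m` with computable `K`, `m`, and is Lipschitz in `t` with such a constant.
-/

set_option autoImplicit false

noncomputable section

open Set Filter Metric
open scoped Topology

namespace Pool.Agent.Saddle

namespace Ex

/-- No inverses. -/
def pol : Ex → Bool
  | c _ => true
  | s => true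
  | e => true
  | t => true
  | h => true
  | add a b => a.pol && b.pol
  | mul a b => a.pol && b.pol
  | inv _ => false

theorem pol_ok (a : Ex) (hp : a.pol = true) : a.Ok := by
  induction a with
  | c q => trivial
  | s => trivial
  | e => trivial
  | t => trivial
  | h => trivial
  | add a b ha hb =>
    simp only [pol, Bool.and_eq_true] at hp
    exact ⟨ha hp.1, hb hp.2⟩
  | mul a b ha hb =>
    simp only [pol, Bool.and_eq_true] at hp
    exact ⟨ha hp.1, hb hp.2⟩
  | inv a _ => simp [pol] at hp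

/-- Sum of two bounds. -/
def plus (x y : ℚ × ℤ) : ℚ × ℤ :=
  if x.1 = 0 then y else if y.1 = 0 then x else
    if x.2 ≤ y.2 then (x.1 * (1 / 16) ^ (y.2 - x.2).toNat + y.1, y.2)
    else (x.1 + y.1 * (1 / 16) ^ (x.2 - y.2).toNat, x.2)

/-- The bound. -/
def bd : Ex → ℚ × ℤ
  | c q => (|q|, 0)
  | s => (1, 1)
  | e => (1 / 4, -1)
  | t => (1, 0)
  | h => (1, 0)
  | add a b => plus a.bd b.bd
  | mul a b => (a.bd.1 * b.bd.1, a.bd.2 + b.bd.2)
  | inv _ => (0, 0)

/-- The Lipschitz constant in `t`. -/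
def lp : Ex → ℚ × ℤ
  | c _ => (0, 0)
  | s => (0, 0)
  | e => (0, 0)
  | t => (1, 0)
  | h => (0, 0)
  | add a b => plus a.lp b.lp
  | mul a b => plus (a.lp.1 * b.bd.1, a.lp.2 + b.bd.2) (a.bd.1 * b.lp.1, a.bd.2 + b.lp.2)
  | inv _ => (0, 0)

/-- The value of a bound. -/
def bv (x : ℚ × ℤ) (r : ℝ) : ℝ := x.1 * r ^ x.2

theorem bv_nonneg {x : ℚ × ℤ} {r : ℝ} (hx : 0 ≤ x.1) (hr : 16 ≤ r) : 0 ≤ bv x r := by
  have h1 : (0 : ℝ) ≤ x.1 := by exact_mod_cast hx
  exact mul_nonneg h1 (zpow_nonneg (by linarith) _)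

theorem plus_nonneg {x y : ℚ × ℤ} (hx : 0 ≤ x.1) (hy : 0 ≤ y.1) : 0 ≤ (plus x y).1 := by
  unfold plus
  split_ifs
  · exact hy
  · exact hx
  · positivity
  · positivity

theorem shift {m n : ℤ} (hmn : m ≤ n) {r : ℝ} (hr : 16 ≤ r) :
    r ^ m ≤ (1 / 16) ^ (n - m).toNat * r ^ n := by
  obtain ⟨k, hk⟩ := Int.eq_ofNat_of_zero_le (sub_nonneg.2 hmn)
  rw [hk, Int.toNat_natCast]
  have hr0 : (0 : ℝ) < r := by linarith
  have h1 : r ^ n = r ^ m * r ^ k := by
    rw [← zpow_natCast r k, ← zpow_add₀ hr0.ne']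
    congr 1
    omega
  rw [h1]
  have h2 : (1 : ℝ) ≤ (1 / 16) ^ k * r ^ k := by
    rw [← mul_pow]
    exact one_le_pow₀ (by linarith)
  have h3 : 0 < r ^ m := zpow_pos hr0 m
  calc r ^ m = r ^ m * 1 := (mul_one _).symm
    _ ≤ r ^ m * ((1 / 16) ^ k * r ^ k) := mul_le_mul_of_nonneg_left h2 h3.le
    _ = _ := by ring

theorem plus_le {x y : ℚ × ℤ} (hx : 0 ≤ x.1) (hy : 0 ≤ y.1) {r : ℝ} (hr : 16 ≤ r) :
    bv x r + bv y r ≤ bv (plus x y) r := by
  unfold plus
  split_ifs with h1 h2 h3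
  · unfold bv
    rw [h1]
    simp
  · unfold bv
    rw [h2]
    simp
  · have h4 := shift h3 hr
    have h5 : (0 : ℝ) ≤ x.1 := by exact_mod_cast hx
    have h6 := mul_le_mul_of_nonneg_left h4 h5
    unfold bv
    push_cast
    linarith
  · have h4 := shift (not_le.1 h3).le hr
    have h5 : (0 : ℝ) ≤ y.1 := by exact_mod_cast hy
    have h6 := mul_le_mul_of_nonneg_left h4 h5
    unfold bv
    push_cast
    linarith

theorem bv_mul (x y : ℚ × ℤ) {r : ℝ} (hr : 16 ≤ r) :
    bv (x.1 * y.1, x.2 + y.2) r = bv x r * bv y r := by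
  have hr0 : r ≠ 0 := by
    intro h
    linarith
  unfold bv
  rw [zpow_add₀ hr0]
  push_cast
  ring

theorem bd_nonneg (a : Ex) : 0 ≤ a.bd.1 := by
  induction a with
  | c q => exact abs_nonneg q
  | s => norm_num [bd]
  | e => norm_num [bd]
  | t => norm_num [bd]
  | h => norm_num [bd]
  | add a b ha hb => exact plus_nonneg ha hb
  | mul a b ha hb => exact mul_nonneg ha hb
  | inv a _ => exact le_rfl

theorem lp_nonneg (a : Ex) : 0 ≤ a.lp.1 := by
  induction a with
  | c q => exact le_rfl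
  | s => exact le_rfl
  | e => exact le_rfl
  | t => norm_num [lp]
  | h => exact le_rfl
  | add a b ha hb => exact plus_nonneg ha hb
  | mul a b ha hb =>
    exact plus_nonneg (mul_nonneg ha (bd_nonneg b)) (mul_nonneg (bd_nonneg a) hb)
  | inv a _ => exact le_rfl

/-- The bound is correct. -/
theorem bd_le (a : Ex) (hp : a.pol = true) {x y z w : ℝ} (hx : 16 ≤ |x|)
    (hy : 4 * |x| * |y| ≤ 1) (hz : |z| ≤ 1) (hw : |w| ≤ 1) :
    |a.v x y z w| ≤ bv a.bd |x| := by
  induction a with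
  | c q =>
    simp only [v, bv, bd, zpow_zero, mul_one, Rat.cast_abs]
    exact le_rfl
  | s =>
    simp only [v, bv, bd, zpow_one, Rat.cast_one, one_mul]
    exact le_rfl
  | e =>
    have hx0 : 0 < |x| := by linarith
    simp only [v, bv, bd]
    push_cast
    rw [zpow_neg_one, ← div_eq_mul_inv, le_div_iff₀ hx0]
    linarith
  | t =>
    simp only [v, bv, bd, zpow_zero, mul_one, Rat.cast_one]
    exact hz
  | h =>
    simp only [v, bv, bd, zpow_zero, mul_one, Rat.cast_one]
    exact hw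
  | add a b ha hb =>
    simp only [pol, Bool.and_eq_true] at hp
    have h1 := ha hp.1
    have h2 := hb hp.2
    have h3 := plus_le (bd_nonneg a) (bd_nonneg b) hx
    have h4 := abs_add_le (a.v x y z w) (b.v x y z w)
    simp only [v, bd]
    linarith
  | mul a b ha hb =>
    simp only [pol, Bool.and_eq_true] at hp
    have h1 := ha hp.1
    have h2 := hb hp.2
    simp only [v, bd]
    rw [bv_mul _ _ hx, abs_mul]
    exact mul_le_mul h1 h2 (abs_nonneg _) (bv_nonneg (bd_nonneg a) hx)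
  | inv a _ => simp [pol] at hp

/-- The Lipschitz constant is correct. -/
theorem lp_le (a : Ex) (hp : a.pol = true) {x y z z' w : ℝ} (hx : 16 ≤ |x|)
    (hy : 4 * |x| * |y| ≤ 1) (hz : |z| ≤ 1) (hz' : |z'| ≤ 1) (hw : |w| ≤ 1) :
    |a.v x y z w - a.v x y z' w| ≤ bv a.lp |x| * |z - z'| := by
  induction a with
  | c q => simp [v, bv, lp]
  | s => simp [v, bv, lp]
  | e => simp [v, bv, lp]
  | t =>
    simp only [v, bv, lp, zpow_zero, mul_one, Rat.cast_one, one_mul]
    exact le_rfl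
  | h => simp [v, bv, lp]
  | add a b ha hb =>
    simp only [pol, Bool.and_eq_true] at hp
    have h1 := ha hp.1
    have h2 := hb hp.2
    have h3 := plus_le (lp_nonneg a) (lp_nonneg b) hx
    have h4 := abs_add_le (a.v x y z w - a.v x y z' w) (b.v x y z w - b.v x y z' w)
    have h5 := mul_le_mul_of_nonneg_right h3 (abs_nonneg (z - z'))
    simp only [v, lp]
    have e1 : a.v x y z w + b.v x y z w - (a.v x y z' w + b.v x y z' w) =
        a.v x y z w - a.v x y z' w + (b.v x y z w - b.v x y z' w) := by ring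
    rw [e1]
    linarith
  | mul a b ha hb =>
    simp only [pol, Bool.and_eq_true] at hp
    have h1 := ha hp.1
    have h2 := hb hp.2
    have m1 := bd_le a hp.1 hx hy hz' hw
    have m2 := bd_le b hp.2 hx hy hz hw
    have h3 := plus_le (x := (a.lp.1 * b.bd.1, a.lp.2 + b.bd.2))
      (y := (a.bd.1 * b.lp.1, a.bd.2 + b.lp.2)) (mul_nonneg (lp_nonneg a) (bd_nonneg b))
      (mul_nonneg (bd_nonneg a) (lp_nonneg b)) hx
    rw [bv_mul _ _ hx, bv_mul _ _ hx] at h3
    have h5 := mul_le_mul_of_nonneg_right h3 (abs_nonneg (z - z'))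
    simp only [v, lp]
    have e1 : a.v x y z w * b.v x y z w - a.v x y z' w * b.v x y z' w =
        (a.v x y z w - a.v x y z' w) * b.v x y z w +
          a.v x y z' w * (b.v x y z w - b.v x y z' w) := by ring
    rw [e1]
    refine (abs_add_le _ _).trans ?_
    rw [abs_mul, abs_mul]
    have k1 : |a.v x y z w - a.v x y z' w| * |b.v x y z w| ≤
        bv a.lp |x| * |z - z'| * bv b.bd |x| :=
      mul_le_mul h1 m2 (abs_nonneg _)
        (mul_nonneg (bv_nonneg (lp_nonneg a) hx) (abs_nonneg _))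
    have k2 : |a.v x y z' w| * |b.v x y z w - b.v x y z' w| ≤
        bv a.bd |x| * (bv b.lp |x| * |z - z'|) :=
      mul_le_mul m1 h2 (abs_nonneg _) (bv_nonneg (bd_nonneg a) hx)
    linarith
  | inv a _ => simp [pol] at hp

end Ex

/-! ### exponentials -/

/-- `r ^ m exp (-r)` decreases for `r >= 16 >= m`. -/
theorem pow_exp_le {m : ℕ} (hm : m ≤ 16) {r : ℝ} (hr : 16 ≤ r) :
    r ^ m * Real.exp (-r) ≤ 16 ^ m * Real.exp (-16) := by
  have h1 : r / 16 ≤ Real.exp ((r - 16) / 16) := by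
    have := Real.add_one_le_exp ((r - 16) / 16)
    linarith
  have h2 : (r / 16) ^ m ≤ Real.exp ((r - 16) / 16) ^ m :=
    pow_le_pow_left₀ (by linarith) h1 m
  rw [← Real.exp_nat_mul] at h2
  have h3 : Real.exp (m * ((r - 16) / 16)) ≤ Real.exp (r - 16) := by
    refine Real.exp_le_exp.2 ?_
    have h4 : (m : ℝ) ≤ 16 := by exact_mod_cast hm
    have h5 : 0 ≤ (r - 16) / 16 := by linarith
    have := mul_le_mul_of_nonneg_right h4 h5
    linarith
  have h6 := h2.trans h3
  have h7 : r ^ m = 16 ^ m * (r / 16) ^ m := by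
    rw [← mul_pow]
    congr 1
    ring
  have h8 : Real.exp (r - 16) * Real.exp (-r) = Real.exp (-16) := by
    rw [← Real.exp_add]
    congr 1
    ring
  calc r ^ m * Real.exp (-r) = 16 ^ m * ((r / 16) ^ m * Real.exp (-r)) := by
        rw [h7]
        ring
    _ ≤ 16 ^ m * (Real.exp (r - 16) * Real.exp (-r)) := by
        refine mul_le_mul_of_nonneg_left ?_ (by positivity)
        exact mul_le_mul_of_nonneg_right h6 (Real.exp_pos _).le
    _ = _ := by rw [h8]

theorem exp_16 : Real.exp (-16) ≤ 1 / 8800000 := by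
  have h1 := Real.exp_one_gt_d9
  have h2 : (2.718 : ℝ) ^ 16 ≤ Real.exp 1 ^ 16 := pow_le_pow_left₀ (by norm_num) (by linarith) 16
  rw [← Real.exp_nat_mul] at h2
  have h3 : ((16 : ℕ) : ℝ) * 1 = 16 := by norm_num
  rw [h3] at h2
  rw [Real.exp_neg, ← one_div]
  refine one_div_le_one_div_of_le (by norm_num) ?_
  refine le_trans ?_ h2
  norm_num

theorem sech_le (x : ℝ) : sech x ≤ 2 * Real.exp (-x) := by
  unfold sech
  rw [Real.cosh_eq, Real.exp_neg]
  have h1 := Real.exp_pos x
  rw [inv_le_iff_one_le_mul₀ (by positivity)]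
  field_simp
  nlinarith [sq_nonneg (Real.exp x)]

theorem tanh_bounds (x : ℝ) :
    1 - 2 * Real.exp (-x) ^ 2 ≤ Real.tanh x ∧ Real.tanh x ≤ 1 := by
  rw [Real.tanh_eq_sinh_div_cosh, Real.cosh_eq, Real.sinh_eq, Real.exp_neg]
  have h1 := Real.exp_pos x
  constructor
  · rw [div_div_div_cancel_right₀ two_ne_zero, le_div_iff₀ (by positivity)]
    field_simp
    nlinarith [sq_nonneg (Real.exp x)]
  · rw [div_div_div_cancel_right₀ two_ne_zero, div_le_one (by positivity)]
    have : 0 < (Real.exp x)⁻¹ := by positivity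
    linarith

end Pool.Agent.Saddle
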