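import Pool.Agent.Saddle.T1

/-!
# MP_d5c502_an, tails, part 2: the residual
-/

set_option autoImplicit false

noncomputable section

open Set Filter Metric
open scoped Topology

namespace Pool.Agent.Saddle

namespace Ex

/-- A monomial. -/
def mo (q : ℚ) (i j k : ℕ) : Ex := mul (c q) (mul (pw s i) (mul (pw e j) (pw t k)))

/-- A sum of monomials. -/
def su : List (ℚ × ℕ × ℕ × ℕ) → Ex
  | [] => c 0
  | m :: l => add (mo m.1 m.2.1 m.2.2.1 m.2.2.2) (su l)

/-- Sum of three. -/
def add3 (a b d : Ex) : Ex := add (add a b) d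

/-- The residual of `(1 - tau ^ 2) a` divided by `1 - tau ^ 2`. -/
def rt (k : ℚ) (a : Ex) : Ex :=
  add (add (add (mul (c (2 * k)) t)
      (mul (ke k) (add (mul (c 12) s) (mul (mul (c (-8)) (mul s s)) t))))
    (add (mul (c (-48)) s) (mul (mul (c 32) (mul s s)) t)))
  (add (add (mul (ke k) (add3 a.ds.ds (mul (mul (c (-4)) t) a.ds)
      (mul (add (mul (c 6) (mul t t)) (c (-2))) a)))
    (mul (mul e e) (add (add (mul (ke k) (add3 (mul (c 32) a)
        (mul (c 24) (add a.eu (mul (mul (c (-2)) (mul s t)) a)))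
        (mul (c 4) (add3 a.eu.eu (mul (mul (c (-4)) (mul s t)) a.eu)
          (mul (add3 (mul (c 4) (mul (mul s s) (mul t t))) (mul (c (-2)) (mul s t))
            (mul (mul (c (-2)) (mul s s)) (sub (c 1) (mul t t)))) a)))))
        (mul (mul (c (-16)) s) (add (mul (c 3) (add a.ds (mul (mul (c (-2)) t) a)))
          (add3 (add a.ds.eu (mul (mul (c (-2)) t) a.eu))
            (mul (mul (c (-2)) (mul s t)) a.ds)
            (mul (mul s (add (mul (c 6) (mul t t)) (c (-2)))) a)))))
        (add (mul (c (-64)) a)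
          (mul (c (-32)) (add a.eu (mul (mul (c (-2)) (mul s t)) a)))))))
    (add (add (mul (c 2) a) (mul (mul (c (-6)) (mul t t)) a))
      (add (mul (mul (mul (c (-6)) t) (mul e e)) (mul (sub (c 1) (mul t t)) (mul a a)))
        (mul (mul (c (-2)) (mul (mul e e) (mul e e)))
          (mul (mul (sub (c 1) (mul t t)) (sub (c 1) (mul t t))) (mul a (mul a a)))))))

/-- The linearised residual. -/
def ln (k : ℚ) (D : Ex) : Ex :=
  add3 (mul (ke k) D.ds.ds)
    (mul (mul e e) (add (add (mul (ke k) (add3 (mul (c 32) D) (mul (c 24) D.eu)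
      (mul (c 4) D.eu.eu)))
      (mul (mul (c (-16)) s) (add (mul (c 3) D.ds) D.ds.eu)))
      (add (mul (c (-64)) D) (mul (c (-32)) D.eu))))
    (add (mul (c 2) D) (mul (mul (c (-6)) (mul t t)) D))

theorem rx_plus (k : ℚ) (a D : Ex) (x y : ℝ) : RX k (add (ga a) D) x y =
    (1 - Real.tanh x ^ 2) * (rt k a).f x y + (ln k D).f x y -
      6 * Real.tanh x * y ^ 2 * (2 * (ga a).f x y * D.f x y + D.f x y ^ 2) -
      2 * y ^ 4 * (3 * (ga a).f x y ^ 2 * D.f x y + 3 * (ga a).f x y * D.f x y ^ 2 +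
        D.f x y ^ 3) := by
  unfold RX RES rt ln add3
  simp only [ga, sub, ke, f, v, ds, de, eu, comm]
  push_cast
  ring

theorem rx_minus (k : ℚ) (a D : Ex) (x y : ℝ) : RX k (sub (ga a) D) x y =
    (1 - Real.tanh x ^ 2) * (rt k a).f x y - (ln k D).f x y -
      6 * Real.tanh x * y ^ 2 * (-2 * (ga a).f x y * D.f x y + D.f x y ^ 2) -
      2 * y ^ 4 * (-3 * (ga a).f x y ^ 2 * D.f x y + 3 * (ga a).f x y * D.f x y ^ 2 -
        D.f x y ^ 3) := by
  unfold RX RES rt ln add3
  simp only [ga, sub, ke, f, v, ds, de, eu, comm]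
  push_cast
  ring

end Ex

end Pool.Agent.Saddle
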