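import Pool.Agent.Saddle.T2
import Pool.Agent.Saddle.Data

/-!
# MP_d5c502_an, tails, part 3: the residual for `s >= 16`
-/

set_option autoImplicit false

noncomputable section

namespace Pool.Agent.Saddle

namespace Ex

/-- The factor of the band. -/
def dE : Ex := Ex.hp e [c (3/256), c 0, c 80]

/-- The value of `rt 24 da` at `t = 1`. -/
def n1 : Ex := su [(85248, 0, 6, 0), (-78144, 1, 6, 0), (1933 / 2, 0, 4, 0), (14208, 2, 6, 0), (527743 / 32, 1, 4, 0), (907200, 3, 6, 0), (-1607 / 16, 0, 2, 0), (-1100145 / 16, 2, 4, 0), (-1488000, 4, 6, 0), (-542281 / 256, 1, 2, 0), (1770855 / 16, 3, 4, 0), (769440, 5, 6, 0), (3329 / 128, 0, 0, 0), (641639 / 128, 2, 2, 0), (-954347 / 8, 4, 4, 0), (-150720, 6, 6, 0), (-2745 / 256, 1, 0, 0), (-489913 / 128, 3, 2, 0), (267229 / 4, 5, 4, 0), (9600, 7, 6, 0), (141 / 128, 2, 0, 0), (67597 / 64, 4, 2, 0), (-15640, 6, 4, 0), (-2931 / 32, 5, 2, 0), (1200, 7, 4, 0)]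

theorem rt_one (x y w : ℝ) : (rt 24 da).v x y 1 w = n1.v x y 1 w := by
  unfold rt add3 da n1
  simp only [Ex.hp, su, mo, pw, sub, ke, v, ds, de, eu]
  push_cast
  ring

/-- The linearised residual of the band, divided by `sech`. -/
def ld : Ex := su [(-184320, 0, 6, 1), (-84480, 1, 6, 0), (168960, 1, 6, 2), (7031, 0, 4, 1), (-11520, 0, 4, 3), (38400, 2, 6, 1), (-46080, 2, 6, 3), (-43583 / 8, 1, 4, 0), (43583 / 4, 1, 4, 2), (-7647 / 32, 0, 2, 1), (-27 / 16, 0, 2, 3), (38445 / 8, 2, 4, 1), (-23067 / 4, 2, 4, 3), (-39 / 64, 1, 2, 0), (39 / 32, 1, 2, 2), (-9 / 256, 0, 0, 1), (45 / 64, 2, 2, 1), (-27 / 32, 2, 2, 3)]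

theorem ln_v (x y z w : ℝ) : (ln 24 dD).v x y z w = w * ld.v x y z w := by
  unfold ln add3 dD ld
  simp only [Ex.hp, su, mo, pw, ke, v, ds, de, eu]
  push_cast
  ring

theorem ld_one {x y : ℝ} (w : ℝ) (hx : 16 ≤ x) : ld.v x y 1 w ≤ -9 / 256 := by
  have h1 : ld.v x y 1 w = -9 / 256 - y ^ 2 * (7701 / 32 + 4489 * y ^ 2 + 184320 * y ^ 4 +
      x * (9 / 64 * x - 39 / 64) + y ^ 2 * (x * (7689 / 8 * x - 43583 / 8)) +
      y ^ 4 * (x * (7680 * x - 84480))) := by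
    unfold ld
    simp only [su, mo, pw, v]
    push_cast
    ring
  rw [h1]
  have h2 : 0 ≤ x * (9 / 64 * x - 39 / 64) := mul_nonneg (by linarith) (by linarith)
  have h3 : 0 ≤ x * (7689 / 8 * x - 43583 / 8) := mul_nonneg (by linarith) (by linarith)
  have h4 : 0 ≤ x * (7680 * x - 84480) := mul_nonneg (by linarith) (by linarith)
  have h5 : 0 ≤ y ^ 2 * (7701 / 32 + 4489 * y ^ 2 + 184320 * y ^ 4 +
      x * (9 / 64 * x - 39 / 64) + y ^ 2 * (x * (7689 / 8 * x - 43583 / 8)) +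
      y ^ 4 * (x * (7680 * x - 84480))) := by positivity
  linarith

theorem c1 : (rt 24 da).pol = true ∧ (rt 24 da).lp.1 ≤ 26 ∧ (rt 24 da).lp.2 = 5 := by
  decide +kernel

theorem c2 : n1.pol = true ∧ n1.bd.1 ≤ 21 ∧ n1.bd.2 = 3 := by
  decide +kernel

theorem c3 : ld.pol = true ∧ ld.lp.1 ≤ 1 ∧ ld.lp.2 = 0 := by
  decide +kernel

theorem c4 : da.pol = true ∧ da.bd.1 ≤ 5 ∧ da.bd.2 = 3 := by
  decide +kernel

theorem bv_le {x : ℚ × ℤ} {K : ℚ} {m : ℕ} {r : ℝ} (h1 : x.1 ≤ K) (h2 : x.2 = m)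
    (hr : 16 ≤ r) : bv x r ≤ K * r ^ m := by
  unfold bv
  rw [h2, zpow_natCast]
  have h3 : (x.1 : ℝ) ≤ K := by exact_mod_cast h1
  exact mul_le_mul_of_nonneg_right h3 (by positivity)

end Ex

/-- The tail: the facts used. -/
structure Tail (x y t h E : ℝ) : Prop where
  hx : 16 ≤ x
  hy0 : 0 < y
  hxy : 4 * x * y ≤ 1
  hE : 0 < E
  hE1 : E ≤ 1 / 8800000
  h3 : x ^ 3 * E ≤ 4096 / 8800000
  h5 : x ^ 5 * E ≤ 1048576 / 8800000
  h0 : 0 < h
  hh : h ≤ 2 * E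
  t0 : 0 ≤ t
  t1 : t ≤ 1
  ht : 1 - t ≤ 2 * E ^ 2
  sq : 1 - t ^ 2 = h ^ 2

theorem tail_of {x y : ℝ} (hr : Reg 24 x y) (hx : 16 ≤ x) :
    Tail x y (Real.tanh x) (sech x) (Real.exp (-x)) := by
  have hE1 : Real.exp (-x) ≤ 1 / 8800000 := by
    refine le_trans ?_ exp_16
    exact Real.exp_le_exp.2 (by linarith)
  have hb := tanh_bounds x
  have hE := Real.exp_pos (-x)
  refine ⟨hx, hr.1, ?_, hE, hE1, ?_, ?_, sech_pos x, sech_le x, ?_, hb.2, by linarith,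
    (sech_sq x).symm⟩
  · have h1 := hr.2.2
    rw [abs_of_nonneg (by linarith)] at h1
    have := sq_nonneg y
    linarith
  · have := pow_exp_le (m := 3) (by norm_num) hx
    have h2 := mul_le_mul_of_nonneg_left exp_16 (show (0 : ℝ) ≤ 16 ^ 3 by norm_num)
    linarith
  · have := pow_exp_le (m := 5) (by norm_num) hx
    have h2 := mul_le_mul_of_nonneg_left exp_16 (show (0 : ℝ) ≤ 16 ^ 5 by norm_num)
    linarith
  · have : Real.exp (-x) ^ 2 ≤ 1 / 2 := by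
      have := pow_le_pow_left₀ hE.le hE1 2
      refine this.trans (by norm_num)
    linarith

theorem Tail.y64 {x y t h E : ℝ} (T : Tail x y t h E) : y ≤ 1 / 64 := by
  have h1 := T.hxy
  have h2 := mul_le_mul_of_nonneg_right T.hx T.hy0.le
  linarith

theorem Tail.ysq {x y t h E : ℝ} (T : Tail x y t h E) : y ^ 2 ≤ 1 / 4096 := by
  have h1 := pow_le_pow_left₀ T.hy0.le T.y64 2
  refine h1.trans (by norm_num)

theorem Tail.abs_x {x y t h E : ℝ} (T : Tail x y t h E) : |x| = x :=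
  abs_of_nonneg (by linarith [T.hx])

theorem Tail.abs_y {x y t h E : ℝ} (T : Tail x y t h E) : |y| = y := abs_of_pos T.hy0

theorem Tail.h1 {x y t h E : ℝ} (T : Tail x y t h E) : h ≤ 1 / 4400000 := by
  linarith [T.hh, T.hE1]

theorem Tail.bd {x y t h E : ℝ} (T : Tail x y t h E) (a : Ex) (hp : a.pol = true)
    {z w : ℝ} (hz : |z| ≤ 1) (hw : |w| ≤ 1) : |a.v x y z w| ≤ Ex.bv a.bd x := by
  have h1 := a.bd_le hp (x := x) (y := y) (z := z) (w := w)
    (by rw [T.abs_x]; exact T.hx) (by rw [T.abs_x, T.abs_y]; exact T.hxy) hz hw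
  rwa [T.abs_x] at h1

theorem Tail.lp {x y t h E : ℝ} (T : Tail x y t h E) (a : Ex) (hp : a.pol = true)
    {w : ℝ} (hw : |w| ≤ 1) :
    |a.v x y t w - a.v x y 1 w| ≤ Ex.bv a.lp x * (2 * E ^ 2) := by
  have h1 := a.lp_le hp (x := x) (y := y) (z := t) (z' := 1) (w := w)
    (by rw [T.abs_x]; exact T.hx) (by rw [T.abs_x, T.abs_y]; exact T.hxy)
    (by rw [abs_of_nonneg T.t0]; exact T.t1) (by norm_num) hw
  rw [T.abs_x] at h1
  refine h1.trans ?_
  refine mul_le_mul_of_nonneg_left ?_ (Ex.bv_nonneg (Ex.lp_nonneg a) T.hx)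
  rw [abs_sub_comm, abs_of_nonneg (by linarith [T.t1])]
  exact T.ht

theorem Tail.hw {x y t h E : ℝ} (T : Tail x y t h E) : |h| ≤ 1 := by
  rw [abs_of_pos T.h0]
  linarith [T.h1]

/-- The cross terms. -/
theorem cross {G D t y h : ℝ} (hG : |G| ≤ h / 200) (hD : |D| ≤ h / 32) (t0 : 0 ≤ t)
    (t1 : t ≤ 1) (hy : y ^ 2 ≤ 1 / 4096) (h0 : 0 < h) (h1 : h ≤ 1) :
    |6 * t * y ^ 2 * (2 * G * D + D ^ 2)| + |2 * y ^ 4 * (3 * G ^ 2 * D + 3 * G * D ^ 2 + D ^ 3)|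
      ≤ h ^ 2 := by
  have hy0 := sq_nonneg y
  have a1 : |G * D| ≤ h / 200 * (h / 32) := by
    rw [abs_mul]
    exact mul_le_mul hG hD (abs_nonneg _) (by positivity)
  have a2 : |D ^ 2| ≤ (h / 32) ^ 2 := by
    rw [abs_pow]
    exact pow_le_pow_left₀ (abs_nonneg _) hD 2
  have a3 : |2 * G * D + D ^ 2| ≤ h ^ 2 := by
    refine (abs_add_le _ _).trans ?_
    have : |2 * G * D| = 2 * |G * D| := by
      rw [mul_assoc, abs_mul, abs_of_pos (two_pos)]
    rw [this]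
    nlinarith [sq_nonneg h]
  have b1 : |3 * G ^ 2 * D| ≤ 3 * ((h / 200) ^ 2 * (h / 32)) := by
    have : |3 * G ^ 2 * D| = 3 * (|G| ^ 2 * |D|) := by
      rw [mul_assoc, abs_mul, abs_mul, abs_pow, abs_of_pos (by norm_num : (0:ℝ) < 3)]
    rw [this]
    refine mul_le_mul_of_nonneg_left ?_ (by norm_num)
    exact mul_le_mul (pow_le_pow_left₀ (abs_nonneg _) hG 2) hD (abs_nonneg _) (by positivity)
  have b2 : |3 * G * D ^ 2| ≤ 3 * ((h / 200) * (h / 32) ^ 2) := by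
    have : |3 * G * D ^ 2| = 3 * (|G| * |D| ^ 2) := by
      rw [mul_assoc, abs_mul, abs_mul, abs_pow, abs_of_pos (by norm_num : (0:ℝ) < 3)]
    rw [this]
    refine mul_le_mul_of_nonneg_left ?_ (by norm_num)
    exact mul_le_mul hG (pow_le_pow_left₀ (abs_nonneg _) hD 2) (by positivity) (by positivity)
  have b3 : |D ^ 3| ≤ (h / 32) ^ 3 := by
    rw [abs_pow]
    exact pow_le_pow_left₀ (abs_nonneg _) hD 3
  have h3 : h ^ 3 ≤ h ^ 2 := pow_le_pow_of_le_one h0.le h1 (by norm_num)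
  have a4 : |3 * G ^ 2 * D + 3 * G * D ^ 2 + D ^ 3| ≤ h ^ 2 := by
    refine (abs_add_le _ _).trans ?_
    have := abs_add_le (3 * G ^ 2 * D) (3 * G * D ^ 2)
    have e1 : 3 * ((h / 200) ^ 2 * (h / 32)) = 3 / 1280000 * h ^ 3 := by ring
    have e2 : 3 * ((h / 200) * (h / 32) ^ 2) = 3 / 204800 * h ^ 3 := by ring
    have e3 : (h / 32) ^ 3 = 1 / 32768 * h ^ 3 := by ring
    have : 0 < h ^ 3 := by positivity
    linarith
  have c1 : |6 * t * y ^ 2| ≤ 6 / 4096 := by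
    rw [abs_of_nonneg (by positivity)]
    nlinarith
  have c2 : |2 * y ^ 4| ≤ 2 / 4096 := by
    have : y ^ 4 = y ^ 2 * y ^ 2 := by ring
    rw [this, abs_of_nonneg (by positivity)]
    nlinarith
  rw [abs_mul (6 * t * y ^ 2), abs_mul (2 * y ^ 4)]
  have d1 := mul_le_mul c1 a3 (abs_nonneg _) (by norm_num)
  have d2 := mul_le_mul c2 a4 (abs_nonneg _) (by norm_num)
  nlinarith [sq_nonneg h]

namespace Ex

/-- The size of the correction and of the band. -/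
theorem Tail_GD {x y t h E : ℝ} (T : Tail x y t h E) :
    |h ^ 2 * da.v x y t h| ≤ h / 200 ∧ |dD.v x y t h| ≤ h / 32 ∧ 0 ≤ dD.v x y t h := by
  have hz : |t| ≤ 1 := by
    rw [abs_of_nonneg T.t0]
    exact T.t1
  have h1 := (T.bd da c4.1 hz T.hw).trans (bv_le c4.2.1 c4.2.2 T.hx)
  have h2 : h * |da.v x y t h| ≤ 1 / 200 := by
    have h3 := mul_le_mul T.hh h1 (abs_nonneg _) (by linarith [T.hE])
    refine h3.trans ?_
    have h4 := T.h3
    push_cast
    linarith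
  refine ⟨?_, ?_, ?_⟩
  · rw [abs_mul, abs_of_nonneg (sq_nonneg h)]
    have := mul_le_mul_of_nonneg_left h2 T.h0.le
    have e1 : h ^ 2 * |da.v x y t h| = h * (h * |da.v x y t h|) := by ring
    rw [e1]
    linarith
  · have e1 : dD.v x y t h = (3 / 256 + 80 * y ^ 2) * (t * h) := by
      simp only [dD, Ex.hp, v]
      push_cast
      ring
    have h3 := T.ysq
    have h4 : 0 ≤ (3 / 256 + 80 * y ^ 2) * (t * h) :=
      mul_nonneg (by positivity) (mul_nonneg T.t0 T.h0.le)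
    rw [e1, abs_of_nonneg h4]
    have h5 : t * h ≤ h := mul_le_of_le_one_left T.h0.le T.t1
    have h6 : (3 / 256 + 80 * y ^ 2) * (t * h) ≤ (1 / 32) * h :=
      mul_le_mul (by linarith) h5 (mul_nonneg T.t0 T.h0.le) (by norm_num)
    linarith
  · have e1 : dD.v x y t h = (3 / 256 + 80 * y ^ 2) * (t * h) := by
      simp only [dD, Ex.hp, v]
      push_cast
      ring
    rw [e1]
    exact mul_nonneg (by positivity) (mul_nonneg T.t0 T.h0.le)

/-- The main terms of the residual. -/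
theorem Tail_main {x y t h E : ℝ} (T : Tail x y t h E) :
    h * |(rt 24 da).v x y t h| + ld.v x y t h + 2 * h ≤ 0 := by
  have h1 := T.lp (rt 24 da) c1.1 T.hw
  have h1' := bv_le c1.2.1 c1.2.2 T.hx
  have h2 := (T.bd n1 c2.1 (z := 1) (by norm_num) T.hw).trans (bv_le c2.2.1 c2.2.2 T.hx)
  have h3 := T.lp ld c3.1 T.hw
  have h3' := bv_le c3.2.1 c3.2.2 T.hx
  have h4 := ld_one (y := y) h T.hx
  rw [rt_one] at h1
  have hE2 : 0 ≤ 2 * E ^ 2 := by positivity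
  have h5 : |(rt 24 da).v x y t h| ≤ 21 * x ^ 3 + 26 * x ^ 5 * (2 * E ^ 2) := by
    have h6 : (rt 24 da).v x y t h = ((rt 24 da).v x y t h - n1.v x y 1 h) + n1.v x y 1 h := by
      ring
    rw [h6]
    refine (abs_add_le _ _).trans ?_
    have h7 := mul_le_mul_of_nonneg_right h1' hE2
    push_cast at h2 h7
    linarith
  have h6 : h * |(rt 24 da).v x y t h| ≤ 2 * E * (21 * x ^ 3 + 26 * x ^ 5 * (2 * E ^ 2)) :=
    mul_le_mul T.hh h5 (abs_nonneg _) (by linarith [T.hE])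
  have h7 : 2 * E * (21 * x ^ 3 + 26 * x ^ 5 * (2 * E ^ 2)) =
      42 * (x ^ 3 * E) + 104 * ((x ^ 5 * E) * E ^ 2) := by ring
  have hEs : E ^ 2 ≤ 1 / 10 ^ 13 := by
    have := pow_le_pow_left₀ T.hE.le T.hE1 2
    refine this.trans (by norm_num)
  have h8 : (x ^ 5 * E) * E ^ 2 ≤ (1048576 / 8800000) * (1 / 10 ^ 13) :=
    mul_le_mul T.h5 hEs (by positivity) (by norm_num)
  have h9 : ld.v x y t h ≤ -9 / 256 + 1 * x ^ 0 * (2 * E ^ 2) := by
    have h10 := (abs_le.1 h3).2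
    have h11 := mul_le_mul_of_nonneg_right h3' hE2
    push_cast at h11
    linarith
  have h12 := T.h1
  have h13 := T.h3
  rw [pow_zero, mul_one] at h9
  rw [h7] at h6
  norm_num at h8
  linarith

theorem f_tail (a : Ex) (x y : ℝ) : a.f x y = a.v x y (Real.tanh x) (sech x) := rfl

/-- The supersolution in the tail. -/
theorem tail_up {x y : ℝ} (hr : Reg 24 x y) (hx : 16 ≤ x) : RX 24 (add (ga da) dD) x y ≤ 0 := by
  have T := tail_of hr hx
  obtain ⟨hG, hD, -⟩ := Tail_GD T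
  have hM := Tail_main T
  rw [rx_plus, ga_f]
  simp only [f_tail]
  rw [T.sq, ln_v]
  set t := Real.tanh x
  set h := sech x
  set α := da.v x y t h
  set D := dD.v x y t h
  set r := (rt 24 da).v x y t h
  have hc := cross hG hD T.t0 T.t1 T.ysq T.h0 (by linarith [T.h1])
  have c1 := neg_abs_le (6 * t * y ^ 2 * (2 * (h ^ 2 * α) * D + D ^ 2))
  have c2 := neg_abs_le (2 * y ^ 4 * (3 * (h ^ 2 * α) ^ 2 * D + 3 * (h ^ 2 * α) * D ^ 2 + D ^ 3))
  have c3 : h ^ 2 * r ≤ h * (h * |r|) := by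
    have := mul_le_mul_of_nonneg_left (le_abs_self r) (sq_nonneg h)
    linarith
  have c4 := mul_le_mul_of_nonneg_left hM T.h0.le
  rw [mul_zero] at c4
  nlinarith [sq_nonneg h]

/-- The subsolution in the tail. -/
theorem tail_lo {x y : ℝ} (hr : Reg 24 x y) (hx : 16 ≤ x) : 0 ≤ RX 24 (sub (ga da) dD) x y := by
  have T := tail_of hr hx
  obtain ⟨hG, hD, -⟩ := Tail_GD T
  have hM := Tail_main T
  rw [rx_minus, ga_f]
  simp only [f_tail]
  rw [T.sq, ln_v]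
  set t := Real.tanh x
  set h := sech x
  set α := da.v x y t h
  set D := dD.v x y t h
  set r := (rt 24 da).v x y t h
  have hD' : |-D| ≤ h / 32 := by rwa [abs_neg]
  have hc := cross hG hD' T.t0 T.t1 T.ysq T.h0 (by linarith [T.h1])
  have c1 := le_abs_self (6 * t * y ^ 2 * (2 * (h ^ 2 * α) * -D + (-D) ^ 2))
  have c2 := le_abs_self (2 * y ^ 4 * (3 * (h ^ 2 * α) ^ 2 * -D + 3 * (h ^ 2 * α) * (-D) ^ 2 +
    (-D) ^ 3))
  have c3 : -(h * (h * |r|)) ≤ h ^ 2 * r := by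
    have := mul_le_mul_of_nonneg_left (neg_abs_le r) (sq_nonneg h)
    linarith
  have c4 := mul_le_mul_of_nonneg_left hM T.h0.le
  rw [mul_zero] at c4
  nlinarith [sq_nonneg h]

end Ex

end Pool.Agent.Saddle
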