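import Pool.Agent.Saddle.T4

/-!
# MP_d5c502_an, tails, part 5: the main expression as a quadratic polynomial in `y`
-/

set_option autoImplicit false

noncomputable section

namespace Pool.Agent.Saddle

namespace Ex

/-- The reduced divergence as an expression. -/
def co (k : ℚ) (P Q : Ex) : Ex :=
  add (add (mul (c (1 / 2)) (mul (ke k) P.ds))
      (mul (mul (c (-4)) (mul s (mul e e))) (add (mul (c 3) P) P.eu)))
    (add3 (mul (mul (c 2) s) Q.ds) (mul (mul (c (-1)) (ke k)) (add (mul (c 2) Q) Q.eu))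
      (mul (c 8) Q))

theorem co_f (k : ℚ) (P Q : Ex) (x y : ℝ) : (co k P Q).f x y = CX k P Q x y := by
  unfold co CX CO add3
  simp only [f, v, ke_v]
  push_cast
  ring

/-- The coefficient of `y ^ 0`. -/
def q0 (k : ℚ) (a P Q : Ex) : Ex :=
  add (add3 (mul (mul (c 6) t) (ga a))
      (mul (mul (c 3) (mul e e)) (mul (ga a) (ga a)))
      (add3 (mul (c (2 * k)) (mul t t)) (mul (c (-k)) (sub (c 1) (mul t t)))
        (add (mul (mul (c (-8)) s) t) (mul (mul (c (-8)) (mul s s)) (sub (c 1) (mul t t))))))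
    (add3 (add (co k P Q) (mul (mul (c (-2)) (ke k)) (mul t P)))
      (mul (mul (c (-8)) s) (mul t Q))
      (add (mul (mul (c (-1 / 2)) (ke k)) (add (mul (mul e e) (mul P P)) (mul Q Q)))
        (mul (mul (c (-4)) (mul s (mul e e))) (mul P Q))))

/-- The coefficient of `y ^ 1`. -/
def q1 (k : ℚ) (a P Q p q : Ex) : Ex :=
  add (add3 (mul (c 2) (ga a)) (add (mul (c (2 * k)) t) (mul (c (-8 / 3)) s))
      (mul (c (2 / 3)) (co k p q)))
    (add3 (mul (mul (c (-1)) (ke k)) (add P (mul (mul (c 2) t) p)))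
      (mul (mul (c (-4)) s) (add Q (mul (mul (c 2) t) q)))
      (add (mul (mul (c (-1)) (ke k)) (add (mul (mul e e) (mul P p)) (mul Q q)))
        (mul (mul (c (-4)) (mul s (mul e e))) (add (mul P q) (mul p Q)))))

/-- The coefficient of `y ^ 2`. -/
def q2 (k : ℚ) (p q : Ex) : Ex :=
  add (add3 (c (k / 2)) (mul (mul (c (-1)) (ke k)) p) (mul (mul (c (-4)) s) q))
    (add (mul (mul (c (-1 / 2)) (ke k)) (add (mul (mul e e) (mul p p)) (mul q q)))
      (mul (mul (c (-4)) (mul s (mul e e))) (mul p q)))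

theorem qx_eq (k : ℚ) (a P Q p q : Ex) (x y r : ℝ) : QX k a P Q p q x y r =
    (q0 k a P Q).f x y + r * (q1 k a P Q p q).f x y + r ^ 2 * (q2 k p q).f x y := by
  unfold QX QH
  rw [← co_f, ← co_f]
  unfold q0 q1 q2 add3
  simp only [f, v, ke_v, sub_v, ga]
  push_cast
  ring

/-- The limit of the coefficient of `(2 - y) ^ 2 / 2` as `tau -> -1`. -/
def AL (x y : ℝ) : ℝ := (1865607 / 1048576) + (-5577 / 524288) * y ^ 1 + (214756015 / 524288) * y ^ 2 + (16731 / 65536) * y ^ 3 + (194539767 / 65536) * y ^ 4 + (-7701 / 16384) * x ^ 1 + (3145059 / 524288) * x ^ 1 * y ^ 1 + (1160215 / 131072) * x ^ 1 * y ^ 2 + (-642183 / 131072) * x ^ 1 * y ^ 3 + (535395 / 4096) * x ^ 1 * y ^ 4 + (31 / 1024) * x ^ 2 + (-7766411 / 524288) * x ^ 2 * y ^ 1 + (-45403289 / 131072) * x ^ 2 * y ^ 2 + (780597 / 65536) * x ^ 2 * y ^ 3 + (-44206209 / 8192) * x ^ 2 * y ^ 4 + (55777 / 16384) * x ^ 3 * y ^ 1 + (556857 / 524288)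 * x ^ 3 * y ^ 2 + (-3000901 / 65536) * x ^ 3 * y ^ 3 + (-10712427 / 65536) * x ^ 3 * y ^ 4 + (64610495 / 1048576) * x ^ 4 * y ^ 2 + (13221859 / 131072) * x ^ 4 * y ^ 3 + (327732675 / 131072) * x ^ 4 * y ^ 4 + (-188717 / 8192) * x ^ 5 * y ^ 3

/-- The limit of the divergence term as `tau -> -1`. -/
def DE (x y : ℝ) : ℝ := (175 / 1024) + (-2535 / 512) * y ^ 1 + (-1053 / 128) * y ^ 2 + (-4563 / 64) * y ^ 3 + (1 / 32) * x ^ 1 + (3771 / 256) * x ^ 1 * y ^ 1 + (65997 / 128) * x ^ 1 * y ^ 2 + (3771 / 16) * x ^ 1 * y ^ 3 + (-2023 / 512) * x ^ 2 * y ^ 1 + (-307 / 32) * x ^ 2 * y ^ 2 + (-4335 / 64) * x ^ 2 * y ^ 3 + (3265 / 8) * x ^ 3 * y ^ 2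

/-- The limit of `q0` as `tau -> 1`. -/
def R0 (x y : ℝ) : ℝ := (27582271 / 32768) + (201611 / 65536) * y ^ 1 + (-19816584833 / 262144) * y ^ 2 + (-1275438297 / 262144) * y ^ 3 + (714463543559 / 524288) * y ^ 4 + (2874962475 / 32768) * y ^ 5 + (92574075 / 65536) * y ^ 6 + (-2137035 / 4096) * x ^ 1 + (819837 / 32768) * x ^ 1 * y ^ 1 + (12246780381 / 131072) * x ^ 1 * y ^ 2 + (-165870883 / 262144) * x ^ 1 * y ^ 3 + (-480143521551 / 262144) * x ^ 1 * y ^ 4 + (-3843668955 / 32768) * x ^ 1 * y ^ 5 + (-61577175 / 32768) * x ^ 1 * y ^ 6 + (180535 / 2048) * x ^ 2 + (-47845 / 16384) * x ^ 2 * y ^ 1 + (-3110424615 / 65536) * x ^ 2 * y ^ 2 + (1153807625 / 262144) * x ^ 2 * y ^ 3 + (469597947821 / 524288) * x ^ 2 * y ^ 4 + (8089061565 / 32768) * x ^ 2 * y ^ 5 + (460083825 / 65536) * x ^ 2 * y ^ 6 + (136947 / 4096) * x ^ 3 * y ^ 1 + (184589159 / 16384) * x ^ 3 * y ^ 2 + (-1470718971 / 262144) * x ^ 3 * y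 ^ 3 + (-3088467501 / 16384) * x ^ 3 * y ^ 4 + (3239106585 / 32768) * x ^ 3 * y ^ 5 + (28007745 / 8192) * x ^ 3 * y ^ 6 + (-132386613 / 131072) * x ^ 4 * y ^ 2 + (394505855 / 131072) * x ^ 4 * y ^ 3 + (7614931193 / 524288) * x ^ 4 * y ^ 4 + (-2287356381 / 16384) * x ^ 4 * y ^ 5 + (139913085 / 65536) * x ^ 4 * y ^ 6 + (-88013895 / 131072) * x ^ 5 * y ^ 3 + (155255463 / 262144) * x ^ 5 * y ^ 4 + (402325029 / 16384) * x ^ 5 * y ^ 5 + (569157075 / 32768) * x ^ 5 * y ^ 6 + (77984703 / 524288) * x ^ 6 * y ^ 4 + (682852707 / 65536) * x ^ 6 * y ^ 6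

theorem q0_left (x y w : ℝ) : (q0 24 da dP dQ).v (-x) y (-1) w = 2 * AL x y + DE x y := by
  unfold q0 co add3 AL DE
  simp only [ga, da, dP, dQ, dn, dm, db, dbe, sp, Ex.hp, List.map, t1, sub, ke, v, ds, de, eu]
  push_cast
  ring

theorem q1_left (x y w : ℝ) : (q1 24 da dP dQ dp dq).v (-x) y (-1) w =
    -2 * AL x y - DE x y / 3 := by
  unfold q1 co add3 AL DE
  simp only [ga, da, dP, dQ, dp, dq, dn, dm, db, dbe, dc, dga, sp, Ex.hp, List.map, t1, sub, ke,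
    v, ds, de, eu]
  push_cast
  ring

theorem q2_left (x y w : ℝ) : (q2 24 dp dq).v (-x) y (-1) w = AL x y / 2 := by
  unfold q2 add3 AL
  simp only [dp, dq, dn, dm, dc, dga, sp, Ex.hp, List.map, t1, ke, v]
  push_cast
  ring

theorem q0_right (x y w : ℝ) : (q0 24 da dP dQ).v x y 1 w = R0 x y := by
  unfold q0 co add3 R0
  simp only [ga, da, dP, dQ, dn, dm, db, dbe, sp, Ex.hp, List.map, t1, sub, ke, v, ds, de, eu]
  push_cast
  ring

end Ex

end Pool.Agent.Saddle
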