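import Pool.Agent.Saddle.Tab
import Pool.Agent.Saddle.Eng6

/-!
# Kernel checks of the table
-/

namespace Pool.Agent.Saddle.Eng

set_option maxRecDepth 100000

theorem tc0 : chainOK 512 64 T0 = true := by decide +kernel
theorem tw0 : lowOK 512 64 T0 = true := by decide +kernel
theorem tl0 : linkOK 512 T0 T1 = true := by decide +kernel
theorem tc1 : chainOK 512 64 T1 = true := by decide +kernel
theorem tw1 : lowOK 512 64 T1 = true := by decide +kernel
theorem tl1 : linkOK 512 T1 T2 = true := by decide +kernel
theorem tc2 : chainOK 512 64 T2 = true := by decide +kernel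
theorem tw2 : lowOK 512 64 T2 = true := by decide +kernel
theorem tl2 : linkOK 512 T2 T3 = true := by decide +kernel
theorem tc3 : chainOK 512 64 T3 = true := by decide +kernel
theorem tw3 : lowOK 512 64 T3 = true := by decide +kernel
theorem tl3 : linkOK 512 T3 T4 = true := by decide +kernel
theorem tc4 : chainOK 512 64 T4 = true := by decide +kernel
theorem tw4 : lowOK 512 64 T4 = true := by decide +kernel
theorem tl4 : linkOK 512 T4 T5 = true := by decide +kernel
theorem tc5 : chainOK 512 64 T5 = true := by decide +kernel
theorem tw5 : lowOK 512 64 T5 = true := by decide +kernel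
theorem tl5 : linkOK 512 T5 T6 = true := by decide +kernel
theorem tc6 : chainOK 512 64 T6 = true := by decide +kernel
theorem tw6 : lowOK 512 64 T6 = true := by decide +kernel
theorem tl6 : linkOK 512 T6 T7 = true := by decide +kernel
theorem tc7 : chainOK 512 64 T7 = true := by decide +kernel
theorem tw7 : lowOK 512 64 T7 = true := by decide +kernel
theorem tl7 : linkOK 512 T7 T8 = true := by decide +kernel
theorem tc8 : chainOK 512 64 T8 = true := by decide +kernel
theorem tw8 : lowOK 512 64 T8 = true := by decide +kernel
theorem tl8 : linkOK 512 T8 T9 = true := by decide +kernel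
theorem tc9 : chainOK 512 64 T9 = true := by decide +kernel
theorem tw9 : lowOK 512 64 T9 = true := by decide +kernel
theorem tl9 : linkOK 512 T9 T10 = true := by decide +kernel
theorem tc10 : chainOK 512 64 T10 = true := by decide +kernel
theorem tw10 : lowOK 512 64 T10 = true := by decide +kernel
theorem tl10 : linkOK 512 T10 T11 = true := by decide +kernel
theorem tc11 : chainOK 512 64 T11 = true := by decide +kernel
theorem tw11 : lowOK 512 64 T11 = true := by decide +kernel
theorem tl11 : linkOK 512 T11 T12 = true := by decide +kernel
theorem tc12 : chainOK 512 64 T12 = true := by decide +kernel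
theorem tw12 : lowOK 512 64 T12 = true := by decide +kernel
theorem tl12 : linkOK 512 T12 T13 = true := by decide +kernel
theorem tc13 : chainOK 512 64 T13 = true := by decide +kernel
theorem tw13 : lowOK 512 64 T13 = true := by decide +kernel
theorem tl13 : linkOK 512 T13 T14 = true := by decide +kernel
theorem tc14 : chainOK 512 64 T14 = true := by decide +kernel
theorem tw14 : lowOK 512 64 T14 = true := by decide +kernel
theorem tl14 : linkOK 512 T14 T15 = true := by decide +kernel
theorem tc15 : chainOK 512 64 T15 = true := by decide +kernel
theorem tw15 : lowOK 512 64 T15 = true := by decide +kernel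
theorem tl15 : linkOK 512 T15 T16 = true := by decide +kernel
theorem tc16 : chainOK 512 64 T16 = true := by decide +kernel
theorem tw16 : lowOK 512 64 T16 = true := by decide +kernel
theorem tl16 : linkOK 512 T16 T17 = true := by decide +kernel
theorem tc17 : chainOK 512 64 T17 = true := by decide +kernel
theorem tw17 : lowOK 512 64 T17 = true := by decide +kernel
theorem tl17 : linkOK 512 T17 T18 = true := by decide +kernel
theorem tc18 : chainOK 512 64 T18 = true := by decide +kernel
theorem tw18 : lowOK 512 64 T18 = true := by decide +kernel
theorem tl18 : linkOK 512 T18 T19 = true := by decide +kernel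
theorem tc19 : chainOK 512 64 T19 = true := by decide +kernel
theorem tw19 : lowOK 512 64 T19 = true := by decide +kernel
theorem tl19 : linkOK 512 T19 T20 = true := by decide +kernel
theorem tc20 : chainOK 512 64 T20 = true := by decide +kernel
theorem tw20 : lowOK 512 64 T20 = true := by decide +kernel
theorem tl20 : linkOK 512 T20 T21 = true := by decide +kernel
theorem tc21 : chainOK 512 64 T21 = true := by decide +kernel
theorem tw21 : lowOK 512 64 T21 = true := by decide +kernel
theorem tl21 : linkOK 512 T21 T22 = true := by decide +kernel
theorem tc22 : chainOK 512 64 T22 = true := by decide +kernel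
theorem tw22 : lowOK 512 64 T22 = true := by decide +kernel
theorem tl22 : linkOK 512 T22 T23 = true := by decide +kernel
theorem tc23 : chainOK 512 64 T23 = true := by decide +kernel
theorem tw23 : lowOK 512 64 T23 = true := by decide +kernel
theorem tl23 : linkOK 512 T23 T24 = true := by decide +kernel
theorem tc24 : chainOK 512 64 T24 = true := by decide +kernel
theorem tw24 : lowOK 512 64 T24 = true := by decide +kernel
theorem tl24 : linkOK 512 T24 T25 = true := by decide +kernel
theorem tc25 : chainOK 512 64 T25 = true := by decide +kernel
theorem tw25 : lowOK 512 64 T25 = true := by decide +kernel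
theorem tl25 : linkOK 512 T25 T26 = true := by decide +kernel
theorem tc26 : chainOK 512 64 T26 = true := by decide +kernel
theorem tw26 : lowOK 512 64 T26 = true := by decide +kernel
theorem tl26 : linkOK 512 T26 T27 = true := by decide +kernel
theorem tc27 : chainOK 512 64 T27 = true := by decide +kernel
theorem tw27 : lowOK 512 64 T27 = true := by decide +kernel
theorem tl27 : linkOK 512 T27 T28 = true := by decide +kernel
theorem tc28 : chainOK 512 64 T28 = true := by decide +kernel
theorem tw28 : lowOK 512 64 T28 = true := by decide +kernel
theorem tl28 : linkOK 512 T28 T29 = true := by decide +kernel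
theorem tc29 : chainOK 512 64 T29 = true := by decide +kernel
theorem tw29 : lowOK 512 64 T29 = true := by decide +kernel
theorem tl29 : linkOK 512 T29 T30 = true := by decide +kernel
theorem tc30 : chainOK 512 64 T30 = true := by decide +kernel
theorem tw30 : lowOK 512 64 T30 = true := by decide +kernel
theorem tl30 : linkOK 512 T30 T31 = true := by decide +kernel
theorem tc31 : chainOK 512 64 T31 = true := by decide +kernel
theorem tw31 : lowOK 512 64 T31 = true := by decide +kernel
theorem tl31 : linkOK 512 T31 T32 = true := by decide +kernel
theorem tc32 : chainOK 512 64 T32 = true := by decide +kernel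
theorem tw32 : lowOK 512 64 T32 = true := by decide +kernel
theorem tl32 : linkOK 512 T32 T33 = true := by decide +kernel
theorem tc33 : chainOK 512 64 T33 = true := by decide +kernel
theorem tw33 : lowOK 512 64 T33 = true := by decide +kernel
theorem tl33 : linkOK 512 T33 T34 = true := by decide +kernel
theorem tc34 : chainOK 512 64 T34 = true := by decide +kernel
theorem tw34 : lowOK 512 64 T34 = true := by decide +kernel
theorem tl34 : linkOK 512 T34 T35 = true := by decide +kernel
theorem tc35 : chainOK 512 64 T35 = true := by decide +kernel
theorem tw35 : lowOK 512 64 T35 = true := by decide +kernel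
theorem tl35 : linkOK 512 T35 T36 = true := by decide +kernel
theorem tc36 : chainOK 512 64 T36 = true := by decide +kernel
theorem tw36 : lowOK 512 64 T36 = true := by decide +kernel
theorem tl36 : linkOK 512 T36 T37 = true := by decide +kernel
theorem tc37 : chainOK 512 64 T37 = true := by decide +kernel
theorem tw37 : lowOK 512 64 T37 = true := by decide +kernel
theorem tl37 : linkOK 512 T37 T38 = true := by decide +kernel
theorem tc38 : chainOK 512 64 T38 = true := by decide +kernel
theorem tw38 : lowOK 512 64 T38 = true := by decide +kernel
theorem tl38 : linkOK 512 T38 T39 = true := by decide +kernel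
theorem tc39 : chainOK 512 64 T39 = true := by decide +kernel
theorem tw39 : lowOK 512 64 T39 = true := by decide +kernel
theorem tl39 : linkOK 512 T39 T40 = true := by decide +kernel
theorem tc40 : chainOK 512 64 T40 = true := by decide +kernel
theorem tw40 : lowOK 512 64 T40 = true := by decide +kernel
theorem tl40 : linkOK 512 T40 T41 = true := by decide +kernel
theorem tc41 : chainOK 512 64 T41 = true := by decide +kernel
theorem tw41 : lowOK 512 64 T41 = true := by decide +kernel
theorem tl41 : linkOK 512 T41 T42 = true := by decide +kernel
theorem tc42 : chainOK 512 64 T42 = true := by decide +kernel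
theorem tw42 : lowOK 512 64 T42 = true := by decide +kernel
theorem tl42 : linkOK 512 T42 T43 = true := by decide +kernel
theorem tc43 : chainOK 512 64 T43 = true := by decide +kernel
theorem tw43 : lowOK 512 64 T43 = true := by decide +kernel
theorem tl43 : linkOK 512 T43 T44 = true := by decide +kernel
theorem tc44 : chainOK 512 64 T44 = true := by decide +kernel
theorem tw44 : lowOK 512 64 T44 = true := by decide +kernel
theorem tl44 : linkOK 512 T44 T45 = true := by decide +kernel
theorem tc45 : chainOK 512 64 T45 = true := by decide +kernel
theorem tw45 : lowOK 512 64 T45 = true := by decide +kernel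
theorem tl45 : linkOK 512 T45 T46 = true := by decide +kernel
theorem tc46 : chainOK 512 64 T46 = true := by decide +kernel
theorem tw46 : lowOK 512 64 T46 = true := by decide +kernel
theorem tl46 : linkOK 512 T46 T47 = true := by decide +kernel
theorem tc47 : chainOK 512 64 T47 = true := by decide +kernel
theorem tw47 : lowOK 512 64 T47 = true := by decide +kernel
theorem tl47 : linkOK 512 T47 T48 = true := by decide +kernel
theorem tc48 : chainOK 512 64 T48 = true := by decide +kernel
theorem tw48 : lowOK 512 64 T48 = true := by decide +kernel
theorem tl48 : linkOK 512 T48 T49 = true := by decide +kernel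
theorem tc49 : chainOK 512 64 T49 = true := by decide +kernel
theorem tw49 : lowOK 512 64 T49 = true := by decide +kernel
theorem tl49 : linkOK 512 T49 T50 = true := by decide +kernel
theorem tc50 : chainOK 512 64 T50 = true := by decide +kernel
theorem tw50 : lowOK 512 64 T50 = true := by decide +kernel
theorem tl50 : linkOK 512 T50 T51 = true := by decide +kernel
theorem tc51 : chainOK 512 64 T51 = true := by decide +kernel
theorem tw51 : lowOK 512 64 T51 = true := by decide +kernel
theorem tl51 : linkOK 512 T51 T52 = true := by decide +kernel
theorem tc52 : chainOK 512 64 T52 = true := by decide +kernel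
theorem tw52 : lowOK 512 64 T52 = true := by decide +kernel
theorem tl52 : linkOK 512 T52 T53 = true := by decide +kernel
theorem tc53 : chainOK 512 64 T53 = true := by decide +kernel
theorem tw53 : lowOK 512 64 T53 = true := by decide +kernel
theorem tl53 : linkOK 512 T53 T54 = true := by decide +kernel
theorem tc54 : chainOK 512 64 T54 = true := by decide +kernel
theorem tw54 : lowOK 512 64 T54 = true := by decide +kernel
theorem tl54 : linkOK 512 T54 T55 = true := by decide +kernel
theorem tc55 : chainOK 512 64 T55 = true := by decide +kernel
theorem tw55 : lowOK 512 64 T55 = true := by decide +kernel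
theorem tl55 : linkOK 512 T55 T56 = true := by decide +kernel
theorem tc56 : chainOK 512 64 T56 = true := by decide +kernel
theorem tw56 : lowOK 512 64 T56 = true := by decide +kernel
theorem tl56 : linkOK 512 T56 T57 = true := by decide +kernel
theorem tc57 : chainOK 512 64 T57 = true := by decide +kernel
theorem tw57 : lowOK 512 64 T57 = true := by decide +kernel
theorem tl57 : linkOK 512 T57 T58 = true := by decide +kernel
theorem tc58 : chainOK 512 64 T58 = true := by decide +kernel
theorem tw58 : lowOK 512 64 T58 = true := by decide +kernel
theorem tl58 : linkOK 512 T58 T59 = true := by decide +kernel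
theorem tc59 : chainOK 512 64 T59 = true := by decide +kernel
theorem tw59 : lowOK 512 64 T59 = true := by decide +kernel
theorem tl59 : linkOK 512 T59 T60 = true := by decide +kernel
theorem tc60 : chainOK 512 64 T60 = true := by decide +kernel
theorem tw60 : lowOK 512 64 T60 = true := by decide +kernel
theorem tl60 : linkOK 512 T60 T61 = true := by decide +kernel
theorem tc61 : chainOK 512 64 T61 = true := by decide +kernel
theorem tw61 : lowOK 512 64 T61 = true := by decide +kernel
theorem tl61 : linkOK 512 T61 T62 = true := by decide +kernel
theorem tc62 : chainOK 512 64 T62 = true := by decide +kernel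
theorem tw62 : lowOK 512 64 T62 = true := by decide +kernel
theorem tl62 : linkOK 512 T62 T63 = true := by decide +kernel
theorem tc63 : chainOK 512 64 T63 = true := by decide +kernel
theorem tw63 : lowOK 512 64 T63 = true := by decide +kernel
theorem tl63 : linkOK 512 T63 T64 = true := by decide +kernel
theorem tc64 : chainOK 512 64 T64 = true := by decide +kernel
theorem tw64 : lowOK 512 64 T64 = true := by decide +kernel
theorem tl64 : linkOK 512 T64 T65 = true := by decide +kernel
theorem tc65 : chainOK 512 64 T65 = true := by decide +kernel
theorem tw65 : lowOK 512 64 T65 = true := by decide +kernel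
theorem tl65 : linkOK 512 T65 T66 = true := by decide +kernel
theorem tc66 : chainOK 512 64 T66 = true := by decide +kernel
theorem tw66 : lowOK 512 64 T66 = true := by decide +kernel
theorem tl66 : linkOK 512 T66 T67 = true := by decide +kernel
theorem tc67 : chainOK 512 64 T67 = true := by decide +kernel
theorem tw67 : lowOK 512 64 T67 = true := by decide +kernel
theorem tl67 : linkOK 512 T67 T68 = true := by decide +kernel
theorem tc68 : chainOK 512 64 T68 = true := by decide +kernel
theorem tw68 : lowOK 512 64 T68 = true := by decide +kernel
theorem tl68 : linkOK 512 T68 T69 = true := by decide +kernel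
theorem tc69 : chainOK 512 64 T69 = true := by decide +kernel
theorem tw69 : lowOK 512 64 T69 = true := by decide +kernel
theorem tl69 : linkOK 512 T69 T70 = true := by decide +kernel
theorem tc70 : chainOK 512 64 T70 = true := by decide +kernel
theorem tw70 : lowOK 512 64 T70 = true := by decide +kernel
theorem tl70 : linkOK 512 T70 T71 = true := by decide +kernel
theorem tc71 : chainOK 512 64 T71 = true := by decide +kernel
theorem tw71 : lowOK 512 64 T71 = true := by decide +kernel
theorem tl71 : linkOK 512 T71 T72 = true := by decide +kernel
theorem tc72 : chainOK 512 64 T72 = true := by decide +kernel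
theorem tw72 : lowOK 512 64 T72 = true := by decide +kernel
theorem tl72 : linkOK 512 T72 T73 = true := by decide +kernel
theorem tc73 : chainOK 512 64 T73 = true := by decide +kernel
theorem tw73 : lowOK 512 64 T73 = true := by decide +kernel
theorem tl73 : linkOK 512 T73 T74 = true := by decide +kernel
theorem tc74 : chainOK 512 64 T74 = true := by decide +kernel
theorem tw74 : lowOK 512 64 T74 = true := by decide +kernel
theorem tl74 : linkOK 512 T74 T75 = true := by decide +kernel
theorem tc75 : chainOK 512 64 T75 = true := by decide +kernel
theorem tw75 : lowOK 512 64 T75 = true := by decide +kernel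
theorem tl75 : linkOK 512 T75 T76 = true := by decide +kernel
theorem tc76 : chainOK 512 64 T76 = true := by decide +kernel
theorem tw76 : lowOK 512 64 T76 = true := by decide +kernel
theorem tl76 : linkOK 512 T76 T77 = true := by decide +kernel
theorem tc77 : chainOK 512 64 T77 = true := by decide +kernel
theorem tw77 : lowOK 512 64 T77 = true := by decide +kernel
theorem tl77 : linkOK 512 T77 T78 = true := by decide +kernel
theorem tc78 : chainOK 512 64 T78 = true := by decide +kernel
theorem tw78 : lowOK 512 64 T78 = true := by decide +kernel
theorem tl78 : linkOK 512 T78 T79 = true := by decide +kernel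
theorem tc79 : chainOK 512 64 T79 = true := by decide +kernel
theorem tw79 : lowOK 512 64 T79 = true := by decide +kernel
theorem tl79 : linkOK 512 T79 T80 = true := by decide +kernel
theorem tc80 : chainOK 512 64 T80 = true := by decide +kernel
theorem tw80 : lowOK 512 64 T80 = true := by decide +kernel
theorem tl80 : linkOK 512 T80 T81 = true := by decide +kernel
theorem tc81 : chainOK 512 64 T81 = true := by decide +kernel
theorem tw81 : lowOK 512 64 T81 = true := by decide +kernel
theorem tl81 : linkOK 512 T81 T82 = true := by decide +kernel
theorem tc82 : chainOK 512 64 T82 = true := by decide +kernel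
theorem tw82 : lowOK 512 64 T82 = true := by decide +kernel
theorem tl82 : linkOK 512 T82 T83 = true := by decide +kernel
theorem tc83 : chainOK 512 64 T83 = true := by decide +kernel
theorem tw83 : lowOK 512 64 T83 = true := by decide +kernel
theorem tl83 : linkOK 512 T83 T84 = true := by decide +kernel
theorem tc84 : chainOK 512 64 T84 = true := by decide +kernel
theorem tw84 : lowOK 512 64 T84 = true := by decide +kernel
theorem tl84 : linkOK 512 T84 T85 = true := by decide +kernel
theorem tc85 : chainOK 512 64 T85 = true := by decide +kernel
theorem tw85 : lowOK 512 64 T85 = true := by decide +kernel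
theorem tl85 : linkOK 512 T85 T86 = true := by decide +kernel
theorem tc86 : chainOK 512 64 T86 = true := by decide +kernel
theorem tw86 : lowOK 512 64 T86 = true := by decide +kernel
theorem tl86 : linkOK 512 T86 T87 = true := by decide +kernel
theorem tc87 : chainOK 512 64 T87 = true := by decide +kernel
theorem tw87 : lowOK 512 64 T87 = true := by decide +kernel
theorem tl87 : linkOK 512 T87 T88 = true := by decide +kernel
theorem tc88 : chainOK 512 64 T88 = true := by decide +kernel
theorem tw88 : lowOK 512 64 T88 = true := by decide +kernel
theorem tl88 : linkOK 512 T88 T89 = true := by decide +kernel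
theorem tc89 : chainOK 512 64 T89 = true := by decide +kernel
theorem tw89 : lowOK 512 64 T89 = true := by decide +kernel
theorem tl89 : linkOK 512 T89 T90 = true := by decide +kernel
theorem tc90 : chainOK 512 64 T90 = true := by decide +kernel
theorem tw90 : lowOK 512 64 T90 = true := by decide +kernel
theorem tl90 : linkOK 512 T90 T91 = true := by decide +kernel
theorem tc91 : chainOK 512 64 T91 = true := by decide +kernel
theorem tw91 : lowOK 512 64 T91 = true := by decide +kernel
theorem tl91 : linkOK 512 T91 T92 = true := by decide +kernel
theorem tc92 : chainOK 512 64 T92 = true := by decide +kernel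
theorem tw92 : lowOK 512 64 T92 = true := by decide +kernel
theorem tl92 : linkOK 512 T92 T93 = true := by decide +kernel
theorem tc93 : chainOK 512 64 T93 = true := by decide +kernel
theorem tw93 : lowOK 512 64 T93 = true := by decide +kernel
theorem tl93 : linkOK 512 T93 T94 = true := by decide +kernel
theorem tc94 : chainOK 512 64 T94 = true := by decide +kernel
theorem tw94 : lowOK 512 64 T94 = true := by decide +kernel
theorem tl94 : linkOK 512 T94 T95 = true := by decide +kernel
theorem tc95 : chainOK 512 64 T95 = true := by decide +kernel
theorem tw95 : lowOK 512 64 T95 = true := by decide +kernel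

theorem ch0 : Chn T0 := chn_first rfl rfl rfl tc0
theorem ch1 : Chn T1 := ch0.next tl0 tc1
theorem ch2 : Chn T2 := ch1.next tl1 tc2
theorem ch3 : Chn T3 := ch2.next tl2 tc3
theorem ch4 : Chn T4 := ch3.next tl3 tc4
theorem ch5 : Chn T5 := ch4.next tl4 tc5
theorem ch6 : Chn T6 := ch5.next tl5 tc6
theorem ch7 : Chn T7 := ch6.next tl6 tc7
theorem ch8 : Chn T8 := ch7.next tl7 tc8
theorem ch9 : Chn T9 := ch8.next tl8 tc9
theorem ch10 : Chn T10 := ch9.next tl9 tc10
theorem ch11 : Chn T11 := ch10.next tl10 tc11
theorem ch12 : Chn T12 := ch11.next tl11 tc12
theorem ch13 : Chn T13 := ch12.next tl12 tc13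
theorem ch14 : Chn T14 := ch13.next tl13 tc14
theorem ch15 : Chn T15 := ch14.next tl14 tc15
theorem ch16 : Chn T16 := ch15.next tl15 tc16
theorem ch17 : Chn T17 := ch16.next tl16 tc17
theorem ch18 : Chn T18 := ch17.next tl17 tc18
theorem ch19 : Chn T19 := ch18.next tl18 tc19
theorem ch20 : Chn T20 := ch19.next tl19 tc20
theorem ch21 : Chn T21 := ch20.next tl20 tc21
theorem ch22 : Chn T22 := ch21.next tl21 tc22
theorem ch23 : Chn T23 := ch22.next tl22 tc23
theorem ch24 : Chn T24 := ch23.next tl23 tc24
theorem ch25 : Chn T25 := ch24.next tl24 tc25
theorem ch26 : Chn T26 := ch25.next tl25 tc26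
theorem ch27 : Chn T27 := ch26.next tl26 tc27
theorem ch28 : Chn T28 := ch27.next tl27 tc28
theorem ch29 : Chn T29 := ch28.next tl28 tc29
theorem ch30 : Chn T30 := ch29.next tl29 tc30
theorem ch31 : Chn T31 := ch30.next tl30 tc31
theorem ch32 : Chn T32 := ch31.next tl31 tc32
theorem ch33 : Chn T33 := ch32.next tl32 tc33
theorem ch34 : Chn T34 := ch33.next tl33 tc34
theorem ch35 : Chn T35 := ch34.next tl34 tc35
theorem ch36 : Chn T36 := ch35.next tl35 tc36
theorem ch37 : Chn T37 := ch36.next tl36 tc37
theorem ch38 : Chn T38 := ch37.next tl37 tc38
theorem ch39 : Chn T39 := ch38.next tl38 tc39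
theorem ch40 : Chn T40 := ch39.next tl39 tc40
theorem ch41 : Chn T41 := ch40.next tl40 tc41
theorem ch42 : Chn T42 := ch41.next tl41 tc42
theorem ch43 : Chn T43 := ch42.next tl42 tc43
theorem ch44 : Chn T44 := ch43.next tl43 tc44
theorem ch45 : Chn T45 := ch44.next tl44 tc45
theorem ch46 : Chn T46 := ch45.next tl45 tc46
theorem ch47 : Chn T47 := ch46.next tl46 tc47
theorem ch48 : Chn T48 := ch47.next tl47 tc48
theorem ch49 : Chn T49 := ch48.next tl48 tc49
theorem ch50 : Chn T50 := ch49.next tl49 tc50
theorem ch51 : Chn T51 := ch50.next tl50 tc51
theorem ch52 : Chn T52 := ch51.next tl51 tc52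
theorem ch53 : Chn T53 := ch52.next tl52 tc53
theorem ch54 : Chn T54 := ch53.next tl53 tc54
theorem ch55 : Chn T55 := ch54.next tl54 tc55
theorem ch56 : Chn T56 := ch55.next tl55 tc56
theorem ch57 : Chn T57 := ch56.next tl56 tc57
theorem ch58 : Chn T58 := ch57.next tl57 tc58
theorem ch59 : Chn T59 := ch58.next tl58 tc59
theorem ch60 : Chn T60 := ch59.next tl59 tc60
theorem ch61 : Chn T61 := ch60.next tl60 tc61
theorem ch62 : Chn T62 := ch61.next tl61 tc62
theorem ch63 : Chn T63 := ch62.next tl62 tc63
theorem ch64 : Chn T64 := ch63.next tl63 tc64
theorem ch65 : Chn T65 := ch64.next tl64 tc65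
theorem ch66 : Chn T66 := ch65.next tl65 tc66
theorem ch67 : Chn T67 := ch66.next tl66 tc67
theorem ch68 : Chn T68 := ch67.next tl67 tc68
theorem ch69 : Chn T69 := ch68.next tl68 tc69
theorem ch70 : Chn T70 := ch69.next tl69 tc70
theorem ch71 : Chn T71 := ch70.next tl70 tc71
theorem ch72 : Chn T72 := ch71.next tl71 tc72
theorem ch73 : Chn T73 := ch72.next tl72 tc73
theorem ch74 : Chn T74 := ch73.next tl73 tc74
theorem ch75 : Chn T75 := ch74.next tl74 tc75
theorem ch76 : Chn T76 := ch75.next tl75 tc76
theorem ch77 : Chn T77 := ch76.next tl76 tc77
theorem ch78 : Chn T78 := ch77.next tl77 tc78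
theorem ch79 : Chn T79 := ch78.next tl78 tc79
theorem ch80 : Chn T80 := ch79.next tl79 tc80
theorem ch81 : Chn T81 := ch80.next tl80 tc81
theorem ch82 : Chn T82 := ch81.next tl81 tc82
theorem ch83 : Chn T83 := ch82.next tl82 tc83
theorem ch84 : Chn T84 := ch83.next tl83 tc84
theorem ch85 : Chn T85 := ch84.next tl84 tc85
theorem ch86 : Chn T86 := ch85.next tl85 tc86
theorem ch87 : Chn T87 := ch86.next tl86 tc87
theorem ch88 : Chn T88 := ch87.next tl87 tc88
theorem ch89 : Chn T89 := ch88.next tl88 tc89
theorem ch90 : Chn T90 := ch89.next tl89 tc90
theorem ch91 : Chn T91 := ch90.next tl90 tc91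
theorem ch92 : Chn T92 := ch91.next tl91 tc92
theorem ch93 : Chn T93 := ch92.next tl92 tc93
theorem ch94 : Chn T94 := ch93.next tl93 tc94
theorem ch95 : Chn T95 := ch94.next tl94 tc95
theorem gd0 : Good T0 := ch0.good tw0
theorem gd1 : Good T1 := ch1.good tw1
theorem gd2 : Good T2 := ch2.good tw2
theorem gd3 : Good T3 := ch3.good tw3
theorem gd4 : Good T4 := ch4.good tw4
theorem gd5 : Good T5 := ch5.good tw5
theorem gd6 : Good T6 := ch6.good tw6
theorem gd7 : Good T7 := ch7.good tw7
theorem gd8 : Good T8 := ch8.good tw8
theorem gd9 : Good T9 := ch9.good tw9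
theorem gd10 : Good T10 := ch10.good tw10
theorem gd11 : Good T11 := ch11.good tw11
theorem gd12 : Good T12 := ch12.good tw12
theorem gd13 : Good T13 := ch13.good tw13
theorem gd14 : Good T14 := ch14.good tw14
theorem gd15 : Good T15 := ch15.good tw15
theorem gd16 : Good T16 := ch16.good tw16
theorem gd17 : Good T17 := ch17.good tw17
theorem gd18 : Good T18 := ch18.good tw18
theorem gd19 : Good T19 := ch19.good tw19
theorem gd20 : Good T20 := ch20.good tw20
theorem gd21 : Good T21 := ch21.good tw21
theorem gd22 : Good T22 := ch22.good tw22
theorem gd23 : Good T23 := ch23.good tw23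
theorem gd24 : Good T24 := ch24.good tw24
theorem gd25 : Good T25 := ch25.good tw25
theorem gd26 : Good T26 := ch26.good tw26
theorem gd27 : Good T27 := ch27.good tw27
theorem gd28 : Good T28 := ch28.good tw28
theorem gd29 : Good T29 := ch29.good tw29
theorem gd30 : Good T30 := ch30.good tw30
theorem gd31 : Good T31 := ch31.good tw31
theorem gd32 : Good T32 := ch32.good tw32
theorem gd33 : Good T33 := ch33.good tw33
theorem gd34 : Good T34 := ch34.good tw34
theorem gd35 : Good T35 := ch35.good tw35
theorem gd36 : Good T36 := ch36.good tw36
theorem gd37 : Good T37 := ch37.good tw37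
theorem gd38 : Good T38 := ch38.good tw38
theorem gd39 : Good T39 := ch39.good tw39
theorem gd40 : Good T40 := ch40.good tw40
theorem gd41 : Good T41 := ch41.good tw41
theorem gd42 : Good T42 := ch42.good tw42
theorem gd43 : Good T43 := ch43.good tw43
theorem gd44 : Good T44 := ch44.good tw44
theorem gd45 : Good T45 := ch45.good tw45
theorem gd46 : Good T46 := ch46.good tw46
theorem gd47 : Good T47 := ch47.good tw47
theorem gd48 : Good T48 := ch48.good tw48
theorem gd49 : Good T49 := ch49.good tw49
theorem gd50 : Good T50 := ch50.good tw50
theorem gd51 : Good T51 := ch51.good tw51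
theorem gd52 : Good T52 := ch52.good tw52
theorem gd53 : Good T53 := ch53.good tw53
theorem gd54 : Good T54 := ch54.good tw54
theorem gd55 : Good T55 := ch55.good tw55
theorem gd56 : Good T56 := ch56.good tw56
theorem gd57 : Good T57 := ch57.good tw57
theorem gd58 : Good T58 := ch58.good tw58
theorem gd59 : Good T59 := ch59.good tw59
theorem gd60 : Good T60 := ch60.good tw60
theorem gd61 : Good T61 := ch61.good tw61
theorem gd62 : Good T62 := ch62.good tw62
theorem gd63 : Good T63 := ch63.good tw63
theorem gd64 : Good T64 := ch64.good tw64
theorem gd65 : Good T65 := ch65.good tw65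
theorem gd66 : Good T66 := ch66.good tw66
theorem gd67 : Good T67 := ch67.good tw67
theorem gd68 : Good T68 := ch68.good tw68
theorem gd69 : Good T69 := ch69.good tw69
theorem gd70 : Good T70 := ch70.good tw70
theorem gd71 : Good T71 := ch71.good tw71
theorem gd72 : Good T72 := ch72.good tw72
theorem gd73 : Good T73 := ch73.good tw73
theorem gd74 : Good T74 := ch74.good tw74
theorem gd75 : Good T75 := ch75.good tw75
theorem gd76 : Good T76 := ch76.good tw76
theorem gd77 : Good T77 := ch77.good tw77
theorem gd78 : Good T78 := ch78.good tw78
theorem gd79 : Good T79 := ch79.good tw79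
theorem gd80 : Good T80 := ch80.good tw80
theorem gd81 : Good T81 := ch81.good tw81
theorem gd82 : Good T82 := ch82.good tw82
theorem gd83 : Good T83 := ch83.good tw83
theorem gd84 : Good T84 := ch84.good tw84
theorem gd85 : Good T85 := ch85.good tw85
theorem gd86 : Good T86 := ch86.good tw86
theorem gd87 : Good T87 := ch87.good tw87
theorem gd88 : Good T88 := ch88.good tw88
theorem gd89 : Good T89 := ch89.good tw89
theorem gd90 : Good T90 := ch90.good tw90
theorem gd91 : Good T91 := ch91.good tw91
theorem gd92 : Good T92 := ch92.good tw92
theorem gd93 : Good T93 := ch93.good tw93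
theorem gd94 : Good T94 := ch94.good tw94
theorem gd95 : Good T95 := ch95.good tw95

/-- the list of cells -/
def cells : List Cell := [T0, T1, T2, T3, T4, T5, T6, T7, T8, T9, T10, T11, T12, T13, T14, T15,
  T16, T17, T18, T19, T20, T21, T22, T23, T24, T25, T26, T27, T28, T29, T30, T31, T32, T33, T34,
  T35, T36, T37, T38, T39, T40, T41, T42, T43, T44, T45, T46, T47, T48, T49, T50, T51, T52, T53,
  T54, T55, T56, T57, T58, T59, T60, T61, T62, T63, T64, T65, T66, T67, T68, T69, T70, T71, T72,
  T73, T74, T75, T76, T77, T78, T79, T80, T81, T82, T83, T84, T85, T86, T87, T88, T89, T90, T91,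
  T92, T93, T94, T95]

theorem cells_cover {x : ℝ} (h0 : 0 ≤ x) (h1 : x < 16) : ∃ C ∈ cells, C.l ≤ x ∧ x < C.r := by
  refine cover 1024 cells 0 (by decide +kernel) ?_ ?_
  · norm_num
    exact h0
  · norm_num
    exact h1

end Pool.Agent.Saddle.Eng
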